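import Mathlib

/-! Module CI-SM1: integer points in the image of a lower dimensional space are few. -/

namespace CIHP

open Finset Filter Topology

private theorem ad_zeros {I : Type} [Fintype I] [DecidableEq I] (P : MvPolynomial I ℤ)
    (hP : P ≠ 0) (H : ℕ) :
    (Set.ncard {A : I → ℤ | (∀ i, |A i| ≤ H) ∧ MvPolynomial.eval A P = 0} : ℝ) ≤
      (P.totalDegree / (2 * H + 1)) * (2 * (H : ℝ) + 1) ^ Fintype.card I := by
  classical
  obtain ⟨e⟩ : Nonempty (I ≃ Fin (Fintype.card I)) := ⟨Fintype.equivFin I⟩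
  obtain ⟨S, hS⟩ : ∃ S : Finset ℤ, S = Finset.Icc (-(H : ℤ)) H := ⟨_, rfl⟩
  have hScard : S.card = 2 * H + 1 := by
    rw [hS, Int.card_Icc]
    omega
  obtain ⟨Q, hQ⟩ : ∃ Q : MvPolynomial (Fin (Fintype.card I)) ℤ, Q = MvPolynomial.rename e P :=
    ⟨_, rfl⟩
  have hQ0 : Q ≠ 0 := by
    rw [hQ]
    intro h
    exact hP (MvPolynomial.rename_injective e e.injective (by rw [h, map_zero]))
  have hdeg : Q.totalDegree ≤ P.totalDegree := by
    rw [hQ]
    exact MvPolynomial.totalDegree_rename_le _ _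
  have h1 := MvPolynomial.schwartz_zippel_totalDegree hQ0 S
  obtain ⟨N, hN⟩ : ∃ N : ℕ, N = #{f ∈ Fintype.piFinset fun _ => S | MvPolynomial.eval f Q = 0} :=
    ⟨_, rfl⟩
  rw [← hN, hScard] at h1
  have h2 : (N : ℝ) / ((2 * H + 1 : ℕ) : ℝ) ^ Fintype.card I ≤
      (Q.totalDegree : ℝ) / ((2 * H + 1 : ℕ) : ℝ) := by
    have h2 := (NNRat.cast_le (K := ℝ)).2 h1
    push_cast at h2 ⊢
    exact h2
  have hpos : (0 : ℝ) < ((2 * H + 1 : ℕ) : ℝ) := by positivity
  have h3 : Set.ncard {A : I → ℤ | (∀ i, |A i| ≤ H) ∧ MvPolynomial.eval A P = 0} ≤ N := by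
    rw [hN, ← Set.ncard_coe_finset]
    refine Set.ncard_le_ncard_of_injOn (fun A => fun j => A (e.symm j)) ?_ ?_
      (Finset.finite_toSet _)
    · rintro A ⟨hA1, hA2⟩
      rw [Finset.mem_coe, Finset.mem_filter, Fintype.mem_piFinset]
      refine ⟨fun j => ?_, ?_⟩
      · rw [hS, Finset.mem_Icc]
        exact abs_le.1 (hA1 _)
      · rw [hQ, MvPolynomial.eval_rename]
        have : (fun j => A (e.symm j)) ∘ e = A := by
          funext i
          simp
        rw [this]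
        exact hA2
    · intro A _ A' _ h
      funext i
      have := congrFun h (e i)
      simpa using this
  calc (Set.ncard {A : I → ℤ | (∀ i, |A i| ≤ H) ∧ MvPolynomial.eval A P = 0} : ℝ) ≤ N := by
        exact_mod_cast h3
    _ ≤ ((Q.totalDegree : ℝ) / ((2 * H + 1 : ℕ) : ℝ)) *
        ((2 * H + 1 : ℕ) : ℝ) ^ Fintype.card I := by
        rwa [div_le_iff₀ (by positivity)] at h2
    _ ≤ (P.totalDegree / (2 * H + 1)) * (2 * (H : ℝ) + 1) ^ Fintype.card I := by
        push_cast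
        gcongr

/-- CI-SM1 (AlgDep.lean): integer points in the image of a lower dimensional space are few -/
theorem few_in_image {I K : Type} [Fintype I] [DecidableEq I] [Fintype K] [DecidableEq K]
    (hc : Fintype.card K < Fintype.card I) (psi : I → MvPolynomial K ℤ) (eps : ℝ) (he : 0 < eps) :
    ∀ᶠ H : ℕ in atTop,
      (Set.ncard {A : I → ℤ | (∀ i, |A i| ≤ H) ∧ ∃ z : K → ℂ, ∀ i,
        MvPolynomial.aeval z (psi i) = (A i : ℂ)} : ℝ) ≤ eps * (2 * H + 1) ^ Fintype.card I := by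
  classical
  have hdep : ¬ AlgebraicIndependent ℤ psi := by
    intro h
    have h1 := h.cardinalMk_le_trdeg
    rw [MvPolynomial.trdeg_of_isDomain, Cardinal.lift_id] at h1
    have h2 : Fintype.card I ≤ Fintype.card K := by simpa using h1
    omega
  rw [algebraicIndependent_iff] at hdep
  push Not at hdep
  obtain ⟨P, hP, hP0⟩ := hdep
  filter_upwards [eventually_ge_atTop ⌈(P.totalDegree : ℝ) / eps⌉₊] with H hH
  have hsub : {A : I → ℤ | (∀ i, |A i| ≤ H) ∧ ∃ z : K → ℂ, ∀ i,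
      MvPolynomial.aeval z (psi i) = (A i : ℂ)} ⊆
      {A : I → ℤ | (∀ i, |A i| ≤ H) ∧ MvPolynomial.eval A P = 0} := by
    rintro A ⟨hA1, z, hz⟩
    refine ⟨hA1, ?_⟩
    have h1 : MvPolynomial.aeval (fun i => (A i : ℂ)) P = 0 := by
      have h2 : (MvPolynomial.aeval (fun i => (A i : ℂ)) : MvPolynomial I ℤ →ₐ[ℤ] ℂ) =
          (MvPolynomial.aeval z).comp (MvPolynomial.aeval psi) := by
        refine MvPolynomial.algHom_ext fun i => ?_
        rw [AlgHom.comp_apply, MvPolynomial.aeval_X, MvPolynomial.aeval_X, hz]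
      rw [h2, AlgHom.comp_apply, hP, map_zero]
    have h3 : ((MvPolynomial.eval A P : ℤ) : ℂ) = 0 := by
      rw [← h1]
      have h4 := MvPolynomial.aeval_algebraMap_apply (R := ℤ) (A := ℤ) ℂ A P
      have h5 : MvPolynomial.aeval A P = MvPolynomial.eval A P := by
        rw [← MvPolynomial.coe_aeval_eq_eval]
        rfl
      rw [h5] at h4
      exact h4.symm
    exact_mod_cast h3
  have hfin : {A : I → ℤ | (∀ i, |A i| ≤ H) ∧ MvPolynomial.eval A P = 0}.Finite := by
    refine (Set.Finite.pi' (fun _ : I => Set.finite_Icc (-(H : ℤ)) H)).subset ?_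
    rintro A ⟨hA1, _⟩ i
    exact abs_le.1 (hA1 i)
  have h1 := Set.ncard_le_ncard hsub hfin
  have h2 := ad_zeros P hP0 H
  have h3 : (P.totalDegree : ℝ) / (2 * H + 1) ≤ eps := by
    rw [div_le_iff₀ (by positivity)]
    have h4 : (P.totalDegree : ℝ) / eps ≤ H := (Nat.le_ceil _).trans (by exact_mod_cast hH)
    rw [div_le_iff₀ he] at h4
    nlinarith [Nat.cast_nonneg (α := ℝ) H]
  calc (Set.ncard {A : I → ℤ | (∀ i, |A i| ≤ H) ∧ ∃ z : K → ℂ, ∀ i,
        MvPolynomial.aeval z (psi i) = (A i : ℂ)} : ℝ)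
      ≤ (Set.ncard {A : I → ℤ | (∀ i, |A i| ≤ H) ∧ MvPolynomial.eval A P = 0} : ℝ) := by
        exact_mod_cast h1
    _ ≤ (P.totalDegree / (2 * H + 1)) * (2 * (H : ℝ) + 1) ^ Fintype.card I := h2
    _ ≤ eps * (2 * H + 1) ^ Fintype.card I := by
        gcongr

end CIHP
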