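import Pool.Agent.Lib.MP_e426f4_ag.CI.Defs
import Pool.Agent.Lib.MP_e426f4_ag.G.Alg

/-! A `p`-adic zero of a system gives an approximate integer zero. -/

namespace CIHP

open Finset Filter Topology GenHP

theorem exists_approx_zero {n r : ℕ} {e : Fin r → ℕ} (p k : ℕ) [Fact p.Prime] (A : Sys n e ℤ)
    (h : ∃ x : Fin (n + 1) → ℚ_[p], x ≠ 0 ∧ ∀ i, F (fun t => (A i t : ℚ_[p])) x = 0) :
    ∃ x : Fin (n + 1) → ℤ, (∃ i, ¬ (p : ℤ) ∣ x i) ∧ ∀ i, ((p : ℤ) ^ k) ∣ F (A i) x := by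
  obtain ⟨x, hx, hF⟩ := h
  obtain ⟨a, -, ha⟩ := Finset.exists_max_image (univ : Finset (Fin (n + 1)))
    (fun a => ‖x a‖) ⟨0, mem_univ 0⟩
  have hmax : ∀ b, ‖x b‖ ≤ ‖x a‖ := fun b => ha b (mem_univ b)
  have hxa : x a ≠ 0 := by
    intro h0
    apply hx
    funext b
    have := hmax b
    rw [h0, norm_zero] at this
    exact norm_le_zero_iff.mp this
  -- the normalised zero
  have hle : ∀ v, ‖(x a)⁻¹ * x v‖ ≤ 1 := by
    intro v
    rw [norm_mul, norm_inv]
    have hpos : 0 < ‖x a‖ := norm_pos_iff.mpr hxa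
    rw [inv_mul_le_iff₀ hpos, mul_one]
    exact hmax v
  let z : Fin (n + 1) → ℤ_[p] := fun v => ⟨(x a)⁻¹ * x v, hle v⟩
  have hz : ∀ i, F (fun t => (A i t : ℤ_[p])) z = 0 := by
    intro i
    have h1 : (PadicInt.Coe.ringHom (p := p)) (F (fun t => (A i t : ℤ_[p])) z) = 0 := by
      rw [← F_map]
      have h2 : (fun v => (PadicInt.Coe.ringHom (p := p)) (z v)) =
          fun v => (x a)⁻¹ * x v := rfl
      have h3 : (fun t => (PadicInt.Coe.ringHom (p := p)) ((A i t : ℤ) : ℤ_[p])) =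
          fun t => ((A i t : ℤ) : ℚ_[p]) := by
        funext t; simp
      rw [h2, h3, F_scale, hF i, mul_zero]
    have h4 : ((F (fun t => (A i t : ℤ_[p])) z : ℤ_[p]) : ℚ_[p]) = 0 := h1
    exact Subtype.ext h4
  have hza : z a = 1 := by
    apply Subtype.ext
    change (x a)⁻¹ * x a = 1
    exact inv_mul_cancel₀ hxa
  -- integer lifts
  let m : ℕ := k + 1
  have hlift : ∀ v, ∃ c : ℤ, ((c : ℤ) : ZMod (p ^ m)) = PadicInt.toZModPow m (z v) := fun v =>
    ZMod.intCast_surjective _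
  choose c hc using hlift
  have hFn : ∀ i, (((F (A i) c : ℤ)) : ZMod (p ^ m)) = 0 := by
    intro i
    have h1 : (Int.castRingHom (ZMod (p ^ m))) (F (A i) c) =
        PadicInt.toZModPow m (F (fun t => (A i t : ℤ_[p])) z) := by
      rw [← F_map, ← F_map]
      congr 1
      · funext t; simp
      · funext v; simpa using hc v
    rw [hz i, map_zero] at h1
    simpa using h1
  refine ⟨c, ⟨a, ?_⟩, fun i => ?_⟩
  · intro hdvd
    have h1 : ((c a : ℤ) : ZMod (p ^ m)) = 1 := by rw [hc, hza, map_one]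
    have h2 : ((c a - 1 : ℤ) : ZMod (p ^ m)) = 0 := by push_cast; rw [h1]; ring
    rw [ZMod.intCast_zmod_eq_zero_iff_dvd] at h2
    have h3 : (p : ℤ) ∣ c a - 1 := by
      refine dvd_trans ?_ h2
      push_cast
      exact dvd_pow_self _ (by omega)
    have h4 : (p : ℤ) ∣ 1 := by
      have := dvd_sub hdvd h3
      simpa using this
    have hp := (Fact.out : p.Prime)
    have h5 : (p : ℤ) ∣ ((1 : ℕ) : ℤ) := by simpa using h4
    rw [Int.natCast_dvd_natCast] at h5
    exact hp.one_lt.ne' (Nat.dvd_one.mp h5)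
  · have hFn' := hFn i
    rw [ZMod.intCast_zmod_eq_zero_iff_dvd] at hFn'
    refine dvd_trans ?_ hFn'
    push_cast
    exact pow_dvd_pow _ (by omega)

end CIHP
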