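import Pool.Agent.Lib.MP_e426f4_ag.CI.Defs

/-! Finiteness of the basic sets, products of sets, first facts. -/

namespace CIHP

open Finset GenHP

variable {n r : ℕ} {e : Fin r → ℕ}

/-- number of elements of a product of finite sets -/
theorem ncard_pi {ι : Type*} [Fintype ι] [DecidableEq ι] {α : ι → Type*} (S : ∀ i, Set (α i))
    (hS : ∀ i, (S i).Finite) :
    Set.ncard {A : ∀ i, α i | ∀ i, A i ∈ S i} = ∏ i, (S i).ncard := by
  classical
  have h : {A : ∀ i, α i | ∀ i, A i ∈ S i} =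
      ↑(Fintype.piFinset fun i => (hS i).toFinset) := by
    ext A
    rw [Finset.mem_coe, Fintype.mem_piFinset]
    simp only [Set.Finite.mem_toFinset]
    rfl
  rw [h, Set.ncard_coe_finset, Fintype.card_piFinset]
  refine Finset.prod_congr rfl fun i _ => ?_
  rw [Set.ncard_eq_toFinset_card _ (hS i)]

theorem finite_pi {ι : Type*} [Finite ι] {α : ι → Type*} (S : ∀ i, Set (α i))
    (hS : ∀ i, (S i).Finite) : {A : ∀ i, α i | ∀ i, A i ∈ S i}.Finite := by
  have := Set.Finite.pi' hS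
  exact this

theorem sys_finite_of_abs_le (S : Set (Sys n e ℤ)) (C : ℝ)
    (h : ∀ A ∈ S, ∀ i m, |(A i m : ℝ)| ≤ C) : S.Finite := by
  refine (finite_pi (fun i : Fin r => {a : Idx n (e i) → ℤ | ∀ m, |(a m : ℝ)| ≤ C})
    fun i => GenHP.finite_of_abs_le _ C fun a ha m => ha m).subset ?_
  intro A hA i
  exact h A hA i

theorem Cl_finite (p : Par n e) (s H : ℝ) : (p.Cl s H).Finite := by
  obtain ⟨C, hC⟩ : ∃ C : ℝ, ∀ i m, |H * p.AC i m| ≤ C := by
    refine ⟨∑ i, ∑ m, |H * p.AC i m|, fun i m => ?_⟩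
    refine le_trans ?_ (Finset.single_le_sum (f := fun i => ∑ m, |H * p.AC i m|)
      (fun _ _ => Finset.sum_nonneg fun _ _ => abs_nonneg _) (Finset.mem_univ i))
    exact Finset.single_le_sum (f := fun m => |H * p.AC i m|) (fun _ _ => abs_nonneg _)
      (Finset.mem_univ m)
  refine sys_finite_of_abs_le _ (C + s * H) ?_
  intro A hA i m
  have h1 := hA.1 i m
  calc |(A i m : ℝ)| = |H * p.AC i m + ((A i m : ℝ) - H * p.AC i m)| := by ring_nf
    _ ≤ |H * p.AC i m| + |(A i m : ℝ) - H * p.AC i m| := abs_add_le _ _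
    _ ≤ C + s * H := add_le_add (hC i m) h1

open Classical in
theorem Reg_finite (xi : Fin (n + 1) → ℝ) (J : Fin r → Fin (n + 1)) (kap : ℝ) (B : ℕ) :
    (Reg xi J kap B).Finite := by
  obtain ⟨C, hC⟩ : ∃ C : ℝ, ∀ m, |(B : ℝ) * xi m| +
      |(if m ∈ Set.range J then kap else kap ^ 2) * B| ≤ C := by
    refine ⟨∑ m, (|(B : ℝ) * xi m| + |(if m ∈ Set.range J then kap else kap ^ 2) * B|),
      fun m => ?_⟩
    exact Finset.single_le_sum
      (f := fun m => |(B : ℝ) * xi m| + |(if m ∈ Set.range J then kap else kap ^ 2) * B|)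
      (fun _ _ => by positivity) (Finset.mem_univ m)
  refine GenHP.finite_of_abs_le _ C ?_
  intro x hx i
  have h1 := hx i
  calc |(x i : ℝ)| = |B * xi i + ((x i : ℝ) - B * xi i)| := by ring_nf
    _ ≤ |(B : ℝ) * xi i| + |(x i : ℝ) - B * xi i| := abs_add_le _ _
    _ ≤ |(B : ℝ) * xi i| + |(if i ∈ Set.range J then kap else kap ^ 2) * B| :=
        add_le_add le_rfl (h1.trans (le_abs_self _))
    _ ≤ C := hC i

theorem XX_finite (p : Par n e) (B : ℕ) : (p.XX B).Finite :=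
  (Reg_finite p.xi p.J p.kap B).subset fun _ hx => hx.1

theorem GG_finite (p : Par n e) (K : ℝ) (B : ℕ) : (p.GG K B).Finite :=
  (XX_finite p B).subset fun _ hx => hx.1

theorem GG_subset_XX (p : Par n e) (K : ℝ) (B : ℕ) : p.GG K B ⊆ p.XX B := fun _ hx => hx.1

theorem Pairs_finite (p : Par n e) (s K H : ℝ) : (p.Pairs s K H).Finite :=
  ((Cl_finite p s H).prod (GG_finite p K (p.B H))).subset fun _ hq => ⟨hq.1, hq.2.1⟩

theorem LP_finite (p : Par n e) (u th : ℝ) (s : ℕ) (S : Set (Fin (n + 1) → ℤ)) (hS : S.Finite)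
    (H : ℝ) : (p.LP u th s S H).Finite :=
  ((Cl_finite p u H).prod hS).subset fun _ hq => ⟨hq.1, hq.2.1⟩

theorem TBad_finite (p : Par n e) (K : ℝ) (G : ℕ) (tau H : ℝ) : (p.TBad K G tau H).Finite :=
  ((Cl_finite p p.rho H).prod ((GG_finite p K (p.B H)).prod (GG_finite p K (p.B H)))).subset
    fun _ hq => ⟨hq.1, hq.2.1, hq.2.2.1⟩

theorem TNF_finite (p : Par n e) (K : ℝ) (G : ℕ) (tau eps1 H : ℝ) :
    (p.TNF K G tau eps1 H).Finite :=
  ((Cl_finite p p.rho H).prod ((GG_finite p K (p.B H)).prod (GG_finite p K (p.B H)))).subset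
    fun _ hq => ⟨hq.1, hq.2.1, hq.2.2.1⟩

theorem TMain_finite (p : Par n e) (K : ℝ) (G : ℕ) (tau eps1 H : ℝ) :
    (p.TMain K G tau eps1 H).Finite :=
  ((Cl_finite p p.rho H).prod ((GG_finite p K (p.B H)).prod (GG_finite p K (p.B H)))).subset
    fun _ hq => ⟨hq.1, hq.2.1, hq.2.2.1⟩

theorem box_finite (H : ℕ) : (box n e H).Finite :=
  sys_finite_of_abs_le _ H fun A hA i m => by
    have := hA i m
    exact_mod_cast this

theorem ncard_box (H : ℕ) : (box n e H).ncard = (2 * H + 1) ^ NS n e := by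
  have h1 : ∀ i : Fin r, Set.ncard {a : Idx n (e i) → ℤ | ∀ m, a m ∈ Set.Icc (-(H : ℤ)) H} =
      (2 * H + 1) ^ NN n (e i) := by
    intro i
    rw [ncard_pi (fun _ : Idx n (e i) => Set.Icc (-(H : ℤ)) H) fun _ => Set.finite_Icc _ _]
    have h2 : (Set.Icc (-(H : ℤ)) H).ncard = 2 * H + 1 := by
      rw [← Finset.coe_Icc, Set.ncard_coe_finset, Int.card_Icc]
      omega
    simp only [h2, Finset.prod_const, Finset.card_univ]
    rfl
  have h3 : box n e H = {A : Sys n e ℤ | ∀ i, A i ∈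
      {a : Idx n (e i) → ℤ | ∀ m, a m ∈ Set.Icc (-(H : ℤ)) H}} := by
    ext A
    constructor
    · intro hA i m
      exact abs_le.mp (hA i m)
    · intro hA i m
      exact abs_le.mpr (hA i m)
  rw [h3, ncard_pi _ fun i => finite_pi _ fun _ => Set.finite_Icc _ _]
  simp only [h1]
  rw [Finset.prod_pow_eq_pow_sum]
  rfl

end CIHP
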