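import Pool.Agent.Lib.MP_e426f4_ag.CI.Heights
import Pool.Agent.Lib.MP_e426f4_ag.CI.Basic
import Pool.Agent.Lib.MP_e426f4_ag.G.Alg
import Pool.Agent.Lib.MP_e426f4_ag.G.Minors

/-! Module BF2: the points of a class, the expected number of points. -/

namespace CIHP

open Finset Filter Topology GenHP

variable {n r : ℕ} {e : Fin r → ℕ}

open Classical in
theorem reg_bound (p : Par n e) (eps : ℝ) (w : ℕ) (hp : p.Valid eps w)
    (B : ℕ) (x : Fin (n + 1) → ℤ) (hx : x ∈ p.XX B) (i : Fin (n + 1)) :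
    |(x i : ℝ) - B * p.xi i| ≤ 1 / 10 * B := by
  have h1 := hx.1 i
  have hk1 := hp.kap_pos
  have hk2 := hp.kap_le
  have hB : (0 : ℝ) ≤ B := by positivity
  refine h1.trans (mul_le_mul_of_nonneg_right ?_ hB)
  split_ifs
  · exact hk2
  · nlinarith

theorem mem_XX_bounds (p : Par n e) (eps : ℝ) (w : ℕ) (hp : p.Valid eps w)
    (B : ℕ) (x : Fin (n + 1) → ℤ) (hx : x ∈ p.XX B) :
    ∀ i, |(x i : ℝ)| ≤ 2 * B ∧ (|p.xi i| = 1 → (B : ℝ) / 2 ≤ |(x i : ℝ)|) := by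
  intro i
  have hB : (0 : ℝ) ≤ B := by positivity
  have h2 := reg_bound p eps w hp B x hx i
  have h3 : |(B : ℝ) * p.xi i| = B * |p.xi i| := by
    rw [abs_mul, abs_of_nonneg hB]
  constructor
  · have h4 : |(x i : ℝ)| ≤ |(x i : ℝ) - B * p.xi i| + |(B : ℝ) * p.xi i| := by
      have := abs_add_le ((x i : ℝ) - B * p.xi i) (B * p.xi i)
      simpa using this
    rw [h3] at h4
    have := mul_le_mul_of_nonneg_left (hp.xi_le i) hB
    linarith
  · intro h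
    have h4 : |(B : ℝ) * p.xi i| ≤ |(x i : ℝ) - B * p.xi i| + |(x i : ℝ)| := by
      have := abs_sub_abs_le_abs_sub ((B : ℝ) * p.xi i) (x i)
      rw [abs_sub_comm] at this
      linarith
    rw [h3, h] at h4
    linarith

theorem dl_pos_of_mem_GG (p : Par n e) (eps : ℝ) (w : ℕ) (hp : p.Valid eps w)
    (K : ℝ) (B : ℕ) (hB : 1 ≤ B) (x y : Fin (n + 1) → ℤ) (hx : x ∈ p.GG K B) (hy : y ∈ p.GG K B)
    (h : x ≠ y) : 0 < dl x y := by
  refine dl_pos x y hx.2.1 hy.2.1 (Ne.symm h) ?_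
  intro hyx
  obtain ⟨i, hi⟩ := hp.xi_eq
  have hB' : (1 : ℝ) ≤ B := by exact_mod_cast hB
  have h1 := reg_bound p eps w hp B x hx.1 i
  have h2 := reg_bound p eps w hp B y hy.1 i
  rw [hyx] at h2
  rw [abs_le] at h1 h2
  simp only [Pi.neg_apply, Int.cast_neg] at h2
  rcases (abs_eq (by norm_num : (0 : ℝ) ≤ 1)).mp hi with h3 | h3 <;> rw [h3] at h1 h2 <;>
    linarith [h1.1, h1.2, h2.1, h2.2]

theorem nadm_pos (P Q W : ℕ) (hQ : 0 < Q) (A0 : Sys n e ℤ) (x0 : Fin (n + 1) → ℤ)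
    (hH : Hens P Q W A0 x0) : 0 < nadm P Q A0 x0 := by
  have hQ' : (0 : ℤ) < Q := by exact_mod_cast hQ
  unfold nadm
  refine (Set.ncard_pos ?_).mpr ?_
  · refine (Set.Finite.pi' fun _ : Fin (n + 1) => Set.finite_Ico (0 : ℤ) Q).subset ?_
    intro x hx i
    exact hx.1 i
  · refine ⟨fun i => x0 i % Q, ?_⟩
    have h1 : ∀ i, (Q : ℤ) ∣ x0 i % Q - x0 i := by
      intro i
      exact ⟨-(x0 i / Q), by have := Int.emod_add_mul_ediv (x0 i) Q; linarith⟩
    refine ⟨fun i => ⟨Int.emod_nonneg _ hQ'.ne', Int.emod_lt_of_pos _ hQ'⟩, ?_, ?_⟩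
    · intro i
      exact (Int.natCast_dvd_natCast.mpr hH.1).trans (h1 i)
    · intro i
      have h2 := F_congr_mod (Q : ℤ) (A0 i) (A0 i) (fun i => x0 i % Q) x0
        (fun m => by rw [sub_self]; exact dvd_zero _) h1
      have h3 := hH.2.2.1.2 i
      have h4 := dvd_add h2 h3
      rwa [sub_add_cancel] at h4

theorem dens_pos (p : Par n e) (eps : ℝ) (w : ℕ) (hp : p.Valid eps w) : 0 < p.dens := by
  have h1 : (0 : ℝ) < nadm p.P p.Q p.A0 p.x0 := by
    exact_mod_cast nadm_pos p.P p.Q p.W hp.Q_pos p.A0 p.x0 hp.hens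
  have h2 : (0 : ℝ) < p.Q := by exact_mod_cast hp.Q_pos
  unfold Par.dens
  positivity

/-- the constant of the main term -/
theorem TT_tendsto (p : Par n e) (eps : ℝ) (w : ℕ) (hp : p.Valid eps w) :
    Tendsto p.TT atTop
      (𝓝 ((2 * p.kap ^ 2) ^ (n + 1 - r) * p.dens * (p.Q : ℝ) ^ r / |p.gam| * p.C0)) := by
  have h1 := (Bf_pow (n := n) e hp.r_pos hp.sum_le p.C0 hp.C0_ge).const_mul
    ((2 * p.kap ^ 2) ^ (n + 1 - r) * p.dens * (p.Q : ℝ) ^ r / |p.gam|)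
  refine h1.congr ?_
  intro H
  unfold Par.TT Par.B
  rw [div_mul_div_comm]

/-- the expected number of points is eventually large -/
theorem TT_large (p : Par n e) (eps : ℝ) (w : ℕ) (hp : p.Valid eps w) :
    ∀ᶠ H : ℝ in atTop, 1 / eps ≤ p.TT H := by
  have h1 := TT_tendsto p eps w hp
  have hg : 0 < |p.gam| := abs_pos.mpr hp.gam_ne
  have he := hp.eps_pos
  have h2 : 1 / eps < (2 * p.kap ^ 2) ^ (n + 1 - r) * p.dens * (p.Q : ℝ) ^ r / |p.gam| *
      p.C0 := by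
    have h3 := hp.C0_large
    rw [div_mul_eq_mul_div, div_lt_div_iff₀ he hg]
    nlinarith
  exact (h1.eventually (lt_mem_nhds h2)).mono fun H hH => hH.le

/-- the expected number of points is bounded -/
theorem TT_bdd (p : Par n e) (eps : ℝ) (w : ℕ) (hp : p.Valid eps w) :
    ∃ C : ℝ, ∀ᶠ H : ℝ in atTop, p.TT H ≤ C := by
  have h1 := TT_tendsto p eps w hp
  exact ⟨_, (h1.eventually (gt_mem_nhds (lt_add_one _))).mono fun H hH => hH.le⟩

/-- one factor of `Lev` -/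
theorem lev_factor (f : ℝ → ℝ) (hf : Tendsto f atTop atTop) :
    Tendsto (fun H => (2 * (⌊f H⌋₊ : ℝ) + 1) / (2 * f H)) atTop (𝓝 1) := by
  have h1 : Tendsto (fun H => (⌊f H⌋₊ : ℝ) / f H + 1 / (2 * f H)) atTop (𝓝 (1 + 0)) := by
    refine Tendsto.add ((tendsto_nat_floor_div_atTop (R := ℝ)).comp hf) ?_
    exact Tendsto.const_div_atTop (Tendsto.const_mul_atTop (by norm_num) hf) _
  rw [add_zero] at h1
  refine h1.congr' ?_
  filter_upwards [hf.eventually_gt_atTop 0] with H hH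
  field_simp

/-- `∏ Lev = (1 ± δ) (2 θ H / M)^r B^(∑ e)` -/
theorem Lev_asymp (p : Par n e) (eps : ℝ) (w : ℕ) (hp : p.Valid eps w) (th : ℝ) (hth : 0 < th)
    (M : ℕ) (hM : 0 < M) (del : ℝ) (hdel : 0 < del) :
    ∀ᶠ H : ℝ in atTop,
      (1 - del) * ((2 * th * H / M) ^ r * (p.B H : ℝ) ^ (∑ i, e i)) ≤ p.Lev th M H ∧
      p.Lev th M H ≤ (1 + del) * ((2 * th * H / M) ^ r * (p.B H : ℝ) ^ (∑ i, e i)) := by
  have hM' : (0 : ℝ) < M := by exact_mod_cast hM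
  have hB : Tendsto (fun H : ℝ => (p.B H : ℝ)) atTop atTop :=
    tendsto_natCast_atTop_atTop.comp (Bf_atTop (n := n) e hp.r_pos hp.sum_le p.C0 hp.C0_ge)
  have hf : ∀ i, Tendsto (fun H : ℝ => th * H * (p.B H : ℝ) ^ e i / M) atTop atTop := by
    intro i
    have hei : e i ≠ 0 := by have := hp.e_ge i; omega
    have h1 : Tendsto (fun H : ℝ => th * H) atTop atTop :=
      Tendsto.const_mul_atTop hth tendsto_id
    exact (h1.atTop_mul_atTop₀ ((tendsto_pow_atTop hei).comp hB)).atTop_div_const hM'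
  have h1 : Tendsto (fun H : ℝ => ∏ i, ((2 * (⌊th * H * (p.B H : ℝ) ^ e i / M⌋₊ : ℝ) + 1) /
      (2 * (th * H * (p.B H : ℝ) ^ e i / M)))) atTop (𝓝 (∏ _i : Fin r, 1)) :=
    tendsto_finsetProd _ fun i _ => lev_factor _ (hf i)
  rw [Finset.prod_const_one] at h1
  have h2 := h1.eventually (Metric.ball_mem_nhds 1 hdel)
  filter_upwards [h2, eventually_gt_atTop 0, hB.eventually_gt_atTop 0] with H hH hH0 hB0
  have h3 : ∏ i, (2 * (th * H * (p.B H : ℝ) ^ e i / M)) =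
      (2 * th * H / M) ^ r * (p.B H : ℝ) ^ (∑ i, e i) := by
    have h4 : ∀ i, 2 * (th * H * (p.B H : ℝ) ^ e i / M) =
        (2 * th * H / M) * (p.B H : ℝ) ^ e i := fun i => by ring
    simp only [h4]
    rw [Finset.prod_mul_distrib, Finset.prod_const, Finset.card_univ, Fintype.card_fin,
      Finset.prod_pow_eq_pow_sum]
  rw [Finset.prod_div_distrib, h3, Real.dist_eq, abs_lt] at hH
  have h5 : 0 < (2 * th * H / M) ^ r * (p.B H : ℝ) ^ (∑ i, e i) := by positivity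
  have h6 : p.Lev th M H = ∏ i, (2 * (⌊th * H * (p.B H : ℝ) ^ e i / M⌋₊ : ℝ) + 1) := rfl
  rw [← h6] at hH
  have h7 : 1 - del < p.Lev th M H / ((2 * th * H / M) ^ r * (p.B H : ℝ) ^ (∑ i, e i)) := by
    linarith [hH.1]
  have h8 : p.Lev th M H / ((2 * th * H / M) ^ r * (p.B H : ℝ) ^ (∑ i, e i)) < 1 + del := by
    linarith [hH.2]
  rw [lt_div_iff₀ h5] at h7
  rw [div_lt_iff₀ h5] at h8
  exact ⟨h7.le, h8.le⟩

/-- the relation between the local count and the number of levels: `T' = T * levels` -/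
theorem TL_eq (p : Par n e) (eps : ℝ) (w : ℕ) (hp : p.Valid eps w) (th : ℝ) (hth : 0 < th)
    (s : ℕ) (H : ℝ) (hH : 0 < H) :
    p.TL th s (p.B H) =
      p.TT H * ((2 * th * H / (p.W : ℝ) ^ s) ^ r * (p.B H : ℝ) ^ (∑ i, e i)) := by
  have hW' : (0 : ℝ) < p.W := by exact_mod_cast hp.W_pos
  have hg : 0 < |p.gam| := abs_pos.mpr hp.gam_ne
  have hB : (p.B H : ℝ) ^ (n + 1) = (p.B H : ℝ) ^ (∑ i, e i) * (p.B H : ℝ) ^ nu n e := by
    rw [← pow_add]
    congr 1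
    have := hp.sum_le
    unfold nu
    omega
  unfold Par.TL Vol Par.TT
  rw [hB, div_pow, div_pow, mul_pow (2 * th) H r]
  field_simp

end CIHP
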