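import Pool.Agent.Lib.MP_e426f4_ag.CI.Basic
import Pool.Agent.Lib.MP_e426f4_ag.G.OmegaLoc

/-! Module OL: upper bound for the local count of systems through a point. -/

namespace CIHP

open Finset GenHP

theorem omega_loc_sys {n r : ℕ} {e : Fin r → ℕ} (he : ∀ i, 1 ≤ e i) (B : ℕ) (hB : 1 ≤ B)
    (W Q s : ℕ) (hW : 0 < W) (hQ : Q ∣ W ^ s) (A0 : Sys n e ℤ) (x : Fin (n + 1) → ℤ)
    (hx : ∃ c : Fin (n + 1) → ℤ, IsCoprime (∑ i, c i * x i) (W : ℤ))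
    (i0 : Fin (n + 1)) (hi0 : (B : ℝ) / 2 ≤ |(x i0 : ℝ)|) (c : Sys n e ℝ) (u : ℝ)
    (eta : Fin r → ℝ) (hu : 0 ≤ u) (heta : ∀ i, 0 ≤ eta i) :
    (Set.ncard {A : Sys n e ℤ | (∀ i m, |(A i m : ℝ) - c i m| ≤ u) ∧
      (∀ i m, (Q : ℤ) ∣ A i m - A0 i m) ∧
      ∀ i, ((W : ℤ) ^ s) ∣ F (A i) x ∧ |((F (A i) x : ℤ) : ℝ)| ≤ eta i} : ℝ) ≤
      ∏ i, ((((W ^ s / Q : ℕ) : ℝ)) ^ (NN n (e i) - 1) *
        (2 * u / (W : ℝ) ^ s + 1) ^ (NN n (e i) - 1) *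
        (2 ^ (e i + 1) * eta i / ((B : ℝ) ^ (e i) * (W : ℝ) ^ s) + 1)) := by
  have hset : {A : Sys n e ℤ | (∀ i m, |(A i m : ℝ) - c i m| ≤ u) ∧
      (∀ i m, (Q : ℤ) ∣ A i m - A0 i m) ∧
      ∀ i, ((W : ℤ) ^ s) ∣ F (A i) x ∧ |((F (A i) x : ℤ) : ℝ)| ≤ eta i} =
      {A : Sys n e ℤ | ∀ i, A i ∈ {a : Idx n (e i) → ℤ | (∀ m, |(a m : ℝ) - c i m| ≤ u) ∧
        (∀ m, (Q : ℤ) ∣ a m - A0 i m) ∧ ((W : ℤ) ^ s) ∣ F a x ∧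
        |((F a x : ℤ) : ℝ)| ≤ eta i}} := by
    ext A
    constructor
    · rintro ⟨h1, h2, h3⟩ i
      exact ⟨h1 i, h2 i, (h3 i).1, (h3 i).2⟩
    · intro h
      exact ⟨fun i => (h i).1, fun i => (h i).2.1, fun i => ⟨(h i).2.2.1, (h i).2.2.2⟩⟩
  have hfin : ∀ i : Fin r, {a : Idx n (e i) → ℤ | (∀ m, |(a m : ℝ) - c i m| ≤ u) ∧
        (∀ m, (Q : ℤ) ∣ a m - A0 i m) ∧ ((W : ℤ) ^ s) ∣ F a x ∧
        |((F a x : ℤ) : ℝ)| ≤ eta i}.Finite := by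
    intro i
    refine GenHP.finite_of_abs_le _ (∑ m, |c i m| + u) ?_
    intro a ha m
    have h1 := ha.1 m
    have h2 : |c i m| ≤ ∑ m, |c i m| :=
      Finset.single_le_sum (f := fun m => |c i m|) (fun _ _ => abs_nonneg _) (Finset.mem_univ m)
    calc |(a m : ℝ)| = |c i m + ((a m : ℝ) - c i m)| := by ring_nf
      _ ≤ |c i m| + |(a m : ℝ) - c i m| := abs_add_le _ _
      _ ≤ ∑ m, |c i m| + u := add_le_add h2 h1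
  rw [hset, ncard_pi _ hfin]
  push_cast
  refine Finset.prod_le_prod (fun _ _ => Nat.cast_nonneg _) fun i _ => ?_
  exact omega_loc_le (he i) B hB W Q s hW hQ (A0 i) x hx i0 hi0 (c i) u (eta i) hu (heta i)

end CIHP
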