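import Pool.Agent.Lib.MP_e426f4_ag.CI.Heights
import Pool.Agent.Lib.MP_e426f4_ag.CI.ClassPts
import Pool.Agent.Lib.MP_e426f4_ag.CI.OmegaLoc

/-! Local pairs over few points are few. -/

namespace CIHP

open Finset Filter Topology GenHP

/-- one factor of the local count over one point -/
private theorem fac_le (M rho th Q : ℝ) (hM : 0 < M) (hrho : 0 < rho) (hth : 0 < th) (hQ : 0 < Q)
    (a : ℝ) (ha : 0 < a) (N1 : ℕ) :
    ∀ᶠ H : ℝ in atTop,
      (M / Q) ^ N1 * (2 * (rho * H) / M + 1) ^ N1 * (a * th * H / M + 1) ≤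
        (2 * a * th * Q / (rho * M)) * (2 * rho * H / Q) ^ (N1 + 1) := by
  have hlarge : ∀ᶠ H : ℝ in atTop,
      max (M * (2 * ((N1 : ℝ) + 1)) / (2 * rho)) (M / (a * th)) ≤ (H : ℝ) :=
    eventually_ge_atTop _
  filter_upwards [hlarge, eventually_gt_atTop (0 : ℝ)] with H hH hHpos
  have hNr : (0 : ℝ) < (N1 : ℝ) + 1 := by positivity
  have hH1' : M * (2 * ((N1 : ℝ) + 1)) / (2 * rho) ≤ H := (le_max_left _ _).trans hH
  have hH2' : M / (a * th) ≤ H := (le_max_right _ _).trans hH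
  rw [div_le_iff₀ (by positivity)] at hH1' hH2'
  have e1 : 2 * (rho * H) / M + 1 ≤ (1 + 1 / (2 * ((N1 : ℝ) + 1))) * (2 * rho * H / M) := by
    have : 1 ≤ (1 / (2 * ((N1 : ℝ) + 1))) * (2 * rho * H / M) := by
      rw [div_mul_div_comm, one_mul, le_div_iff₀ (by positivity)]
      linarith
    have h3 : 2 * (rho * H) / M = 2 * rho * H / M := by ring
    rw [h3]
    linarith
  have e2 : a * th * H / M + 1 ≤ 2 * (a * th * H / M) := by
    have : 1 ≤ a * th * H / M := by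
      rw [le_div_iff₀ hM]
      linarith
    linarith
  have e4 : (1 + 1 / (2 * ((N1 : ℝ) + 1))) ^ N1 ≤ 2 := by
    have h2 : 1 + 1 / (2 * ((N1 : ℝ) + 1)) ≤ Real.exp (1 / (2 * ((N1 : ℝ) + 1))) := by
      have := Real.add_one_le_exp (1 / (2 * ((N1 : ℝ) + 1)))
      linarith
    have h3 : (1 + 1 / (2 * ((N1 : ℝ) + 1))) ^ N1 ≤ Real.exp (1 / (2 * ((N1 : ℝ) + 1))) ^ N1 :=
      pow_le_pow_left₀ (by positivity) h2 N1
    rw [← Real.exp_nat_mul] at h3
    have h4 : (N1 : ℝ) * (1 / (2 * ((N1 : ℝ) + 1))) ≤ 1 / 2 := by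
      rw [mul_one_div, div_le_div_iff₀ (by positivity) (by norm_num)]
      linarith
    have h5 : Real.exp (1 / 2) ≤ 2 := by
      have h6 : Real.exp (1 / 2) ^ 2 = Real.exp 1 := by
        rw [← Real.exp_nat_mul]
        norm_num
      have h7 := Real.exp_one_lt_d9
      have h8 := Real.exp_pos (1 / 2)
      nlinarith
    exact h3.trans ((Real.exp_le_exp.2 h4).trans h5)
  have e3 : (2 * (rho * H) / M + 1) ^ N1 ≤ 2 * (2 * rho * H / M) ^ N1 := by
    calc (2 * (rho * H) / M + 1) ^ N1 ≤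
        ((1 + 1 / (2 * ((N1 : ℝ) + 1))) * (2 * rho * H / M)) ^ N1 :=
          pow_le_pow_left₀ (by positivity) e1 N1
      _ = (1 + 1 / (2 * ((N1 : ℝ) + 1))) ^ N1 * (2 * rho * H / M) ^ N1 := by rw [mul_pow]
      _ ≤ 2 * (2 * rho * H / M) ^ N1 :=
          mul_le_mul_of_nonneg_right e4 (by positivity)
  calc (M / Q) ^ N1 * (2 * (rho * H) / M + 1) ^ N1 * (a * th * H / M + 1)
      ≤ (M / Q) ^ N1 * (2 * (2 * rho * H / M) ^ N1) * (2 * (a * th * H / M)) := by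
        refine mul_le_mul (mul_le_mul_of_nonneg_left e3 (by positivity)) e2 (by positivity)
          (by positivity)
    _ = (2 * a * th * Q / (rho * M)) * (2 * rho * H / Q) ^ (N1 + 1) := by
        rw [pow_succ (2 * rho * H / Q), div_pow, div_pow, div_pow]
        field_simp

/-- the local count over one point -/
theorem loc_one_le {n r : ℕ} {e : Fin r → ℕ} (p : Par n e) (eps : ℝ) (w : ℕ)
    (hp : p.Valid eps w) (th : ℝ) (hth : 0 < th) (s : ℕ) (hs : p.Q ∣ p.W ^ s) :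
    ∀ᶠ H : ℝ in atTop, ∀ x ∈ p.XX (p.B H),
      (Set.ncard {A : Sys n e ℤ | A ∈ p.Cl p.rho H ∧ ∀ i, ((p.W : ℤ) ^ s) ∣ F (A i) x ∧
          |((F (A i) x : ℤ) : ℝ)| ≤ th * H * (p.B H : ℝ) ^ e i} : ℝ) ≤
        (2 ^ (n + 2) * th * p.Q / (p.rho * (p.W : ℝ) ^ s)) ^ r * p.Xn H := by
  set M : ℝ := (p.W : ℝ) ^ s with hM
  have hW : 0 < p.W := hp.W_pos
  have hWR : (0 : ℝ) < p.W := by exact_mod_cast hW
  have hMpos : 0 < M := by positivity
  have hrho : 0 < p.rho := hp.rho_pos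
  have hQ : (0 : ℝ) < p.Q := by exact_mod_cast hp.Q_pos
  have hB : ∀ᶠ H : ℝ in atTop, 1 ≤ p.B H :=
    (Bf_atTop e hp.r_pos hp.sum_le p.C0 hp.C0_ge).eventually_ge_atTop 1
  have hfac : ∀ᶠ H : ℝ in atTop, ∀ i : Fin r,
      (M / p.Q) ^ (NN n (e i) - 1) * (2 * (p.rho * H) / M + 1) ^ (NN n (e i) - 1) *
        (2 ^ (e i + 1) * th * H / M + 1) ≤
        (2 * 2 ^ (e i + 1) * th * p.Q / (p.rho * M)) *
          (2 * p.rho * H / p.Q) ^ (NN n (e i) - 1 + 1) := by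
    rw [Filter.eventually_all]
    intro i
    exact fac_le M p.rho th p.Q hMpos hrho hth hQ (2 ^ (e i + 1)) (by positivity) _
  filter_upwards [hB, hfac, eventually_gt_atTop (0 : ℝ)] with H hB1 hH hHpos
  intro x hx
  have hBpos : (0 : ℝ) < p.B H := by exact_mod_cast hB1
  obtain ⟨i0, hi0⟩ := hp.xi_eq
  have hxi0 := (mem_XX_bounds p eps w hp (p.B H) x hx i0).2 hi0
  have h1 := omega_loc_sys (fun i => le_trans (by norm_num) (hp.e_ge i)) (p.B H) hB1 p.W p.Q s hW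
    hs p.A0 x (hp.hens.2.2.2.1 x hx.2.1)
    i0 hxi0 (fun i m => H * p.AC i m) (p.rho * H) (fun i => th * H * (p.B H : ℝ) ^ e i)
    (by positivity) (fun i => by positivity)
  have hset : {A : Sys n e ℤ | A ∈ p.Cl p.rho H ∧ ∀ i, ((p.W : ℤ) ^ s) ∣ F (A i) x ∧
          |((F (A i) x : ℤ) : ℝ)| ≤ th * H * (p.B H : ℝ) ^ e i} =
      {A : Sys n e ℤ | (∀ i m, |(A i m : ℝ) - H * p.AC i m| ≤ p.rho * H) ∧
        (∀ i m, (p.Q : ℤ) ∣ A i m - p.A0 i m) ∧
        ∀ i, ((p.W : ℤ) ^ s) ∣ F (A i) x ∧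
          |((F (A i) x : ℤ) : ℝ)| ≤ th * H * (p.B H : ℝ) ^ e i} := by
    ext A
    simp only [Par.Cl, Set.mem_ofPred_eq]
    tauto
  rw [hset]
  refine h1.trans ?_
  have hdiv : (((p.W ^ s / p.Q : ℕ) : ℝ)) = M / p.Q := by
    rw [Nat.cast_div hs hQ.ne', hM]
    push_cast
    rfl
  have hX : (2 ^ (n + 2) * th * p.Q / (p.rho * M)) ^ r * p.Xn H =
      ∏ i : Fin r, ((2 ^ (n + 2) * th * p.Q / (p.rho * M)) *
        (2 * p.rho * H / p.Q) ^ (NN n (e i))) := by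
    rw [Finset.prod_mul_distrib, Finset.prod_const, Finset.card_univ, Fintype.card_fin,
      Finset.prod_pow_eq_pow_sum]
    rfl
  rw [hX]
  refine Finset.prod_le_prod (fun i _ => by positivity) fun i _ => ?_
  have hNN := NN_pos n (e i)
  have hN1 : NN n (e i) - 1 + 1 = NN n (e i) := by omega
  have hi := hH i
  rw [hN1] at hi
  have h16 : 2 ^ (e i + 1) * (th * H * (p.B H : ℝ) ^ e i) / ((p.B H : ℝ) ^ e i * (p.W : ℝ) ^ s) =
      2 ^ (e i + 1) * th * H / M := by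
    rw [← hM]
    field_simp
  rw [hdiv, h16, ← hM]
  refine hi.trans ?_
  refine mul_le_mul_of_nonneg_right ?_ (by positivity)
  refine div_le_div_of_nonneg_right ?_ (by positivity)
  refine mul_le_mul_of_nonneg_right ?_ hQ.le
  refine mul_le_mul_of_nonneg_right ?_ hth.le
  have hei : e i ≤ n :=
    (Finset.single_le_sum (f := e) (fun _ _ => Nat.zero_le _) (Finset.mem_univ i)).trans hp.sum_le
  rw [← pow_succ']
  exact pow_le_pow_right₀ (by norm_num) (by omega)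

theorem loc_pairs_le {n r : ℕ} {e : Fin r → ℕ} (p : Par n e) (eps : ℝ) (w : ℕ)
    (hp : p.Valid eps w) (th : ℝ) (hth : 0 < th) (s : ℕ) (hs : p.Q ∣ p.W ^ s) :
    ∀ᶠ H : ℝ in atTop, ∀ S : Set (Fin (n + 1) → ℤ), S ⊆ p.XX (p.B H) →
      ((p.LP p.rho th s S H).ncard : ℝ) ≤
        (S.ncard : ℝ) * (2 ^ (n + 2) * th * p.Q / (p.rho * (p.W : ℝ) ^ s)) ^ r * p.Xn H := by
  classical
  filter_upwards [loc_one_le p eps w hp th hth s hs] with H hone
  intro S hS
  have hSfin : S.Finite := (XX_finite p (p.B H)).subset hS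
  have hLfin := LP_finite p p.rho th s S hSfin H
  rw [Set.ncard_eq_toFinset_card _ hLfin, Set.ncard_eq_toFinset_card _ hSfin]
  have hmap : ∀ q ∈ hLfin.toFinset, q.2 ∈ hSfin.toFinset := by
    intro q hq
    rw [Set.Finite.mem_toFinset] at hq ⊢
    exact hq.2.1
  rw [Finset.card_eq_sum_card_fiberwise hmap]
  push_cast
  have hfib : ∀ x ∈ hSfin.toFinset, ((hLfin.toFinset.filter (fun q => q.2 = x)).card : ℝ) ≤
      (2 ^ (n + 2) * th * p.Q / (p.rho * (p.W : ℝ) ^ s)) ^ r * p.Xn H := by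
    intro x hx
    rw [Set.Finite.mem_toFinset] at hx
    refine le_trans ?_ (hone x (hS hx))
    have hfin : {A : Sys n e ℤ | A ∈ p.Cl p.rho H ∧ ∀ i, ((p.W : ℤ) ^ s) ∣ F (A i) x ∧
          |((F (A i) x : ℤ) : ℝ)| ≤ th * H * (p.B H : ℝ) ^ e i}.Finite :=
      (Cl_finite p p.rho H).subset fun A hA => hA.1
    rw [Set.ncard_eq_toFinset_card _ hfin]
    refine Nat.cast_le.2 ?_
    refine Finset.card_le_card_of_injOn (fun q => q.1) ?_ ?_
    · intro q hq
      rw [Finset.mem_coe, Finset.mem_filter, Set.Finite.mem_toFinset] at hq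
      rw [Finset.mem_coe, Set.Finite.mem_toFinset]
      obtain ⟨⟨h1, h2, h3⟩, h5⟩ := hq
      rw [← h5]
      exact ⟨h1, h3⟩
    · intro q hq q' hq' h
      rw [Finset.mem_coe, Finset.mem_filter] at hq hq'
      exact Prod.ext h (hq.2.trans hq'.2.symm)
  refine (Finset.sum_le_sum hfib).trans ?_
  rw [Finset.sum_const, nsmul_eq_mul]
  exact le_of_eq (by ring)

end CIHP
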