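import Pool.Agent.Lib.MP_e426f4_ag.CI.Heights
import Pool.Agent.Lib.MP_e426f4_ag.CI.LocPairs
import Pool.Agent.Lib.MP_e426f4_ag.G.FewNotGood

/-! CI-BPa: points that are not well-rounded contribute little. -/

namespace CIHP

open Finset Filter Topology GenHP

variable {n r : ℕ} {e : Fin r → ℕ}

theorem bp_XX_sub_boxn (p : Par n e) (eps : ℝ) (w : ℕ) (hp : p.Valid eps w)
    (B : ℕ) (x : Fin (n + 1) → ℤ) (hx : x ∈ p.XX B) : x ∈ boxn n (2 * B) := by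
  rw [mem_boxn]
  intro i
  have h1 := (mem_XX_bounds p eps w hp B x hx i).1
  have h2 : ((|x i| : ℤ) : ℝ) ≤ ((2 * B : ℕ) : ℝ) := by
    push_cast
    exact h1
  exact_mod_cast h2

/-- the comparison of the error term with the main term -/
theorem bp_few_points_le (p : Par n e) (eps : ℝ) (w : ℕ) (hp : p.Valid eps w) :
    ∃ c : ℝ, 0 < c ∧ ∀ th : ℝ, 0 < th → ∀ s : ℕ, p.Q ∣ p.W ^ s →
      ∀ᶠ H : ℝ in atTop, ∀ S : Set (Fin (n + 1) → ℤ), S ⊆ p.XX (p.B H) →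
        (S.ncard : ℝ) ≤ c * (p.B H : ℝ) ^ (n + 1) →
        ((p.LP p.rho th s S H).ncard : ℝ) ≤ eps / 2 * p.MT th s H := by
  have hg : 0 < |p.gam| := abs_pos.2 hp.gam_ne
  have hd := dens_pos p eps w hp
  have hQ : (0 : ℝ) < p.Q := by exact_mod_cast hp.Q_pos
  have hW : (0 : ℝ) < p.W := by exact_mod_cast hp.W_pos
  have hk := hp.kap_pos
  have hr := hp.rho_pos
  have he := hp.eps_pos
  refine ⟨eps / 2 * ((2 * p.kap ^ 2) ^ (n + 1 - r) * 2 ^ r * p.dens / |p.gam|) *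
    (p.rho / 2 ^ (n + 2)) ^ r, by positivity, ?_⟩
  intro th hth s hs
  filter_upwards [loc_pairs_le p eps w hp th hth s hs, eventually_ge_atTop 0]
    with H hH hH0 S hS hcard
  refine (hH S hS).trans ?_
  have hX : 0 ≤ p.Xn H := by
    rw [Par.Xn]
    positivity
  have h1 : eps / 2 * p.MT th s H =
      (eps / 2 * ((2 * p.kap ^ 2) ^ (n + 1 - r) * 2 ^ r * p.dens / |p.gam|) *
        (p.rho / 2 ^ (n + 2)) ^ r * (p.B H : ℝ) ^ (n + 1)) *
        (2 ^ (n + 2) * th * p.Q / (p.rho * (p.W : ℝ) ^ s)) ^ r * p.Xn H := by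
    have h2 : (2 ^ (n + 2) * th * p.Q / (p.rho * (p.W : ℝ) ^ s)) ^ r =
        th ^ r * ((p.Q : ℝ) / (p.W : ℝ) ^ s) ^ r * ((p.rho / 2 ^ (n + 2)) ^ r)⁻¹ := by
      rw [← mul_pow, ← inv_pow, ← mul_pow]
      congr 1
      field_simp
    have h3 : (p.rho / 2 ^ (n + 2)) ^ r ≠ 0 := by positivity
    rw [h2, Par.MT, Par.TL, Vol, mul_pow 2 th r]
    field_simp
  rw [h1]
  apply mul_le_mul_of_nonneg_right _ hX
  apply mul_le_mul_of_nonneg_right hcard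
  positivity

/-- the height is eventually at least one -/
theorem bp_one_le_B (p : Par n e) (eps : ℝ) (w : ℕ) (hp : p.Valid eps w) :
    ∀ᶠ H : ℝ in atTop, 1 ≤ p.B H :=
  (Bf_atTop e hp.r_pos hp.sum_le p.C0 hp.C0_ge).eventually (eventually_ge_atTop 1)

/-- CI-BPa (BadA.lean): points that are not well-rounded -/
theorem bad_not_good (p : Par n e) (eps : ℝ) (w : ℕ) (hp : p.Valid eps w) :
    ∃ K0 : ℝ, 1 ≤ K0 ∧ ∀ K, K0 ≤ K → ∀ th : ℝ, 0 < th → ∀ s : ℕ, p.Q ∣ p.W ^ s →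
      ∀ᶠ H : ℝ in atTop,
        ((p.LP p.rho th s {x | x ∈ p.XX (p.B H) ∧ ¬ Good K (p.B H) x} H).ncard : ℝ) ≤
          eps / 2 * p.MT th s H := by
  obtain ⟨c, hc, hfew⟩ := bp_few_points_le p eps w hp
  obtain ⟨K0, hK0, hK⟩ := few_not_good n (by have := hp.n_ge; omega) c hc
  refine ⟨K0, hK0, ?_⟩
  intro K hKK th hth s hs
  filter_upwards [hfew th hth s hs, bp_one_le_B p eps w hp] with H hH hB1
  refine hH _ (fun x hx => hx.1) ?_
  refine le_trans ?_ (hK K hKK (p.B H) hB1)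
  have hfin : {x : Fin (n + 1) → ℤ | x ∈ boxn n (2 * p.B H) ∧ ¬ Good K (p.B H) x}.Finite :=
    (boxn n (2 * p.B H)).finite_toSet.subset fun x hx => hx.1
  have hsub : {x | x ∈ p.XX (p.B H) ∧ ¬ Good K (p.B H) x} ⊆
      {x : Fin (n + 1) → ℤ | x ∈ boxn n (2 * p.B H) ∧ ¬ Good K (p.B H) x} :=
    fun x hx => ⟨bp_XX_sub_boxn p eps w hp _ x hx.1, hx.2⟩
  exact_mod_cast Set.ncard_le_ncard hsub hfin

end CIHP
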