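import Pool.Agent.Lib.MP_e426f4_ag.CI.BadA
import Pool.Agent.Lib.MP_e426f4_ag.G.BadB

/-! CI-BPb: points divisible by a large prime contribute little. -/

namespace CIHP

open Finset Filter Topology GenHP

variable {n r : ℕ} {e : Fin r → ℕ}

/-- CI-BPb (BadB.lean): points divisible by a large prime -/
theorem bad_large_prime (p : Par n e) (eps : ℝ) (w : ℕ) (hp : p.Valid eps w) :
    ∃ z : ℕ, ∀ th : ℝ, 0 < th → ∀ s : ℕ, p.Q ∣ p.W ^ s →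
      ∀ᶠ H : ℝ in atTop,
        ((p.LP p.rho th s {x | x ∈ p.XX (p.B H) ∧ ∃ l : ℕ, l.Prime ∧ z < l ∧
          ∀ i, (l : ℤ) ∣ x i} H).ncard : ℝ) ≤ eps / 2 * p.MT th s H := by
  classical
  obtain ⟨c, hc, hfew⟩ := bp_few_points_le p eps w hp
  refine ⟨⌈6 ^ (n + 1) / c⌉₊ + 1, ?_⟩
  intro th hth s hs
  filter_upwards [hfew th hth s hs, bp_one_le_B p eps w hp] with H hH hB1
  refine hH _ (fun x hx => hx.1) ?_
  obtain ⟨z, hz⟩ : ∃ z, z = ⌈(6 : ℝ) ^ (n + 1) / c⌉₊ + 1 := ⟨_, rfl⟩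
  rw [← hz]
  obtain ⟨B, hB⟩ : ∃ B, B = p.B H := ⟨_, rfl⟩
  rw [← hB] at hB1 ⊢
  have hB' : (1 : ℝ) ≤ B := by exact_mod_cast hB1
  let T : ℕ → Finset (Fin (n + 1) → ℤ) := fun l =>
    (boxn n (2 * B)).filter fun x => ∀ i, (l : ℤ) ∣ x i
  have hT : ∀ l : ℕ, (({x : Fin (n + 1) → ℤ | x ∈ boxn n (2 * B) ∧ ∀ i, (l : ℤ) ∣ x i} :
      Set (Fin (n + 1) → ℤ))) = (T l : Set (Fin (n + 1) → ℤ)) := by
    intro l
    ext x
    simp [T]
  have hsub : {x | x ∈ p.XX B ∧ ∃ l : ℕ, l.Prime ∧ z < l ∧ ∀ i, (l : ℤ) ∣ x i} ⊆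
      (((Finset.Ioc z (2 * B)).biUnion T : Finset (Fin (n + 1) → ℤ)) :
        Set (Fin (n + 1) → ℤ)) := by
    rintro x ⟨hx, l, hl, hzl, hlx⟩
    have hx4 := bp_XX_sub_boxn p eps w hp B x hx
    rw [Finset.mem_coe, Finset.mem_biUnion]
    refine ⟨l, ?_, ?_⟩
    · rw [Finset.mem_Ioc]
      refine ⟨hzl, ?_⟩
      obtain ⟨i, hi⟩ := hp.xi_eq
      have h1 := (mem_XX_bounds p eps w hp B x hx i).2 hi
      have hxi : x i ≠ 0 := by
        intro h0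
        rw [h0] at h1
        simp at h1
        linarith
      have h2 := Int.le_of_dvd (abs_pos.2 hxi) ((dvd_abs _ _).2 (hlx i))
      have h3 := (mem_boxn.1 hx4) i
      exact_mod_cast h2.trans h3
    · simp only [T, Finset.mem_filter]
      exact ⟨hx4, hlx⟩
  have h1 := Set.ncard_le_ncard hsub (Finset.finite_toSet _)
  rw [Set.ncard_coe_finset] at h1
  have h2 : (((Finset.Ioc z (2 * B)).biUnion T).card : ℝ) ≤
      ∑ l ∈ Finset.Ioc z (2 * B), ((T l).card : ℝ) := by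
    exact_mod_cast Finset.card_biUnion_le
  have h3 : ∀ l ∈ Finset.Ioc z (2 * B), ((T l).card : ℝ) ≤ 6 ^ (n + 1) * (B : ℝ) ^ (n + 1) *
      (1 / (l : ℝ) ^ (n + 1)) := by
    intro l hl
    rw [Finset.mem_Ioc] at hl
    have h4 := bp_ncard_multiples_le n B l (by omega) hl.2
    rw [hT, Set.ncard_coe_finset] at h4
    refine h4.trans (le_of_eq ?_)
    rw [div_pow, mul_pow]
    ring
  have hzpos : 1 ≤ z := by omega
  have hn1 : 1 ≤ n := by have := hp.n_ge; omega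
  have h5 := bp_sum_inv_pow_le n z (2 * B) hn1 hzpos
  have h6 : 6 ^ (n + 1) * (1 / (z : ℝ)) ≤ c := by
    have hz' : (0 : ℝ) < z := by exact_mod_cast hzpos
    have h7 : 6 ^ (n + 1) / c ≤ z := by
      refine (Nat.le_ceil _).trans ?_
      rw [hz]
      push_cast
      linarith
    rw [div_le_iff₀ hc] at h7
    rw [mul_one_div, div_le_iff₀ hz']
    linarith
  calc ((Set.ncard {x | x ∈ p.XX B ∧ ∃ l : ℕ, l.Prime ∧ z < l ∧ ∀ i, (l : ℤ) ∣ x i} : ℕ) : ℝ)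
      ≤ (((Finset.Ioc z (2 * B)).biUnion T).card : ℝ) := by exact_mod_cast h1
    _ ≤ ∑ l ∈ Finset.Ioc z (2 * B), ((T l).card : ℝ) := h2
    _ ≤ ∑ l ∈ Finset.Ioc z (2 * B), 6 ^ (n + 1) * (B : ℝ) ^ (n + 1) * (1 / (l : ℝ) ^ (n + 1)) :=
        Finset.sum_le_sum h3
    _ = 6 ^ (n + 1) * (B : ℝ) ^ (n + 1) *
        ∑ l ∈ Finset.Ioc z (2 * B), (1 / (l : ℝ) ^ (n + 1)) := by
        rw [Finset.mul_sum]
    _ ≤ 6 ^ (n + 1) * (B : ℝ) ^ (n + 1) * (1 / z) := mul_le_mul_of_nonneg_left h5 (by positivity)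
    _ = (6 ^ (n + 1) * (1 / (z : ℝ))) * (B : ℝ) ^ (n + 1) := by ring
    _ ≤ c * (B : ℝ) ^ (n + 1) := mul_le_mul_of_nonneg_right h6 (by positivity)

end CIHP
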