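import Pool.Agent.Lib.MP_e426f4_ag.G.Basic

/-!
# Systems of `r` forms of degrees `e i` in `n + 1` variables over `ℤ`: definitions
-/

namespace CIHP

open Finset GenHP

/-- Coefficient vectors of systems of `r` forms of degrees `e i` in `n + 1` variables. -/
abbrev Sys (n : ℕ) {r : ℕ} (e : Fin r → ℕ) (R : Type*) : Type _ :=
  (i : Fin r) → Idx n (e i) → R

/-- Number of coefficients. -/
def NS (n : ℕ) {r : ℕ} (e : Fin r → ℕ) : ℕ := ∑ i, NN n (e i)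

variable {n r : ℕ} {e : Fin r → ℕ}

/-- The `r × r` block of the Jacobian matrix with columns `J`. -/
def Jac {R : Type*} [CommRing R] (A : Sys n e R) (x : Fin (n + 1) → R)
    (J : Fin r → Fin (n + 1)) : Matrix (Fin r) (Fin r) R :=
  Matrix.of fun i l => D (A i) x (J l)

/-- The system has a rational zero. -/
def Soluble (A : Sys n e ℤ) : Prop :=
  ∃ x : Fin (n + 1) → ℚ, x ≠ 0 ∧ ∀ i, F (fun t => (A i t : ℚ)) x = 0

/-- The system is everywhere locally soluble. -/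
def ELS (A : Sys n e ℤ) : Prop :=
  (∃ x : Fin (n + 1) → ℝ, x ≠ 0 ∧ ∀ i, F (fun t => (A i t : ℝ)) x = 0) ∧
    ∀ (p : ℕ) [Fact p.Prime], ∃ x : Fin (n + 1) → ℚ_[p], x ≠ 0 ∧
      ∀ i, F (fun t => (A i t : ℚ_[p])) x = 0

/-- The system defines a smooth complete intersection. -/
def Smooth (A : Sys n e ℤ) : Prop :=
  ∀ x : Fin (n + 1) → ℂ, x ≠ 0 → (∀ i, F (fun t => (A i t : ℂ)) x = 0) →
    LinearIndependent ℂ fun i : Fin r => fun j : Fin (n + 1) => D (fun t => (A i t : ℂ)) x j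

/-- The box of systems with coefficients in `[-H, H]`. -/
def box (n : ℕ) {r : ℕ} (e : Fin r → ℕ) (H : ℕ) : Set (Sys n e ℤ) := {A | ∀ i t, |A i t| ≤ H}

/-- `n + 1 - ∑ e i`, the index of the Fano variety. -/
def nu (n : ℕ) {r : ℕ} (e : Fin r → ℕ) : ℕ := n + 1 - ∑ i, e i

/-- The height of the points: `(C0 * H ^ r) ^ (1 / nu)`. -/
noncomputable def Bf (n : ℕ) {r : ℕ} (e : Fin r → ℕ) (C0 H : ℝ) : ℕ :=
  ⌊(C0 * H ^ r) ^ (1 / (nu n e : ℝ))⌋₊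

/-! ### Pairs of points with good pair lattice -/

/-- The real space of forms of degree `d` vanishing at `x` and `y` is spanned by finitely many
integral forms `g q` vanishing at `x` and `y`, with `m * |g q| ≤ E`, `m` the number of the `g q`. -/
def FineD (n d : ℕ) (E : ℝ) (x y : Fin (n + 1) → ℤ) : Prop :=
  ∃ (m : ℕ) (g : Fin m → Idx n d → ℤ), (∀ q, F (g q) x = 0 ∧ F (g q) y = 0) ∧
    (∀ q t, (m : ℝ) * |(g q t : ℝ)| ≤ E) ∧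
    ∀ A : Idx n d → ℝ, F A (fun i => (x i : ℝ)) = 0 → F A (fun i => (y i : ℝ)) = 0 →
      ∃ c : Fin m → ℝ, ∀ t, A t = ∑ q, c q * (g q t : ℝ)

/-- all degrees of the system -/
def Fine (n : ℕ) {r : ℕ} (e : Fin r → ℕ) (E : ℝ) (x y : Fin (n + 1) → ℤ) : Prop :=
  ∀ i, FineD n (e i) E x y

/-! ### Parameters of a local class -/

/-- Data of a local class. -/
structure Par (n : ℕ) {r : ℕ} (e : Fin r → ℕ) where
  /-- real system with an approximate nonsingular zero `xi` -/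
  Ainf : Sys n e ℝ
  /-- centre of the cube of systems -/
  AC : Sys n e ℝ
  /-- real zero -/
  xi : Fin (n + 1) → ℝ
  /-- columns of a nonzero minor of the Jacobian matrix -/
  J : Fin r → Fin (n + 1)
  /-- half side of the box of points -/
  kap : ℝ
  /-- half side of the cube of systems -/
  rho : ℝ
  /-- largest admissible `θ` -/
  th1 : ℝ
  /-- constant of the height function -/
  C0 : ℝ
  /-- product of the small primes -/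
  W : ℕ
  /-- modulus for the points -/
  P : ℕ
  /-- modulus for the forms -/
  Q : ℕ
  /-- residue class of the systems -/
  A0 : Sys n e ℤ
  /-- residue class of the points -/
  x0 : Fin (n + 1) → ℤ

/-- the minor of the Jacobian matrix -/
noncomputable def Par.gam (p : Par n e) : ℝ := (Jac p.Ainf p.xi p.J).det

/-- height of the points -/
noncomputable def Par.B (p : Par n e) (H : ℝ) : ℕ := Bf n e p.C0 H

/-- Systems of the class in the cube with centre `H * AC` and half side `s * H`. -/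
def Par.Cl (p : Par n e) (s H : ℝ) : Set (Sys n e ℤ) :=
  {A | (∀ i m, |(A i m : ℝ) - H * p.AC i m| ≤ s * H) ∧ ∀ i m, (p.Q : ℤ) ∣ A i m - p.A0 i m}

open Classical in
/-- The real box of integer points around `B * xi`. -/
def Reg (xi : Fin (n + 1) → ℝ) (J : Fin r → Fin (n + 1)) (kap : ℝ) (B : ℕ) :
    Set (Fin (n + 1) → ℤ) :=
  {x | ∀ i, |(x i : ℝ) - B * xi i| ≤ (if i ∈ Set.range J then kap else kap ^ 2) * B}

/-- Residue conditions for points. -/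
def Adm (P Q : ℕ) (A0 : Sys n e ℤ) (x0 x : Fin (n + 1) → ℤ) : Prop :=
  (∀ i, (P : ℤ) ∣ x i - x0 i) ∧ ∀ i, (Q : ℤ) ∣ F (A0 i) x

/-- Points of the class. -/
def Par.XX (p : Par n e) (B : ℕ) : Set (Fin (n + 1) → ℤ) :=
  {x | x ∈ Reg p.xi p.J p.kap B ∧ Adm p.P p.Q p.A0 p.x0 x}

/-- Primitive well-rounded points of the class. -/
def Par.GG (p : Par n e) (K : ℝ) (B : ℕ) : Set (Fin (n + 1) → ℤ) :=
  {x | x ∈ p.XX B ∧ Prim x ∧ Good K B x}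

/-- number of admissible residue classes modulo `Q` -/
noncomputable def nadm (P Q : ℕ) (A0 : Sys n e ℤ) (x0 : Fin (n + 1) → ℤ) : ℕ :=
  Set.ncard {x : Fin (n + 1) → ℤ | (∀ i, 0 ≤ x i ∧ x i < Q) ∧ Adm P Q A0 x0 x}

/-- density of the admissible points -/
noncomputable def Par.dens (p : Par n e) : ℝ := nadm p.P p.Q p.A0 p.x0 / (p.Q : ℝ) ^ (n + 1)

/-- Real part of the main term. -/
noncomputable def Vol (n r : ℕ) (gam kap th : ℝ) (B : ℕ) : ℝ :=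
  (2 * kap ^ 2) ^ (n + 1 - r) * (2 * th) ^ r * (B : ℝ) ^ (n + 1) / |gam|

/-- Real counting property. -/
def RC (Ainf : Sys n e ℝ) (xi : Fin (n + 1) → ℝ) (J : Fin r → Fin (n + 1))
    (kap rho th1 eps : ℝ) : Prop :=
  ∀ th : ℝ, 0 < th → th ≤ th1 → ∀ M : ℕ, 1 ≤ M → ∃ B0 : ℕ, ∀ B : ℕ, B0 ≤ B →
    ∀ H : ℝ, 0 < H → ∀ A : Sys n e ℤ, (∀ i m, |(A i m : ℝ) - H * Ainf i m| ≤ 3 * rho * H) →
    ∀ z : Fin (n + 1) → ℤ,
    (1 - eps) * Vol n r (Jac Ainf xi J).det kap th B / (M : ℝ) ^ (n + 1) ≤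
        (Set.ncard {x : Fin (n + 1) → ℤ | x ∈ Reg xi J kap B ∧ (∀ i, (M : ℤ) ∣ x i - z i) ∧
          ∀ i, |((F (A i) x : ℤ) : ℝ)| ≤ th * H * (B : ℝ) ^ e i} : ℝ) ∧
      (Set.ncard {x : Fin (n + 1) → ℤ | x ∈ Reg xi J kap B ∧ (∀ i, (M : ℤ) ∣ x i - z i) ∧
          ∀ i, |((F (A i) x : ℤ) : ℝ)| ≤ th * H * (B : ℝ) ^ e i} : ℝ) ≤
        (1 + eps) * Vol n r (Jac Ainf xi J).det kap th B / (M : ℝ) ^ (n + 1)

/-- Hensel data for systems. -/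
def Hens (P Q W : ℕ) (A0 : Sys n e ℤ) (x0 : Fin (n + 1) → ℤ) : Prop :=
  P ∣ Q ∧ (∃ m : ℕ, Q = W ^ m) ∧ Adm P Q A0 x0 x0 ∧
  (∀ x : Fin (n + 1) → ℤ, (∀ i, (P : ℤ) ∣ x i - x0 i) →
    ∃ c : Fin (n + 1) → ℤ, IsCoprime (∑ i, c i * x i) (W : ℤ)) ∧
  ∃ h : Fin r → Fin (n + 1) → ℤ, ∀ A : Sys n e ℤ, (∀ i m, (Q : ℤ) ∣ A i m - A0 i m) →
    ∀ x : Fin (n + 1) → ℤ, Adm P Q A0 x0 x → ∀ c c' : Fin r → ℤ, ∀ m : ℕ, (∃ s, m ∣ W ^ s) →
      ((∀ i, ((Q * m : ℕ) : ℤ) ∣ F (A i) (fun j => x j + P * ∑ s, c s * h s j)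
        - F (A i) (fun j => x j + P * ∑ s, c' s * h s j)) ↔ ∀ s, (m : ℤ) ∣ c s - c' s)

/-- Validity of the data of a class. -/
structure Par.Valid (p : Par n e) (eps : ℝ) (w : ℕ) : Prop where
  r_pos : 1 ≤ r
  n_ge : r + 2 ≤ n
  e_ge : ∀ i, 2 ≤ e i
  sum_le : ∑ i, e i ≤ n
  eps_pos : 0 < eps
  eps_le : eps ≤ 1 / 10
  w_two : 2 ≤ w
  kap_pos : 0 < p.kap
  kap_le : p.kap ≤ 1 / 10
  rho_pos : 0 < p.rho
  rho_le : p.rho ≤ 1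
  th1_pos : 0 < p.th1
  Ainf_le : ∀ i m, |p.Ainf i m| ≤ 1
  AC_near : ∀ i m, |p.AC i m - p.Ainf i m| ≤ p.rho
  xi_le : ∀ i, |p.xi i| ≤ 1
  xi_eq : ∃ i, |p.xi i| = 1
  gam_ne : p.gam ≠ 0
  rc : RC p.Ainf p.xi p.J p.kap p.rho p.th1 eps
  W_pos : 0 < p.W
  W_primes : ∀ q : ℕ, q.Prime → (q ∣ p.W ↔ q ≤ w)
  Q_pos : 0 < p.Q
  P_pos : 0 < p.P
  hens : Hens p.P p.Q p.W p.A0 p.x0
  C0_ge : 1 ≤ p.C0
  C0_large : 2 * |p.gam| ≤ eps * ((2 * p.kap ^ 2) ^ (n + 1 - r) * p.dens * (p.Q : ℝ) ^ r * p.C0)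

/-- Expected number of points. -/
noncomputable def Par.TT (p : Par n e) (H : ℝ) : ℝ :=
  (2 * p.kap ^ 2) ^ (n + 1 - r) * p.dens * (p.Q : ℝ) ^ r * (p.B H : ℝ) ^ nu n e /
    (|p.gam| * H ^ r)

/-- Expected number of systems. -/
noncomputable def Par.Xn (p : Par n e) (H : ℝ) : ℝ := (2 * p.rho * H / p.Q) ^ NS n e

/-- pairs (system, point) -/
def Par.Pairs (p : Par n e) (s K H : ℝ) : Set (Sys n e ℤ × (Fin (n + 1) → ℤ)) :=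
  {q | q.1 ∈ p.Cl s H ∧ q.2 ∈ p.GG K (p.B H) ∧ ∀ i, F (q.1 i) q.2 = 0}

/-- triples (system, two distinct points) with bad pair of points -/
def Par.TBad (p : Par n e) (K : ℝ) (G : ℕ) (tau H : ℝ) :
    Set (Sys n e ℤ × (Fin (n + 1) → ℤ) × (Fin (n + 1) → ℤ)) :=
  {q | q.1 ∈ p.Cl p.rho H ∧ q.2.1 ∈ p.GG K (p.B H) ∧ q.2.2 ∈ p.GG K (p.B H) ∧
    (∀ i, F (q.1 i) q.2.1 = 0 ∧ F (q.1 i) q.2.2 = 0) ∧ q.2.1 ≠ q.2.2 ∧
    (G < mg q.2.1 q.2.2 ∨ (dl q.2.1 q.2.2 : ℝ) < tau * (p.B H : ℝ) ^ 2)}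

/-- triples with a pair of points that is not fine -/
def Par.TNF (p : Par n e) (K : ℝ) (G : ℕ) (tau eps1 H : ℝ) :
    Set (Sys n e ℤ × (Fin (n + 1) → ℤ) × (Fin (n + 1) → ℤ)) :=
  {q | q.1 ∈ p.Cl p.rho H ∧ q.2.1 ∈ p.GG K (p.B H) ∧ q.2.2 ∈ p.GG K (p.B H) ∧
    (∀ i, F (q.1 i) q.2.1 = 0 ∧ F (q.1 i) q.2.2 = 0) ∧
    mg q.2.1 q.2.2 ≤ G ∧ tau * (p.B H : ℝ) ^ 2 ≤ (dl q.2.1 q.2.2 : ℝ) ∧
    ¬ Fine n e (eps1 * H) q.2.1 q.2.2}

/-- triples (system, two points) with good fine pair of points -/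
def Par.TMain (p : Par n e) (K : ℝ) (G : ℕ) (tau eps1 H : ℝ) :
    Set (Sys n e ℤ × (Fin (n + 1) → ℤ) × (Fin (n + 1) → ℤ)) :=
  {q | q.1 ∈ p.Cl p.rho H ∧ q.2.1 ∈ p.GG K (p.B H) ∧ q.2.2 ∈ p.GG K (p.B H) ∧
    (∀ i, F (q.1 i) q.2.1 = 0 ∧ F (q.1 i) q.2.2 = 0) ∧
    mg q.2.1 q.2.2 ≤ G ∧ tau * (p.B H : ℝ) ^ 2 ≤ (dl q.2.1 q.2.2 : ℝ) ∧
    Fine n e (eps1 * H) q.2.1 q.2.2}

/-- local pairs: systems and points with `W^s ∣ F (A i) x` and `|F (A i) x| ≤ θ H B^(e i)`. -/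
def Par.LP (p : Par n e) (u th : ℝ) (s : ℕ) (S : Set (Fin (n + 1) → ℤ)) (H : ℝ) :
    Set (Sys n e ℤ × (Fin (n + 1) → ℤ)) :=
  {q | q.1 ∈ p.Cl u H ∧ q.2 ∈ S ∧ ∀ i, ((p.W : ℤ) ^ s) ∣ F (q.1 i) q.2 ∧
    |((F (q.1 i) q.2 : ℤ) : ℝ)| ≤ th * H * (p.B H : ℝ) ^ e i}

/-- number of vectors of multiples of `M`, the `i`-th in `[-θ H B^(e i), θ H B^(e i)]` -/
noncomputable def Par.Lev (p : Par n e) (th : ℝ) (M : ℕ) (H : ℝ) : ℝ :=
  ∏ i, (2 * (⌊th * H * (p.B H : ℝ) ^ e i / M⌋₊ : ℝ) + 1)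

/-- the local count of points `T'` -/
noncomputable def Par.TL (p : Par n e) (th : ℝ) (s B : ℕ) : ℝ :=
  Vol n r p.gam p.kap th B * p.dens * ((p.Q : ℝ) / (p.W : ℝ) ^ s) ^ r

/-- the local main term `T' X` -/
noncomputable def Par.MT (p : Par n e) (th : ℝ) (s : ℕ) (H : ℝ) : ℝ :=
  p.TL th s (p.B H) * p.Xn H

end CIHP
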