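import Pool.Agent.Lib.MP_e426f4_ag.AP
import Pool.Agent.Lib.MP_e426f4_ag.CI.Defs
import Pool.Agent.Lib.MP_e426f4_ag.CI.Basic

/-! Module CI-CU: number of systems in a class. -/

namespace CIHP

open Finset Filter Topology GenHP

theorem card_Cl {n r : ℕ} {e : Fin r → ℕ} (p : Par n e) (hQ : 0 < p.Q) (u eps : ℝ) (hu : 0 < u)
    (he : 0 < eps) :
    ∀ᶠ H : ℝ in atTop,
      (1 - eps) * (2 * u * H / p.Q) ^ NS n e ≤ ((p.Cl u H).ncard : ℝ) ∧
      ((p.Cl u H).ncard : ℝ) ≤ (1 + eps) * (2 * u * H / p.Q) ^ NS n e := by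
  classical
  have hQ' : (0 : ℝ) < p.Q := by exact_mod_cast hQ
  -- asymptotics
  have hlim : Tendsto (fun t : ℝ => (1 - 1 / t) ^ NS n e) atTop (𝓝 1) := by
    have h1 : Tendsto (fun t : ℝ => 1 / t) atTop (𝓝 0) := by
      simpa using tendsto_inv_atTop_zero (𝕜 := ℝ)
    have h2 : Tendsto (fun t : ℝ => (1 - 1 / t) ^ NS n e) atTop (𝓝 ((1 - 0) ^ NS n e)) :=
      (tendsto_const_nhds.sub h1).pow (NS n e)
    simpa using h2
  have hlim' : Tendsto (fun t : ℝ => (1 + 1 / t) ^ NS n e) atTop (𝓝 1) := by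
    have h1 : Tendsto (fun t : ℝ => 1 / t) atTop (𝓝 0) := by
      simpa using tendsto_inv_atTop_zero (𝕜 := ℝ)
    have h2 : Tendsto (fun t : ℝ => (1 + 1 / t) ^ NS n e) atTop (𝓝 ((1 + 0) ^ NS n e)) :=
      (tendsto_const_nhds.add h1).pow (NS n e)
    simpa using h2
  have hT : Tendsto (fun H : ℝ => 2 * u * H / p.Q) atTop atTop := by
    have : (fun H : ℝ => 2 * u * H / p.Q) = fun H : ℝ => (2 * u / p.Q) * H := by
      funext H; ring
    rw [this]
    exact Tendsto.const_mul_atTop (by positivity) tendsto_id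
  have ev1 : ∀ᶠ t : ℝ in atTop, 1 - eps ≤ (1 - 1 / t) ^ NS n e :=
    (hlim.eventually (lt_mem_nhds (by linarith : 1 - eps < 1))).mono fun t ht => ht.le
  have ev2 : ∀ᶠ t : ℝ in atTop, (1 + 1 / t) ^ NS n e ≤ 1 + eps :=
    (hlim'.eventually (gt_mem_nhds (by linarith : 1 < 1 + eps))).mono fun t ht => ht.le
  have ev3 := (hT.eventually (ev1.and (ev2.and (eventually_ge_atTop (1 : ℝ))))).and
    (eventually_gt_atTop (0 : ℝ))
  refine ev3.mono fun H hH => ?_
  obtain ⟨⟨h1, h2, h3⟩, hH0⟩ := hH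
  set t : ℝ := 2 * u * H / p.Q with ht
  have ht0 : 0 < t := by linarith
  -- the coordinate sets
  set S : ∀ i, Idx n (e i) → Set ℤ := fun i m => {a : ℤ | H * p.AC i m - u * H ≤ a ∧
    (a : ℝ) ≤ H * p.AC i m + u * H ∧ (p.Q : ℤ) ∣ a - p.A0 i m} with hS
  have hrH : 0 ≤ u * H := by positivity
  have hAP : ∀ i m, (S i m).Finite ∧ t - 1 ≤ ((S i m).ncard : ℝ) ∧
      ((S i m).ncard : ℝ) ≤ t + 1 := by
    intro i m
    have h := CubicHP.ncard_AP (H * p.AC i m - u * H) (H * p.AC i m + u * H) (by linarith) p.Q hQ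
      (p.A0 i m)
    have e : (H * p.AC i m + u * H - (H * p.AC i m - u * H)) / p.Q = t := by
      rw [ht]; ring
    rw [e] at h
    exact h
  have hfin : ∀ i m, (S i m).Finite := fun i m => (hAP i m).1
  have hcl : p.Cl u H = {A : Sys n e ℤ | ∀ i, A i ∈
      {a : Idx n (e i) → ℤ | ∀ m, a m ∈ S i m}} := by
    ext A
    change ((∀ i m, |(A i m : ℝ) - H * p.AC i m| ≤ u * H) ∧
        ∀ i m, (p.Q : ℤ) ∣ A i m - p.A0 i m) ↔
      ∀ i m, H * p.AC i m - u * H ≤ A i m ∧ (A i m : ℝ) ≤ H * p.AC i m + u * H ∧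
        (p.Q : ℤ) ∣ A i m - p.A0 i m
    constructor
    · rintro ⟨ha, hb⟩ i m
      have := ha i m
      rw [abs_le] at this
      exact ⟨by linarith [this.1], by linarith [this.2], hb i m⟩
    · intro h
      refine ⟨fun i m => ?_, fun i m => (h i m).2.2⟩
      rw [abs_le]
      exact ⟨by linarith [(h i m).1], by linarith [(h i m).2.1]⟩
  have hcard : ((p.Cl u H).ncard : ℝ) = ∏ i, ∏ m, ((S i m).ncard : ℝ) := by
    rw [hcl, ncard_pi _ fun i => finite_pi _ fun m => hfin i m]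
    push_cast
    refine Finset.prod_congr rfl fun i _ => ?_
    rw [ncard_pi _ fun m => hfin i m]
    push_cast
    rfl
  have h20 : ∀ c : ℝ, ∏ i : Fin r, ∏ _m : Idx n (e i), c = c ^ NS n e := by
    intro c
    have : ∀ i : Fin r, ∏ _m : Idx n (e i), c = c ^ NN n (e i) := by
      intro i
      rw [Finset.prod_const]
      rfl
    simp only [this]
    rw [Finset.prod_pow_eq_pow_sum]
    rfl
  rw [hcard]
  constructor
  · calc (1 - eps) * t ^ NS n e ≤ (1 - 1 / t) ^ NS n e * t ^ NS n e :=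
          mul_le_mul_of_nonneg_right h1 (by positivity)
      _ = (t - 1) ^ NS n e := by
        rw [← mul_pow]; congr 1; field_simp
      _ = ∏ i : Fin r, ∏ _m : Idx n (e i), (t - 1) := (h20 _).symm
      _ ≤ ∏ i, ∏ m, ((S i m).ncard : ℝ) := by
        refine Finset.prod_le_prod (fun _ _ => Finset.prod_nonneg fun _ _ => by linarith)
          fun i _ => ?_
        exact Finset.prod_le_prod (fun _ _ => by linarith) fun m _ => (hAP i m).2.1
  · calc ∏ i, ∏ m, ((S i m).ncard : ℝ) ≤ ∏ i : Fin r, ∏ _m : Idx n (e i), (t + 1) := by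
          refine Finset.prod_le_prod (fun _ _ => Finset.prod_nonneg fun _ _ => by positivity)
            fun i _ => ?_
          exact Finset.prod_le_prod (fun _ _ => by positivity) fun m _ => (hAP i m).2.2
      _ = (t + 1) ^ NS n e := h20 _
      _ = (1 + 1 / t) ^ NS n e * t ^ NS n e := by
        rw [← mul_pow]; congr 1; field_simp
      _ ≤ (1 + eps) * t ^ NS n e := mul_le_mul_of_nonneg_right h2 (by positivity)

end CIHP
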