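import Pool.Agent.Lib.MP_e426f4_ag.CI.Basic
import Pool.Agent.Lib.MP_e426f4_ag.G.Alg

/-! p-adic counting for a fixed system of the class. -/

namespace CIHP

open Finset GenHP

/-- double counting: a periodic condition which holds exactly once on each cell of an admissible
point and never on the others -/
private theorem pcs_count {N r : ℕ} (M m : ℕ) [NeZero M] [NeZero m]
    (good adm : (Fin N → ℤ) → Prop)
    (hper : ∀ v v' : Fin N → ℤ, (∀ i, (M : ℤ) ∣ v i - v' i) → good v → good v')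
    (τ : (Fin r → ℤ) → Fin N → ℤ)
    (hone : ∀ v : Fin N → ℤ, adm v →
      ∃! c : Fin r → ZMod m, good (fun i => v i + τ (fun s => ((c s).val : ℤ)) i))
    (hnone : ∀ (v : Fin N → ℤ) (c : Fin r → ℤ), good (fun i => v i + τ c i) → adm v) :
    Set.ncard {u : Fin N → ZMod M | good (fun i => ((u i).val : ℤ))} * m ^ r =
      Set.ncard {u : Fin N → ZMod M | adm (fun i => ((u i).val : ℤ))} := by
  classical
  have h1 : ∀ Pr : (Fin N → ℤ) → Prop,
      Set.ncard {u : Fin N → ZMod M | Pr (fun i => ((u i).val : ℤ))} =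
      (univ.filter fun u : Fin N → ZMod M => Pr (fun i => ((u i).val : ℤ))).card := by
    intro Pr
    rw [← Set.ncard_coe_finset]
    congr 1
    ext u
    simp
  rw [h1, h1]
  have h2 : ∀ c : Fin r → ZMod m,
      (univ.filter fun u : Fin N → ZMod M => good (fun i => ((u i).val : ℤ))).card =
      (univ.filter fun u : Fin N → ZMod M =>
        good (fun i => ((u i).val : ℤ) + τ (fun s => ((c s).val : ℤ)) i)).card := by
    intro c
    symm
    refine Finset.card_bij (fun u _ => fun i => u i +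
      ((τ (fun s => ((c s).val : ℤ)) i : ℤ) : ZMod M)) ?_ ?_ ?_
    · intro u hu
      simp only [Finset.mem_filter, Finset.mem_univ, true_and] at hu ⊢
      refine hper _ _ (fun i => ?_) hu
      rw [← ZMod.intCast_eq_intCast_iff_dvd_sub]
      push_cast
      simp
    · intro u _ u' _ huu
      funext i
      have := congrFun huu i
      simpa using this
    · intro u hu
      refine ⟨fun i => u i - ((τ (fun s => ((c s).val : ℤ)) i : ℤ) : ZMod M), ?_, ?_⟩
      · simp only [Finset.mem_filter, Finset.mem_univ, true_and] at hu ⊢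
        refine hper _ _ (fun i => ?_) hu
        rw [← ZMod.intCast_eq_intCast_iff_dvd_sub]
        push_cast
        simp
      · funext i
        simp
  have h3 : ∑ c : Fin r → ZMod m, (univ.filter fun u : Fin N → ZMod M =>
        good (fun i => ((u i).val : ℤ) + τ (fun s => ((c s).val : ℤ)) i)).card =
      (univ.filter fun u : Fin N → ZMod M => adm (fun i => ((u i).val : ℤ))).card := by
    simp only [Finset.card_filter]
    rw [Finset.sum_comm]
    refine Finset.sum_congr rfl fun u _ => ?_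
    by_cases hadm : adm (fun i => ((u i).val : ℤ))
    · rw [if_pos hadm]
      obtain ⟨c, hc, hc2⟩ := hone (fun i => ((u i).val : ℤ)) hadm
      rw [Finset.sum_eq_single c]
      · rw [if_pos hc]
      · intro c' _ hne
        rw [if_neg]
        intro hg
        exact hne (hc2 c' hg)
      · intro hcn
        exact absurd (Finset.mem_univ c) hcn
    · rw [if_neg hadm]
      refine Finset.sum_eq_zero fun c _ => ?_
      rw [if_neg]
      intro hg
      exact hadm (hnone _ _ hg)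
  rw [← h3, ← Finset.sum_congr rfl fun c _ => h2 c]
  simp [ZMod.card, mul_comm]

/-- integer vectors in a box and vectors over `ZMod M` -/
private theorem pcs_box {N : ℕ} (M : ℕ) [NeZero M] (Pr : (Fin N → ℤ) → Prop) :
    Set.ncard {z : Fin N → ℤ | (∀ i, 0 ≤ z i ∧ z i < (M : ℤ)) ∧ Pr z} =
      Set.ncard {u : Fin N → ZMod M | Pr (fun i => ((u i).val : ℤ))} := by
  symm
  refine Set.ncard_congr (fun u _ => fun i => ((u i).val : ℤ)) ?_ ?_ ?_
  · intro u hu
    refine ⟨fun i => ⟨Int.natCast_nonneg _, ?_⟩, hu⟩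
    show (((u i).val : ℕ) : ℤ) < (M : ℤ)
    exact_mod_cast ZMod.val_lt (u i)
  · intro u u' _ _ huu
    funext i
    have h1 := congrFun huu i
    simp only [Nat.cast_inj] at h1
    exact ZMod.val_injective M h1
  · intro z hz
    have hval : ∀ i, (((z i : ZMod M)).val : ℤ) = z i := by
      intro i
      rw [ZMod.val_intCast]
      exact Int.emod_eq_of_lt (hz.1 i).1 (hz.1 i).2
    refine ⟨fun i => (z i : ZMod M), ?_, funext hval⟩
    show Pr (fun i => (((z i : ZMod M)).val : ℤ))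
    rw [show (fun i => (((z i : ZMod M)).val : ℤ)) = z from funext hval]
    exact hz.2

/-- counting a `Q`-periodic condition in the box of side `Q * m` -/
private theorem pcs_periodic {N : ℕ} (Q m : ℕ) (hQ : 0 < Q) (Pr : (Fin N → ℤ) → Prop)
    (hper : ∀ v v' : Fin N → ℤ, (∀ i, (Q : ℤ) ∣ v i - v' i) → Pr v → Pr v') :
    Set.ncard {z : Fin N → ℤ | (∀ i, 0 ≤ z i ∧ z i < ((Q * m : ℕ) : ℤ)) ∧ Pr z} =
      Set.ncard {z : Fin N → ℤ | (∀ i, 0 ≤ z i ∧ z i < (Q : ℤ)) ∧ Pr z} * m ^ N := by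
  have hQ' : (0 : ℤ) < Q := by exact_mod_cast hQ
  have h1 : Set.ncard {b : Fin N → ℤ | ∀ i, b i ∈ Set.Ico (0 : ℤ) m} = m ^ N := by
    rw [ncard_pi (fun _ : Fin N => Set.Ico (0 : ℤ) m) fun _ => Set.finite_Ico _ _]
    have h2 : (Set.Ico (0 : ℤ) m).ncard = m := by
      rw [← Finset.coe_Ico, Set.ncard_coe_finset, Int.card_Ico]
      omega
    simp [h2]
  rw [← h1, ← Set.ncard_prod]
  symm
  refine Set.ncard_congr (fun ab _ => fun i => ab.1 i + Q * ab.2 i) ?_ ?_ ?_
  · rintro ⟨a, b⟩ ⟨⟨ha1, ha2⟩, hb⟩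
    refine ⟨fun i => ⟨?_, ?_⟩, ?_⟩
    · have h3 := (ha1 i).1
      have h4 := (hb i).1
      simp only at h3 h4 ⊢
      positivity
    · have h3 := (ha1 i).2
      have h4 := (hb i).2
      simp only at h3 h4 ⊢
      push_cast
      have h5 : b i + 1 ≤ m := h4
      nlinarith
    · refine hper a _ (fun i => ?_) ha2
      refine ⟨-b i, ?_⟩
      ring
  · rintro ⟨a, b⟩ ⟨a', b'⟩ ⟨⟨ha1, _⟩, hb⟩ ⟨⟨ha1', _⟩, hb'⟩ hab
    simp only at hab
    have h3 : ∀ i, a i = a' i ∧ b i = b' i := by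
      intro i
      have h4 : a i + Q * b i = a' i + Q * b' i := congrFun hab i
      have ha1 : ∀ i, 0 ≤ a i ∧ a i < (Q : ℤ) := ha1
      have ha1' : ∀ i, 0 ≤ a' i ∧ a' i < (Q : ℤ) := ha1'
      have h5 : (a i + Q * b i) % Q = (a' i + Q * b' i) % Q := by rw [h4]
      rw [Int.add_mul_emod_self_left, Int.add_mul_emod_self_left,
        Int.emod_eq_of_lt (ha1 i).1 (ha1 i).2, Int.emod_eq_of_lt (ha1' i).1 (ha1' i).2] at h5
      refine ⟨h5, ?_⟩
      rw [h5] at h4
      exact mul_left_cancel₀ hQ'.ne' (add_left_cancel h4)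
    exact Prod.ext (funext fun i => (h3 i).1) (funext fun i => (h3 i).2)
  · rintro z ⟨hz1, hz2⟩
    refine ⟨(fun i => z i % Q, fun i => z i / Q), ⟨⟨fun i => ?_, ?_⟩, fun i => ?_⟩, ?_⟩
    · exact ⟨Int.emod_nonneg _ hQ'.ne', Int.emod_lt_of_pos _ hQ'⟩
    · refine hper z _ (fun i => ?_) hz2
      exact ⟨z i / Q, by have := Int.emod_add_mul_ediv (z i) Q; linear_combination -this⟩
    · refine ⟨Int.ediv_nonneg (hz1 i).1 hQ'.le, ?_⟩
      rw [Int.ediv_lt_iff_lt_mul hQ']
      have := (hz1 i).2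
      push_cast at this
      rw [mul_comm]
      exact this
    · funext i
      exact Int.emod_add_mul_ediv (z i) Q

theorem padic_count {n r : ℕ} {e : Fin r → ℕ} (P Q W : ℕ) (hW : 0 < W) (hP : 0 < P)
    (A0 : Sys n e ℤ) (x0 : Fin (n + 1) → ℤ) (hH : Hens P Q W A0 x0) (s : ℕ) (hQ : Q ∣ W ^ s)
    (A : Sys n e ℤ) (hA : ∀ i m, (Q : ℤ) ∣ A i m - A0 i m) :
    Set.ncard {z : Fin (n + 1) → ℤ | (∀ i, 0 ≤ z i ∧ z i < (W : ℤ) ^ s) ∧
      (∀ i, (P : ℤ) ∣ z i - x0 i) ∧ ∀ i, ((W : ℤ) ^ s) ∣ F (A i) z} * (W ^ s / Q) ^ r =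
      nadm P Q A0 x0 * (W ^ s / Q) ^ (n + 1) := by
  classical
  obtain ⟨hPQ, -, -, -, h, hspeed⟩ := hH
  have hM : 0 < W ^ s := pow_pos hW s
  have hMc : ((W : ℤ) ^ s) = ((W ^ s : ℕ) : ℤ) := by push_cast; rfl
  rw [hMc]
  have hdivM : ∀ m : ℕ, m ∣ W ^ s → ∃ s, m ∣ W ^ s := fun m hm => ⟨s, hm⟩
  generalize W ^ s = M at hQ hM hdivM ⊢
  obtain ⟨m, hm⟩ := hQ
  have hQ0 : 0 < Q := Nat.pos_of_ne_zero (by rintro rfl; simp at hm; omega)
  have hm0 : 0 < m := Nat.pos_of_ne_zero (by rintro rfl; simp at hm; omega)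
  have hMQ : M / Q = m := by rw [hm]; exact Nat.mul_div_cancel_left m hQ0
  rw [hMQ]
  have : NeZero M := ⟨hM.ne'⟩
  have : NeZero m := ⟨hm0.ne'⟩
  have hQ1 : (Q : ℤ) ≠ 0 := by exact_mod_cast hQ0.ne'
  have hQM : (Q : ℤ) ∣ (M : ℤ) := ⟨m, by rw [hm]; push_cast; ring⟩
  have hPQ' : (P : ℤ) ∣ (Q : ℤ) := by exact_mod_cast hPQ
  -- periodicity of admissibility
  have hadm_per : ∀ v v' : Fin (n + 1) → ℤ, (∀ i, (Q : ℤ) ∣ v i - v' i) →
      Adm P Q A0 x0 v → Adm P Q A0 x0 v' := by
    intro v v' hv hadm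
    refine ⟨fun i => ?_, fun i => ?_⟩
    · have h1 := dvd_sub (hadm.1 i) (hPQ'.trans (hv i))
      have h2 : v i - x0 i - (v i - v' i) = v' i - x0 i := by ring
      rwa [h2] at h1
    · have h1 := F_congr_mod (Q : ℤ) (A0 i) (A0 i) v v' (fun m => by simp) hv
      have h2 := dvd_sub (hadm.2 i) h1
      simpa using h2
  -- `A` and `A0` have the same values modulo `Q`
  have hAA0 : ∀ (i : Fin r) (v : Fin (n + 1) → ℤ), (Q : ℤ) ∣ F (A i) v ↔ (Q : ℤ) ∣ F (A0 i) v := by
    intro i v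
    have h1 := F_congr_mod (Q : ℤ) (A i) (A0 i) v v (hA i) (fun m => by simp)
    constructor
    · intro h2
      have h3 := dvd_sub h2 h1
      simpa using h3
    · intro h2
      have h3 := dvd_add h1 h2
      simpa using h3
  -- the translations
  set τ : (Fin r → ℤ) → Fin (n + 1) → ℤ := fun c j => P * ∑ t, c t * h t j with hτ
  have hτval : ∀ (x : Fin (n + 1) → ℤ), Adm P Q A0 x0 x → ∀ (c : Fin r → ℤ) (i : Fin r),
      (Q : ℤ) ∣ F (A i) (fun j => x j + τ c j) := by
    intro x hx c i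
    have h1 := (hspeed A hA x hx c (fun _ => 0) 1 ⟨0, one_dvd _⟩).mpr (fun s => by simp) i
    have h2 : (fun j => x j + (P : ℤ) * ∑ t : Fin r, (0 : ℤ) * h t j) = x := by
      funext j; simp
    rw [h2] at h1
    have h3 : (Q : ℤ) ∣ F (A i) x := (hAA0 i x).mpr (hx.2 i)
    have h4 : ((Q * 1 : ℕ) : ℤ) = (Q : ℤ) := by simp
    rw [h4] at h1
    have h5 := dvd_add h1 h3
    simpa using h5
  have hτadm : ∀ (x : Fin (n + 1) → ℤ), Adm P Q A0 x0 x → ∀ (c : Fin r → ℤ),
      Adm P Q A0 x0 (fun j => x j + τ c j) := by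
    intro x hx c
    refine ⟨fun i => ?_, fun i => (hAA0 i _).mp (hτval x hx c i)⟩
    have h1 : x i + τ c i - x0 i = (x i - x0 i) + P * ∑ t, c t * h t i := by rw [hτ]; ring
    rw [h1]
    exact dvd_add (hx.1 i) (dvd_mul_right _ _)
  set good : (Fin (n + 1) → ℤ) → Prop := fun v =>
    (∀ i, (P : ℤ) ∣ v i - x0 i) ∧ ∀ i, (M : ℤ) ∣ F (A i) v with hgood
  have hgood_adm : ∀ v, good v → Adm P Q A0 x0 v := fun v hv =>
    ⟨hv.1, fun i => (hAA0 i v).mp (hQM.trans (hv.2 i))⟩
  have hper : ∀ v v' : Fin (n + 1) → ℤ, (∀ i, (M : ℤ) ∣ v i - v' i) → good v → good v' := by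
    intro v v' hv hg
    refine ⟨fun i => ?_, fun i => ?_⟩
    · have h1 := dvd_sub (hg.1 i) ((hPQ'.trans hQM).trans (hv i))
      have h2 : v i - x0 i - (v i - v' i) = v' i - x0 i := by ring
      rwa [h2] at h1
    · have h1 := F_congr_mod (M : ℤ) (A i) (A i) v v' (fun m => by simp) hv
      have h2 := dvd_sub (hg.2 i) h1
      simpa using h2
  have hnone : ∀ (v : Fin (n + 1) → ℤ) (c : Fin r → ℤ), good (fun i => v i + τ c i) →
      Adm P Q A0 x0 v := by
    intro v c hg
    have h1 := hτadm _ (hgood_adm _ hg) (fun t => -c t)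
    have h2 : (fun j => (v j + τ c j) + τ (fun t => -c t) j) = v := by
      funext j
      rw [hτ]
      simp
    rwa [h2] at h1
  have hone : ∀ v : Fin (n + 1) → ℤ, Adm P Q A0 x0 v →
      ∃! c : Fin r → ZMod m, good (fun i => v i + τ (fun s => ((c s).val : ℤ)) i) := by
    intro v hv
    have hdv : ∀ (c : Fin r → ZMod m) (i : Fin r),
        (Q : ℤ) ∣ F (A i) (fun j => v j + τ (fun t => ((c t).val : ℤ)) j) := fun c i =>
      hτval v hv _ i
    choose G hG using hdv
    have key : ∀ c c' : Fin r → ZMod m, (∀ i, (m : ℤ) ∣ G c i - G c' i) → c = c' := by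
      intro c c' hcc
      have h1 := (hspeed A hA v hv (fun t => ((c t).val : ℤ)) (fun t => ((c' t).val : ℤ)) m
        (hdivM m ⟨Q, by rw [hm]; ring⟩)).mp (fun i => by
          have h2 := hG c i
          have h3 := hG c' i
          simp only [hτ] at h2 h3
          rw [h2, h3, ← mul_sub]
          push_cast
          exact mul_dvd_mul_left _ (hcc i))
      funext t
      have h6 : (((c' t).val : ℤ) : ZMod m) = (((c t).val : ℤ) : ZMod m) :=
        (ZMod.intCast_eq_intCast_iff_dvd_sub _ _ _).mpr (h1 t)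
      simpa using h6.symm
    have hinj : Function.Injective (fun (c : Fin r → ZMod m) (i : Fin r) =>
        ((G c i : ℤ) : ZMod m)) := by
      intro c c' hcc
      refine (key c' c fun i => ?_).symm
      exact (ZMod.intCast_eq_intCast_iff_dvd_sub _ _ _).mp (congrFun hcc i)
    have hsurj := Finite.surjective_of_injective hinj
    have hiff : ∀ c : Fin r → ZMod m, good (fun i => v i + τ (fun s => ((c s).val : ℤ)) i) ↔
        ∀ i, (m : ℤ) ∣ G c i := by
      intro c
      constructor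
      · intro hg i
        have h1 := hg.2 i
        rw [hG c i, hm] at h1
        push_cast at h1
        exact (mul_dvd_mul_iff_left hQ1).mp h1
      · intro hg
        refine ⟨(hτadm v hv _).1, fun i => ?_⟩
        rw [hG c i, hm]
        push_cast
        exact (mul_dvd_mul_iff_left hQ1).mpr (hg i)
    obtain ⟨c, hc⟩ := hsurj (fun _ => 0)
    have hc1 : ∀ i, (m : ℤ) ∣ G c i := fun i =>
      (ZMod.intCast_zmod_eq_zero_iff_dvd _ _).mp (congrFun hc i)
    refine ⟨c, (hiff c).mpr hc1, fun c' hc' => ?_⟩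
    exact key c' c fun i => dvd_sub ((hiff c').mp hc' i) (hc1 i)
  have hcount := pcs_count M m good (Adm P Q A0 x0) hper τ hone hnone
  have h1 := pcs_box M good
  have h2 := pcs_box M (Adm P Q A0 x0)
  have h3 := pcs_periodic Q m hQ0 (Adm P Q A0 x0) hadm_per
  rw [h1, hcount, ← h2, hm, h3]
  rfl

end CIHP
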