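import Pool.Agent.Lib.MP_e426f4_ag.CI.Basic
import Pool.Agent.Lib.MP_e426f4_ag.G.Alg
import Pool.Agent.Lib.MP_e426f4_ag.CI.PadicCount

/-! Module CI-NL: local count of points for a fixed system. -/

namespace CIHP

open Finset GenHP

variable {n r : ℕ} {e : Fin r → ℕ}

theorem nloc (p : Par n e) (eps : ℝ) (w : ℕ) (hp : p.Valid eps w) (th : ℝ)
    (hth : 0 < th) (hth2 : th ≤ p.th1) (s : ℕ) (hs : p.Q ∣ p.W ^ s) (q : ℕ) (hq : 0 < q)
    (hqW : Nat.Coprime q p.W) :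
    ∃ B0 : ℕ, ∀ B : ℕ, B0 ≤ B → ∀ H : ℝ, 0 < H → ∀ A : Sys n e ℤ,
      (∀ i m, |(A i m : ℝ) - H * p.Ainf i m| ≤ 3 * p.rho * H) →
      (∀ i m, (p.Q : ℤ) ∣ A i m - p.A0 i m) → ∀ z : Fin (n + 1) → ℤ,
      (1 - eps) * p.TL th s B / (q : ℝ) ^ (n + 1) ≤
        (Set.ncard {x : Fin (n + 1) → ℤ | x ∈ p.XX B ∧ (∀ i, ((p.W : ℤ) ^ s) ∣ F (A i) x ∧
          |((F (A i) x : ℤ) : ℝ)| ≤ th * H * (B : ℝ) ^ e i) ∧ ∀ i, (q : ℤ) ∣ x i - z i} : ℝ) ∧
      (Set.ncard {x : Fin (n + 1) → ℤ | x ∈ p.XX B ∧ (∀ i, ((p.W : ℤ) ^ s) ∣ F (A i) x ∧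
          |((F (A i) x : ℤ) : ℝ)| ≤ th * H * (B : ℝ) ^ e i) ∧ ∀ i, (q : ℤ) ∣ x i - z i} : ℝ) ≤
        (1 + eps) * p.TL th s B / (q : ℝ) ^ (n + 1) := by
  classical
  obtain ⟨M, hM⟩ : ∃ M : ℕ, M = p.W ^ s := ⟨_, rfl⟩
  have hMpos : 0 < M := by rw [hM]; exact pow_pos hp.W_pos s
  have hMz : ((p.W : ℤ) ^ s) = (M : ℤ) := by rw [hM]; push_cast; rfl
  have hMr : ((p.W : ℝ) ^ s) = (M : ℝ) := by rw [hM]; push_cast; rfl
  have hQM : p.Q ∣ M := by rw [hM]; exact hs
  have hPM : p.P ∣ M := (hp.hens.1).trans hQM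
  have hPMz : (p.P : ℤ) ∣ (M : ℤ) := Int.natCast_dvd_natCast.2 hPM
  have hQMz : (p.Q : ℤ) ∣ (M : ℤ) := Int.natCast_dvd_natCast.2 hQM
  have hcop : IsCoprime (M : ℤ) (q : ℤ) := by
    rw [Nat.isCoprime_iff_coprime, hM]
    exact (Nat.Coprime.pow_right s hqW).symm
  have hMq1 : 1 ≤ M * q := Nat.mul_pos hMpos hq
  obtain ⟨B0, hB0⟩ := hp.rc th hth hth2 (M * q) hMq1
  refine ⟨B0, fun B hB H hH A hA hAQ z => ?_⟩
  have hpc := padic_count p.P p.Q p.W hp.W_pos hp.P_pos p.A0 p.x0 hp.hens s hs A hAQ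
  simp only [hMz] at hpc ⊢
  obtain ⟨RR, hRR⟩ : ∃ RR : Set (Fin (n + 1) → ℤ), RR = {z : Fin (n + 1) → ℤ |
      (∀ i, 0 ≤ z i ∧ z i < (M : ℤ)) ∧
      (∀ i, (p.P : ℤ) ∣ z i - p.x0 i) ∧ ∀ i, (M : ℤ) ∣ F (A i) z} := ⟨_, rfl⟩
  rw [← hRR, ← hM] at hpc
  have hRRfin : RR.Finite := by
    refine GenHP.finite_of_abs_le RR M ?_
    intro x hx i
    rw [hRR] at hx
    have h1 := hx.1 i
    rw [abs_le]
    constructor
    · have : (0 : ℝ) ≤ (x i : ℝ) := by exact_mod_cast h1.1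
      have h2 : (0 : ℝ) ≤ M := by positivity
      linarith
    · exact_mod_cast h1.2.le
  obtain ⟨a, b, hab⟩ := hcop
  -- CRT
  let ρ : (Fin (n + 1) → ℤ) → (Fin (n + 1) → ℤ) := fun u i => u i + a * M * (z i - u i)
  have hρ : ∀ u x : Fin (n + 1) → ℤ, (∀ i, ((M * q : ℕ) : ℤ) ∣ x i - ρ u i) ↔
      (∀ i, (M : ℤ) ∣ x i - u i) ∧ (∀ i, (q : ℤ) ∣ x i - z i) := by
    intro u x
    constructor
    · intro h
      constructor
      · intro i
        have h1 : (M : ℤ) ∣ x i - ρ u i := (Dvd.intro _ (by push_cast; rfl)).trans (h i)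
        have h2 : x i - u i = (x i - ρ u i) + M * (a * (z i - u i)) := by
          simp only [ρ]; ring
        rw [h2]
        exact dvd_add h1 (Dvd.intro _ rfl)
      · intro i
        have h1 : (q : ℤ) ∣ x i - ρ u i := (Dvd.intro_left _ (by push_cast; rfl)).trans (h i)
        have h2 : x i - z i = (x i - ρ u i) + q * (b * (u i - z i)) := by
          simp only [ρ]
          linear_combination (z i - u i) * hab
        rw [h2]
        exact dvd_add h1 (Dvd.intro _ rfl)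
    · rintro ⟨h1, h2⟩ i
      push_cast
      apply IsCoprime.mul_dvd ⟨a, b, hab⟩
      · have h3 : x i - ρ u i = (x i - u i) - M * (a * (z i - u i)) := by
          simp only [ρ]; ring
        rw [h3]
        exact dvd_sub (h1 i) (Dvd.intro _ rfl)
      · have h3 : x i - ρ u i = (x i - z i) - q * (b * (u i - z i)) := by
          simp only [ρ]
          linear_combination -(z i - u i) * hab
        rw [h3]
        exact dvd_sub (h2 i) (Dvd.intro _ rfl)
  obtain ⟨Z, hZ⟩ : ∃ Z : Set (Fin (n + 1) → ℤ), Z = {x : Fin (n + 1) → ℤ | x ∈ p.XX B ∧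
      (∀ i, (M : ℤ) ∣ F (A i) x ∧ |((F (A i) x : ℤ) : ℝ)| ≤ th * H * (B : ℝ) ^ e i) ∧
      ∀ i, (q : ℤ) ∣ x i - z i} := ⟨_, rfl⟩
  rw [← hZ]
  have hZfin : Z.Finite := (XX_finite p B).subset fun x hx => by rw [hZ] at hx; exact hx.1
  let f : (Fin (n + 1) → ℤ) → (Fin (n + 1) → ℤ) := fun x i => x i % M
  have hMz0 : (M : ℤ) ≠ 0 := by exact_mod_cast hMpos.ne'
  have hMzpos : (0 : ℤ) < M := by exact_mod_cast hMpos
  have hf : ∀ x ∈ hZfin.toFinset, f x ∈ hRRfin.toFinset := by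
    intro x hx
    rw [Set.Finite.mem_toFinset] at hx ⊢
    rw [hZ] at hx
    rw [hRR]
    have hdvd : ∀ i, (M : ℤ) ∣ f x i - x i := by
      intro i
      have h1 := Int.mul_ediv_add_emod (x i) M
      refine ⟨-(x i / M), ?_⟩
      simp only [f]
      linear_combination h1
    refine ⟨fun i => ⟨Int.emod_nonneg _ hMz0, Int.emod_lt_of_pos _ hMzpos⟩, ?_, ?_⟩
    · intro i
      have h1 : f x i - p.x0 i = (f x i - x i) + (x i - p.x0 i) := by ring
      rw [h1]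
      exact dvd_add (hPMz.trans (hdvd i)) (hx.1.2.1 i)
    · intro i
      have h1 := F_congr_mod (M : ℤ) (A i) (A i) (f x) x (fun m => by simp) hdvd
      have h2 : F (A i) (f x) = (F (A i) (f x) - F (A i) x) + F (A i) x := by ring
      rw [h2]
      exact dvd_add h1 (hx.2.1 i).1
  have hcard : Z.ncard = ∑ u ∈ hRRfin.toFinset,
      (hZfin.toFinset.filter (fun x => f x = u)).card := by
    rw [Set.ncard_eq_toFinset_card Z hZfin]
    exact Finset.card_eq_sum_card_fiberwise hf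
  have hfib : ∀ u ∈ hRRfin.toFinset,
      (((hZfin.toFinset.filter (fun x => f x = u)).card : ℕ) : ℝ) =
      (Set.ncard {x : Fin (n + 1) → ℤ | x ∈ Reg p.xi p.J p.kap B ∧
          (∀ i, ((M * q : ℕ) : ℤ) ∣ x i - ρ u i) ∧
          ∀ i, |((F (A i) x : ℤ) : ℝ)| ≤ th * H * (B : ℝ) ^ e i} : ℝ) := by
    intro u hs
    rw [Set.Finite.mem_toFinset, hRR] at hs
    congr 1
    rw [← Set.ncard_coe_finset]
    congr 1
    ext x
    rw [Finset.mem_coe, Finset.mem_filter, Set.Finite.mem_toFinset, hZ]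
    simp only [Set.mem_ofPred_eq]
    rw [hρ u x]
    have hfx : f x = u ↔ ∀ i, (M : ℤ) ∣ x i - u i := by
      constructor
      · rintro h i
        rw [← h]
        have h1 := Int.mul_ediv_add_emod (x i) M
        refine ⟨x i / M, ?_⟩
        simp only [f]
        linear_combination -h1
      · intro h
        funext i
        simp only [f]
        obtain ⟨k, hk⟩ := h i
        have h1 : x i = u i + M * k := by linarith
        rw [h1, Int.add_mul_emod_self_left]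
        exact Int.emod_eq_of_lt (hs.1 i).1 (hs.1 i).2
    constructor
    · rintro ⟨⟨h1, h2, h4⟩, h5⟩
      exact ⟨h1.1, ⟨hfx.1 h5, h4⟩, fun i => (h2 i).2⟩
    · rintro ⟨h1, ⟨h2, h3⟩, h4⟩
      have h6 : ∀ i, (M : ℤ) ∣ F (A i) x := by
        intro i
        have h5 := F_congr_mod (M : ℤ) (A i) (A i) x u (fun m => by simp) h2
        have h6 : F (A i) x = (F (A i) x - F (A i) u) + F (A i) u := by ring
        rw [h6]
        exact dvd_add h5 (hs.2.2 i)
      refine ⟨⟨⟨h1, ?_, ?_⟩, fun i => ⟨h6 i, h4 i⟩, h3⟩, hfx.2 h2⟩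
      · intro i
        have h5 : x i - p.x0 i = (x i - u i) + (u i - p.x0 i) := by ring
        rw [h5]
        exact dvd_add (hPMz.trans (h2 i)) (hs.2.1 i)
      · intro i
        have h5 := F_congr_mod (p.Q : ℤ) (p.A0 i) (A i) x x
          (fun m => by
            have := hAQ i m
            rw [← Int.dvd_neg] at this
            simpa using this) (fun j => by simp)
        have h7 : F (p.A0 i) x = (F (p.A0 i) x - F (A i) x) + F (A i) x := by ring
        rw [h7]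
        exact dvd_add h5 (hQMz.trans (h6 i))
  have hQ0 : (0 : ℝ) < p.Q := by exact_mod_cast hp.Q_pos
  have hM0 : (0 : ℝ) < M := by exact_mod_cast hMpos
  have hq0 : (0 : ℝ) < q := by exact_mod_cast hq
  have hdiv : ((M / p.Q : ℕ) : ℝ) = (M : ℝ) / p.Q := Nat.cast_div hQM hQ0.ne'
  have hRc : (RR.ncard : ℝ) * ((M : ℝ) / p.Q) ^ r =
      nadm p.P p.Q p.A0 p.x0 * ((M : ℝ) / p.Q) ^ (n + 1) := by
    rw [← hdiv]
    exact_mod_cast hpc
  have hRcard : (hRRfin.toFinset.card : ℝ) = (RR.ncard : ℝ) := by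
    rw [Set.ncard_eq_toFinset_card RR hRRfin]
  have hRc' : (RR.ncard : ℝ) =
      nadm p.P p.Q p.A0 p.x0 * ((M : ℝ) / p.Q) ^ (n + 1) / ((M : ℝ) / p.Q) ^ r := by
    rw [eq_div_iff (by positivity)]
    exact hRc
  have hZc : (Z.ncard : ℝ) = ∑ u ∈ hRRfin.toFinset,
      (((hZfin.toFinset.filter (fun x => f x = u)).card : ℕ) : ℝ) := by
    rw [hcard]
    push_cast
    rfl
  have hgam : (Jac p.Ainf p.xi p.J).det = p.gam := rfl
  have hTL : p.TL th s B = Vol n r p.gam p.kap th B *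
      (nadm p.P p.Q p.A0 p.x0 / (p.Q : ℝ) ^ (n + 1)) * ((p.Q : ℝ) / M) ^ r := by
    rw [← hMr]; rfl
  rw [hZc, hTL]
  constructor
  · have h1 : ∀ u ∈ hRRfin.toFinset,
        (1 - eps) * Vol n r p.gam p.kap th B / ((M * q : ℕ) : ℝ) ^ (n + 1) ≤
        (((hZfin.toFinset.filter (fun x => f x = u)).card : ℕ) : ℝ) := by
      intro u hs
      rw [hfib u hs]
      have := (hB0 B hB H hH A hA (ρ u)).1
      rw [hgam] at this
      exact this
    have h2 := Finset.card_nsmul_le_sum _ _ _ h1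
    refine le_trans (le_of_eq ?_) h2
    rw [nsmul_eq_mul, hRcard, hRc']
    push_cast
    rw [mul_pow, div_pow, div_pow, div_pow]
    field_simp
  · have h1 : ∀ u ∈ hRRfin.toFinset, (((hZfin.toFinset.filter (fun x => f x = u)).card : ℕ) : ℝ) ≤
        (1 + eps) * Vol n r p.gam p.kap th B / ((M * q : ℕ) : ℝ) ^ (n + 1) := by
      intro u hs
      rw [hfib u hs]
      have := (hB0 B hB H hH A hA (ρ u)).2
      rw [hgam] at this
      exact this
    have h2 := Finset.sum_le_card_nsmul _ _ _ h1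
    refine h2.trans (le_of_eq ?_)
    rw [nsmul_eq_mul, hRcard, hRc']
    push_cast
    rw [mul_pow, div_pow, div_pow, div_pow]
    field_simp

end CIHP
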