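import Pool.Agent.Lib.MP_e426f4_ag.CI.BadB
import Pool.Agent.Lib.MP_e426f4_ag.CI.CardCl
import Pool.Agent.Lib.MP_e426f4_ag.CI.NLoc
import Pool.Agent.Lib.MP_e426f4_ag.G.BadC

/-! CI-BPc: points divisible by a medium prime contribute little. -/

namespace CIHP

open Finset Filter Topology GenHP

variable {n r : ℕ} {e : Fin r → ℕ}

theorem bp_coprime_of_gt (p : Par n e) (eps : ℝ) (w : ℕ) (hp : p.Valid eps w)
    (l : ℕ) (hl : l.Prime) (hlw : w < l) : Nat.Coprime l p.W := by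
  rw [Nat.Prime.coprime_iff_not_dvd hl]
  intro h
  have := (hp.W_primes l hl).1 h
  omega

theorem bp_Cl_near (p : Par n e) (eps : ℝ) (w : ℕ) (hp : p.Valid eps w)
    (u H : ℝ) (hH : 0 ≤ H) (hu : u ≤ 2 * p.rho) (A : Sys n e ℤ) (hA : A ∈ p.Cl u H)
    (i : Fin r) (m : Idx n (e i)) : |(A i m : ℝ) - H * p.Ainf i m| ≤ 3 * p.rho * H := by
  calc |(A i m : ℝ) - H * p.Ainf i m| =
        |((A i m : ℝ) - H * p.AC i m) + H * (p.AC i m - p.Ainf i m)| := by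
        ring_nf
    _ ≤ |(A i m : ℝ) - H * p.AC i m| + |H * (p.AC i m - p.Ainf i m)| := abs_add_le _ _
    _ ≤ u * H + H * p.rho := by
        refine add_le_add (hA.1 i m) ?_
        rw [abs_mul, abs_of_nonneg hH]
        exact mul_le_mul_of_nonneg_left (hp.AC_near i m) hH
    _ ≤ 3 * p.rho * H := by nlinarith

/-- CI-BPc (BadC.lean): points divisible by a prime in `(w, z]` -/
theorem bad_medium_prime (p : Par n e) (eps : ℝ) (w : ℕ) (hp : p.Valid eps w)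
    (z : ℕ) (th : ℝ) (hth : 0 < th) (hth2 : th ≤ p.th1) (s : ℕ) (hs : p.Q ∣ p.W ^ s) :
    ∀ᶠ H : ℝ in atTop,
      ((p.LP p.rho th s {x | x ∈ p.XX (p.B H) ∧ ∃ l : ℕ, l.Prime ∧ w < l ∧ l ≤ z ∧
          ∀ i, (l : ℤ) ∣ x i} H).ncard : ℝ) ≤ 2 / w * p.MT th s H := by
  classical
  have hg : 0 < |p.gam| := abs_pos.2 hp.gam_ne
  have hd := dens_pos p eps w hp
  have hQ : (0 : ℝ) < p.Q := by exact_mod_cast hp.Q_pos
  have hW : (0 : ℝ) < p.W := by exact_mod_cast hp.W_pos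
  have hk := hp.kap_pos
  have hr := hp.rho_pos
  have he := hp.eps_pos
  have he1 := hp.eps_le
  have hw2 := hp.w_two
  let PP : Finset ℕ := (Finset.Ioc w z).filter Nat.Prime
  have hall : ∀ l ∈ PP, ∀ᶠ H : ℝ in atTop, ∀ A ∈ p.Cl p.rho H,
      (Set.ncard {x : Fin (n + 1) → ℤ | x ∈ p.XX (p.B H) ∧ (∀ i, ((p.W : ℤ) ^ s) ∣ F (A i) x ∧
          |((F (A i) x : ℤ) : ℝ)| ≤ th * H * (p.B H : ℝ) ^ e i) ∧ ∀ i, (l : ℤ) ∣ x i - 0} : ℝ) ≤
        (1 + eps) * p.TL th s (p.B H) / (l : ℝ) ^ (n + 1) := by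
    intro l hl
    simp only [PP, Finset.mem_filter, Finset.mem_Ioc] at hl
    obtain ⟨B0, hB0⟩ := nloc p eps w hp th hth hth2 s hs l hl.2.pos
      (bp_coprime_of_gt p eps w hp l hl.2 hl.1.1)
    filter_upwards [eventually_gt_atTop 0,
      (Bf_atTop e hp.r_pos hp.sum_le p.C0 hp.C0_ge).eventually
      (eventually_ge_atTop B0)] with H hH hB A hA
    exact (hB0 (p.B H) hB H hH A (fun i m => bp_Cl_near p eps w hp p.rho H hH.le
      (by linarith) A hA i m) hA.2 (fun _ => 0)).2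
  have hall' := (Filter.eventually_all_finset PP).2 hall
  filter_upwards [hall', card_Cl p hp.Q_pos p.rho eps hr he, eventually_ge_atTop 0]
    with H hH hCl hH0
  have hXn : 0 ≤ p.Xn H := by
    rw [Par.Xn]
    positivity
  have hCl2 : ((p.Cl p.rho H).ncard : ℝ) ≤ (1 + eps) * p.Xn H := hCl.2
  obtain ⟨T, hT⟩ : ∃ T, T = p.TL th s (p.B H) := ⟨_, rfl⟩
  have hT0 : 0 ≤ T := by
    rw [hT, Par.TL, Vol]
    positivity
  rw [← hT] at hH
  let U : ℕ → Set (Sys n e ℤ × (Fin (n + 1) → ℤ)) := fun l =>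
    {q | q.1 ∈ p.Cl p.rho H ∧ q.2 ∈ p.XX (p.B H) ∧ (∀ i, ((p.W : ℤ) ^ s) ∣ F (q.1 i) q.2 ∧
      |((F (q.1 i) q.2 : ℤ) : ℝ)| ≤ th * H * (p.B H : ℝ) ^ e i) ∧ ∀ i, (l : ℤ) ∣ q.2 i - 0}
  have hUfin : ∀ l, (U l).Finite := fun l =>
    ((Cl_finite p p.rho H).prod (XX_finite p (p.B H))).subset fun q hq => ⟨hq.1, hq.2.1⟩
  have hU : ∀ l ∈ PP, ((U l).ncard : ℝ) ≤
      (1 + eps) * T / (l : ℝ) ^ (n + 1) * (p.Cl p.rho H).ncard := by
    intro l hl
    refine bp_ncard_fiber_le (U l) (hUfin l) Prod.fst (p.Cl p.rho H) (Cl_finite p p.rho H)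
      (fun q hq => hq.1) _ ?_
    intro A hA
    have hset : {q | q ∈ U l ∧ q.1 = A} = (fun x : Fin (n + 1) → ℤ => (A, x)) ''
        {x : Fin (n + 1) → ℤ | x ∈ p.XX (p.B H) ∧ (∀ i, ((p.W : ℤ) ^ s) ∣ F (A i) x ∧
          |((F (A i) x : ℤ) : ℝ)| ≤ th * H * (p.B H : ℝ) ^ e i) ∧ ∀ i, (l : ℤ) ∣ x i - 0} := by
      ext q
      constructor
      · rintro ⟨⟨h1, h2⟩, rfl⟩
        exact ⟨q.2, h2, rfl⟩
      · rintro ⟨x, hx, rfl⟩
        exact ⟨⟨hA, hx⟩, rfl⟩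
    rw [hset, Set.ncard_image_of_injective _ (fun x y hxy => (Prod.mk.inj hxy).2)]
    exact hH l hl A hA
  have hsub : p.LP p.rho th s {x | x ∈ p.XX (p.B H) ∧ ∃ l : ℕ, l.Prime ∧ w < l ∧ l ≤ z ∧
      ∀ i, (l : ℤ) ∣ x i} H ⊆
      ((PP.biUnion fun l => (hUfin l).toFinset :
        Finset (Sys n e ℤ × (Fin (n + 1) → ℤ))) :
        Set (Sys n e ℤ × (Fin (n + 1) → ℤ))) := by
    rintro q ⟨h1, ⟨h2, l, hl, hwl, hlz, hlx⟩, h3⟩
    rw [Finset.mem_coe, Finset.mem_biUnion]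
    refine ⟨l, ?_, ?_⟩
    · simp only [PP, Finset.mem_filter, Finset.mem_Ioc]
      exact ⟨⟨hwl, hlz⟩, hl⟩
    · rw [Set.Finite.mem_toFinset]
      exact ⟨h1, h2, h3, fun i => by rw [sub_zero]; exact hlx i⟩
  have h1 := Set.ncard_le_ncard hsub (Finset.finite_toSet _)
  rw [Set.ncard_coe_finset] at h1
  have h2 : ((PP.biUnion fun l => (hUfin l).toFinset).card : ℝ) ≤
      ∑ l ∈ PP, ((U l).ncard : ℝ) := by
    have h3 : ((PP.biUnion fun l => (hUfin l).toFinset).card : ℝ) ≤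
        ∑ l ∈ PP, (((hUfin l).toFinset).card : ℝ) := by
      exact_mod_cast Finset.card_biUnion_le
    refine h3.trans (le_of_eq ?_)
    refine Finset.sum_congr rfl fun l _ => ?_
    rw [Set.ncard_eq_toFinset_card _ (hUfin l)]
  have hn1 : 1 ≤ n := by have := hp.n_ge; omega
  have h4 : ∑ l ∈ PP, (1 : ℝ) / (l : ℝ) ^ (n + 1) ≤ 1 / w := by
    refine le_trans ?_ (bp_sum_inv_pow_le n w z hn1 (by omega))
    refine Finset.sum_le_sum_of_subset_of_nonneg (Finset.filter_subset _ _) ?_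
    intro l _ _
    positivity
  have hMT : p.MT th s H = T * p.Xn H := by rw [Par.MT, hT]
  rw [hMT]
  have hw' : (0 : ℝ) < w := by exact_mod_cast (by omega : 0 < w)
  calc ((p.LP p.rho th s {x | x ∈ p.XX (p.B H) ∧ ∃ l : ℕ, l.Prime ∧ w < l ∧ l ≤ z ∧
          ∀ i, (l : ℤ) ∣ x i} H).ncard : ℝ)
      ≤ ((PP.biUnion fun l => (hUfin l).toFinset).card : ℝ) := by exact_mod_cast h1
    _ ≤ ∑ l ∈ PP, ((U l).ncard : ℝ) := h2
    _ ≤ ∑ l ∈ PP, (1 + eps) * T / (l : ℝ) ^ (n + 1) * (p.Cl p.rho H).ncard :=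
        Finset.sum_le_sum hU
    _ = (1 + eps) * T * (p.Cl p.rho H).ncard * ∑ l ∈ PP, (1 : ℝ) / (l : ℝ) ^ (n + 1) := by
        rw [Finset.mul_sum]
        refine Finset.sum_congr rfl fun l _ => ?_
        ring
    _ ≤ (1 + eps) * T * (p.Cl p.rho H).ncard * (1 / w) :=
        mul_le_mul_of_nonneg_left h4 (by positivity)
    _ ≤ (1 + eps) * T * ((1 + eps) * p.Xn H) * (1 / w) := by
        apply mul_le_mul_of_nonneg_right _ (by positivity)
        exact mul_le_mul_of_nonneg_left hCl2 (by positivity)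
    _ = (1 + eps) ^ 2 * (T * p.Xn H * (1 / w)) := by ring
    _ ≤ 2 * (T * p.Xn H * (1 / w)) := by
        apply mul_le_mul_of_nonneg_right _ (by positivity)
        nlinarith
    _ = 2 / w * (T * p.Xn H) := by ring

end CIHP
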