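import Pool.Agent.Lib.MP_e426f4_ag.G.CoordControl

/-! Module CI-FN1a: a real subspace which contains every integer vector near it has a bounded
integral normal vector. -/

namespace CIHP

open Finset

/-- simultaneous approximation (pigeonhole) -/
theorem dirichlet_simult {κ : Type*} [Fintype κ] (s : ℕ) (hs : 1 ≤ s) (r : κ → ℝ) :
    ∃ q : ℕ, 1 ≤ q ∧ q ≤ s ^ Fintype.card κ ∧ ∃ a : κ → ℤ, ∀ k, |(q : ℝ) * r k - a k| ≤ 1 / s := by
  classical
  have hs0 : (0 : ℝ) < s := by exact_mod_cast hs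
  let f : ℕ → κ → Fin s := fun q k => ⟨⌊(s : ℝ) * Int.fract ((q : ℝ) * r k)⌋₊, by
    rw [Nat.floor_lt (by positivity)]
    have := Int.fract_lt_one ((q : ℝ) * r k)
    nlinarith⟩
  obtain ⟨q1, hq1, q2, hq2, hne, hf⟩ := Finset.exists_ne_map_eq_of_card_lt_of_maps_to
    (s := Finset.range (s ^ Fintype.card κ + 1)) (t := (Finset.univ : Finset (κ → Fin s)))
    (f := f) (by
      rw [Finset.card_univ, Finset.card_range, Fintype.card_fun, Fintype.card_fin]
      omega) (fun _ _ => Finset.mem_coe.mpr (Finset.mem_univ _))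
  wlog hlt : q1 < q2 generalizing q1 q2
  · exact this q2 hq2 q1 hq1 hne.symm hf.symm (lt_of_le_of_ne (not_lt.mp hlt) hne.symm)
  rw [Finset.mem_range] at hq1 hq2
  refine ⟨q2 - q1, by omega, by omega, fun k => ⌊(q2 : ℝ) * r k⌋ - ⌊(q1 : ℝ) * r k⌋, fun k => ?_⟩
  have h1 : ⌊(s : ℝ) * Int.fract ((q1 : ℝ) * r k)⌋₊ = ⌊(s : ℝ) * Int.fract ((q2 : ℝ) * r k)⌋₊ := by
    have := congrFun hf k
    simp only [f] at this
    exact congrArg Fin.val this
  have h2 : |(s : ℝ) * Int.fract ((q2 : ℝ) * r k) - (s : ℝ) * Int.fract ((q1 : ℝ) * r k)| ≤ 1 := by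
    have a1 := Nat.floor_le (show 0 ≤ (s : ℝ) * Int.fract ((q1 : ℝ) * r k) by positivity)
    have a2 := Nat.lt_floor_add_one ((s : ℝ) * Int.fract ((q1 : ℝ) * r k))
    have b1 := Nat.floor_le (show 0 ≤ (s : ℝ) * Int.fract ((q2 : ℝ) * r k) by positivity)
    have b2 := Nat.lt_floor_add_one ((s : ℝ) * Int.fract ((q2 : ℝ) * r k))
    rw [h1] at a1 a2
    rw [abs_le]
    constructor <;> linarith
  have h3 : ((q2 - q1 : ℕ) : ℝ) * r k - ((⌊(q2 : ℝ) * r k⌋ - ⌊(q1 : ℝ) * r k⌋ : ℤ) : ℝ) =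
      Int.fract ((q2 : ℝ) * r k) - Int.fract ((q1 : ℝ) * r k) := by
    rw [Nat.cast_sub hlt.le]
    push_cast
    rw [← Int.self_sub_floor, ← Int.self_sub_floor]
    ring
  rw [h3, le_div_iff₀ hs0]
  have h5 : |Int.fract ((q2 : ℝ) * r k) - Int.fract ((q1 : ℝ) * r k)| * s =
      |(s : ℝ) * Int.fract ((q2 : ℝ) * r k) - (s : ℝ) * Int.fract ((q1 : ℝ) * r k)| := by
    rw [← mul_sub, abs_mul, abs_of_pos hs0, mul_comm]
  rw [h5]
  exact h2

/-- integral kernel vectors of boundedly many matrices are bounded -/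
theorem kernel_choice (κ : Type*) [Fintype κ] [DecidableEq κ] (M : ℕ) : ∃ Q0 : ℕ,
    ∀ A : κ → κ → ℤ, (∀ i k, |A i k| ≤ (M : ℤ)) →
      (∃ N : κ → ℤ, N ≠ 0 ∧ ∀ i, ∑ k, A i k * N k = 0) →
      ∃ N : κ → ℤ, N ≠ 0 ∧ (∀ k, |N k| ≤ (Q0 : ℤ)) ∧ ∀ i, ∑ k, A i k * N k = 0 := by
  classical
  let P : (κ → κ → ℤ) → Prop := fun A => ∃ N : κ → ℤ, N ≠ 0 ∧ ∀ i, ∑ k, A i k * N k = 0
  let f : (κ → κ → ℤ) → κ → ℤ := fun A => if h : P A then h.choose else 0
  let S : Finset (κ → κ → ℤ) := Fintype.piFinset fun _ => Fintype.piFinset fun _ =>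
    Finset.Icc (-(M : ℤ)) M
  refine ⟨∑ A ∈ S, ∑ k, (f A k).natAbs, ?_⟩
  intro A hA hP
  have hf : f A = Exists.choose hP := dif_pos hP
  have hspec := Exists.choose_spec hP
  rw [← hf] at hspec
  refine ⟨f A, hspec.1, fun k => ?_, hspec.2⟩
  have hAS : A ∈ S := by
    rw [Fintype.mem_piFinset]
    intro i
    rw [Fintype.mem_piFinset]
    intro k
    rw [Finset.mem_Icc]
    exact abs_le.mp (hA i k)
  have h1 : (f A k).natAbs ≤ ∑ k, (f A k).natAbs :=
    Finset.single_le_sum (f := fun k => (f A k).natAbs) (fun _ _ => Nat.zero_le _)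
      (Finset.mem_univ k)
  have h2 : ∑ k, (f A k).natAbs ≤ ∑ A ∈ S, ∑ k, (f A k).natAbs :=
    Finset.single_le_sum (f := fun A => ∑ k, (f A k).natAbs) (fun _ _ => Nat.zero_le _) hAS
  have h3 : (f A k).natAbs ≤ ∑ A ∈ S, ∑ k, (f A k).natAbs := h1.trans h2
  have h4 : ((f A k).natAbs : ℤ) ≤ ((∑ A ∈ S, ∑ k, (f A k).natAbs : ℕ) : ℤ) := by exact_mod_cast h3
  rwa [Int.natCast_natAbs] at h4

theorem bounded_normal (κ : Type*) [Fintype κ] [DecidableEq κ] (s : ℕ) (hs : 2 ≤ s) : ∃ Q0 : ℕ,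
    ∀ R : Submodule ℝ (κ → ℝ), R ≠ ⊤ →
      (∀ (a : κ → ℤ) (c : κ → ℝ), (∀ k, |c k| ≤ 1 / s) → (fun k => (a k : ℝ) - c k) ∈ R →
        (fun k => (a k : ℝ)) ∈ R) →
      ∃ N : κ → ℤ, N ≠ 0 ∧ (∀ k, |N k| ≤ (Q0 : ℤ)) ∧ ∀ c ∈ R, ∑ k, c k * (N k : ℝ) = 0 := by
  classical
  set m := Fintype.card κ with hm
  set C : ℕ := m ^ m with hC
  obtain ⟨Q0, hQ0⟩ := kernel_choice κ (C * s ^ m)
  refine ⟨Q0, ?_⟩
  intro R hR hgap
  have hs0 : (0 : ℝ) < s := by exact_mod_cast (by omega : 0 < s)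
  obtain ⟨J, hJcard, hJ⟩ := GenHP.coord_control R
  have hrank : Module.finrank ℝ R < m := by
    have h1 := Submodule.finrank_lt hR
    rwa [Module.finrank_fintype_fun_eq_card] at h1
  -- elements of `R` vanishing on `J` are zero
  have hzero : ∀ u ∈ R, (∀ j ∈ J, u j = 0) → u = 0 := by
    intro u hu h
    funext i
    have h1 := hJ u hu 0 le_rfl (fun j hj => by rw [h j hj, abs_zero]) i
    rw [mul_zero] at h1
    exact abs_nonpos_iff.mp h1
  -- the restriction `R → ℝ^J` is bijective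
  let ρ : R →ₗ[ℝ] (J → ℝ) := LinearMap.pi fun j => (LinearMap.proj (j : κ)).comp R.subtype
  have hρ : Function.Injective ρ := by
    rw [injective_iff_map_eq_zero]
    intro u hu
    apply Subtype.ext
    refine hzero u.1 u.2 fun j hj => ?_
    exact congrFun hu ⟨j, hj⟩
  have hsurj : Function.Surjective ρ := by
    have h1 := LinearMap.finrank_le_finrank_of_injective hρ
    rw [Module.finrank_fintype_fun_eq_card, Fintype.card_coe] at h1
    have h2 : Module.finrank ℝ R = Module.finrank ℝ (J → ℝ) := by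
      rw [Module.finrank_fintype_fun_eq_card, Fintype.card_coe]
      omega
    exact (LinearMap.injective_iff_surjective_of_finrank_eq_finrank h2).mp hρ
  -- the integral vectors
  have hint : ∀ j : J, ∃ a : κ → ℤ, (fun k => (a k : ℝ)) ∈ R ∧ (∀ k, |a k| ≤ ((C * s ^ m : ℕ) : ℤ)) ∧
      ∃ q : ℕ, 1 ≤ q ∧ ∀ i ∈ J, a i = if i = (j : κ) then (q : ℤ) else 0 := by
    intro j
    obtain ⟨r, hr⟩ := hsurj (Pi.single j 1)
    have hrJ : ∀ i (hi : i ∈ J), r.1 i = if i = (j : κ) then 1 else 0 := by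
      intro i hi
      have h1 := congrFun hr ⟨i, hi⟩
      have h2 : ρ r ⟨i, hi⟩ = r.1 i := rfl
      rw [h2, Pi.single_apply] at h1
      rw [h1]
      simp only [Subtype.ext_iff]
    have hrb : ∀ i, |r.1 i| ≤ (C : ℝ) := by
      intro i
      have h1 := hJ r.1 r.2 1 zero_le_one (fun i hi => by
        rw [hrJ i hi]
        split_ifs <;> simp) i
      rw [mul_one] at h1
      rw [hC, hm]
      push_cast
      exact h1
    obtain ⟨q, hq1, hqs, a, ha⟩ := dirichlet_simult s (by omega) r.1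
    have haR : (fun k => (a k : ℝ)) ∈ R := by
      refine hgap a (fun k => (a k : ℝ) - q * r.1 k) (fun k => ?_) ?_
      · rw [abs_sub_comm]
        exact ha k
      · have : (fun k => (a k : ℝ) - ((a k : ℝ) - q * r.1 k)) = (q : ℝ) • r.1 := by
          funext k
          simp
        rw [this]
        exact R.smul_mem _ r.2
    have haJ : ∀ i ∈ J, a i = if i = (j : κ) then (q : ℤ) else 0 := by
      intro i hi
      have h1 := ha i
      have h2 : (q : ℝ) * r.1 i = ((if i = (j : κ) then (q : ℤ) else 0 : ℤ) : ℝ) := by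
        rw [hrJ i hi]
        split_ifs <;> simp
      rw [h2] at h1
      have h3 : |(((if i = (j : κ) then (q : ℤ) else 0) - a i : ℤ) : ℝ)| < 1 := by
        push_cast
        push_cast at h1
        refine h1.trans_lt ?_
        rw [div_lt_one hs0]
        exact_mod_cast (by omega : 1 < s)
      have h4 : |(if i = (j : κ) then (q : ℤ) else 0) - a i| < 1 := by exact_mod_cast h3
      have h5 := Int.abs_lt_one_iff.mp h4
      omega
    have haq : (fun k => (a k : ℝ)) = (q : ℝ) • r.1 := by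
      have h1 : (fun k => (a k : ℝ)) - (q : ℝ) • r.1 = 0 := by
        refine hzero _ (R.sub_mem haR (R.smul_mem _ r.2)) fun i hi => ?_
        simp only [Pi.sub_apply, Pi.smul_apply, smul_eq_mul]
        rw [haJ i hi, hrJ i hi]
        split_ifs <;> simp
      exact sub_eq_zero.mp h1
    refine ⟨a, haR, fun k => ?_, q, hq1, haJ⟩
    have h1 : (a k : ℝ) = q * r.1 k := congrFun haq k
    have h2 : |(a k : ℝ)| ≤ (C : ℝ) * (s : ℝ) ^ m := by
      rw [h1, abs_mul, Nat.abs_cast, mul_comm]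
      have : (q : ℝ) ≤ (s : ℝ) ^ m := by exact_mod_cast hqs
      exact mul_le_mul (hrb k) this (Nat.cast_nonneg q) (Nat.cast_nonneg C)
    have h3 : ((|a k| : ℤ) : ℝ) ≤ (((C * s ^ m : ℕ) : ℤ) : ℝ) := by
      push_cast
      exact h2
    exact_mod_cast h3
  choose a haR hab q hq haJ using hint
  -- the padded matrix
  let A : κ → κ → ℤ := fun i k => if h : i ∈ J then a ⟨i, h⟩ k else 0
  have hAb : ∀ i k, |A i k| ≤ ((C * s ^ m : ℕ) : ℤ) := by
    intro i k
    simp only [A]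
    split_ifs with h
    · exact hab _ k
    · rw [abs_zero]
      positivity
  have hAker : ∃ N : κ → ℤ, N ≠ 0 ∧ ∀ i, ∑ k, A i k * N k = 0 := by
    have hJm : J.card < m := hJcard.trans_lt hrank
    rcases Finset.eq_empty_or_nonempty J with hJe | hJne
    · have hκ : Nonempty κ := by
        rw [← Fintype.card_pos_iff]
        omega
      obtain ⟨k0⟩ := hκ
      refine ⟨Pi.single k0 1, by simp, fun i => ?_⟩
      refine Finset.sum_eq_zero fun k _ => ?_
      have : A i k = 0 := by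
        simp only [A]
        rw [dif_neg]
        rw [hJe]
        exact Finset.notMem_empty i
      rw [this, zero_mul]
    · have h1 := Int.Matrix.exists_ne_zero_int_vec_norm_le (Matrix.of fun (i : J) (k : κ) => a i k)
        (by rw [Fintype.card_coe]; exact hJm) (by rw [Fintype.card_coe]; exact hJne.card_pos)
      obtain ⟨t, ht, hAt, -⟩ := h1
      refine ⟨t, ht, fun i => ?_⟩
      by_cases hi : i ∈ J
      · have h2 := congrFun hAt ⟨i, hi⟩
        rw [Matrix.mulVec, dotProduct] at h2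
        simp only [Matrix.of_apply, Pi.zero_apply] at h2
        have : ∀ k, A i k = a ⟨i, hi⟩ k := fun k => dif_pos hi
        simp only [this]
        exact h2
      · refine Finset.sum_eq_zero fun k _ => ?_
        have : A i k = 0 := dif_neg hi
        rw [this, zero_mul]
  obtain ⟨N, hN0, hNb, hN⟩ := hQ0 A hAb hAker
  refine ⟨N, hN0, hNb, fun c hc => ?_⟩
  -- `c` is a combination of the `a j`
  have hcomb : c = ∑ j : J, (c j / q j) • (fun k => (a j k : ℝ)) := by
    have h1 : c - ∑ j : J, (c j / q j) • (fun k => (a j k : ℝ)) = 0 := by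
      refine hzero _ (R.sub_mem hc (R.sum_mem fun j _ => R.smul_mem _ (haR j))) fun i hi => ?_
      simp only [Pi.sub_apply, Finset.sum_apply, Pi.smul_apply, smul_eq_mul]
      rw [Finset.sum_eq_single ⟨i, hi⟩]
      · rw [haJ ⟨i, hi⟩ i hi, if_pos rfl]
        have : (q ⟨i, hi⟩ : ℝ) ≠ 0 := by
          have := hq ⟨i, hi⟩
          exact_mod_cast (by omega : q ⟨i, hi⟩ ≠ 0)
        push_cast
        field_simp
        ring
      · intro j _ hj
        rw [haJ j i hi, if_neg]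
        · simp
        · intro h
          exact hj (Subtype.ext h.symm)
      · simp
    exact sub_eq_zero.mp h1
  have hNa : ∀ j : J, ∑ k, (a j k : ℝ) * (N k : ℝ) = 0 := by
    intro j
    have h1 := hN j
    have : ∀ k, A j k = a j k := fun k => dif_pos j.2
    simp only [this] at h1
    exact_mod_cast h1
  rw [hcomb]
  simp only [Finset.sum_apply, Pi.smul_apply, smul_eq_mul, Finset.sum_mul]
  rw [Finset.sum_comm]
  refine Finset.sum_eq_zero fun j _ => ?_
  have : ∀ k, c j / q j * (a j k : ℝ) * (N k : ℝ) = c j / q j * ((a j k : ℝ) * (N k : ℝ)) := by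
    intro k
    ring
  simp only [this]
  rw [← Finset.mul_sum, hNa j, mul_zero]

end CIHP
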