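import Pool.Agent.Lib.MP_e426f4_ag.CI.Basic
import Pool.Agent.Lib.MP_e426f4_ag.G.Alg

/-! Module HD: Hensel data from local data, for systems. -/

namespace CIHP

open Finset GenHP

private theorem hd_crt (S : Finset ℕ) (hS : ∀ p ∈ S, p.Prime) (m : ℕ) (f : ℕ → ℤ) :
    ∃ y : ℤ, ∀ p ∈ S, (p : ℤ) ^ m ∣ y - f p := by
  have hco : Pairwise
      (Function.onFun IsCoprime fun p : S => Ideal.span {(((p : ℕ) : ℤ) ^ m)}) := by
    intro p q hpq
    show IsCoprime (Ideal.span {(((p : ℕ) : ℤ) ^ m)}) (Ideal.span {(((q : ℕ) : ℤ) ^ m)})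
    rw [Ideal.isCoprime_span_singleton_iff]
    apply IsCoprime.pow
    exact Nat.isCoprime_iff_coprime.mpr ((Nat.coprime_primes (hS p p.2) (hS q q.2)).mpr
      fun h => hpq (Subtype.ext h))
  obtain ⟨y, hy⟩ := Ideal.exists_forall_sub_mem_ideal hco (fun p : S => f p)
  exact ⟨y, fun p hp => Ideal.mem_span_singleton.mp (hy ⟨p, hp⟩)⟩

/-- divisibility can be tested at the primes -/
private theorem hd_dvd_iff (S : Finset ℕ) (hS : ∀ p ∈ S, p.Prime) (N : ℕ) (hN : N ≠ 0)
    (hNS : N.primeFactors ⊆ S) (z : ℤ) :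
    (N : ℤ) ∣ z ↔ ∀ p ∈ S, (p : ℤ) ^ N.factorization p ∣ z := by
  have h1 : N = ∏ p ∈ S, p ^ N.factorization p := by
    conv_lhs => rw [← Nat.prod_factorization_pow_eq_self hN]
    refine Finsupp.prod_of_support_subset _ ?_ _ fun p _ => pow_zero p
    rw [Nat.support_factorization]
    exact hNS
  constructor
  · intro h p hp
    refine Dvd.dvd.trans ?_ h
    have h2 := Nat.ordProj_dvd N p
    exact_mod_cast h2
  · intro h
    have h3 : (N : ℤ) = ∏ p ∈ S, (p : ℤ) ^ N.factorization p := by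
      conv_lhs => rw [h1]
      push_cast
      rfl
    rw [h3]
    refine Finset.prod_dvd_of_coprime ?_ h
    intro p hp q hq hpq
    apply IsCoprime.pow
    exact Nat.isCoprime_iff_coprime.mpr ((Nat.coprime_primes (hS p hp) (hS q hq)).mpr hpq)

private theorem hd_primeFactors_pow (a b : ℕ) (ha : a ≠ 0) : (a ^ b).primeFactors ⊆ a.primeFactors := by
  intro q hq
  have h1 := Nat.prime_of_mem_primeFactors hq
  exact Nat.mem_primeFactors.mpr ⟨h1, h1.dvd_of_dvd_pow (Nat.dvd_of_mem_primeFactors hq), ha⟩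

/-- the local statement -/
private theorem hd_iff {n r : ℕ} {e : Fin r → ℕ} (p k c : ℕ) (hp : p.Prime) (hc : c < k)
    (A A0 : Sys n e ℤ) (xp y : Fin (n + 1) → ℤ)
    (hA : ∀ i m, (p : ℤ) ^ (2 * k) ∣ A i m - A0 i m)
    (hy : ∀ i, (p : ℤ) ^ (2 * k - c) ∣ y i - xp i)
    (h : Fin r → Fin (n + 1) → ℤ) (det : ℤ)
    (hh : ∀ i s, (p : ℤ) ^ (c + 1) ∣ (∑ j, D (A0 i) xp j * h s j) - if i = s then det else 0)
    (hdet1 : (p : ℤ) ^ c ∣ det) (hdet2 : ¬ (p : ℤ) ^ (c + 1) ∣ det) (P P' : ℤ)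
    (hP : P = (p : ℤ) ^ (2 * k - c) * P') (hP' : ¬ (p : ℤ) ∣ P') (a : ℕ) (b : Fin r → ℤ) :
    (∀ i, (p : ℤ) ^ (2 * k + a) ∣ F (A i) (fun j => y j + P * ∑ s, b s * h s j) - F (A i) y) ↔
      ∀ s, (p : ℤ) ^ a ∣ b s := by
  have hpp : Prime (p : ℤ) := Nat.prime_iff_prime_int.mp hp
  have hp0 : (p : ℤ) ≠ 0 := hpp.ne_zero
  -- derivatives at `y`
  have hD : ∀ i s, (p : ℤ) ^ (c + 1) ∣ (∑ j, D (A i) y j * h s j) - if i = s then det else 0 := by
    intro i s
    have h1 : ∀ j, (p : ℤ) ^ (c + 1) ∣ D (A i) y j - D (A0 i) xp j := fun j =>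
      D_congr_mod _ (A i) (A0 i) y xp j
        (fun m => (pow_dvd_pow _ (by omega)).trans (hA i m))
        (fun m => (pow_dvd_pow _ (by omega)).trans (hy m))
    have h2 : (p : ℤ) ^ (c + 1) ∣ ∑ j, (D (A i) y j - D (A0 i) xp j) * h s j :=
      Finset.dvd_sum fun j _ => (h1 j).mul_right _
    have h3 := dvd_add h2 (hh i s)
    have h4 : (∑ j, (D (A i) y j - D (A0 i) xp j) * h s j) +
        ((∑ j, D (A0 i) xp j * h s j) - if i = s then det else 0) =
        (∑ j, D (A i) y j * h s j) - if i = s then det else 0 := by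
      simp only [sub_mul, Finset.sum_sub_distrib]
      ring
    rwa [h4] at h3
  -- the expansion
  have hexp : ∀ (a : ℕ) (b' : Fin r → ℤ) (i : Fin r), ∃ R : ℤ,
      F (A i) (fun j => y j + P * ∑ s, ((p : ℤ) ^ a * b' s) * h s j) - F (A i) y =
        P * (p : ℤ) ^ a * (det * b' i + (p : ℤ) ^ (c + 1) * R) := by
    intro a b' i
    obtain ⟨R0, hR0⟩ := F_add_smul (A i) y (fun j => ∑ s, b' s * h s j) (P * (p : ℤ) ^ a)
    have e1 : (fun j => y j + P * ∑ s, ((p : ℤ) ^ a * b' s) * h s j) =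
        fun j => y j + (P * (p : ℤ) ^ a) * ∑ s, b' s * h s j := by
      funext j
      rw [Finset.mul_sum, Finset.mul_sum]
      congr 1
      exact Finset.sum_congr rfl fun s _ => by ring
    choose u hu using hD i
    have e2 : ∑ j, D (A i) y j * ∑ s, b' s * h s j = det * b' i + (p : ℤ) ^ (c + 1) * ∑ s, u s * b' s := by
      have e3 : ∑ j, D (A i) y j * ∑ s, b' s * h s j = ∑ s, b' s * ∑ j, D (A i) y j * h s j := by
        simp only [Finset.mul_sum]
        rw [Finset.sum_comm]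
        exact Finset.sum_congr rfl fun s _ => Finset.sum_congr rfl fun j _ => by ring
      rw [e3]
      have e4 : ∀ s, b' s * ∑ j, D (A i) y j * h s j =
          b' s * (if i = s then det else 0) + (p : ℤ) ^ (c + 1) * (u s * b' s) := by
        intro s
        have := hu s
        linear_combination b' s * this
      rw [Finset.sum_congr rfl fun s _ => e4 s, Finset.sum_add_distrib, ← Finset.mul_sum]
      congr 1
      simp [mul_comm]
    have e5 : P = (p : ℤ) ^ (c + 1) * ((p : ℤ) ^ (2 * k - c - (c + 1)) * P') := by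
      rw [hP, ← mul_assoc, ← pow_add]
      congr 2
      omega
    refine ⟨(∑ s, u s * b' s) + ((p : ℤ) ^ (2 * k - c - (c + 1)) * P') * (p : ℤ) ^ a * R0, ?_⟩
    rw [e1, hR0, e2]
    linear_combination (P * (p : ℤ) ^ (2 * a) * R0) * e5
  constructor
  · -- divisibility of the differences implies divisibility of `b`
    induction a with
    | zero => intro _ s; simp
    | succ a ih =>
      intro hdiv
      have h1 := ih fun i => (pow_dvd_pow _ (by omega)).trans (hdiv i)
      choose b' hb' using h1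
      intro i
      obtain ⟨R, hR⟩ := hexp a b' i
      have hbb : b = fun s => (p : ℤ) ^ a * b' s := funext hb'
      have h2 := hdiv i
      rw [hbb, hR] at h2
      obtain ⟨d', hd'⟩ := hdet1
      have h3 : P * (p : ℤ) ^ a * (det * b' i + (p : ℤ) ^ (c + 1) * R) =
          (p : ℤ) ^ (2 * k + a) * (P' * (d' * b' i + p * R)) := by
        have e6 : (p : ℤ) ^ (2 * k + a) = (p : ℤ) ^ (2 * k - c) * (p : ℤ) ^ c * (p : ℤ) ^ a := by
          rw [← pow_add, ← pow_add]
          congr 1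
          omega
        rw [e6, hP, hd']
        ring
      have e7 : 2 * k + (a + 1) = (2 * k + a) + 1 := by ring
      rw [h3, e7, pow_succ] at h2
      have h4 : (p : ℤ) ∣ P' * (d' * b' i + p * R) :=
        (mul_dvd_mul_iff_left (pow_ne_zero _ hp0)).mp h2
      have h5 : (p : ℤ) ∣ d' * b' i + p * R := (hpp.dvd_or_dvd h4).resolve_left hP'
      have h6 : (p : ℤ) ∣ d' * b' i := by
        have := dvd_sub h5 (dvd_mul_right (p : ℤ) R)
        simpa using this
      have h7 : ¬ (p : ℤ) ∣ d' := by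
        intro h8
        apply hdet2
        rw [hd', pow_succ]
        exact mul_dvd_mul_left _ h8
      have h8 : (p : ℤ) ∣ b' i := (hpp.dvd_or_dvd h6).resolve_left h7
      rw [hb' i, pow_succ]
      exact mul_dvd_mul_left _ h8
  · intro hb i
    choose b' hb' using hb
    obtain ⟨R, hR⟩ := hexp a b' i
    have hbb : b = fun s => (p : ℤ) ^ a * b' s := funext hb'
    rw [hbb, hR]
    obtain ⟨d', hd'⟩ := hdet1
    have h3 : P * (p : ℤ) ^ a * (det * b' i + (p : ℤ) ^ (c + 1) * R) =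
        (p : ℤ) ^ (2 * k + a) * (P' * (d' * b' i + p * R)) := by
      have e6 : (p : ℤ) ^ (2 * k + a) = (p : ℤ) ^ (2 * k - c) * (p : ℤ) ^ c * (p : ℤ) ^ a := by
        rw [← pow_add, ← pow_add]
        congr 1
        omega
      rw [e6, hP, hd']
      ring
    rw [h3]
    exact dvd_mul_right _ _

theorem hens_of_local {n r : ℕ} {e : Fin r → ℕ} (w k : ℕ) (hw : 2 ≤ w) (hk : 1 ≤ k)
    (A0 : Sys n e ℤ)
    (hloc : ∀ p : ℕ, p.Prime → p ≤ w → ∃ x : Fin (n + 1) → ℤ, (∃ i, ¬ (p : ℤ) ∣ x i) ∧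
      (∀ i, ((p : ℤ) ^ (2 * k)) ∣ F (A0 i) x) ∧ ∃ J, ¬ ((p : ℤ) ^ k ∣ (Jac A0 x J).det)) :
    ∃ (P : ℕ) (x0 : Fin (n + 1) → ℤ), 0 < P ∧
      Hens P ((primorial w) ^ (2 * k)) (primorial w) A0 x0 := by
  classical
  set S : Finset ℕ := (Finset.range (w + 1)).filter Nat.Prime with hSdef
  have hSp : ∀ p ∈ S, p.Prime := fun p hp => (Finset.mem_filter.mp hp).2
  have hSw : ∀ p ∈ S, p ≤ w := fun p hp => by
    have := (Finset.mem_filter.mp hp).1
    rw [Finset.mem_range] at this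
    omega
  have hWS : primorial w = ∏ p ∈ S, p := rfl
  have hWpos : 0 < primorial w := primorial_pos w
  -- local data
  have hdat : ∀ p : ℕ, ∃ (x : Fin (n + 1) → ℤ) (i0 : Fin (n + 1)) (c : ℕ)
      (J : Fin r → Fin (n + 1)), p ∈ S →
      (¬ (p : ℤ) ∣ x i0 ∧ (∀ i, ((p : ℤ) ^ (2 * k)) ∣ F (A0 i) x) ∧ c < k ∧
        (p : ℤ) ^ c ∣ (Jac A0 x J).det ∧ ¬ (p : ℤ) ^ (c + 1) ∣ (Jac A0 x J).det) := by
    intro p
    by_cases hp : p ∈ S
    · obtain ⟨x, ⟨i0, hi0⟩, hF, ⟨J, hJ⟩⟩ := hloc p (hSp p hp) (hSw p hp)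
      have hex : ∃ a : ℕ, ¬ ((p : ℤ) ^ a ∣ (Jac A0 x J).det) := ⟨k, hJ⟩
      have hspec := Nat.find_spec hex
      have hle : Nat.find hex ≤ k := Nat.find_min' hex hJ
      have hpos : 0 < Nat.find hex := by
        rcases Nat.eq_zero_or_pos (Nat.find hex) with h0 | h0
        · rw [h0, pow_zero] at hspec
          exact absurd (one_dvd _) hspec
        · exact h0
      refine ⟨x, i0, Nat.find hex - 1, J, fun _ => ⟨hi0, hF, by omega, ?_, ?_⟩⟩
      · by_contra hcon
        exact Nat.find_min hex (m := Nat.find hex - 1) (by omega) hcon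
      · have : Nat.find hex - 1 + 1 = Nat.find hex := by omega
        rw [this]; exact hspec
    · exact ⟨0, 0, 0, fun _ => 0, fun h => absurd h hp⟩
  choose xp ip c Jp hprop using hdat
  -- the modulus for the points
  set P : ℕ := ∏ p ∈ S, p ^ (2 * k - c p) with hPdef
  have hPpos : 0 < P := Finset.prod_pos fun p hp => pow_pos (hSp p hp).pos _
  have hPfac : ∀ p ∈ S, ∃ P' : ℤ, (P : ℤ) = (p : ℤ) ^ (2 * k - c p) * P' ∧ ¬ (p : ℤ) ∣ P' := by
    intro p hp
    refine ⟨((∏ q ∈ S.erase p, q ^ (2 * k - c q) : ℕ) : ℤ), ?_, ?_⟩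
    · rw [hPdef, ← Finset.mul_prod_erase S _ hp]
      push_cast
      ring
    · intro hdiv
      have hdiv' : p ∣ ∏ q ∈ S.erase p, q ^ (2 * k - c q) := by exact_mod_cast hdiv
      rw [(Nat.Prime.prime (hSp p hp)).dvd_finsetProd_iff] at hdiv'
      obtain ⟨q, hq, hpq⟩ := hdiv'
      have h1 := (hSp p hp).dvd_of_dvd_pow hpq
      have h2 := (Nat.prime_dvd_prime_iff_eq (hSp p hp)
        (hSp q (Finset.mem_of_mem_erase hq))).mp h1
      exact (Finset.ne_of_mem_erase hq) h2.symm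
  have hfacW : ∀ p ∈ S, (primorial w).factorization p = 1 := by
    intro p hp
    rw [hWS, Nat.factorization_prod (fun q hq => (hSp q hq).ne_zero), Finset.sum_apply']
    rw [Finset.sum_eq_single p]
    · exact (hSp p hp).factorization_self
    · intro q hq hqp
      rw [(hSp q hq).factorization, Finsupp.single_apply, if_neg hqp]
    · intro h; exact absurd hp h
  have hWprimes : (primorial w).primeFactors ⊆ S := by
    intro q hq
    have hq1 := Nat.prime_of_mem_primeFactors hq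
    have hq2 := Nat.dvd_of_mem_primeFactors hq
    rw [hWS, (Nat.Prime.prime hq1).dvd_finsetProd_iff] at hq2
    obtain ⟨p, hp, hqp⟩ := hq2
    rw [(Nat.prime_dvd_prime_iff_eq hq1 (hSp p hp)).mp hqp]
    exact hp
  set Q : ℕ := (primorial w) ^ (2 * k) with hQdef
  have hQpos : 0 < Q := pow_pos hWpos _
  have hQfac : ∀ p ∈ S, Q.factorization p = 2 * k := by
    intro p hp
    rw [hQdef, Nat.factorization_pow, Finsupp.smul_apply, hfacW p hp]
    simp
  have hQprimes : Q.primeFactors ⊆ S := by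
    rw [hQdef]
    exact (hd_primeFactors_pow _ _ hWpos.ne').trans hWprimes
  have hQdvd : ∀ z : ℤ, (Q : ℤ) ∣ z ↔ ∀ p ∈ S, (p : ℤ) ^ (2 * k) ∣ z := by
    intro z
    rw [hd_dvd_iff S hSp Q hQpos.ne' hQprimes z]
    exact forall₂_congr fun p hp => by rw [hQfac p hp]
  have hcopW : ∀ z : ℤ, (∀ p ∈ S, ¬ (p : ℤ) ∣ z) → IsCoprime z ((primorial w : ℕ) : ℤ) := by
    intro z hz
    rw [hWS]
    push_cast
    refine IsCoprime.prod_right fun p hp => ?_
    have hpp : Prime (p : ℤ) := Nat.prime_iff_prime_int.mp (hSp p hp)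
    exact (hpp.coprime_iff_not_dvd.mpr (hz p hp)).symm
  -- CRT
  have hx0 : ∀ i, ∃ y : ℤ, ∀ p ∈ S, (p : ℤ) ^ (2 * k) ∣ y - xp p i := fun i =>
    hd_crt S hSp (2 * k) fun p => xp p i
  choose x0 hx0 using hx0
  have hh : ∀ (s : Fin r) (j : Fin (n + 1)), ∃ y : ℤ, ∀ p ∈ S, (p : ℤ) ^ (2 * k) ∣
      y - ∑ l, if Jp p l = j then (Jac A0 (xp p) (Jp p)).adjugate l s else 0 := fun s j =>
    hd_crt S hSp (2 * k) fun p => ∑ l, if Jp p l = j then (Jac A0 (xp p) (Jp p)).adjugate l s else 0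
  choose h hh using hh
  have hc0 : ∀ i : Fin (n + 1), ∃ y : ℤ, ∀ p ∈ S, (p : ℤ) ^ 1 ∣ y - if i = ip p then 1 else 0 :=
    fun i => hd_crt S hSp 1 fun p => if i = ip p then 1 else 0
  choose c0 hc0 using hc0
  simp only [pow_one] at hc0
  have hX : ∀ p ∈ S, ∀ x : Fin (n + 1) → ℤ, (∀ i, (P : ℤ) ∣ x i - x0 i) → ∀ i,
      (p : ℤ) ^ (2 * k - c p) ∣ x i - xp p i := by
    intro p hp x hx i
    obtain ⟨P', hP', -⟩ := hPfac p hp
    have h1 : x i - xp p i = (x0 i - xp p i) + (x i - x0 i) := by ring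
    rw [h1]
    refine dvd_add ((pow_dvd_pow _ (Nat.sub_le _ _)).trans (hx0 i p hp)) ?_
    refine Dvd.dvd.trans ?_ (hx i)
    rw [hP']
    exact dvd_mul_right _ _
  have hhp : ∀ p ∈ S, ∀ i s, (p : ℤ) ^ (c p + 1) ∣ (∑ j, D (A0 i) (xp p) j * h s j) -
      if i = s then (Jac A0 (xp p) (Jp p)).det else 0 := by
    intro p hp i s
    obtain ⟨-, -, hc, -, -⟩ := hprop p hp
    refine (pow_dvd_pow _ (show c p + 1 ≤ 2 * k by omega)).trans ?_
    have h1 : (p : ℤ) ^ (2 * k) ∣ ∑ j, D (A0 i) (xp p) j *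
        (h s j - ∑ l, if Jp p l = j then (Jac A0 (xp p) (Jp p)).adjugate l s else 0) :=
      Finset.dvd_sum fun j _ => (hh s j p hp).mul_left _
    have h2 : ∑ j, D (A0 i) (xp p) j *
        (∑ l, if Jp p l = j then (Jac A0 (xp p) (Jp p)).adjugate l s else 0) =
        if i = s then (Jac A0 (xp p) (Jp p)).det else 0 := by
      have h3 : ∑ j, D (A0 i) (xp p) j *
          (∑ l, if Jp p l = j then (Jac A0 (xp p) (Jp p)).adjugate l s else 0) =
          ∑ l, (Jac A0 (xp p) (Jp p)) i l * (Jac A0 (xp p) (Jp p)).adjugate l s := by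
        simp only [Finset.mul_sum]
        rw [Finset.sum_comm]
        refine Finset.sum_congr rfl fun l _ => ?_
        simp [Jac]
      rw [h3, ← Matrix.mul_apply, Matrix.mul_adjugate, Matrix.smul_apply, Matrix.one_apply]
      simp
    have h4 : ∑ j, D (A0 i) (xp p) j *
        (h s j - ∑ l, if Jp p l = j then (Jac A0 (xp p) (Jp p)).adjugate l s else 0) =
        (∑ j, D (A0 i) (xp p) j * h s j) - if i = s then (Jac A0 (xp p) (Jp p)).det else 0 := by
      rw [← h2, ← Finset.sum_sub_distrib]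
      exact Finset.sum_congr rfl fun j _ => by ring
    rwa [h4] at h1
  refine ⟨P, x0, hPpos, ?_, ⟨2 * k, rfl⟩, ⟨fun i => by simp, ?_⟩, ?_, h, ?_⟩
  · rw [hPdef, hQdef, hWS, ← Finset.prod_pow]
    exact Finset.prod_dvd_prod_of_dvd _ _ fun p _ => pow_dvd_pow _ (Nat.sub_le _ _)
  · intro i
    rw [hQdvd]
    intro p hp
    obtain ⟨-, hF, -, -, -⟩ := hprop p hp
    have h2 := F_congr_mod ((p : ℤ) ^ (2 * k)) (A0 i) (A0 i) x0 (xp p) (fun m => by simp)
      (fun j => hx0 j p hp)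
    have h3 := dvd_add h2 (hF i)
    simpa using h3
  · intro x hx
    refine ⟨c0, hcopW _ fun p hp hdiv => ?_⟩
    obtain ⟨hi, -, hc, -, -⟩ := hprop p hp
    apply hi
    have hXp : ∀ i, (p : ℤ) ∣ x i - xp p i := fun i =>
      (dvd_pow_self _ (by omega)).trans (hX p hp x hx i)
    have h1 : (p : ℤ) ∣ ∑ i, c0 i * x i - xp p (ip p) := by
      have h2 : ∑ i, c0 i * x i - xp p (ip p) =
          ∑ i, (c0 i * (x i - xp p i)
            + (c0 i - if i = ip p then 1 else 0) * xp p i) := by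
        have h3 : xp p (ip p) = ∑ i, (if i = ip p then 1 else 0) * xp p i := by simp
        rw [h3, ← Finset.sum_sub_distrib]
        exact Finset.sum_congr rfl fun i _ => by ring
      rw [h2]
      exact Finset.dvd_sum fun i _ => dvd_add ((hXp i).mul_left _) ((hc0 i p hp).mul_right _)
    have := dvd_sub hdiv h1
    simpa using this
  · intro A hA x hx cc cc' m hm
    obtain ⟨s0, hs0⟩ := hm
    have hm0 : m ≠ 0 := by
      rintro rfl
      have h1 : primorial w ^ s0 = 0 := Nat.eq_zero_of_zero_dvd hs0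
      exact absurd h1 (pow_pos hWpos _).ne'
    have hmprimes : m.primeFactors ⊆ S :=
      (Nat.primeFactors_mono hs0 (pow_pos hWpos _).ne').trans
        ((hd_primeFactors_pow _ _ hWpos.ne').trans hWprimes)
    have hQm0 : Q * m ≠ 0 := Nat.mul_ne_zero hQpos.ne' hm0
    have hQmprimes : (Q * m).primeFactors ⊆ S := by
      rw [Nat.primeFactors_mul hQpos.ne' hm0]
      exact Finset.union_subset hQprimes hmprimes
    have hQmfac : ∀ p ∈ S, (Q * m).factorization p = 2 * k + m.factorization p := by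
      intro p hp
      rw [Nat.factorization_mul hQpos.ne' hm0, Finsupp.add_apply, hQfac p hp]
    set y : Fin (n + 1) → ℤ := fun j => x j + P * ∑ s, cc' s * h s j with hy
    have hyx0 : ∀ i, (P : ℤ) ∣ y i - x0 i := by
      intro i
      have h1 : y i - x0 i = (x i - x0 i) + P * ∑ s, cc' s * h s i := by rw [hy]; ring
      rw [h1]
      exact dvd_add (hx.1 i) (dvd_mul_right _ _)
    have he : (fun j => x j + (P : ℤ) * ∑ s, cc s * h s j) =
        fun j => y j + P * ∑ s, (cc s - cc' s) * h s j := by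
      funext j
      rw [hy]
      simp only [sub_mul, Finset.sum_sub_distrib]
      ring
    rw [he]
    have key : ∀ p ∈ S, (∀ i, (p : ℤ) ^ (2 * k + m.factorization p) ∣
        F (A i) (fun j => y j + P * ∑ s, (cc s - cc' s) * h s j) - F (A i) y) ↔
        ∀ s, (p : ℤ) ^ m.factorization p ∣ cc s - cc' s := by
      intro p hp
      obtain ⟨P', hP', hP''⟩ := hPfac p hp
      obtain ⟨-, -, hc, hd1, hd2⟩ := hprop p hp
      exact hd_iff p k (c p) (hSp p hp) hc A A0 (xp p) y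
        (fun i t => (hQdvd _).mp (hA i t) p hp) (hX p hp y hyx0) h _ (hhp p hp) hd1 hd2 P P' hP' hP''
        (m.factorization p) (fun s => cc s - cc' s)
    constructor
    · intro hdiv s
      rw [hd_dvd_iff S hSp m hm0 hmprimes]
      intro p hp
      refine (key p hp).mp (fun i => ?_) s
      have h1 := (hd_dvd_iff S hSp (Q * m) hQm0 hQmprimes _).mp (hdiv i) p hp
      rwa [hQmfac p hp] at h1
    · intro hdiv i
      rw [hd_dvd_iff S hSp (Q * m) hQm0 hQmprimes]
      intro p hp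
      rw [hQmfac p hp]
      refine (key p hp).mpr (fun s => ?_) i
      exact (hd_dvd_iff S hSp m hm0 hmprimes _).mp (hdiv s) p hp

end CIHP
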