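import Pool.Agent.Lib.MP_e426f4_ag.CI.Defs
import Pool.Agent.Lib.MP_e426f4_ag.CI.Basic
import Pool.Agent.Lib.MP_e426f4_ag.CI.Region
import Pool.Agent.Lib.MP_e426f4_ag.G.Alg
import Pool.Agent.Lib.MP_e426f4_ag.G.AlgReal
import Pool.Agent.Lib.MP_e426f4_ag.G.RealCount
import Pool.Agent.Lib.MP_e426f4_ag.AP

/-! CI-RE2: real counting for systems. -/

namespace CIHP

open Finset GenHP

/-- the point with prescribed coordinates in the directions `J` -/
private noncomputable def re2_P {n r : ℕ} (J : Fin r → Fin (n + 1)) (xi y : Fin (n + 1) → ℝ)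
    (t : Fin r → ℝ) : Fin (n + 1) → ℝ :=
  Function.extend J (fun l => xi (J l) + t l) y

private theorem re2_P_J {n r : ℕ} (J : Fin r → Fin (n + 1)) (hJ : Function.Injective J)
    (xi y : Fin (n + 1) → ℝ) (t : Fin r → ℝ) (l : Fin r) :
    re2_P J xi y t (J l) = xi (J l) + t l :=
  hJ.extend_apply _ _ _

private theorem re2_P_not {n r : ℕ} (J : Fin r → Fin (n + 1))
    (xi y : Fin (n + 1) → ℝ) (t : Fin r → ℝ) (j : Fin (n + 1)) (hj : ¬ ∃ l, J l = j) :
    re2_P J xi y t j = y j :=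
  Function.extend_apply' _ _ _ hj

private theorem re2_deriv {n r : ℕ} {e : Fin r → ℕ} (J : Fin r → Fin (n + 1))
    (hJ : Function.Injective J) (A : Sys n e ℝ) (xi y : Fin (n + 1) → ℝ) (t : Fin r → ℝ) :
    HasFDerivAt (fun (t : Fin r → ℝ) (i : Fin r) => F (A i) (re2_P J xi y t))
      (Matrix.toLin' (Jac A (re2_P J xi y t) J)).toContinuousLinearMap t := by
  rw [hasFDerivAt_pi']
  intro i
  rw [hasFDerivAt_iff_isLittleO_nhds_zero]
  set x := re2_P J xi y t with hx
  have hP : ∀ s : Fin r → ℝ, re2_P J xi y (t + s) =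
      fun j => x j + Function.extend J s 0 j := by
    intro s
    ext j
    by_cases hj : ∃ l, J l = j
    · obtain ⟨l, rfl⟩ := hj
      rw [hx, re2_P_J J hJ, re2_P_J J hJ, hJ.extend_apply, Pi.add_apply]
      ring
    · rw [hx, re2_P_not J xi y _ j hj, re2_P_not J xi y _ j hj, Function.extend_apply' _ _ _ hj]
      simp
  have hsum : ∀ s : Fin r → ℝ, ∑ j, D (A i) x j * Function.extend J s 0 j =
      ∑ l, D (A i) x (J l) * s l := by
    intro s
    symm
    refine Fintype.sum_of_injective J hJ _ _ ?_ ?_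
    · intro j hj
      have hj' : ¬ ∃ l, J l = j := fun ⟨l, hl⟩ => hj ⟨l, hl⟩
      rw [Function.extend_apply' _ _ _ hj']
      simp
    · intro l
      rw [hJ.extend_apply]
  have hbound : ∀ s : Fin r → ℝ, ‖s‖ ≤ 1 →
      ‖F (A i) (re2_P J xi y (t + s)) - F (A i) x -
        ∑ l, D (A i) x (J l) * s l‖ ≤
      (NN n (e i) * 4 ^ e i * ‖A i‖ * (1 + ‖x‖) ^ e i) * ‖(‖s‖ ^ 2)‖ := by
    intro s hs
    have h1 := F_taylor_real (A i) x (Function.extend J s 0) ‖A i‖ (1 + ‖x‖) ‖s‖
      (by linarith [norm_nonneg x]) (norm_nonneg s) (by linarith [norm_nonneg x])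
      (fun m => norm_le_pi_norm (A i) m) (fun j => (norm_le_pi_norm x j).trans (by linarith)) (by
        intro j
        by_cases hj : ∃ l, J l = j
        · obtain ⟨l, rfl⟩ := hj
          rw [hJ.extend_apply]
          exact norm_le_pi_norm s l
        · rw [Function.extend_apply' _ _ _ hj]
          simp)
    rw [hP, ← hsum, Real.norm_eq_abs, Real.norm_of_nonneg (by positivity : (0 : ℝ) ≤ ‖s‖ ^ 2)]
    exact h1
  refine Asymptotics.IsBigO.trans_isLittleO (g := fun s : Fin r → ℝ => ‖s‖ ^ 2) ?_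
    (Asymptotics.isLittleO_norm_pow_id (by norm_num))
  refine Asymptotics.IsBigO.of_bound (NN n (e i) * 4 ^ e i * ‖A i‖ * (1 + ‖x‖) ^ e i) ?_
  have hball : Metric.closedBall (0 : Fin r → ℝ) 1 ∈ nhds (0 : Fin r → ℝ) :=
    Metric.closedBall_mem_nhds _ one_pos
  filter_upwards [hball] with s hs
  have hs' : ‖s‖ ≤ 1 := by simpa using hs
  have h2 := hbound s hs'
  have e1 : ((ContinuousLinearMap.proj i).comp
      (Matrix.toLin' (Jac A x J)).toContinuousLinearMap) s = ∑ l, D (A i) x (J l) * s l := rfl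
  rw [e1]
  exact h2

private theorem re2_adj {r : ℕ} (L : Matrix (Fin r) (Fin r) ℝ) (K : ℝ) (hK : 1 ≤ K)
    (hL : ∀ i l, |L i l| ≤ K) (i l : Fin r) :
    |L.adjugate i l| ≤ (Nat.factorial r : ℝ) * K ^ r := by
  rw [Matrix.adjugate_apply]
  have h := Matrix.det_le (A := L.updateRow l (Pi.single i 1)) (abv := AbsoluteValue.abs)
    (x := K) (fun a b => by
      rw [Matrix.updateRow_apply]
      split_ifs with hab
      · change |(Pi.single i (1 : ℝ) : Fin r → ℝ) b| ≤ K
        rcases eq_or_ne b i with rfl | hbi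
        · rw [Pi.single_eq_same, abs_one]
          exact hK
        · rw [Pi.single_eq_of_ne hbi, abs_zero]
          linarith
      · exact hL a b)
  rw [Fintype.card_fin, nsmul_eq_mul] at h
  exact h

/-- constants -/
private noncomputable def re2_KD (n : ℕ) {r : ℕ} (e : Fin r → ℕ) : ℝ :=
  1 + ∑ i, 2 * ((NN n (e i) : ℝ) * e i * 4 ^ e i)

private noncomputable def re2_KF (n : ℕ) {r : ℕ} (e : Fin r → ℕ) : ℝ :=
  1 + ∑ i, (1 + ((n : ℝ) + 1) * (NN n (e i) * e i) + 4 * (NN n (e i) * 4 ^ e i))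

private theorem re2_KD_one (n : ℕ) {r : ℕ} (e : Fin r → ℕ) : 1 ≤ re2_KD n e := by
  unfold re2_KD
  have : (0 : ℝ) ≤ ∑ i, 2 * ((NN n (e i) : ℝ) * e i * 4 ^ e i) :=
    Finset.sum_nonneg fun i _ => by positivity
  linarith

private theorem re2_KF_one (n : ℕ) {r : ℕ} (e : Fin r → ℕ) : 1 ≤ re2_KF n e := by
  unfold re2_KF
  have : (0 : ℝ) ≤ ∑ i, (1 + ((n : ℝ) + 1) * (NN n (e i) * e i) + 4 * (NN n (e i) * 4 ^ e i)) :=
    Finset.sum_nonneg fun i _ => by positivity
  linarith

private theorem re2_KD_ge (n : ℕ) {r : ℕ} (e : Fin r → ℕ) (i : Fin r) :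
    2 * ((NN n (e i) : ℝ) * e i * 4 ^ e i) ≤ re2_KD n e := by
  unfold re2_KD
  have h := Finset.single_le_sum (f := fun i => 2 * ((NN n (e i) : ℝ) * e i * 4 ^ e i))
    (fun i _ => by positivity) (Finset.mem_univ i)
  linarith

private theorem re2_KF_ge (n : ℕ) {r : ℕ} (e : Fin r → ℕ) (i : Fin r) :
    1 + ((n : ℝ) + 1) * (NN n (e i) * e i) + 4 * (NN n (e i) * 4 ^ e i) ≤ re2_KF n e := by
  unfold re2_KF
  have h := Finset.single_le_sum
    (f := fun i => 1 + ((n : ℝ) + 1) * (NN n (e i) * e i) + 4 * (NN n (e i) * 4 ^ e i))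
    (fun i _ => by positivity) (Finset.mem_univ i)
  linarith

/-- the hypotheses of `region_points` -/
private theorem re2_local {n r : ℕ} {e : Fin r → ℕ} (hr : 1 ≤ r) (bet del kap rho : ℝ)
    (hb : 0 < bet) (hkap : 0 < kap) (hk1 : kap ≤ 1 / 20) (hrho : 0 ≤ rho) (hrho2 : rho ≤ kap ^ 2)
    (Lam : ℝ) (hLam : Lam = r * ((Nat.factorial r : ℝ) * re2_KD n e ^ r / bet))
    (hk2 : Lam * (re2_KD n e + re2_KF n e) * (8 * kap) ≤ min del 1)
    (Ainf A' : Sys n e ℝ) (xi y : Fin (n + 1) → ℝ) (J : Fin r → Fin (n + 1))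
    (hJ : Function.Injective J)
    (hAinf : ∀ i m, |Ainf i m| ≤ 1) (hA' : ∀ i m, |A' i m - Ainf i m| ≤ 3 * rho)
    (hxi : ∀ i, |xi i| ≤ 1) (hF : ∀ i, |F (Ainf i) xi| ≤ kap ^ 2)
    (hD : bet ≤ |(Jac Ainf xi J).det|)
    (hy : ∀ j, (¬ ∃ l, J l = j) → |y j - xi j| ≤ kap ^ 2) :
    ∃ Li : Matrix (Fin r) (Fin r) ℝ, Li * Jac Ainf xi J = 1 ∧
      (∀ t : Fin r → ℝ, (∀ i, |t i| ≤ 2 * kap) → ∀ i l,
        |(Li * Jac A' (re2_P J xi y t) J - 1) i l| ≤ del) ∧
      (∀ t : Fin r → ℝ, (∀ i, |t i| ≤ 2 * kap) → ∀ i l,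
        |Jac A' (re2_P J xi y t) J i l| ≤ 2 * re2_KD n e) ∧
      (∀ i, |(Li.mulVec fun i => F (A' i) (re2_P J xi y 0)) i| ≤ kap / 4) ∧
      (∀ th : ℝ, th ≤ kap / (8 * Lam) → ∀ y : Fin r → ℝ, (∀ i, |y i| ≤ 2 * th) →
        ∀ i, |(Li.mulVec y) i| ≤ kap / 4) := by
  have hKD := re2_KD_one n e
  have hKF := re2_KF_one n e
  set KD := re2_KD n e with hKDdef
  set KF := re2_KF n e with hKFdef
  set L := Jac Ainf xi J with hL
  have hr' : (0 : ℝ) < r := by exact_mod_cast hr
  have hfac : (0 : ℝ) < Nat.factorial r := by exact_mod_cast Nat.factorial_pos r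
  have hc2pos : 0 < (Nat.factorial r : ℝ) * KD ^ r / bet := by positivity
  set c2 : ℝ := (Nat.factorial r : ℝ) * KD ^ r / bet with hc2
  have hLampos : 0 < Lam := by rw [hLam]; positivity
  have hdet : L.det ≠ 0 := by
    intro h
    rw [h, abs_zero] at hD
    linarith
  have hLb : ∀ i l, |L i l| ≤ KD := by
    intro i l
    have h1 := D_abs_le (Ainf i) xi (J l) 1 1 le_rfl (hAinf i) hxi
    rw [one_pow, mul_one, mul_one] at h1
    have h2 := re2_KD_ge n e i
    have h3 : (1 : ℝ) ≤ 4 ^ e i := one_le_pow₀ (by norm_num)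
    have h4 : (0 : ℝ) ≤ NN n (e i) * e i := by (clear * -; positivity)
    have h5 : (NN n (e i) : ℝ) * e i ≤ NN n (e i) * e i * 4 ^ e i := le_mul_of_one_le_right h4 h3
    have h6 : |L i l| ≤ (NN n (e i) : ℝ) * e i := h1
    have h7 : (0 : ℝ) ≤ NN n (e i) * e i * 4 ^ e i := by (clear * -; positivity)
    linarith
  set Li : Matrix (Fin r) (Fin r) ℝ := (L.det)⁻¹ • L.adjugate with hLi
  have hLiL : Li * L = 1 := by
    rw [hLi, Matrix.smul_mul, Matrix.adjugate_mul, smul_smul, inv_mul_cancel₀ hdet, one_smul]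
  have hLib : ∀ i l, |Li i l| ≤ c2 := by
    intro i l
    have h1 := re2_adj L KD hKD hLb i l
    have h2 : Li i l = (L.det)⁻¹ * L.adjugate i l := rfl
    rw [h2, abs_mul, abs_inv, hc2, div_eq_inv_mul]
    exact mul_le_mul (inv_anti₀ hb hD) h1 (abs_nonneg _) (by positivity)
  have hmv : ∀ (v : Fin r → ℝ) (Y : ℝ), 0 ≤ Y → (∀ m, |v m| ≤ Y) → ∀ i,
      |∑ m, Li i m * v m| ≤ Lam * Y := by
    intro v Y hY hv i
    calc |∑ m, Li i m * v m| ≤ ∑ m, |Li i m * v m| := Finset.abs_sum_le_sum_abs _ _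
      _ ≤ ∑ _m : Fin r, c2 * Y := by
          refine Finset.sum_le_sum fun m _ => ?_
          rw [abs_mul]
          exact mul_le_mul (hLib i m) (hv m) (abs_nonneg _) hc2pos.le
      _ = Lam * Y := by
          rw [Finset.sum_const, Finset.card_univ, Fintype.card_fin, nsmul_eq_mul, hLam]
          ring
  have hq : ∀ t : Fin r → ℝ, (∀ i, |t i| ≤ 2 * kap) → ∀ j,
      |re2_P J xi y t j - xi j| ≤ 2 * kap := by
    intro t ht j
    by_cases hj : ∃ l, J l = j
    · obtain ⟨l, rfl⟩ := hj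
      rw [re2_P_J J hJ]
      have : xi (J l) + t l - xi (J l) = t l := by ring
      rw [this]
      exact ht l
    · rw [re2_P_not J xi y t j hj]
      refine (hy j hj).trans ?_
      nlinarith only [hk1, hkap]
  have hdiff : ∀ t : Fin r → ℝ, (∀ i, |t i| ≤ 2 * kap) → ∀ i l,
      |Jac A' (re2_P J xi y t) J i l - L i l| ≤ KD * (2 * kap) := by
    intro t ht i l
    have h1 := near_zero_estimates (Ainf i) (A' i) xi (re2_P J xi y t) (J l) (2 * kap) rho
      (by linarith) (by linarith only [hk1]) hrho (by nlinarith only [hrho2]) (hAinf i) (hA' i) hxi (hq t ht)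
    have h2 := re2_KD_ge n e i
    have h3 : |Jac A' (re2_P J xi y t) J i l - L i l| ≤
        2 * (NN n (e i) * e i * 4 ^ e i) * (2 * kap) := h1
    exact h3.trans (mul_le_mul_of_nonneg_right h2 (by linarith))
  have hmin1 : min del 1 ≤ del := min_le_left _ _
  have hmin2 : min del 1 ≤ 1 := min_le_right _ _
  have hsplit : Lam * (KD + KF) * (8 * kap) = Lam * KD * (8 * kap) + Lam * KF * (8 * kap) := by ring
  have hpD : 0 < Lam * KD * (8 * kap) := by positivity
  have hpF : 0 < Lam * KF * (8 * kap) := by positivity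
  refine ⟨Li, hLiL, ?_, ?_, ?_, ?_⟩
  · intro t ht i l
    have h1 : (Li * Jac A' (re2_P J xi y t) J - 1) i l =
        ∑ m, Li i m * (Jac A' (re2_P J xi y t) J m l - L m l) := by
      rw [← hLiL]
      have : Li * Jac A' (re2_P J xi y t) J - Li * L = Li * (Jac A' (re2_P J xi y t) J - L) := by
        rw [Matrix.mul_sub]
      rw [this, Matrix.mul_apply]
      rfl
    rw [h1]
    refine (hmv _ (KD * (2 * kap)) (by positivity) (fun m => hdiff t ht m l) i).trans ?_
    have h2 : Lam * (KD * (2 * kap)) = Lam * KD * (8 * kap) / 4 := by ring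
    rw [h2]
    linarith
  · intro t ht i l
    have h1 := hdiff t ht i l
    have h2 := hLb i l
    have h3 : |Jac A' (re2_P J xi y t) J i l| ≤
        |Jac A' (re2_P J xi y t) J i l - L i l| + |L i l| := by
      calc |Jac A' (re2_P J xi y t) J i l| =
          |(Jac A' (re2_P J xi y t) J i l - L i l) + L i l| := by ring_nf
        _ ≤ _ := abs_add_le _ _
    have h4 : KD * (2 * kap) ≤ KD := by nlinarith only [hKD, hk1, hkap]
    linarith
  · intro i
    have hq0 : ∀ j, |re2_P J xi y 0 j - xi j| ≤ kap ^ 2 := by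
      intro j
      by_cases hj : ∃ l, J l = j
      · obtain ⟨l, rfl⟩ := hj
        rw [re2_P_J J hJ]
        simp
        positivity
      · rw [re2_P_not J xi y 0 j hj]
        exact hy j hj
    have hFb : ∀ m, |F (A' m) (re2_P J xi y 0)| ≤ KF * kap ^ 2 := by
      intro m
      have h1 := near_zero_value (Ainf m) (A' m) xi (re2_P J xi y 0) kap rho hkap (by linarith)
        hrho hrho2 (hAinf m) (hA' m) hxi (hF m) hq0
      exact h1.trans (mul_le_mul_of_nonneg_right (re2_KF_ge n e m) (by positivity))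
    refine (hmv _ (KF * kap ^ 2) (by positivity) hFb i).trans ?_
    have h2 : Lam * (KF * kap ^ 2) = (Lam * KF * (8 * kap)) * kap / 8 := by ring
    rw [h2]
    have h3 : Lam * KF * (8 * kap) ≤ 1 := by linarith
    have h4 : Lam * KF * (8 * kap) * kap ≤ 1 * kap := mul_le_mul_of_nonneg_right h3 hkap.le
    linarith
  · intro th hth v hv i
    have hth0 : 0 ≤ 2 * th := (abs_nonneg _).trans (hv i)
    refine (hmv v (2 * th) hth0 hv i).trans ?_
    rw [le_div_iff₀ (by positivity)] at hth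
    linarith

private theorem re2_num (n m : ℕ) (hm : m ≤ n + 1) (eps e0 : ℝ) (he : 0 < eps)
    (he1 : eps ≤ 1 / 10) (hedef : e0 = eps / (8 * ((n : ℝ) + 1))) :
    1 - eps ≤ (1 - eps / 8) * (1 - e0) ^ m ∧ (1 + eps / 8) * (1 + e0) ^ m ≤ 1 + eps := by
  have hn : (0 : ℝ) < (n : ℝ) + 1 := by positivity
  have hepos : 0 < e0 := by rw [hedef]; positivity
  have h1 : ((n : ℝ) + 1) * e0 = eps / 8 := by
    rw [hedef]
    field_simp
  have hm' : (m : ℝ) ≤ (n : ℝ) + 1 := by exact_mod_cast hm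
  have h2 : (m : ℝ) * e0 ≤ eps / 8 := by
    rw [← h1]
    exact mul_le_mul_of_nonneg_right hm' hepos.le
  have he2 : e0 ≤ 1 := by
    have h0 : (0 : ℝ) ≤ n := Nat.cast_nonneg n
    nlinarith only [h1, he, he1, hepos]
  have h3 : 1 - eps / 8 ≤ (1 - e0) ^ m := by
    have h0 := one_add_mul_le_pow (a := -e0) (by linarith) m
    calc 1 - eps / 8 ≤ 1 + (m : ℝ) * -e0 := by linarith only [h2]
      _ ≤ (1 + -e0) ^ m := h0
      _ = (1 - e0) ^ m := by ring
  have h4 : (1 + e0) ^ m * (1 - e0) ^ m ≤ 1 := by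
    rw [← mul_pow]
    apply pow_le_one₀
    · nlinarith only [h1, he, he1, hepos]
    · nlinarith only [he, he1, hepos]
  have h5 : 0 < 1 - eps / 8 := by linarith only [he, he1]
  constructor
  · have h6 : (1 - eps / 8) * (1 - eps / 8) ≤ (1 - eps / 8) * (1 - e0) ^ m :=
      mul_le_mul_of_nonneg_left h3 h5.le
    nlinarith only [h6, he]
  · have h6 : (1 + e0) ^ m * (1 - eps / 8) ≤ 1 :=
      (mul_le_mul_of_nonneg_left h3 (by positivity)).trans h4
    have h7 : (1 + eps / 8) * (1 + e0) ^ m * (1 - eps / 8) ≤ (1 + eps) * (1 - eps / 8) := by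
      have h8 : (1 + eps / 8) * ((1 + e0) ^ m * (1 - eps / 8)) ≤ (1 + eps / 8) * 1 :=
        mul_le_mul_of_nonneg_left h6 (by linarith)
      nlinarith only [h8, he, he1]
    exact le_of_mul_le_mul_right h7 h5

/-- number of residue class points in a product of intervals -/
private theorem re2_prod {ι : Type*} [Fintype ι] [DecidableEq ι] (s : ι → Set ℤ)
    (hs : ∀ k, (s k).Finite) (a b : ℝ) (ha : 0 ≤ a)
    (h : ∀ k, a ≤ ((s k).ncard : ℝ) ∧ ((s k).ncard : ℝ) ≤ b) :
    a ^ Fintype.card ι ≤ (Set.ncard {y : ι → ℤ | ∀ k, y k ∈ s k} : ℝ) ∧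
      (Set.ncard {y : ι → ℤ | ∀ k, y k ∈ s k} : ℝ) ≤ b ^ Fintype.card ι := by
  rw [ncard_pi s hs]
  push_cast
  constructor
  · calc a ^ Fintype.card ι = ∏ _k : ι, a := by rw [Finset.prod_const, Finset.card_univ]
      _ ≤ _ := Finset.prod_le_prod (fun _ _ => ha) (fun k _ => (h k).1)
  · calc (∏ k, ((s k).ncard : ℝ)) ≤ ∏ _k : ι, b :=
          Finset.prod_le_prod (fun _ _ => Nat.cast_nonneg _) (fun k _ => (h k).2)
      _ = _ := by rw [Finset.prod_const, Finset.card_univ]

theorem real_count (n : ℕ) {r : ℕ} (e : Fin r → ℕ) (hr : 1 ≤ r) (he : ∀ i, 1 ≤ e i) (eps bet : ℝ)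
    (heps : 0 < eps) (he1 : eps ≤ 1 / 10) (hb : 0 < bet) (hb1 : bet ≤ 1) :
    ∃ kap : ℝ, 0 < kap ∧ kap ≤ 1 / 10 ∧ ∃ rho0 th1 : ℝ, 0 < rho0 ∧ rho0 ≤ 1 ∧ 0 < th1 ∧
      ∀ rho : ℝ, 0 < rho → rho ≤ rho0 →
      ∀ (Ainf : Sys n e ℝ) (xi : Fin (n + 1) → ℝ) (J : Fin r → Fin (n + 1)),
      (∀ i m, |Ainf i m| ≤ 1) → (∀ i, |xi i| ≤ 1) → (∃ i, |xi i| = 1) →
      (∀ i, |F (Ainf i) xi| ≤ rho0) → bet ≤ |(Jac Ainf xi J).det| →
      RC Ainf xi J kap rho th1 eps := by
  classical
  obtain ⟨del, hdel, hreg⟩ := region_points r (eps / 8) (by positivity) (by linarith only [he1, heps])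
  have hKD := re2_KD_one n e
  have hKF := re2_KF_one n e
  obtain ⟨KD, hKDdef⟩ : ∃ KD, KD = re2_KD n e := ⟨_, rfl⟩
  obtain ⟨KF, hKFdef⟩ : ∃ KF, KF = re2_KF n e := ⟨_, rfl⟩
  have hr' : (0 : ℝ) < r := by exact_mod_cast hr
  have hfac : (0 : ℝ) < Nat.factorial r := by exact_mod_cast Nat.factorial_pos r
  obtain ⟨Lam, hLam⟩ : ∃ Lam : ℝ, Lam = r * ((Nat.factorial r : ℝ) * re2_KD n e ^ r / bet) :=
    ⟨_, rfl⟩
  have hLampos : 0 < Lam := by rw [hLam]; positivity
  obtain ⟨D1, hD1⟩ : ∃ D1 : ℝ, D1 = Lam * (re2_KD n e + re2_KF n e) * 8 := ⟨_, rfl⟩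
  have hD1pos : 0 < D1 := by rw [hD1]; positivity
  obtain ⟨kap, hkap⟩ : ∃ kap : ℝ, kap = min (1 / 20) (min del 1 / D1) := ⟨_, rfl⟩
  have hkpos : 0 < kap := by
    rw [hkap]
    have : 0 < min del 1 := lt_min hdel one_pos
    positivity
  have hk1 : kap ≤ 1 / 20 := by rw [hkap]; exact min_le_left _ _
  have hk2 : Lam * (re2_KD n e + re2_KF n e) * (8 * kap) ≤ min del 1 := by
    have h1 : kap ≤ min del 1 / D1 := by rw [hkap]; exact min_le_right _ _
    rw [le_div_iff₀ hD1pos, hD1] at h1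
    linarith only [h1]
  refine ⟨kap, hkpos, by linarith only [hk1, hkpos], kap ^ 2, kap / (8 * Lam), by positivity, by nlinarith only [he1, heps, hk1, hkpos],
    by positivity, ?_⟩
  intro rho hrho hrho2 Ainf xi J hAinf hxi _ hF hD th hth hth1 M hM
  have hJ : Function.Injective J := by
    intro l l' hl
    by_contra hne
    have h0 : (Jac Ainf xi J).det = 0 := by
      refine Matrix.det_zero_of_column_eq hne fun i => ?_
      simp only [Jac, Matrix.of_apply, hl]
    rw [h0, abs_zero] at hD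
    linarith
  have hM' : (0 : ℝ) < M := by exact_mod_cast hM
  obtain ⟨h0, hh0, hreg'⟩ := hreg kap th (2 * re2_KD n e) hkpos hth (by linarith only [hKD, hk1, hkpos])
  obtain ⟨e0, hedef⟩ : ∃ e0, e0 = eps / (8 * ((n : ℝ) + 1)) := ⟨_, rfl⟩
  have hepos : 0 < e0 := by rw [hedef]; positivity
  obtain ⟨a, hadef⟩ : ∃ a, a = 2 * kap ^ 2 / M := ⟨_, rfl⟩
  have hapos : 0 < a := by rw [hadef]; positivity
  have hgam : 0 < |(Jac Ainf xi J).det| := by linarith only [hD, hb]
  obtain ⟨G, hG⟩ : ∃ G, G = |(Jac Ainf xi J).det| := ⟨_, rfl⟩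
  rw [← hG] at hgam hD
  obtain ⟨V, hV⟩ : ∃ V, V = (2 * th) ^ r / G := ⟨_, rfl⟩
  have hVpos : 0 < V := by rw [hV]; positivity
  refine ⟨⌈1 / (e0 * a)⌉₊ + ⌈M / h0⌉₊ + 1, ?_⟩
  intro B hB H hH A hA z
  have hBpos : 0 < B := by omega
  have hB' : (0 : ℝ) < B := by exact_mod_cast hBpos
  have hea : 1 ≤ e0 * a * B := by
    have h1 : 1 / (e0 * a) ≤ (⌈1 / (e0 * a)⌉₊ : ℝ) := Nat.le_ceil _
    have h2 : ((⌈1 / (e0 * a)⌉₊ : ℕ) : ℝ) ≤ B := by exact_mod_cast (by omega)
    have h3 : 1 / (e0 * a) ≤ B := h1.trans h2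
    rw [div_le_iff₀ (by positivity)] at h3
    linarith only [h3]
  have hhle : (M : ℝ) / B ≤ h0 := by
    have h1 : (M : ℝ) / h0 ≤ (⌈(M : ℝ) / h0⌉₊ : ℝ) := Nat.le_ceil _
    have h2 : ((⌈(M : ℝ) / h0⌉₊ : ℕ) : ℝ) ≤ B := by exact_mod_cast (by omega)
    have h3 : (M : ℝ) / h0 ≤ B := h1.trans h2
    rw [div_le_iff₀ hh0] at h3
    rw [div_le_iff₀ hB']
    linarith only [h3]
  obtain ⟨h, hhdef⟩ : ∃ h : ℝ, h = M / B := ⟨_, rfl⟩
  have hhpos : 0 < h := by rw [hhdef]; positivity
  rw [← hhdef] at hhle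
  -- the normalised system
  let A' : Sys n e ℝ := fun i m => (A i m : ℝ) / H
  have hA' : ∀ i m, |A' i m - Ainf i m| ≤ 3 * rho := by
    intro i m
    have h1 : A' i m - Ainf i m = ((A i m : ℝ) - H * Ainf i m) / H := by
      simp only [A']
      field_simp
    rw [h1, abs_div, abs_of_pos hH, div_le_iff₀ hH]
    exact hA i m
  have hAA' : ∀ i, (fun m => ((A i m : ℤ) : ℝ)) = fun m => H * A' i m := by
    intro i
    ext m
    simp only [A']
    field_simp
  -- the sets
  let Jc : Type := {j : Fin (n + 1) // ¬ ∃ l, J l = j}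
  obtain ⟨S, hS⟩ : ∃ S : Set (Fin (n + 1) → ℤ), S = {x : Fin (n + 1) → ℤ | x ∈ Reg xi J kap B ∧
      (∀ i, (M : ℤ) ∣ x i - z i) ∧
      ∀ i, |((F (A i) x : ℤ) : ℝ)| ≤ th * H * (B : ℝ) ^ e i} := ⟨_, rfl⟩
  have hSfin : S.Finite := by
    rw [hS]
    exact (Reg_finite xi J kap B).subset fun x hx => hx.1
  let s : Jc → Set ℤ := fun j => {t : ℤ | (B : ℝ) * xi j.1 - kap ^ 2 * B ≤ t ∧
    (t : ℝ) ≤ B * xi j.1 + kap ^ 2 * B ∧ (M : ℤ) ∣ t - z j.1}
  have hs := fun j : Jc => CubicHP.ncard_AP ((B : ℝ) * xi j.1 - kap ^ 2 * B)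
    (B * xi j.1 + kap ^ 2 * B) (by nlinarith only [sq_nonneg kap]) M hM (z j.1)
  have hsb : ∀ j, (1 - e0) * (a * B) ≤ ((s j).ncard : ℝ) ∧
      ((s j).ncard : ℝ) ≤ (1 + e0) * (a * B) := by
    intro j
    have h1 := (hs j).2.1
    have h2 := (hs j).2.2
    have h3 : ((B : ℝ) * xi j.1 + kap ^ 2 * B - (B * xi j.1 - kap ^ 2 * B)) / M = a * B := by
      rw [hadef]
      field_simp
      ring
    rw [h3] at h1 h2
    constructor
    · refine le_trans ?_ h1
      nlinarith only [hea]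
    · refine h2.trans ?_
      nlinarith only [hea]
  have he32 : e0 ≤ 1 / 80 := by
    rw [hedef, div_le_iff₀ (by positivity)]
    have : (0 : ℝ) ≤ n := Nat.cast_nonneg n
    nlinarith only [he1]
  obtain ⟨hYlo, hYup⟩ := re2_prod s (fun j => (hs j).1) _ _
    (mul_nonneg (by linarith only [he32, hepos]) (by positivity)) hsb
  obtain ⟨Y, hY⟩ : ∃ Y : Set (Jc → ℤ), Y = {y : Jc → ℤ | ∀ j, y j ∈ s j} := ⟨_, rfl⟩
  have hYfin : Y.Finite := by
    rw [hY]
    exact finite_pi s fun j => (hs j).1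
  rw [← hY] at hYlo hYup
  have hfib := ncard_fiber_bounds S hSfin (fun x (j : Jc) => x j.1) Y hYfin (by
      intro x hx
      rw [hY]
      rw [hS] at hx
      intro j
      have h1 := hx.1 j.1
      rw [if_neg (show j.1 ∉ Set.range J from j.2), abs_le] at h1
      exact ⟨by linarith only [h1, h1.1], by linarith only [h1, h1.2], hx.2.1 _⟩)
    ((1 - eps / 8) * V / h ^ r) ((1 + eps / 8) * V / h ^ r) (by
      intro y hy
      rw [hY] at hy
      let y' : Fin (n + 1) → ℤ := fun j => if hj : ¬ ∃ l, J l = j then y ⟨j, hj⟩ else 0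
      have hy' : ∀ j (hj : ¬ ∃ l, J l = j), y' j = y ⟨j, hj⟩ := fun j hj => dif_pos hj
      let X : (Fin r → ℤ) → Fin (n + 1) → ℤ := fun k =>
        Function.extend J (fun l => z (J l) + M * k l) y'
      have hXJ : ∀ k l, X k (J l) = z (J l) + M * k l := fun k l => hJ.extend_apply _ _ _
      have hXn : ∀ k j (hj : ¬ ∃ l, J l = j), X k j = y ⟨j, hj⟩ := fun k j hj => by
        rw [← hy' j hj]
        exact Function.extend_apply' _ _ _ hj
      let yr : Fin (n + 1) → ℝ := fun j => (y' j : ℝ) / B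
      let p0 : Fin r → ℝ := fun l => (z (J l) : ℝ) / B - xi (J l)
      obtain ⟨Li, g1, g2, g3, g4, g5⟩ := re2_local hr bet del kap rho hb hkpos hk1 hrho.le hrho2
        Lam hLam hk2 Ainf A' xi yr J hJ hAinf hA' hxi hF (by rw [← hG]; exact hD) (by
          intro j hj
          have h1 := hy ⟨j, hj⟩
          simp only [yr]
          rw [hy' j hj]
          have h2 : ((y ⟨j, hj⟩ : ℤ) : ℝ) / B - xi j = (((y ⟨j, hj⟩ : ℤ) : ℝ) - B * xi j) / B := by
            field_simp
          rw [h2, abs_div, abs_of_pos hB', div_le_iff₀ hB', abs_le]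
          exact ⟨by linarith only [h1, hj, h1.1], by linarith only [h1, hj, h1.2.1]⟩)
      have hmain := hreg' (fun t i => F (A' i) (re2_P J xi yr t))
        (fun t => Jac A' (re2_P J xi yr t) J) (Jac Ainf xi J) Li g1
        (fun t => re2_deriv J hJ A' xi yr t) g2 g3 g4 (g5 th hth1) h p0 hhpos hhle
      rw [← hG, ← hV] at hmain
      have hpt : ∀ k : Fin r → ℤ, (fun j => ((X k j : ℤ) : ℝ)) =
          fun j => (B : ℝ) * re2_P J xi yr (fun l => p0 l + h * k l) j := by
        intro k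
        ext j
        by_cases hj : ∃ l, J l = j
        · obtain ⟨l, rfl⟩ := hj
          rw [hXJ, re2_P_J J hJ]
          simp only [p0, hhdef]
          push_cast
          field_simp
          ring
        · rw [hXn k j hj, re2_P_not J xi yr _ j hj]
          simp only [yr]
          rw [hy' j hj]
          field_simp
      have hval : ∀ (k : Fin r → ℤ) i, ((F (A i) (X k) : ℤ) : ℝ) =
          H * (B : ℝ) ^ e i * F (A' i) (re2_P J xi yr (fun l => p0 l + h * k l)) := by
        intro k i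
        rw [← F_cast, hAA', hpt, F_smul, F_scale]
        ring
      have hset : {x | x ∈ S ∧ (fun (j : Jc) => x j.1) = y} =
          X '' {k : Fin r → ℤ | (∀ i, |p0 i + h * k i| ≤ kap) ∧
            ∀ i, |F (A' i) (re2_P J xi yr (fun l => p0 l + h * k l))| ≤ th} := by
        have hregJ : ∀ (k : Fin r → ℤ) l, |((X k (J l) : ℤ) : ℝ) - B * xi (J l)| ≤ kap * B ↔
            |p0 l + h * k l| ≤ kap := by
          intro k l
          have h1 : p0 l + h * k l = (((X k (J l) : ℤ) : ℝ) - B * xi (J l)) / B := by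
            rw [hXJ]
            simp only [p0, hhdef]
            push_cast
            field_simp
            ring
          rw [h1, abs_div, abs_of_pos hB', div_le_iff₀ hB']
        have hvl : ∀ (k : Fin r → ℤ) i, |((F (A i) (X k) : ℤ) : ℝ)| ≤ th * H * (B : ℝ) ^ e i ↔
            |F (A' i) (re2_P J xi yr (fun l => p0 l + h * k l))| ≤ th := by
          intro k i
          rw [hval, abs_mul, abs_of_pos (by positivity : (0 : ℝ) < H * (B : ℝ) ^ e i)]
          rw [show th * H * (B : ℝ) ^ e i = H * (B : ℝ) ^ e i * th by ring]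
          exact mul_le_mul_iff_right₀ (by positivity)
        ext x
        rw [hS]
        constructor
        · rintro ⟨⟨h1, h2, h3⟩, h4⟩
          choose k hk using fun l => h2 (J l)
          have hx : X k = x := by
            ext j
            by_cases hj : ∃ l, J l = j
            · obtain ⟨l, rfl⟩ := hj
              rw [hXJ]
              linarith only [hk, hk l]
            · rw [hXn k j hj, ← h4]
          refine ⟨k, ⟨fun l => ?_, fun i => ?_⟩, hx⟩
          · rw [← hregJ k l, hx]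
            have h5 := h1 (J l)
            rwa [if_pos (Set.mem_range_self l)] at h5
          · rw [← hvl k i, hx]
            exact h3 i
        · rintro ⟨k, ⟨h1, h2⟩, rfl⟩
          refine ⟨⟨?_, ?_, ?_⟩, ?_⟩
          · intro j
            by_cases hj : ∃ l, J l = j
            · obtain ⟨l, rfl⟩ := hj
              rw [if_pos (Set.mem_range_self l)]
              exact (hregJ k l).2 (h1 l)
            · rw [if_neg (show j ∉ Set.range J from hj), hXn k j hj, abs_le]
              have h6 := hy ⟨j, hj⟩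
              exact ⟨by linarith only [h6, hj, h6.1], by linarith only [h6, hj, h6.2.1]⟩
          · intro j
            by_cases hj : ∃ l, J l = j
            · obtain ⟨l, rfl⟩ := hj
              rw [hXJ]
              exact ⟨k l, by ring⟩
            · rw [hXn k j hj]
              exact (hy ⟨j, hj⟩).2.2
          · intro i
            exact (hvl k i).2 (h2 i)
          · ext j
            exact hXn k j.1 j.2
      have hXinj : Function.Injective X := by
        intro k k' hkk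
        ext l
        have h1 := congrFun hkk (J l)
        rw [hXJ, hXJ] at h1
        have hM0 : (M : ℤ) ≠ 0 := by exact_mod_cast (by omega : M ≠ 0)
        exact mul_left_cancel₀ hM0 (by linarith only [h1])
      rw [hset, Set.ncard_image_of_injective _ hXinj]
      have hhr : 0 < h ^ r := by positivity
      constructor
      · rw [div_le_iff₀ hhr]
        exact hmain.1
      · rw [le_div_iff₀ hhr]
        exact hmain.2)
  obtain ⟨hlo, hup⟩ := hfib
  rw [← hS]
  have hrn : r ≤ n + 1 := by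
    have := Fintype.card_le_of_injective J hJ
    simpa using this
  have hcardJ : Fintype.card Jc = n + 1 - r := by
    have h1 : Fintype.card {j : Fin (n + 1) // ∃ l, J l = j} = r := by
      have h2 : Fintype.card (Fin r) = Fintype.card {j : Fin (n + 1) // ∃ l, J l = j} :=
        Fintype.card_congr (Equiv.ofInjective J hJ)
      rw [Fintype.card_fin] at h2
      exact h2.symm
    simp only [Jc]
    rw [Fintype.card_subtype_compl, h1, Fintype.card_fin]
  rw [hcardJ] at hYlo hYup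
  set m := n + 1 - r with hm
  have hmle : m ≤ n + 1 := Nat.sub_le _ _
  obtain ⟨hn1, hn2⟩ := re2_num n m hmle eps e0 heps he1 hedef
  have hVol : Vol n r (Jac Ainf xi J).det kap th B / (M : ℝ) ^ (n + 1) =
      V / h ^ r * (a * B) ^ m := by
    have h1 : n + 1 = m + r := by omega
    rw [Vol, ← hG, ← hm, hV, hhdef, hadef, h1, pow_add, pow_add,
      mul_pow (2 * kap ^ 2 / (M : ℝ)) (B : ℝ) m, div_pow (2 * kap ^ 2) (M : ℝ) m,
      div_pow (M : ℝ) (B : ℝ) r]
    field_simp
  have hVh : 0 < V / h ^ r := by positivity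
  have haB : 0 < (a * B) ^ m := by positivity
  constructor
  · rw [mul_div_assoc, hVol]
    refine le_trans ?_ hlo
    calc (1 - eps) * (V / h ^ r * (a * B) ^ m)
        ≤ ((1 - eps / 8) * (1 - e0) ^ m) * (V / h ^ r * (a * B) ^ m) :=
          mul_le_mul_of_nonneg_right hn1 (by positivity)
      _ = (1 - eps / 8) * V / h ^ r * ((1 - e0) * (a * B)) ^ m := by
          rw [mul_pow (1 - e0)]
          ring
      _ ≤ _ := mul_le_mul_of_nonneg_left hYlo (by
          have : 0 < 1 - eps / 8 := by linarith only [he1, he32, hepos]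
          (clear * - hVpos hhpos this; positivity))
  · rw [mul_div_assoc, hVol]
    refine hup.trans ?_
    calc (1 + eps / 8) * V / h ^ r * (Y.ncard : ℝ)
        ≤ (1 + eps / 8) * V / h ^ r * ((1 + e0) * (a * B)) ^ m :=
          mul_le_mul_of_nonneg_left hYup (by positivity)
      _ = ((1 + eps / 8) * (1 + e0) ^ m) * (V / h ^ r * (a * B) ^ m) := by
          rw [mul_pow (1 + e0)]
          ring
      _ ≤ _ := mul_le_mul_of_nonneg_right hn2 (by positivity)

end CIHP
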