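import Pool.Agent.Lib.MP_e426f4_ag.CI.ClassPts
import Pool.Agent.Lib.MP_e426f4_ag.G.FirstAux

/-! CI: auxiliary facts for the first moment. -/

namespace CIHP

open Finset Filter Topology GenHP

variable {n r : ℕ} {e : Fin r → ℕ}

theorem Lev_pos (p : Par n e) (th : ℝ) (M : ℕ) (H : ℝ) : 0 < p.Lev th M H := by
  unfold Par.Lev
  exact Finset.prod_pos fun i _ => by positivity

theorem NS_pos (p : Par n e) (eps : ℝ) (w : ℕ) (hp : p.Valid eps w) : 0 < NS n e := by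
  have hr := hp.r_pos
  unfold NS
  exact Finset.sum_pos (fun i _ => NN_pos n (e i)) ⟨⟨0, hr⟩, Finset.mem_univ _⟩

theorem near_Ainf (p : Par n e) (eps : ℝ) (w : ℕ) (hp : p.Valid eps w) (u H : ℝ)
    (hH0 : 0 ≤ H) (hu : u ≤ 2 * p.rho) (A : Sys n e ℤ) (hA : A ∈ p.Cl u H) :
    ∀ i m, |(A i m : ℝ) - H * p.Ainf i m| ≤ 3 * p.rho * H := by
  intro i m
  have h1 := hA.1 i m
  have h2 := hp.AC_near i m
  calc |(A i m : ℝ) - H * p.Ainf i m| =
        |((A i m : ℝ) - H * p.AC i m) + H * (p.AC i m - p.Ainf i m)| := by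
        ring_nf
    _ ≤ |(A i m : ℝ) - H * p.AC i m| + |(H : ℝ) * (p.AC i m - p.Ainf i m)| := abs_add_le _ _
    _ = |(A i m : ℝ) - H * p.AC i m| + H * |p.AC i m - p.Ainf i m| := by
        rw [abs_mul, abs_of_nonneg hH0]
    _ ≤ u * H + H * p.rho := add_le_add h1 (mul_le_mul_of_nonneg_left h2 hH0)
    _ ≤ 3 * p.rho * H := by nlinarith

theorem TT_nonneg (p : Par n e) (eps : ℝ) (w : ℕ) (hp : p.Valid eps w) (H : ℝ) (hH : 0 ≤ H) :
    0 ≤ p.TT H := by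
  have h1 := (dens_pos p eps w hp).le
  simp only [Par.TT]
  positivity

theorem Xn_nonneg (p : Par n e) (eps : ℝ) (w : ℕ) (hp : p.Valid eps w) (H : ℝ) (hH : 0 ≤ H) :
    0 ≤ p.Xn H := by
  have h1 := hp.rho_pos.le
  simp only [Par.Xn]
  positivity

end CIHP
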