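import Pool.Agent.Lib.MP_e426f4_ag.CI.Defs

/-! Module BF1: the height function. -/

namespace CIHP

open Finset Filter Topology GenHP

variable {n r : ℕ} (e : Fin r → ℕ)

theorem nu_pos (hs : ∑ i, e i ≤ n) : 1 ≤ nu n e := by
  unfold nu
  omega

theorem two_mul_r_le_sum (he : ∀ i, 2 ≤ e i) : 2 * r ≤ ∑ i, e i := by
  have h1 : ∑ _i : Fin r, 2 ≤ ∑ i, e i := Finset.sum_le_sum fun i _ => he i
  rw [Finset.sum_const, Finset.card_univ, Fintype.card_fin, smul_eq_mul] at h1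
  omega

/-- `2 r ≤ n * nu` -/
theorem two_r_le (he : ∀ i, 2 ≤ e i) (hs : ∑ i, e i ≤ n) : 2 * r ≤ n * nu n e := by
  have h1 := two_mul_r_le_sum e he
  have h2 := nu_pos e hs
  have h3 : n * 1 ≤ n * nu n e := Nat.mul_le_mul_left n h2
  omega

theorem Bf_le (C0 H : ℝ) (hC : 0 ≤ C0) (hH : 0 ≤ H) :
    (Bf n e C0 H : ℝ) ≤ (C0 * H ^ r) ^ (1 / (nu n e : ℝ)) :=
  Nat.floor_le (Real.rpow_nonneg (by positivity) _)

theorem base_atTop (hr : 1 ≤ r) (hs : ∑ i, e i ≤ n) (C0 : ℝ) (hC : 1 ≤ C0) :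
    Tendsto (fun H : ℝ => (C0 * H ^ r) ^ (1 / (nu n e : ℝ))) atTop atTop := by
  have hnu : (0 : ℝ) < nu n e := by exact_mod_cast nu_pos e hs
  have h1 : Tendsto (fun H : ℝ => C0 * H ^ r) atTop atTop :=
    Tendsto.const_mul_atTop (by linarith) (tendsto_pow_atTop (by omega))
  exact (tendsto_rpow_atTop (by positivity : (0 : ℝ) < 1 / (nu n e : ℝ))).comp h1

theorem Bf_atTop (hr : 1 ≤ r) (hs : ∑ i, e i ≤ n) (C0 : ℝ) (hC : 1 ≤ C0) :
    Tendsto (fun H : ℝ => Bf n e C0 H) atTop atTop :=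
  tendsto_nat_floor_atTop.comp (base_atTop e hr hs C0 hC)

theorem Bf_pow (hr : 1 ≤ r) (hs : ∑ i, e i ≤ n) (C0 : ℝ) (hC : 1 ≤ C0) :
    Tendsto (fun H : ℝ => (Bf n e C0 H : ℝ) ^ nu n e / H ^ r) atTop (𝓝 C0) := by
  have hnu1 := nu_pos e hs
  have hnu : (0 : ℝ) < nu n e := by exact_mod_cast hnu1
  have h1 : Tendsto (fun H : ℝ => ((Bf n e C0 H : ℝ) /
      (C0 * H ^ r) ^ (1 / (nu n e : ℝ))) ^ nu n e * C0) atTop (𝓝 (1 ^ nu n e * C0)) := by
    refine Tendsto.mul_const _ (Tendsto.pow ?_ _)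
    exact (tendsto_nat_floor_div_atTop (R := ℝ)).comp (base_atTop e hr hs C0 hC)
  rw [one_pow, one_mul] at h1
  refine h1.congr' ?_
  filter_upwards [eventually_gt_atTop 0] with H hH
  have hs0 : 0 < C0 * H ^ r := by positivity
  rw [div_pow, ← Real.rpow_natCast ((C0 * H ^ r) ^ (1 / (nu n e : ℝ))), ← Real.rpow_mul hs0.le,
    one_div_mul_cancel hnu.ne', Real.rpow_one]
  field_simp

/-- general smallness -/
theorem Bf_small_gen (hs : ∑ i, e i ≤ n) (C0 : ℝ) (hC : 1 ≤ C0) (b : ℝ) (hb : 0 < b)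
    (hbr : (r : ℝ) * (b / nu n e) < 1) (c : ℝ) :
    ∀ᶠ H : ℝ in atTop, c * (Bf n e C0 H : ℝ) ^ b ≤ H := by
  have hnu : (0 : ℝ) < nu n e := by exact_mod_cast nu_pos e hs
  have h1 : Tendsto (fun H : ℝ => H ^ (1 - (r : ℝ) * (b / nu n e))) atTop atTop :=
    tendsto_rpow_atTop (by linarith)
  filter_upwards [h1.eventually_ge_atTop (|c| * C0 ^ (b / nu n e)), eventually_gt_atTop 0]
    with H hH hH0
  have hs0 : 0 < C0 * H ^ r := by positivity
  have h2 : (Bf n e C0 H : ℝ) ^ b ≤ C0 ^ (b / nu n e) * H ^ ((r : ℝ) * (b / nu n e)) := by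
    calc (Bf n e C0 H : ℝ) ^ b ≤ ((C0 * H ^ r) ^ (1 / (nu n e : ℝ))) ^ b :=
          Real.rpow_le_rpow (by positivity) (Bf_le e C0 H (by linarith) hH0.le) hb.le
      _ = (C0 * H ^ r) ^ (b / nu n e) := by
          rw [← Real.rpow_mul hs0.le]
          congr 1
          ring
      _ = C0 ^ (b / nu n e) * H ^ ((r : ℝ) * (b / nu n e)) := by
          rw [Real.mul_rpow (by linarith) (by positivity), ← Real.rpow_natCast H r,
            ← Real.rpow_mul hH0.le]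
  calc c * (Bf n e C0 H : ℝ) ^ b ≤ |c| * (Bf n e C0 H : ℝ) ^ b :=
        mul_le_mul_of_nonneg_right (le_abs_self c) (by positivity)
    _ ≤ |c| * (C0 ^ (b / nu n e) * H ^ ((r : ℝ) * (b / nu n e))) := by gcongr
    _ = (|c| * C0 ^ (b / nu n e)) * H ^ ((r : ℝ) * (b / nu n e)) := by ring
    _ ≤ H ^ (1 - (r : ℝ) * (b / nu n e)) * H ^ ((r : ℝ) * (b / nu n e)) := by gcongr
    _ = H := by
      rw [← Real.rpow_add hH0]
      norm_num

/-- `B^(1/n) = o(H)` -/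
theorem Bf_small_one (hn : 2 ≤ n) (he : ∀ i, 2 ≤ e i) (hr : 1 ≤ r) (hs : ∑ i, e i ≤ n) (C0 : ℝ)
    (hC : 1 ≤ C0) (c : ℝ) :
    ∀ᶠ H : ℝ in atTop, c * (Bf n e C0 H : ℝ) ^ (1 / (n : ℝ)) ≤ H := by
  have hnu : (0 : ℝ) < nu n e := by exact_mod_cast nu_pos e hs
  have hn0 : (0 : ℝ) < n := by exact_mod_cast (by omega : 0 < n)
  have hr0 : (0 : ℝ) < r := by exact_mod_cast (by omega : 0 < r)
  have h1 : 2 * (r : ℝ) ≤ n * nu n e := by exact_mod_cast two_r_le e he hs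
  refine Bf_small_gen e hs C0 hC (1 / (n : ℝ)) (by positivity) ?_ c
  rw [div_div, mul_one_div, div_lt_one (by positivity)]
  linarith

/-- `B^(2/n) ≤ C0 H` -/
theorem Bf_two (hn : 2 ≤ n) (he : ∀ i, 2 ≤ e i) (hr : 1 ≤ r) (hs : ∑ i, e i ≤ n) (C0 : ℝ)
    (hC : 1 ≤ C0) (H : ℝ) (hH : 1 ≤ H) : (Bf n e C0 H : ℝ) ^ (2 / (n : ℝ)) ≤ C0 * H := by
  have hnu : (0 : ℝ) < nu n e := by exact_mod_cast nu_pos e hs
  have hnu1 : (1 : ℝ) ≤ nu n e := by exact_mod_cast nu_pos e hs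
  have hn0 : (0 : ℝ) < n := by exact_mod_cast (by omega : 0 < n)
  have hn2 : (2 : ℝ) ≤ n := by exact_mod_cast hn
  have h1 : 2 * (r : ℝ) ≤ n * nu n e := by exact_mod_cast two_r_le e he hs
  have hH0 : 0 < H := by linarith
  have hs0 : 0 < C0 * H ^ r := by positivity
  calc (Bf n e C0 H : ℝ) ^ (2 / (n : ℝ)) ≤
      ((C0 * H ^ r) ^ (1 / (nu n e : ℝ))) ^ (2 / (n : ℝ)) :=
        Real.rpow_le_rpow (by positivity) (Bf_le e C0 H (by linarith) hH0.le) (by positivity)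
    _ = (C0 * H ^ r) ^ (2 / (n * nu n e : ℝ)) := by
        rw [← Real.rpow_mul hs0.le]
        congr 1
        field_simp
    _ = C0 ^ (2 / (n * nu n e : ℝ)) * H ^ ((r : ℝ) * (2 / (n * nu n e : ℝ))) := by
        rw [Real.mul_rpow (by linarith) (by positivity), ← Real.rpow_natCast H r,
          ← Real.rpow_mul hH0.le]
    _ ≤ C0 ^ (1 : ℝ) * H ^ (1 : ℝ) := by
        refine mul_le_mul (Real.rpow_le_rpow_of_exponent_le hC ?_)
          (Real.rpow_le_rpow_of_exponent_le hH ?_) (by positivity) (by positivity)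
        · rw [div_le_one (by positivity)]
          nlinarith
        · rw [mul_div_assoc', div_le_one (by positivity)]
          linarith
    _ = C0 * H := by rw [Real.rpow_one, Real.rpow_one]

/-- `B^(2/n) = o(H)` outside the borderline case -/
theorem Bf_small_two (hn : 2 ≤ n) (hr : 1 ≤ r) (hs : ∑ i, e i ≤ n) (hb : 2 * r < n * nu n e)
    (C0 : ℝ) (hC : 1 ≤ C0) (c : ℝ) :
    ∀ᶠ H : ℝ in atTop, c * (Bf n e C0 H : ℝ) ^ (2 / (n : ℝ)) ≤ H := by
  have hnu : (0 : ℝ) < nu n e := by exact_mod_cast nu_pos e hs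
  have hn0 : (0 : ℝ) < n := by exact_mod_cast (by omega : 0 < n)
  have h1 : 2 * (r : ℝ) < n * nu n e := by exact_mod_cast hb
  refine Bf_small_gen e hs C0 hC (2 / (n : ℝ)) (by positivity) ?_ c
  rw [div_div, mul_div_assoc', div_lt_one (by positivity)]
  linarith

/-- the borderline case consists of the systems of `r` quadrics in `2 r + 1` variables -/
theorem borderline (he : ∀ i, 2 ≤ e i) (hr : 1 ≤ r) (hs : ∑ i, e i ≤ n)
    (hb : ¬ 2 * r < n * nu n e) : ∀ i, e i = 2 := by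
  have h1 := two_mul_r_le_sum e he
  have h2 := nu_pos e hs
  have h3 : n * 1 ≤ n * nu n e := Nat.mul_le_mul_left n h2
  have h4 : ∑ i, e i = 2 * r := by omega
  intro i
  by_contra hi
  have h5 : 2 < e i := lt_of_le_of_ne (he i) (Ne.symm hi)
  have h6 : ∑ _i : Fin r, 2 < ∑ i, e i :=
    Finset.sum_lt_sum (fun i _ => he i) ⟨i, Finset.mem_univ i, h5⟩
  rw [Finset.sum_const, Finset.card_univ, Fintype.card_fin, smul_eq_mul] at h6
  omega

end CIHP
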