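import Pool.Agent.Lib.MP_e426f4_ag.G.Alg
import Pool.Agent.Lib.MP_e426f4_ag.G.ShortOne
import Pool.Agent.Lib.MP_e426f4_ag.G.Trans
import Pool.Agent.Lib.MP_e426f4_ag.CI.Heights
import Pool.Agent.Lib.MP_e426f4_ag.CI.ClassPts

/-! Module CI-TR: translation inequalities for pairs (system, point). -/

namespace CIHP

open Finset Filter Topology GenHP

variable {n r : ℕ} {e : Fin r → ℕ}

/-- A short system of the class `0 (mod Q)` with prescribed values at a well-rounded point. -/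
theorem short_level_sys (p : Par n e) (eps : ℝ) (w : ℕ) (hp : p.Valid eps w) (K : ℝ)
    (hK : 1 ≤ K) (th : ℝ) (hth : 0 < th) :
    ∀ᶠ H : ℝ in atTop, ∀ x ∈ p.GG K (p.B H), ∀ (i : Fin r) (s : ℤ), (p.Q : ℤ) ∣ s →
      |(s : ℝ)| ≤ th * H * (p.B H : ℝ) ^ e i →
      ∃ t : Idx n (e i) → ℤ, F t x = s ∧ (∀ m, (p.Q : ℤ) ∣ t m) ∧
        ∀ m, |(t m : ℝ)| ≤ (2 ^ n + 1) * th * H := by
  have hn := hp.n_ge
  have hr := hp.r_pos
  have h1 : ∀ i : Fin r, ∀ᶠ H : ℝ in atTop,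
      c1 n (e i) * p.Q * K / th * (p.B H : ℝ) ^ (1 / (n : ℝ)) ≤ H := fun i =>
    Bf_small_one e (by omega) hp.e_ge hr hp.sum_le p.C0 hp.C0_ge _
  have h2 := (Bf_atTop e hr hp.sum_le p.C0 hp.C0_ge).eventually_ge_atTop 1
  filter_upwards [eventually_all.2 h1, h2, eventually_gt_atTop 0] with H h1 hB1 hH0 x hx i s hs hsb
  have hB1' : 1 ≤ p.B H := hB1
  have hB1r : (1 : ℝ) ≤ p.B H := by exact_mod_cast hB1'
  obtain ⟨s', rfl⟩ := hs
  obtain ⟨i0, hi0⟩ := hp.xi_eq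
  have hxb := (mem_XX_bounds p eps w hp (p.B H) x hx.1 i0).2 hi0
  have hn0 : (0 : ℝ) < n := by exact_mod_cast (by omega : 0 < n)
  have hei : 1 ≤ e i := le_trans (by norm_num) (hp.e_ge i)
  have hein : e i ≤ n :=
    (Finset.single_le_sum (f := e) (fun _ _ => Nat.zero_le _) (Finset.mem_univ i)).trans hp.sum_le
  have hmu : 1 ≤ K * (p.B H : ℝ) ^ (1 / (n : ℝ)) := by
    have : 1 ≤ (p.B H : ℝ) ^ (1 / (n : ℝ)) := Real.one_le_rpow hB1r (by positivity)
    nlinarith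
  obtain ⟨t, ht, htb⟩ := short_single hei (p.B H) hB1' x hx.2.1
    (K * (p.B H : ℝ) ^ (1 / (n : ℝ))) hmu hx.2.2 i0 hxb s'
  have hQ0 : (0 : ℝ) < p.Q := by exact_mod_cast hp.Q_pos
  have hc1 : 0 ≤ c1 n (e i) := by unfold c1; positivity
  refine ⟨fun m => p.Q * t m, ?_, fun m => Dvd.intro _ rfl, fun m => ?_⟩
  · rw [F_smul, ht]
  · have hB0 : (0 : ℝ) < (p.B H : ℝ) ^ e i := by positivity
    have h5 : (p.Q : ℝ) * |(s' : ℝ)| ≤ th * H * (p.B H : ℝ) ^ e i := by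
      have : |(((p.Q : ℤ) * s' : ℤ) : ℝ)| = (p.Q : ℝ) * |(s' : ℝ)| := by
        push_cast
        rw [abs_mul, Nat.abs_cast]
      rw [← this]
      exact hsb
    have h6 : (p.Q : ℝ) * (2 ^ e i * |(s' : ℝ)| / (p.B H : ℝ) ^ e i) ≤ 2 ^ n * th * H := by
      have h6' : (p.Q : ℝ) * (2 ^ e i * |(s' : ℝ)| / (p.B H : ℝ) ^ e i) ≤ 2 ^ e i * th * H := by
        have : (p.Q : ℝ) * (2 ^ e i * |(s' : ℝ)| / (p.B H : ℝ) ^ e i) =
            2 ^ e i * ((p.Q : ℝ) * |(s' : ℝ)|) / (p.B H : ℝ) ^ e i := by ring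
        rw [this, div_le_iff₀ hB0]
        have := mul_le_mul_of_nonneg_left h5 (by positivity : (0 : ℝ) ≤ 2 ^ e i)
        linarith
      refine h6'.trans ?_
      have h22 : (2 : ℝ) ^ e i ≤ 2 ^ n := pow_le_pow_right₀ (by norm_num) hein
      exact mul_le_mul_of_nonneg_right (mul_le_mul_of_nonneg_right h22 hth.le) hH0.le
    have h8 : (p.Q : ℝ) * (c1 n (e i) * (K * (p.B H : ℝ) ^ (1 / (n : ℝ)))) ≤ th * H := by
      have h9 : c1 n (e i) * p.Q * K / th * (p.B H : ℝ) ^ (1 / (n : ℝ)) * th ≤ H * th :=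
        mul_le_mul_of_nonneg_right (h1 i) hth.le
      have h10 : c1 n (e i) * p.Q * K / th * (p.B H : ℝ) ^ (1 / (n : ℝ)) * th =
          c1 n (e i) * p.Q * K * (p.B H : ℝ) ^ (1 / (n : ℝ)) := by
        field_simp
      rw [h10] at h9
      linarith
    push_cast
    rw [abs_mul, Nat.abs_cast]
    calc (p.Q : ℝ) * |(t m : ℝ)| ≤
        p.Q * (2 ^ e i * |(s' : ℝ)| / (p.B H : ℝ) ^ e i +
          c1 n (e i) * (K * (p.B H : ℝ) ^ (1 / (n : ℝ)))) :=
          mul_le_mul_of_nonneg_left (htb m) hQ0.le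
      _ = p.Q * (2 ^ e i * |(s' : ℝ)| / (p.B H : ℝ) ^ e i) +
          p.Q * (c1 n (e i) * (K * (p.B H : ℝ) ^ (1 / (n : ℝ)))) := mul_add _ _ _
      _ ≤ (2 ^ n + 1) * th * H := by linarith

/-- the levels as a finite set -/
noncomputable def levels (X : Fin r → ℝ) (M : ℕ) : Finset (Fin r → ℤ) :=
  Fintype.piFinset fun i => Icc (-(⌊X i / M⌋₊ : ℤ)) (⌊X i / M⌋₊ : ℤ)

theorem mem_levels (X : Fin r → ℝ) (hX : ∀ i, 0 ≤ X i) (M : ℕ) (hM : 0 < M) (k : Fin r → ℤ) :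
    k ∈ levels X M ↔ ∀ i, |(((M : ℤ) * k i : ℤ) : ℝ)| ≤ X i := by
  rw [levels, Fintype.mem_piFinset]
  exact forall_congr' fun i => level_iff (X i) (hX i) M hM (k i)

theorem Lev_eq_card (p : Par n e) (th : ℝ) (M : ℕ) (H : ℝ) :
    p.Lev th M H = ((levels (fun i => th * H * (p.B H : ℝ) ^ e i) M).card : ℝ) := by
  rw [levels, Fintype.card_piFinset, Par.Lev]
  push_cast
  refine Finset.prod_congr rfl fun i _ => ?_
  rw [Int.card_Icc]
  have : ((⌊th * H * (p.B H : ℝ) ^ e i / M⌋₊ : ℤ) + 1 - -(⌊th * H * (p.B H : ℝ) ^ e i / M⌋₊ : ℤ)) =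
      ((2 * ⌊th * H * (p.B H : ℝ) ^ e i / M⌋₊ + 1 : ℕ) : ℤ) := by
    push_cast
    ring
  rw [this, Int.toNat_natCast]
  push_cast
  ring

theorem trans_lower (p : Par n e) (eps : ℝ) (w : ℕ) (hp : p.Valid eps w)
    (K : ℝ) (hK : 1 ≤ K) (u th : ℝ) (hth : 0 < th) (s : ℕ) (hs : p.Q ∣ p.W ^ s) :
    ∀ᶠ H : ℝ in atTop,
      ((p.LP (u - (2 ^ n + 1) * th) th s (p.GG K (p.B H)) H).ncard : ℝ) ≤
        p.Lev th (p.W ^ s) H * ((p.Pairs u K H).ncard : ℝ) := by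
  classical
  filter_upwards [short_level_sys p eps w hp K hK th hth, eventually_gt_atTop 0] with H hH hH0
  obtain ⟨M, hM⟩ : ∃ M : ℕ, M = p.W ^ s := ⟨_, rfl⟩
  have hMpos : 0 < M := by rw [hM]; exact pow_pos hp.W_pos s
  have hMz : ((p.W : ℤ) ^ s) = (M : ℤ) := by rw [hM]; push_cast; rfl
  have hQM : (p.Q : ℤ) ∣ (M : ℤ) := by
    rw [hM]
    exact Int.natCast_dvd_natCast.2 hs
  rw [← hM, Lev_eq_card p]
  obtain ⟨X, hX⟩ : ∃ X : Fin r → ℝ, X = fun i => th * H * (p.B H : ℝ) ^ e i := ⟨_, rfl⟩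
  have hX0 : ∀ i, 0 ≤ X i := fun i => by rw [hX]; positivity
  rw [← hX]
  have hLPfin := LP_finite p (u - (2 ^ n + 1) * th) th s (p.GG K (p.B H)) (GG_finite p K (p.B H)) H
  have hPfin := Pairs_finite p u K H
  choose! t ht using hH
  let f : (Sys n e ℤ × (Fin (n + 1) → ℤ)) → (Sys n e ℤ × (Fin (n + 1) → ℤ)) × (Fin r → ℤ) :=
    fun q => ((fun i m => q.1 i m + (-1) * t q.2 i (F (q.1 i) q.2) m, q.2),
      fun i => F (q.1 i) q.2 / M)
  have hmaps : ∀ q ∈ hLPfin.toFinset, f q ∈ hPfin.toFinset ×ˢ levels X M := by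
    intro q hq
    rw [Set.Finite.mem_toFinset] at hq
    obtain ⟨h1, h2, h34⟩ := hq
    have h3 : ∀ i, (M : ℤ) ∣ F (q.1 i) q.2 := fun i => by rw [← hMz]; exact (h34 i).1
    have h4 := fun i => (h34 i).2
    have h5 := fun i => ht q.2 h2 i (F (q.1 i) q.2) (hQM.trans (h3 i)) (h4 i)
    rw [Finset.mem_product, Set.Finite.mem_toFinset]
    refine ⟨⟨⟨fun i m => ?_, fun i m => ?_⟩, h2, fun i => ?_⟩, ?_⟩
    · have h6 := h1.1 i m
      have h7 := (h5 i).2.2 m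
      have h8 : (((q.1 i m + (-1) * t q.2 i (F (q.1 i) q.2) m : ℤ) : ℝ)) - H * p.AC i m =
          ((q.1 i m : ℝ) - H * p.AC i m) - (t q.2 i (F (q.1 i) q.2) m : ℝ) := by
        push_cast
        ring
      simp only [f]
      rw [h8]
      refine (abs_sub _ _).trans ?_
      have h9 : (u - (2 ^ n + 1) * th) * H + (2 ^ n + 1) * th * H = u * H := by ring
      linarith
    · have h8 : q.1 i m + (-1) * t q.2 i (F (q.1 i) q.2) m - p.A0 i m =
          (q.1 i m - p.A0 i m) - t q.2 i (F (q.1 i) q.2) m := by ring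
      simp only [f]
      rw [h8]
      exact dvd_sub (h1.2 i m) ((h5 i).2.1 m)
    · simp only [f]
      rw [F_add (q.1 i) (fun m => (-1) * t q.2 i (F (q.1 i) q.2) m), F_smul, (h5 i).1]
      ring
    · simp only [f]
      rw [mem_levels X hX0 M hMpos]
      intro i
      rw [Int.mul_ediv_cancel' (h3 i), hX]
      exact h4 i
  have hinj : Set.InjOn f (hLPfin.toFinset : Set (Sys n e ℤ × (Fin (n + 1) → ℤ))) := by
    intro q hq q' hq' hqq
    rw [Finset.mem_coe, Set.Finite.mem_toFinset] at hq hq'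
    obtain ⟨h1, h2, h34⟩ := hq
    obtain ⟨h1', h2', h34'⟩ := hq'
    have h3 : ∀ i, (M : ℤ) ∣ F (q.1 i) q.2 := fun i => by rw [← hMz]; exact (h34 i).1
    have h3' : ∀ i, (M : ℤ) ∣ F (q'.1 i) q'.2 := fun i => by rw [← hMz]; exact (h34' i).1
    simp only [f, Prod.mk.injEq] at hqq
    obtain ⟨⟨e1, e2⟩, e3⟩ := hqq
    have e4 : ∀ i, F (q.1 i) q.2 = F (q'.1 i) q'.2 := by
      intro i
      have h6 : F (q.1 i) q.2 / (M : ℤ) = F (q'.1 i) q'.2 / M := congrFun e3 i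
      rw [← Int.mul_ediv_cancel' (h3 i), ← Int.mul_ediv_cancel' (h3' i), h6]
    have e5 : q.1 = q'.1 := by
      funext i m
      have h5 : q.1 i m + (-1) * t q.2 i (F (q.1 i) q.2) m =
          q'.1 i m + (-1) * t q'.2 i (F (q'.1 i) q'.2) m := congrFun (congrFun e1 i) m
      rw [e4, e2] at h5
      linarith
    exact Prod.ext e5 e2
  have hcard := Finset.card_le_card_of_injOn f hmaps hinj
  rw [Finset.card_product, ← Set.ncard_eq_toFinset_card _ hLPfin,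
    ← Set.ncard_eq_toFinset_card _ hPfin] at hcard
  calc ((p.LP (u - (2 ^ n + 1) * th) th s (p.GG K (p.B H)) H).ncard : ℝ) ≤
      (((p.Pairs u K H).ncard * (levels X M).card : ℕ) : ℝ) := by
        exact_mod_cast hcard
    _ = _ := by
        push_cast
        ring

theorem trans_upper (p : Par n e) (eps : ℝ) (w : ℕ) (hp : p.Valid eps w)
    (K : ℝ) (hK : 1 ≤ K) (u th : ℝ) (hth : 0 < th) (s : ℕ) (hs : p.Q ∣ p.W ^ s) :
    ∀ᶠ H : ℝ in atTop,
      p.Lev th (p.W ^ s) H * ((p.Pairs u K H).ncard : ℝ) ≤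
        ((p.LP (u + (2 ^ n + 1) * th) th s (p.GG K (p.B H)) H).ncard : ℝ) := by
  classical
  filter_upwards [short_level_sys p eps w hp K hK th hth, eventually_gt_atTop 0] with H hH hH0
  obtain ⟨M, hM⟩ : ∃ M : ℕ, M = p.W ^ s := ⟨_, rfl⟩
  have hMpos : 0 < M := by rw [hM]; exact pow_pos hp.W_pos s
  have hMz : ((p.W : ℤ) ^ s) = (M : ℤ) := by rw [hM]; push_cast; rfl
  have hMz0 : (M : ℤ) ≠ 0 := by exact_mod_cast hMpos.ne'
  have hQM : (p.Q : ℤ) ∣ (M : ℤ) := by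
    rw [hM]
    exact Int.natCast_dvd_natCast.2 hs
  rw [← hM, Lev_eq_card p]
  obtain ⟨X, hX⟩ : ∃ X : Fin r → ℝ, X = fun i => th * H * (p.B H : ℝ) ^ e i := ⟨_, rfl⟩
  have hX0 : ∀ i, 0 ≤ X i := fun i => by rw [hX]; positivity
  rw [← hX]
  have hLPfin := LP_finite p (u + (2 ^ n + 1) * th) th s (p.GG K (p.B H)) (GG_finite p K (p.B H)) H
  have hPfin := Pairs_finite p u K H
  choose! t ht using hH
  let f : (Sys n e ℤ × (Fin (n + 1) → ℤ)) × (Fin r → ℤ) → (Sys n e ℤ × (Fin (n + 1) → ℤ)) :=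
    fun q => (fun i m => q.1.1 i m + t q.1.2 i (M * q.2 i) m, q.1.2)
  have hF : ∀ q ∈ hPfin.toFinset ×ˢ levels X M, ∀ i, F ((f q).1 i) (f q).2 = M * q.2 i := by
    intro q hq i
    rw [Finset.mem_product, Set.Finite.mem_toFinset, mem_levels X hX0 M hMpos] at hq
    obtain ⟨⟨h1, h2, h3⟩, h4⟩ := hq
    have h4' := h4 i
    rw [hX] at h4'
    have h5 := ht q.1.2 h2 i (M * q.2 i) (hQM.trans (Dvd.intro _ rfl)) h4'
    simp only [f]
    rw [F_add (q.1.1 i) (fun m => t q.1.2 i (M * q.2 i) m), h3 i, h5.1]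
    ring
  have hmaps : ∀ q ∈ hPfin.toFinset ×ˢ levels X M, f q ∈ hLPfin.toFinset := by
    intro q hq
    have hFq := hF q hq
    rw [Finset.mem_product, Set.Finite.mem_toFinset, mem_levels X hX0 M hMpos] at hq
    obtain ⟨⟨h1, h2, h3⟩, h4⟩ := hq
    have h4'' : ∀ i, |(((M : ℤ) * q.2 i : ℤ) : ℝ)| ≤ th * H * (p.B H : ℝ) ^ e i := by
      intro i
      have := h4 i
      rwa [hX] at this
    have h5 := fun i => ht q.1.2 h2 i (M * q.2 i) (hQM.trans (Dvd.intro _ rfl)) (h4'' i)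
    rw [Set.Finite.mem_toFinset]
    refine ⟨⟨fun i m => ?_, fun i m => ?_⟩, h2, fun i => ⟨?_, ?_⟩⟩
    · have h6 := h1.1 i m
      have h7 := (h5 i).2.2 m
      have h8 : (((q.1.1 i m + t q.1.2 i (M * q.2 i) m : ℤ) : ℝ)) - H * p.AC i m =
          ((q.1.1 i m : ℝ) - H * p.AC i m) + (t q.1.2 i (M * q.2 i) m : ℝ) := by
        push_cast
        ring
      simp only [f]
      rw [h8]
      refine (abs_add_le _ _).trans ?_
      have h9 : (u + (2 ^ n + 1) * th) * H = u * H + (2 ^ n + 1) * th * H := by ring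
      linarith
    · have h8 : q.1.1 i m + t q.1.2 i (M * q.2 i) m - p.A0 i m =
          (q.1.1 i m - p.A0 i m) + t q.1.2 i (M * q.2 i) m := by ring
      simp only [f]
      rw [h8]
      exact dvd_add (h1.2 i m) ((h5 i).2.1 m)
    · rw [hFq i, hMz]
      exact Dvd.intro _ rfl
    · rw [hFq i]
      exact h4'' i
  have hinj : Set.InjOn f ((hPfin.toFinset ×ˢ levels X M :
      Finset ((Sys n e ℤ × (Fin (n + 1) → ℤ)) × (Fin r → ℤ))) :
      Set ((Sys n e ℤ × (Fin (n + 1) → ℤ)) × (Fin r → ℤ))) := by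
    intro q hq q' hq' hqq
    have e1 := hF q hq
    have e2 := hF q' hq'
    rw [hqq] at e1
    have e3 : q.2 = q'.2 := by
      funext i
      have e5 : (M : ℤ) * q.2 i = M * q'.2 i := (e1 i).symm.trans (e2 i)
      exact mul_left_cancel₀ hMz0 e5
    simp only [f, Prod.mk.injEq] at hqq
    have e4 : q.1.1 = q'.1.1 := by
      funext i m
      have := congrFun (congrFun hqq.1 i) m
      simp only [e3, hqq.2] at this
      linarith
    exact Prod.ext (Prod.ext e4 hqq.2) e3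
  have hcard := Finset.card_le_card_of_injOn f hmaps hinj
  rw [Finset.card_product, ← Set.ncard_eq_toFinset_card _ hLPfin,
    ← Set.ncard_eq_toFinset_card _ hPfin] at hcard
  calc _ = (((p.Pairs u K H).ncard * (levels X M).card : ℕ) : ℝ) := by
        push_cast
        ring
    _ ≤ ((p.LP (u + (2 ^ n + 1) * th) th s (p.GG K (p.B H)) H).ncard : ℝ) := by exact_mod_cast hcard

end CIHP
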