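import Pool.Agent.Lib.MP_e426f4_ag.CI.CardCl
import Pool.Agent.Lib.MP_e426f4_ag.CI.NLoc
import Pool.Agent.Lib.MP_e426f4_ag.CI.Trans
import Pool.Agent.Lib.MP_e426f4_ag.CI.BadPoints
import Pool.Agent.Lib.MP_e426f4_ag.CI.FirstAux

/-! CI: lower bound for the first moment. -/

namespace CIHP

open Finset Filter Topology GenHP

theorem S1_lower {n r : ℕ} {e : Fin r → ℕ} (p : Par n e) (eps : ℝ) (w : ℕ) (hp : p.Valid eps w) :
    ∃ K0 : ℝ, 1 ≤ K0 ∧ ∀ K, K0 ≤ K → ∀ᶠ H : ℝ in atTop,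
      (1 - 8 * eps - 2 / w) * p.TT H * p.Xn H ≤ ((p.Pairs p.rho K H).ncard : ℝ) := by
  have he := hp.eps_pos
  have he1 := hp.eps_le
  have hrho := hp.rho_pos
  have hW := hp.W_pos
  have hQ := hp.Q_pos
  have hw : 2 ≤ w := hp.w_two
  have hwr : (2 : ℝ) ≤ w := by exact_mod_cast hw
  have hWr : (0 : ℝ) < p.W := by exact_mod_cast hW
  have hQr : (0 : ℝ) < p.Q := by exact_mod_cast hQ
  obtain ⟨s, hs⟩ := hp.hens.2.1
  have hnQ : p.Q ∣ p.W ^ s := by rw [hs]
  have hN : 0 < NS n e := NS_pos p eps w hp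
  have hNr : (1 : ℝ) ≤ NS n e := by exact_mod_cast hN
  have hN0 : (0 : ℝ) < NS n e := by linarith
  set cs : ℝ := 2 ^ n + 1 with hcs
  have hc2 : (0 : ℝ) < cs := by positivity
  obtain ⟨th, hth, hth2, hth3⟩ : ∃ th : ℝ, 0 < th ∧ th ≤ p.th1 ∧
      th ≤ eps * p.rho / (cs * NS n e) :=
    ⟨min p.th1 (eps * p.rho / (cs * NS n e)),
      lt_min hp.th1_pos (by positivity), min_le_left _ _, min_le_right _ _⟩
  have hct : cs * th ≤ p.rho * (eps / NS n e) := by
    rw [le_div_iff₀ (by positivity)] at hth3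
    rw [mul_div_assoc', le_div_iff₀ hN0]
    linarith
  have heN : eps / NS n e ≤ eps := div_le_self he.le hNr
  have heN0 : 0 < eps / NS n e := by positivity
  set r9 : ℝ := p.rho - cs * th with hr9
  have hr9a : p.rho * (1 - eps / NS n e) ≤ r9 := by
    rw [hr9]
    linarith
  have hr9p : 0 < r9 := lt_of_lt_of_le (mul_pos hrho (by linarith)) hr9a
  have hr9b : r9 ≤ p.rho := by
    have : 0 < cs * th := mul_pos hc2 hth
    linarith
  obtain ⟨B0, hB0⟩ := nloc p eps w hp th hth hth2 s hnQ 1 one_pos (Nat.coprime_one_left _)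
  obtain ⟨K0, hK0, hbad⟩ := bad_points p eps w hp
  refine ⟨K0, hK0, fun K hK => ?_⟩
  have hK1 : 1 ≤ K := hK0.trans hK
  have hBt : Tendsto p.B atTop atTop := Bf_atTop e hp.r_pos hp.sum_le p.C0 hp.C0_ge
  filter_upwards [hbad K hK th hth hth2 s hnQ,
    trans_lower p eps w hp K hK1 p.rho th hth s hnQ,
    card_Cl p hQ r9 eps hr9p he, hBt.eventually_ge_atTop 1, hBt.eventually_ge_atTop B0,
    Lev_asymp p eps w hp th hth (p.W ^ s) (pow_pos hW s) eps he,
    eventually_ge_atTop (1 : ℝ)] with H hBP hTR hCl hB1 hB0' hlev' hH1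
  have hH0 : (0 : ℝ) < H := by linarith only [hH1, he, he1]
  have hB1' : (1 : ℝ) ≤ p.B H := by exact_mod_cast hB1
  have hBpos : (0 : ℝ) < p.B H := by linarith
  have hlev := hlev'.2
  have hlev0 := Lev_pos p th (p.W ^ s) H
  have hmt := TL_eq p eps w hp th hth s H hH0
  have hMT : p.MT th s H = p.TL th s (p.B H) * p.Xn H := rfl
  rw [hMT] at hBP
  have hTT0 : 0 ≤ p.TT H := TT_nonneg p eps w hp H hH0.le
  have hX0 : 0 ≤ p.Xn H := Xn_nonneg p eps w hp H hH0.le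
  have hP0 : (0 : ℝ) ≤ ((p.Pairs p.rho K H).ncard : ℝ) := Nat.cast_nonneg _
  push_cast at hlev
  set y : ℝ := (2 * th * H / (p.W : ℝ) ^ s) ^ r * (p.B H : ℝ) ^ (∑ i, e i) with hydef
  have hy0 : 0 < y := by positivity
  set T' : ℝ := p.TL th s (p.B H) with hT'
  have hT'nn : 0 ≤ T' := by
    rw [hmt]
    positivity
  -- all local pairs
  have hLP : ((p.Cl r9 H).ncard : ℝ) * ((1 - eps) * T') ≤
      ((p.LP r9 th s (p.XX (p.B H)) H).ncard : ℝ) := by
    refine le_ncard_pairs (p.Cl r9 H) (Cl_finite p _ H) (p.XX (p.B H))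
      (XX_finite p (p.B H)) (fun A x => ∀ i, ((p.W : ℤ) ^ s) ∣ F (A i) x ∧
        |((F (A i) x : ℤ) : ℝ)| ≤ th * H * (p.B H : ℝ) ^ e i) _ ?_
    intro A hA
    have h1 := (hB0 (p.B H) hB0' H hH0 A
      (near_Ainf p eps w hp r9 H hH0.le (by linarith only [hr9b, hrho]) A hA) hA.2 (fun _ => 0)).1
    have h2 : (((1 : ℕ) : ℝ)) ^ (n + 1) = 1 := by simp
    rw [h2, div_one] at h1
    refine le_trans h1 ?_
    have h3 : {x : Fin (n + 1) → ℤ | x ∈ p.XX (p.B H) ∧ (∀ i, ((p.W : ℤ) ^ s) ∣ F (A i) x ∧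
          |((F (A i) x : ℤ) : ℝ)| ≤ th * H * (p.B H : ℝ) ^ e i) ∧
          ∀ i, ((1 : ℕ) : ℤ) ∣ x i - 0} ⊆
        {x | x ∈ p.XX (p.B H) ∧ ∀ i, ((p.W : ℤ) ^ s) ∣ F (A i) x ∧
        |((F (A i) x : ℤ) : ℝ)| ≤ th * H * (p.B H : ℝ) ^ e i} := by
      intro x hx
      exact ⟨hx.1, hx.2.1⟩
    have h4 := Set.ncard_le_ncard h3 ((XX_finite p (p.B H)).subset fun _ hx => hx.1)
    exact_mod_cast h4
  have hsplit : ((p.LP r9 th s (p.XX (p.B H)) H).ncard : ℝ) ≤
      ((p.LP r9 th s (p.GG K (p.B H)) H).ncard : ℝ) +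
      ((p.LP p.rho th s (p.XX (p.B H) \ p.GG K (p.B H)) H).ncard : ℝ) := by
    have h1 : p.LP r9 th s (p.XX (p.B H)) H ⊆ p.LP r9 th s (p.GG K (p.B H)) H ∪
        p.LP p.rho th s (p.XX (p.B H) \ p.GG K (p.B H)) H := by
      intro q hq
      by_cases hg : q.2 ∈ p.GG K (p.B H)
      · exact Or.inl ⟨hq.1, hg, hq.2.2⟩
      · refine Or.inr ⟨⟨fun i m => (hq.1.1 i m).trans ?_, hq.1.2⟩, ⟨hq.2.1, hg⟩, hq.2.2⟩
        exact mul_le_mul_of_nonneg_right hr9b hH0.le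
    have h2 := Set.ncard_le_ncard h1 ((LP_finite p r9 th s _ (GG_finite p K (p.B H)) H).union
      (LP_finite p p.rho th s _ ((XX_finite p (p.B H)).subset fun _ h => h.1) H))
    have h3 := Set.ncard_union_le (p.LP r9 th s (p.GG K (p.B H)) H)
      (p.LP p.rho th s (p.XX (p.B H) \ p.GG K (p.B H)) H)
    exact_mod_cast h2.trans h3
  have hX : (1 - eps) * p.Xn H ≤ (2 * r9 * H / p.Q) ^ NS n e := by
    have h1 : (1 - eps / NS n e) ^ NS n e * p.Xn H ≤ (2 * r9 * H / p.Q) ^ NS n e := by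
      simp only [Par.Xn]
      rw [← mul_pow]
      refine pow_le_pow_left₀ (mul_nonneg (by linarith only [he, he1, heN]) (by positivity)) ?_ _
      rw [mul_div_assoc', div_le_div_iff_of_pos_right hQr]
      nlinarith only [hH0, hr9a, mul_le_mul_of_nonneg_right hr9a hH0.le]
    exact (mul_le_mul_of_nonneg_right (one_sub_le_pow _ hN eps (by linarith)) hX0).trans h1
  set v : ℝ := 2 / (w : ℝ) with hv
  have hv0 : 0 ≤ v := by positivity
  -- lower bound for the local pairs over good points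
  have h5 : (1 - 4 * eps - v) * (T' * p.Xn H) ≤
      ((p.LP r9 th s (p.GG K (p.B H)) H).ncard : ℝ) := by
    have h6 : (1 - eps) * ((1 - eps) * p.Xn H) * ((1 - eps) * T') ≤
        ((p.Cl r9 H).ncard : ℝ) * ((1 - eps) * T') := by
      refine mul_le_mul_of_nonneg_right ?_ (mul_nonneg (by linarith) hT'nn)
      exact (mul_le_mul_of_nonneg_left hX (by linarith)).trans hCl.1
    have h7 : (1 - 4 * eps - v) * (T' * p.Xn H) ≤
        (1 - eps) * ((1 - eps) * p.Xn H) * ((1 - eps) * T') - (eps + v) * (T' * p.Xn H) := by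
      have h8 : 0 ≤ T' * p.Xn H := mul_nonneg hT'nn hX0
      have h9 : 1 - 4 * eps - v ≤ (1 - eps) * (1 - eps) * (1 - eps) - (eps + v) := by
        nlinarith [mul_pos he he, mul_nonneg (mul_nonneg he.le he.le) (by linarith : (0 : ℝ) ≤ 1 - eps)]
      calc (1 - 4 * eps - v) * (T' * p.Xn H) ≤
          ((1 - eps) * (1 - eps) * (1 - eps) - (eps + v)) * (T' * p.Xn H) :=
            mul_le_mul_of_nonneg_right h9 h8
        _ = _ := by ring
    linarith only [h6, h7, hBP, hLP, hsplit]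
  by_cases hneg : 1 - 8 * eps - v ≤ 0
  · calc (1 - 8 * eps - v) * p.TT H * p.Xn H = (1 - 8 * eps - v) * (p.TT H * p.Xn H) := by ring
      _ ≤ 0 := mul_nonpos_of_nonpos_of_nonneg hneg (mul_nonneg hTT0 hX0)
      _ ≤ _ := hP0
  · have hpos : 0 < 1 - 8 * eps - v := not_le.1 hneg
    refine le_of_mul_le_mul_left ?_ hlev0
    calc p.Lev th (p.W ^ s) H * ((1 - 8 * eps - v) * p.TT H * p.Xn H) ≤
        ((1 + eps) * y) * ((1 - 8 * eps - v) * p.TT H * p.Xn H) :=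
          mul_le_mul_of_nonneg_right hlev
            (mul_nonneg (mul_nonneg hpos.le hTT0) hX0)
      _ = ((1 + eps) * (1 - 8 * eps - v)) * (y * p.TT H * p.Xn H) := by ring
      _ ≤ (1 - 4 * eps - v) * (y * p.TT H * p.Xn H) := by
          refine mul_le_mul_of_nonneg_right ?_ (by positivity)
          nlinarith only [he, hv0, mul_nonneg he.le hv0, mul_pos he he]
      _ = (1 - 4 * eps - v) * (T' * p.Xn H) := by rw [hmt]; ring
      _ ≤ _ := h5
      _ ≤ _ := hTR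

end CIHP
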