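import Pool.Agent.Lib.MP_e426f4_ag.CI.CardCl
import Pool.Agent.Lib.MP_e426f4_ag.CI.NLoc
import Pool.Agent.Lib.MP_e426f4_ag.CI.Trans
import Pool.Agent.Lib.MP_e426f4_ag.CI.FirstAux

/-! CI: upper bound for the first moment. -/

namespace CIHP

open Finset Filter Topology GenHP

private theorem s1b_num (N : ℕ) (hN : 0 < N) (e : ℝ) (he : 0 < e) (he1 : e ≤ 1 / 10) :
    (1 + e) * (1 + e / N) ^ N * (1 + e) ≤ (1 - e) * (1 + 8 * e) := by
  have h1 := pow_le_quad N hN e he (by linarith)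
  have h2 : (1 + e) * (1 + e) ≤ 1 + 21 / 10 * e := by nlinarith
  have h3 : 1 + e + e ^ 2 ≤ 1 + 11 / 10 * e := by nlinarith
  calc (1 + e) * (1 + e / N) ^ N * (1 + e) = (1 + e) * (1 + e) * (1 + e / N) ^ N := by ring
    _ ≤ (1 + 21 / 10 * e) * (1 + 11 / 10 * e) :=
        mul_le_mul h2 (h1.trans h3) (by positivity) (by positivity)
    _ ≤ (1 - e) * (1 + 8 * e) := by nlinarith

theorem S1_upper {n r : ℕ} {e : Fin r → ℕ} (p : Par n e) (eps : ℝ) (w : ℕ) (hp : p.Valid eps w)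
    (K : ℝ) (hK : 1 ≤ K) (u : ℝ) (hu : p.rho ≤ u) (hu2 : u ≤ 3 / 2 * p.rho) :
    ∀ᶠ H : ℝ in atTop,
      ((p.Pairs u K H).ncard : ℝ) ≤ (1 + 8 * eps) * p.TT H * (2 * u * H / p.Q) ^ NS n e := by
  have he := hp.eps_pos
  have he1 := hp.eps_le
  have hrho := hp.rho_pos
  have hW := hp.W_pos
  have hQ := hp.Q_pos
  have hWr : (0 : ℝ) < p.W := by exact_mod_cast hW
  have hQr : (0 : ℝ) < p.Q := by exact_mod_cast hQ
  have hu0 : 0 < u := hrho.trans_le hu
  obtain ⟨s, hs⟩ := hp.hens.2.1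
  have hnQ : p.Q ∣ p.W ^ s := by rw [hs]
  have hN : 0 < NS n e := NS_pos p eps w hp
  have hNr : (1 : ℝ) ≤ NS n e := by exact_mod_cast hN
  have hN0 : (0 : ℝ) < NS n e := by linarith
  set cs : ℝ := 2 ^ n + 1 with hcs
  have hc2 : (0 : ℝ) < cs := by positivity
  obtain ⟨th, hth, hth2, hth3⟩ : ∃ th : ℝ, 0 < th ∧ th ≤ p.th1 ∧
      th ≤ eps * p.rho / (cs * NS n e) :=
    ⟨min p.th1 (eps * p.rho / (cs * NS n e)),
      lt_min hp.th1_pos (by positivity), min_le_left _ _, min_le_right _ _⟩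
  have hct : cs * th ≤ p.rho * (eps / NS n e) := by
    rw [le_div_iff₀ (by positivity)] at hth3
    rw [mul_div_assoc', le_div_iff₀ hN0]
    linarith
  have heN : eps / NS n e ≤ eps := div_le_self he.le hNr
  have heN0 : 0 < eps / NS n e := by positivity
  have hr9 : u + cs * th ≤ u * (1 + eps / NS n e) := by
    have := mul_le_mul_of_nonneg_right hu heN0.le
    linarith
  have hr9b : u + cs * th ≤ 2 * p.rho := by
    have h1 : p.rho * (eps / NS n e) ≤ p.rho * (1 / 10) :=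
      mul_le_mul_of_nonneg_left (heN.trans he1) hrho.le
    linarith
  obtain ⟨B0, hB0⟩ := nloc p eps w hp th hth hth2 s hnQ 1 one_pos (Nat.coprime_one_left _)
  have hBt : Tendsto p.B atTop atTop := Bf_atTop e hp.r_pos hp.sum_le p.C0 hp.C0_ge
  filter_upwards [trans_upper p eps w hp K hK u th hth s hnQ,
    card_Cl p hQ (u + cs * th) eps (by positivity) he, hBt.eventually_ge_atTop 1,
    hBt.eventually_ge_atTop B0,
    Lev_asymp p eps w hp th hth (p.W ^ s) (pow_pos hW s) eps he,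
    eventually_ge_atTop (1 : ℝ)] with H hTR hCl hB1 hB0' hlev hH1
  have hH0 : (0 : ℝ) < H := by linarith
  have hB1' : (1 : ℝ) ≤ p.B H := by exact_mod_cast hB1
  have hBpos : (0 : ℝ) < p.B H := by linarith
  have hlev1 := hlev.1
  have hmt := TL_eq p eps w hp th hth s H hH0
  have hTT0 : 0 ≤ p.TT H := TT_nonneg p eps w hp H hH0.le
  push_cast at hlev1
  set y : ℝ := (2 * th * H / (p.W : ℝ) ^ s) ^ r * (p.B H : ℝ) ^ (∑ i, e i) with hydef
  have hy0 : 0 < y := by positivity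
  -- number of local pairs
  have hLP : ((p.LP (u + cs * th) th s (p.GG K (p.B H)) H).ncard : ℝ) ≤
      ((p.Cl (u + cs * th) H).ncard : ℝ) * ((1 + eps) * p.TL th s (p.B H)) := by
    refine ncard_pairs_le (p.Cl (u + cs * th) H) (Cl_finite p _ H) (p.GG K (p.B H))
      (GG_finite p K (p.B H)) (fun A x => ∀ i, ((p.W : ℤ) ^ s) ∣ F (A i) x ∧
        |((F (A i) x : ℤ) : ℝ)| ≤ th * H * (p.B H : ℝ) ^ e i) _ ?_
    intro A hA
    have h1 := (hB0 (p.B H) hB0' H hH0 A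
      (near_Ainf p eps w hp (u + cs * th) H hH0.le hr9b A hA) hA.2 (fun _ => 0)).2
    have h2 : (((1 : ℕ) : ℝ)) ^ (n + 1) = 1 := by simp
    rw [h2, div_one] at h1
    refine le_trans ?_ h1
    have h3 : {x | x ∈ p.GG K (p.B H) ∧ ∀ i, ((p.W : ℤ) ^ s) ∣ F (A i) x ∧
        |((F (A i) x : ℤ) : ℝ)| ≤ th * H * (p.B H : ℝ) ^ e i} ⊆
        {x : Fin (n + 1) → ℤ | x ∈ p.XX (p.B H) ∧ (∀ i, ((p.W : ℤ) ^ s) ∣ F (A i) x ∧
          |((F (A i) x : ℤ) : ℝ)| ≤ th * H * (p.B H : ℝ) ^ e i) ∧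
          ∀ i, ((1 : ℕ) : ℤ) ∣ x i - 0} := by
      intro x hx
      exact ⟨hx.1.1, hx.2, fun i => by simp⟩
    have h4 := Set.ncard_le_ncard h3 ((XX_finite p (p.B H)).subset fun _ hx => hx.1)
    exact_mod_cast h4
  have hX : (2 * (u + cs * th) * H / p.Q) ^ NS n e ≤
      (1 + eps / NS n e) ^ NS n e * (2 * u * H / p.Q) ^ NS n e := by
    rw [← mul_pow]
    refine pow_le_pow_left₀ (by positivity) ?_ _
    rw [mul_div_assoc', div_le_div_iff_of_pos_right hQr]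
    nlinarith [mul_le_mul_of_nonneg_right hr9 hH0.le]
  set X : ℝ := (2 * u * H / p.Q) ^ NS n e with hXdef
  have hX0 : 0 ≤ X := by positivity
  have hP0 : (0 : ℝ) ≤ ((p.Pairs u K H).ncard : ℝ) := Nat.cast_nonneg _
  have hTL0 : 0 ≤ p.TL th s (p.B H) := by
    rw [hmt]
    positivity
  have h5 : (1 - eps) * y * ((p.Pairs u K H).ncard : ℝ) ≤
      (1 - eps) * y * ((1 + 8 * eps) * p.TT H * X) := by
    calc (1 - eps) * y * ((p.Pairs u K H).ncard : ℝ) ≤
        p.Lev th (p.W ^ s) H * ((p.Pairs u K H).ncard : ℝ) :=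
          mul_le_mul_of_nonneg_right hlev1 hP0
      _ ≤ _ := hTR
      _ ≤ _ := hLP
      _ ≤ ((1 + eps) * (2 * (u + cs * th) * H / p.Q) ^ NS n e) *
          ((1 + eps) * p.TL th s (p.B H)) :=
          mul_le_mul_of_nonneg_right hCl.2 (by positivity)
      _ ≤ ((1 + eps) * ((1 + eps / NS n e) ^ NS n e * X)) *
          ((1 + eps) * p.TL th s (p.B H)) := by gcongr
      _ = (1 + eps) * (1 + eps / NS n e) ^ NS n e * (1 + eps) * (y * p.TT H * X) := by
          rw [hmt]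
          ring
      _ ≤ (1 - eps) * (1 + 8 * eps) * (y * p.TT H * X) :=
          mul_le_mul_of_nonneg_right (s1b_num _ hN eps he he1) (by positivity)
      _ = _ := by ring
  have h6 : 0 < (1 - eps) * y := mul_pos (by linarith) (by positivity)
  exact le_of_mul_le_mul_left h5 h6

end CIHP
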