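import Pool.Agent.Lib.MP_e426f4_ag.CI.Defs
import Pool.Agent.Lib.MP_e426f4_ag.CI.Basic
import Pool.Agent.Lib.MP_e426f4_ag.CI.Heights
import Pool.Agent.Lib.MP_e426f4_ag.CI.ClassPts
import Pool.Agent.Lib.MP_e426f4_ag.G.Crude

/-! Module CI-CP: crude count of systems through two points. -/

namespace CIHP

open Finset Filter Topology GenHP

variable {n r : ℕ} {e : Fin r → ℕ}

theorem cp_Cl_abs_le (p : Par n e) (eps : ℝ) (w : ℕ) (hp : p.Valid eps w) (H : ℝ)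
    (hH : 0 ≤ H) (A : Sys n e ℤ) (hA : A ∈ p.Cl p.rho H) (i : Fin r) (m : Idx n (e i)) :
    |(A i m : ℝ)| ≤ 3 * H := by
  have h1 := hA.1 i m
  have h2 := hp.AC_near i m
  have h3 := hp.Ainf_le i m
  have h4 := hp.rho_le
  have h5 : |p.AC i m| ≤ 1 + p.rho := by
    calc |p.AC i m| = |(p.AC i m - p.Ainf i m) + p.Ainf i m| := by ring_nf
      _ ≤ |p.AC i m - p.Ainf i m| + |p.Ainf i m| := abs_add_le _ _
      _ ≤ 1 + p.rho := by linarith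
  calc |(A i m : ℝ)| = |((A i m : ℝ) - H * p.AC i m) + H * p.AC i m| := by ring_nf
    _ ≤ |(A i m : ℝ) - H * p.AC i m| + |H * p.AC i m| := abs_add_le _ _
    _ ≤ p.rho * H + H * (1 + p.rho) := by
        rw [abs_mul, abs_of_nonneg hH]
        exact add_le_add h1 (mul_le_mul_of_nonneg_left h5 hH)
    _ ≤ 3 * H := by nlinarith

theorem crude_sys (p : Par n e) (eps : ℝ) (w : ℕ) (hp : p.Valid eps w) (K : ℝ) (hK : 1 ≤ K) :
    ∃ C : ℝ, 0 < C ∧ ∀ᶠ H : ℝ in atTop, ∀ x y : Fin (n + 1) → ℤ, x ∈ p.GG K (p.B H) →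
      y ∈ p.GG K (p.B H) → x ≠ y →
      (Set.ncard {A : Sys n e ℤ | A ∈ p.Cl p.rho H ∧ ∀ i, F (A i) x = 0 ∧ F (A i) y = 0} : ℝ) ≤
        C * p.Xn H * ((mg x y : ℝ) / dl x y) ^ r * (p.B H : ℝ) ^ (2 * r) /
          (H ^ (2 * r) * (p.B H : ℝ) ^ (2 * ∑ i, e i)) := by
  classical
  have hrho := hp.rho_pos
  have hQ : (0 : ℝ) < p.Q := by exact_mod_cast hp.Q_pos
  have hn2 : 2 ≤ n := by have := hp.n_ge; omega
  have hC0 : 0 < p.C0 := lt_of_lt_of_le one_pos hp.C0_ge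
  have hc1 : ∀ i : Fin r, 0 ≤ c1 n (e i) := fun i => by unfold c1; positivity
  have hc2 : ∀ i : Fin r, 0 ≤ c2 n (e i) := fun i => by unfold c2; positivity
  obtain ⟨s1, hs1⟩ : ∃ s1 : ℝ, s1 = ∑ i, c1 n (e i) := ⟨_, rfl⟩
  obtain ⟨s2, hs2⟩ : ∃ s2 : ℝ, s2 = ∑ i, c2 n (e i) := ⟨_, rfl⟩
  have hs1' : ∀ i, c1 n (e i) ≤ s1 := fun i => by
    rw [hs1]
    exact Finset.single_le_sum (f := fun i => c1 n (e i)) (fun i _ => hc1 i) (Finset.mem_univ i)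
  have hs2' : ∀ i, c2 n (e i) ≤ s2 := fun i => by
    rw [hs2]
    exact Finset.single_le_sum (f := fun i => c2 n (e i)) (fun i _ => hc2 i) (Finset.mem_univ i)
  have hs20 : 0 ≤ s2 := by rw [hs2]; exact Finset.sum_nonneg fun i _ => hc2 i
  obtain ⟨CK, hCK⟩ : ∃ CK : ℝ, CK = 3 + 2 * s2 * K ^ 2 * p.C0 := ⟨_, rfl⟩
  have hCK3 : 3 ≤ CK := by
    rw [hCK]
    have : 0 ≤ 2 * s2 * K ^ 2 * p.C0 := by positivity
    linarith
  have hCK0 : 0 < CK := by linarith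
  obtain ⟨ci, hci⟩ : ∃ ci : Fin r → ℝ, ci = fun i => 7 ^ NN n (e i) * 2 ^ (2 * e i + 5) *
    (CK * p.Q / (2 * p.rho)) ^ NN n (e i) := ⟨_, rfl⟩
  have hci0 : ∀ i, 0 < ci i := fun i => by rw [hci]; positivity
  refine ⟨∏ i, ci i, Finset.prod_pos fun i _ => hci0 i, ?_⟩
  obtain ⟨i0, hi0⟩ := hp.xi_eq
  filter_upwards [(Bf_atTop e hp.r_pos hp.sum_le p.C0 hp.C0_ge).eventually_ge_atTop 1,
    Bf_small_one e hn2 hp.e_ge hp.r_pos hp.sum_le p.C0 hp.C0_ge (2 * s1 * K),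
    eventually_ge_atTop (1 : ℝ)] with H hB hsm hH
  intro x y hx hy hxy
  change 1 ≤ p.B H at hB
  change 2 * s1 * K * (p.B H : ℝ) ^ (1 / (n : ℝ)) ≤ H at hsm
  have htwo : (p.B H : ℝ) ^ (2 / (n : ℝ)) ≤ p.C0 * H :=
    Bf_two e hn2 hp.e_ge hp.r_pos hp.sum_le p.C0 hp.C0_ge H hH
  have hB1 : (1 : ℝ) ≤ p.B H := by exact_mod_cast hB
  have hB0 : (0 : ℝ) < p.B H := by linarith
  obtain ⟨mu, hmu⟩ : ∃ mu : ℝ, mu = K * (p.B H : ℝ) ^ (1 / (n : ℝ)) := ⟨_, rfl⟩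
  have hmu1 : 1 ≤ mu := by
    have : (1 : ℝ) ≤ (p.B H : ℝ) ^ (1 / (n : ℝ)) := Real.one_le_rpow hB1 (by positivity)
    rw [hmu]
    nlinarith
  have hmu2 : mu ^ 2 = K ^ 2 * (p.B H : ℝ) ^ (2 / (n : ℝ)) := by
    rw [hmu, mul_pow, ← Real.rpow_natCast ((p.B H : ℝ) ^ (1 / (n : ℝ))) 2,
      ← Real.rpow_mul hB0.le]
    congr 2
    push_cast
    ring
  have hdl := dl_pos_of_mem_GG p eps w hp K (p.B H) hB x y hx hy hxy
  have hdl' : (0 : ℝ) < dl x y := by exact_mod_cast hdl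
  have hxb := mem_XX_bounds p eps w hp (p.B H) x hx.1
  have hyb := mem_XX_bounds p eps w hp (p.B H) y hy.1
  have hcp : ∀ i, (Set.ncard {A : Idx n (e i) → ℤ | (∀ m, |(A m : ℝ)| ≤ CK * H) ∧ F A x = 0 ∧
      F A y = 0} : ℝ) ≤ 7 ^ NN n (e i) * 2 ^ (2 * e i + 5) * (CK * H) ^ NN n (e i) * mg x y /
        ((CK * H) ^ 2 * (p.B H : ℝ) ^ (2 * e i - 2) * dl x y) := by
    intro i
    refine crude_pair (hp.e_ge i) (p.B H) hB x y hx.2.1 hy.2.1 mu hmu1 (hmu ▸ hx.2.2)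
      (hmu ▸ hy.2.2) i0 ((hxb i0).2 hi0) ((hyb i0).2 hi0) (fun j => (hxb j).1)
      (fun j => (hyb j).1) hdl (CK * H) (by nlinarith) ?_ ?_
    · rw [hmu2]
      calc 2 * c2 n (e i) * (K ^ 2 * (p.B H : ℝ) ^ (2 / (n : ℝ)))
          ≤ 2 * s2 * (K ^ 2 * (p.C0 * H)) := by
            have h1 := hs2' i
            have h2 := hc2 i
            gcongr
        _ = (2 * s2 * K ^ 2 * p.C0) * H := by ring
        _ ≤ CK * H := by
            refine mul_le_mul_of_nonneg_right ?_ (by linarith)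
            rw [hCK]
            linarith
    · rw [hmu]
      calc 2 * c1 n (e i) * (K * (p.B H : ℝ) ^ (1 / (n : ℝ)))
          ≤ 2 * s1 * (K * (p.B H : ℝ) ^ (1 / (n : ℝ))) := by
            have h1 := hs1' i
            gcongr
        _ = 2 * s1 * K * (p.B H : ℝ) ^ (1 / (n : ℝ)) := by ring
        _ ≤ H := hsm
        _ ≤ CK * H := by nlinarith
  have hfac : ∀ i, (Set.ncard {A : Idx n (e i) → ℤ | (∀ m, |(A m : ℝ)| ≤ CK * H) ∧ F A x = 0 ∧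
      F A y = 0} : ℝ) ≤ ci i * (2 * p.rho * H / p.Q) ^ NN n (e i) *
        ((mg x y : ℝ) / dl x y * (p.B H : ℝ) ^ 2 / H ^ 2) * ((p.B H : ℝ) ^ (2 * e i))⁻¹ := by
    intro i
    refine (hcp i).trans ?_
    have he := hp.e_ge i
    have e1 : (p.B H : ℝ) ^ (2 * e i) = (p.B H : ℝ) ^ (2 * e i - 2) * (p.B H : ℝ) ^ 2 := by
      rw [← pow_add]
      congr 1
      omega
    have e2 : ci i * (2 * p.rho * H / p.Q) ^ NN n (e i) =
        7 ^ NN n (e i) * 2 ^ (2 * e i + 5) * (CK * H) ^ NN n (e i) := by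
      rw [hci]
      have : CK * H = (CK * p.Q / (2 * p.rho)) * (2 * p.rho * H / p.Q) := by
        field_simp
      rw [this, mul_pow (CK * p.Q / (2 * p.rho))]
      ring
    rw [e2, e1]
    have e3 : 7 ^ NN n (e i) * 2 ^ (2 * e i + 5) * (CK * H) ^ NN n (e i) *
        ((mg x y : ℝ) / dl x y * (p.B H : ℝ) ^ 2 / H ^ 2) *
        ((p.B H : ℝ) ^ (2 * e i - 2) * (p.B H : ℝ) ^ 2)⁻¹ =
        7 ^ NN n (e i) * 2 ^ (2 * e i + 5) * (CK * H) ^ NN n (e i) * mg x y /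
          (H ^ 2 * (p.B H : ℝ) ^ (2 * e i - 2) * dl x y) := by
      field_simp
    rw [e3]
    have h5 : H ≤ CK * H := by nlinarith
    have h6 : 0 < H := by linarith
    gcongr
  have hfin : ∀ i, {A : Idx n (e i) → ℤ | (∀ m, |(A m : ℝ)| ≤ CK * H) ∧ F A x = 0 ∧
      F A y = 0}.Finite := fun i => GenHP.finite_of_abs_le _ (CK * H) fun A hA m => hA.1 m
  have hsub : {A : Sys n e ℤ | A ∈ p.Cl p.rho H ∧ ∀ i, F (A i) x = 0 ∧ F (A i) y = 0} ⊆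
      {A : Sys n e ℤ | ∀ i, A i ∈ {A : Idx n (e i) → ℤ | (∀ m, |(A m : ℝ)| ≤ CK * H) ∧
        F A x = 0 ∧ F A y = 0}} := by
    intro A hA i
    refine ⟨fun m => ?_, hA.2 i⟩
    refine (cp_Cl_abs_le p eps w hp H (by linarith) A hA.1 i m).trans ?_
    exact mul_le_mul_of_nonneg_right hCK3 (by linarith)
  have hcard : (Set.ncard {A : Sys n e ℤ | A ∈ p.Cl p.rho H ∧
      ∀ i, F (A i) x = 0 ∧ F (A i) y = 0} : ℝ) ≤
      ∏ i, (Set.ncard {A : Idx n (e i) → ℤ | (∀ m, |(A m : ℝ)| ≤ CK * H) ∧ F A x = 0 ∧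
        F A y = 0} : ℝ) := by
    have h1 := Set.ncard_le_ncard hsub (finite_pi _ hfin)
    rw [ncard_pi _ hfin] at h1
    exact_mod_cast h1
  refine hcard.trans ((Finset.prod_le_prod (fun i _ => Nat.cast_nonneg _)
    fun i _ => hfac i).trans (le_of_eq ?_))
  rw [Finset.prod_mul_distrib, Finset.prod_mul_distrib, Finset.prod_mul_distrib,
    Finset.prod_pow_eq_pow_sum, Finset.prod_const, Finset.card_univ, Fintype.card_fin,
    Finset.prod_inv_distrib, Finset.prod_pow_eq_pow_sum, ← Finset.mul_sum]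
  have e5 : (2 * p.rho * H / p.Q) ^ ∑ i, NN n (e i) = p.Xn H := rfl
  rw [e5, div_pow, mul_pow, ← pow_mul, ← pow_mul]
  obtain ⟨z, hz⟩ : ∃ z : ℝ, z = ((mg x y : ℝ) / dl x y) ^ r := ⟨_, rfl⟩
  rw [← hz]
  have h7 : (H ^ (2 * r) : ℝ) ≠ 0 := by positivity
  have h8 : ((p.B H : ℝ) ^ (2 * ∑ i, e i)) ≠ 0 := by positivity
  field_simp

end CIHP
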