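import Pool.Agent.Lib.MP_e426f4_ag.CI.Defs
import Pool.Agent.Lib.MP_e426f4_ag.CI.Basic
import Pool.Agent.Lib.MP_e426f4_ag.CI.Heights
import Pool.Agent.Lib.MP_e426f4_ag.CI.ClassPts
import Pool.Agent.Lib.MP_e426f4_ag.CI.Crude
import Pool.Agent.Lib.MP_e426f4_ag.CI.SumBad

/-! Module CI-S2B: bad pairs of points contribute little to the second moment. -/

namespace CIHP

open Finset Filter Topology GenHP

variable {n r : ℕ} {e : Fin r → ℕ}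

/-- counting pairs by fibres -/
theorem s2_card_fib {α β : Type*} (T0 : Set (α × β)) (hT0 : T0.Finite) (T : Finset β)
    (hT : ∀ q ∈ T0, q.2 ∈ T) (N : β → Set α) (hN : ∀ b ∈ T, (N b).Finite)
    (hSN : ∀ q ∈ T0, q.1 ∈ N q.2) : (T0.ncard : ℝ) ≤ ∑ b ∈ T, ((N b).ncard : ℝ) := by
  classical
  rw [Set.ncard_eq_toFinset_card _ hT0, Finset.card_eq_sum_card_fiberwise (f := fun q => q.2)
    (t := T) (fun q hq => hT q (by simpa using hq))]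
  push_cast
  refine Finset.sum_le_sum fun b hb => ?_
  rw [Set.ncard_eq_toFinset_card _ (hN b hb)]
  refine Nat.cast_le.mpr (Finset.card_le_card_of_injOn (fun q => q.1) (fun q hq => ?_)
    (fun q hq q' hq' h => ?_))
  · simp only [Finset.coe_filter, Set.Finite.mem_toFinset, Set.mem_ofPred_eq] at hq
    simp only [Set.Finite.coe_toFinset]
    rw [← hq.2]
    exact hSN q hq.1
  · simp only [Finset.coe_filter, Set.Finite.mem_toFinset, Set.mem_ofPred_eq] at hq hq'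
    exact Prod.ext h (hq.2.trans hq'.2.symm)

/-- the number of points -/
theorem s2_card_GG (p : Par n e) (eps : ℝ) (w : ℕ) (hp : p.Valid eps w) (K : ℝ) (B : ℕ)
    (hB : 1 ≤ B) : ((GG_finite p K B).toFinset.card : ℝ) ≤ 5 ^ (n + 1) * (B : ℝ) ^ (n + 1) := by
  have hB1 : (1 : ℝ) ≤ B := by exact_mod_cast hB
  have h3 : (GG_finite p K B).toFinset ⊆ boxn n (2 * B) := by
    intro x hx
    rw [Set.Finite.mem_toFinset] at hx
    rw [mem_boxn]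
    intro i
    have := (mem_XX_bounds p eps w hp B x hx.1 i).1
    exact_mod_cast this
  have h4 : (GG_finite p K B).toFinset.card ≤ (4 * B + 1) ^ (n + 1) := by
    refine (Finset.card_le_card h3).trans ?_
    rw [card_boxn]
    apply le_of_eq
    ring
  have h5 : ((GG_finite p K B).toFinset.card : ℝ) ≤ (4 * (B : ℝ) + 1) ^ (n + 1) := by
    exact_mod_cast h4
  refine h5.trans ?_
  calc (4 * (B : ℝ) + 1) ^ (n + 1) ≤ (5 * (B : ℝ)) ^ (n + 1) := by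
        apply pow_le_pow_left₀ (by positivity); linarith
    _ = 5 ^ (n + 1) * (B : ℝ) ^ (n + 1) := by rw [mul_pow]

/-- the constant of the expected number of points -/
theorem s2_TT (p : Par n e) (eps : ℝ) (w : ℕ) (hp : p.Valid eps w) :
    ∃ a : ℝ, 0 < a ∧ ∀ H : ℝ, p.TT H = a * ((p.B H : ℝ) ^ nu n e / H ^ r) := by
  have hQ : (0 : ℝ) < p.Q := by exact_mod_cast hp.Q_pos
  have hd := dens_pos p eps w hp
  have hk := hp.kap_pos
  have hg : 0 < |p.gam| := abs_pos.mpr hp.gam_ne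
  refine ⟨(2 * p.kap ^ 2) ^ (n + 1 - r) * p.dens * (p.Q : ℝ) ^ r / |p.gam|, by positivity, ?_⟩
  intro H
  rw [Par.TT, div_mul_div_comm]

theorem S2_bad (p : Par n e) (eps : ℝ) (w : ℕ) (hp : p.Valid eps w) (K : ℝ) (hK : 1 ≤ K) :
    ∃ (G : ℕ) (tau : ℝ), 1 ≤ G ∧ 0 < tau ∧ tau ≤ 1 ∧ ∀ᶠ H : ℝ in atTop,
      ((p.TBad K G tau H).ncard : ℝ) ≤ eps * p.TT H ^ 2 * p.Xn H := by
  classical
  have hrho := hp.rho_pos
  have heps := hp.eps_pos
  have hQ : (0 : ℝ) < p.Q := by exact_mod_cast hp.Q_pos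
  have hr2 : 2 * r ≤ n := (two_mul_r_le_sum e hp.e_ge).trans hp.sum_le
  obtain ⟨Cc, hCc, hcr⟩ := crude_sys p eps w hp K hK
  obtain ⟨Cs, hCs, hsum⟩ := sum_bad n r hp.r_pos hp.n_ge hr2
  obtain ⟨a, ha, hTT⟩ := s2_TT p eps w hp
  obtain ⟨i0, hi0⟩ := hp.xi_eq
  obtain ⟨cst, hcst⟩ : ∃ cst : ℝ, cst = Cc * (5 ^ (n + 1) * (Cs * K ^ n)) := ⟨_, rfl⟩
  have hcst0 : 0 < cst := by rw [hcst]; positivity
  obtain ⟨d, hd⟩ : ∃ d : ℝ, d = eps * a ^ 2 / cst := ⟨_, rfl⟩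
  have hd0 : 0 < d := by rw [hd]; positivity
  obtain ⟨G, hG⟩ : ∃ G : ℕ, G = ⌈2 / d⌉₊ + 1 := ⟨_, rfl⟩
  have hG1 : 1 ≤ G := by rw [hG]; omega
  have hG0 : (0 : ℝ) < G := by exact_mod_cast hG1
  have hGd : 1 / (G : ℝ) ≤ d / 2 := by
    rw [div_le_iff₀ hG0]
    have h1 : 2 / d ≤ G := by
      rw [hG]
      push_cast
      have := Nat.le_ceil (2 / d)
      linarith
    have h2 : 2 ≤ G * d := by rwa [div_le_iff₀ hd0] at h1
    nlinarith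
  obtain ⟨tau, htau⟩ : ∃ tau : ℝ, tau = min 1 (d / 2) := ⟨_, rfl⟩
  have ht0 : 0 < tau := by rw [htau]; exact lt_min one_pos (by positivity)
  have ht1 : tau ≤ 1 := by rw [htau]; exact min_le_left _ _
  have htd : tau ≤ d / 2 := by rw [htau]; exact min_le_right _ _
  refine ⟨G, tau, hG1, ht0, ht1, ?_⟩
  filter_upwards [(Bf_atTop e hp.r_pos hp.sum_le p.C0 hp.C0_ge).eventually_ge_atTop 1,
    hcr, eventually_ge_atTop (1 : ℝ)] with H hB hcr hH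
  change 1 ≤ p.B H at hB
  have hB1 : (1 : ℝ) ≤ p.B H := by exact_mod_cast hB
  have hB0 : (0 : ℝ) < p.B H := by linarith
  have hH0 : 0 < H := by linarith
  obtain ⟨B, hBd⟩ : ∃ B : ℕ, B = p.B H := ⟨_, rfl⟩
  rw [← hBd] at hB hB1 hB0 hcr
  have hXn : 0 ≤ p.Xn H := by unfold Par.Xn; positivity
  obtain ⟨bd, hbd⟩ : ∃ bd : ℝ, bd = Cc * p.Xn H * (B : ℝ) ^ (2 * r) /
    (H ^ (2 * r) * (B : ℝ) ^ (2 * ∑ i, e i)) := ⟨_, rfl⟩
  have hbd0 : 0 ≤ bd := by rw [hbd]; positivity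
  obtain ⟨GF, hGF⟩ : ∃ GF, GF = (GG_finite p K B).toFinset := ⟨_, rfl⟩
  have hmem : ∀ x, x ∈ GF ↔ x ∈ p.GG K B := fun x => by rw [hGF, Set.Finite.mem_toFinset]
  have hGc : (GF.card : ℝ) ≤ 5 ^ (n + 1) * (B : ℝ) ^ (n + 1) := by
    rw [hGF]; exact s2_card_GG p eps w hp K B hB
  have hxb : ∀ x ∈ p.GG K B, ∀ i, |(x i : ℝ)| ≤ 2 * B := fun x hx i =>
    (mem_XX_bounds p eps w hp B x hx.1 i).1
  have hcf := s2_card_fib (p.TBad K G tau H) (TBad_finite p K G tau H)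
    ((GF ×ˢ boxn n (2 * B)).filter
      (fun b => (b.2 ∈ GF ∧ b.1 ≠ b.2) ∧ 0 < dl b.1 b.2 ∧
        (G < mg b.1 b.2 ∨ (dl b.1 b.2 : ℝ) < tau * (B : ℝ) ^ 2)))
    (by
      rintro ⟨A, x, y⟩ ⟨_, hx, hy, _, hne, hbad⟩
      simp only [← hBd] at hx hy hbad
      simp only [Finset.mem_filter, Finset.mem_product]
      refine ⟨⟨(hmem x).2 hx, ?_⟩, ⟨(hmem y).2 hy, hne⟩,
        dl_pos_of_mem_GG p eps w hp K B hB x y hx hy hne, hbad⟩
      rw [mem_boxn]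
      intro j
      have := hxb y hy j
      exact_mod_cast this)
    (fun b => {A : Sys n e ℤ | A ∈ p.Cl p.rho H ∧ ∀ i, F (A i) b.1 = 0 ∧ F (A i) b.2 = 0})
    (fun b _ => (Cl_finite p p.rho H).subset fun A hA => hA.1)
    (by
      rintro ⟨A, x, y⟩ ⟨hA, hx, hy, hF, hne, hbad⟩
      exact ⟨hA, hF⟩)
  refine hcf.trans ?_
  have hb : ∀ b ∈ (GF ×ˢ boxn n (2 * B)).filter
      (fun b => (b.2 ∈ GF ∧ b.1 ≠ b.2) ∧ 0 < dl b.1 b.2 ∧
        (G < mg b.1 b.2 ∨ (dl b.1 b.2 : ℝ) < tau * (B : ℝ) ^ 2)),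
      (Set.ncard {A : Sys n e ℤ | A ∈ p.Cl p.rho H ∧
        ∀ i, F (A i) b.1 = 0 ∧ F (A i) b.2 = 0} : ℝ) ≤
      bd * ((mg b.1 b.2 : ℝ) / dl b.1 b.2) ^ r := by
    rintro ⟨x, y⟩ hb
    simp only [Finset.mem_filter, Finset.mem_product] at hb
    obtain ⟨⟨hx, _⟩, ⟨hy, hne⟩, _, _⟩ := hb
    refine (hcr x y ((hmem x).1 hx) ((hmem y).1 hy) hne).trans (le_of_eq ?_)
    rw [hbd]
    ring
  refine (Finset.sum_le_sum hb).trans ?_
  -- forget the condition `y ∈ GF`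
  refine (Finset.sum_le_sum_of_subset_of_nonneg
    (t := (GF ×ˢ boxn n (2 * B)).filter (fun b => 0 < dl b.1 b.2 ∧
        (G < mg b.1 b.2 ∨ (dl b.1 b.2 : ℝ) < tau * (B : ℝ) ^ 2))) ?_ ?_).trans ?_
  · intro b hb
    rw [Finset.mem_filter] at hb ⊢
    exact ⟨hb.1, hb.2.2⟩
  · intro b _ _
    positivity
  rw [Finset.sum_filter, Finset.sum_product]
  have hx0 : ∀ x ∈ GF, ∑ y ∈ boxn n (2 * B), (if 0 < dl x y ∧
      (G < mg x y ∨ (dl x y : ℝ) < tau * (B : ℝ) ^ 2) then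
        bd * ((mg x y : ℝ) / dl x y) ^ r else 0) ≤
      bd * (Cs * K ^ n * (1 / G + tau) * (B : ℝ) ^ (n + 1 - 2 * r)) := by
    intro x hx
    have hx' := (hmem x).1 hx
    rw [← Finset.sum_filter, ← Finset.mul_sum]
    refine mul_le_mul_of_nonneg_left ?_ hbd0
    exact hsum K hK B hB x hx'.2.1 (hxb x hx') i0
      ((mem_XX_bounds p eps w hp B x hx'.1 i0).2 hi0) hx'.2.2 G hG1 tau ht0 ht1
  refine (Finset.sum_le_card_nsmul _ _ _ hx0).trans ?_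
  rw [nsmul_eq_mul]
  have hz : cst * (1 / G + tau) ≤ eps * a ^ 2 := by
    have h5 : cst * d = eps * a ^ 2 := by
      rw [hd]
      field_simp
    rw [← h5]
    exact mul_le_mul_of_nonneg_left (by linarith) hcst0.le
  obtain ⟨z, hzd⟩ : ∃ z : ℝ, z = 1 / (G : ℝ) + tau := ⟨_, rfl⟩
  have hz0 : 0 ≤ z := by rw [hzd]; positivity
  rw [← hzd] at hz ⊢
  have hnu : (B : ℝ) ^ (n + 1) * (B : ℝ) ^ (2 * r) * (B : ℝ) ^ (n + 1 - 2 * r) =
      ((B : ℝ) ^ nu n e) ^ 2 * (B : ℝ) ^ (2 * ∑ i, e i) := by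
    rw [← pow_add, ← pow_add, ← pow_mul, ← pow_add]
    congr 1
    have h1 := hp.sum_le
    unfold nu
    omega
  calc (GF.card : ℝ) * (bd * (Cs * K ^ n * z * (B : ℝ) ^ (n + 1 - 2 * r)))
      ≤ (5 ^ (n + 1) * (B : ℝ) ^ (n + 1)) *
        (bd * (Cs * K ^ n * z * (B : ℝ) ^ (n + 1 - 2 * r))) := by
        refine mul_le_mul_of_nonneg_right hGc ?_
        positivity
    _ = (cst * z) * p.Xn H * ((B : ℝ) ^ (n + 1) * (B : ℝ) ^ (2 * r) *
        (B : ℝ) ^ (n + 1 - 2 * r)) / (H ^ (2 * r) * (B : ℝ) ^ (2 * ∑ i, e i)) := by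
        rw [hbd, hcst]
        ring
    _ = (cst * z) * p.Xn H * ((B : ℝ) ^ nu n e / H ^ r) ^ 2 := by
        rw [hnu, div_pow, ← pow_mul H, mul_comm r 2]
        have h7 : (H ^ (2 * r) : ℝ) ≠ 0 := by positivity
        have h8 : ((B : ℝ) ^ (2 * ∑ i, e i)) ≠ 0 := by positivity
        field_simp
    _ ≤ (eps * a ^ 2) * p.Xn H * ((B : ℝ) ^ nu n e / H ^ r) ^ 2 := by gcongr
    _ = eps * p.TT H ^ 2 * p.Xn H := by
        rw [hTT H, ← hBd]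
        ring

end CIHP
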