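import Pool.Agent.Lib.MP_e426f4_ag.CI.Defs
import Pool.Agent.Lib.MP_e426f4_ag.G.ShortTwo

/-! Module SF: short vectors for a fine pair of points. -/

namespace CIHP

open Finset GenHP

theorem three_le_card {n d : ℕ} (hd : 2 ≤ d) (i0 j : Fin (n + 1)) (h : j ≠ i0) :
    3 ≤ Fintype.card (Idx n d) := by
  obtain ⟨e, rfl⟩ : ∃ e, d = e + 2 := ⟨d - 2, by omega⟩
  obtain ⟨m1, hm1⟩ : ∃ m1 : Idx n (e + 2), m1 = mk fun _ => i0 := ⟨_, rfl⟩
  obtain ⟨m2, hm2⟩ : ∃ m2 : Idx n (e + 2),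
    m2 = mk (Fin.cons j fun _ => i0 : Fin (e + 1 + 1) → Fin (n + 1)) := ⟨_, rfl⟩
  obtain ⟨m3, hm3⟩ : ∃ m3 : Idx n (e + 2), m3 = mk fun _ => j := ⟨_, rfl⟩
  have h12 : m1 ≠ m2 := by
    rw [hm1, hm2]
    exact (mk_cons_ne i0 j h).symm
  have h13 : m1 ≠ m3 := by
    intro h0
    have h1 := congrArg (fun m : Idx n (e + 2) => mon (fun i => if i = j then (0 : ℤ) else 1) m.1) h0
    rw [hm1, hm3] at h1
    simp only [mon_mk] at h1
    simp [h.symm] at h1
  have h23 : m2 ≠ m3 := by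
    intro h0
    have h1 := congrArg (fun m : Idx n (e + 2) => mon (fun i => if i = i0 then (0 : ℤ) else 1) m.1) h0
    rw [hm2, hm3] at h1
    simp only [mon_mk] at h1
    rw [Fin.prod_univ_succ] at h1
    simp [h] at h1
  classical
  calc 3 = ({m1, m2, m3} : Finset (Idx n (e + 2))).card := by
        rw [Finset.card_insert_of_notMem (by simp [h12, h13]),
          Finset.card_insert_of_notMem (by simp [h23]), Finset.card_singleton]
    _ ≤ Fintype.card (Idx n (e + 2)) := Finset.card_le_univ _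

theorem fine_nonneg {n d : ℕ} (hd : 2 ≤ d) (E : ℝ) (x y : Fin (n + 1) → ℤ)
    (hf : FineD n d E x y) (h : 0 < dl x y) : 0 ≤ E := by
  obtain ⟨m, g, hg0, hgm, hgs⟩ := hf
  by_contra hE
  push Not at hE
  have hm : m = 0 := by
    by_contra hm
    obtain ⟨q⟩ : Nonempty (Fin m) := ⟨⟨0, by omega⟩⟩
    obtain ⟨a, b, hab, -⟩ := exists_minor_eq_dl x y
    have hne : Nonempty (Idx n d) := ⟨mk fun _ => a⟩
    obtain ⟨t⟩ := hne
    have h1 := hgm q t
    have h2 : 0 ≤ (m : ℝ) * |(g q t : ℝ)| := by positivity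
    linarith
  subst hm
  obtain ⟨a, b, hab, -⟩ := exists_minor_eq_dl x y
  have hab' : a ≠ b := by
    rintro rfl
    rw [← hab] at h
    simp [minor] at h
  have hcard := three_le_card (d := d) hd a b hab'.symm
  let φ : (Idx n d → ℝ) →ₗ[ℝ] (Fin 2 → ℝ) :=
    { toFun := fun A => ![F A (fun i => (x i : ℝ)), F A (fun i => (y i : ℝ))]
      map_add' := by
        intro A A'
        have e1 : ∀ z, F (A + A') z = F A z + F A' z := fun z => F_add A A' z
        rw [e1, e1]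
        ext i
        fin_cases i <;> simp
      map_smul' := by
        intro c A
        have e1 : ∀ z, F (c • A) z = c * F A z := fun z => F_smul c A z
        rw [e1, e1]
        ext i
        fin_cases i <;> simp }
  have hker : LinearMap.ker φ ≠ ⊥ := by
    refine LinearMap.ker_ne_bot_of_finrank_lt ?_
    rw [Module.finrank_fintype_fun_eq_card, Module.finrank_fintype_fun_eq_card, Fintype.card_fin]
    omega
  obtain ⟨A, hA, hA0⟩ := (Submodule.ne_bot_iff _).mp hker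
  rw [LinearMap.mem_ker] at hA
  have hx0 : F A (fun i => (x i : ℝ)) = 0 := by
    have := congrFun hA 0
    simpa [φ] using this
  have hy0 : F A (fun i => (y i : ℝ)) = 0 := by
    have := congrFun hA 1
    simpa [φ] using this
  obtain ⟨c, hc⟩ := hgs A hx0 hy0
  apply hA0
  funext t
  rw [hc t]
  simp

theorem short_fine {n d : ℕ} (hd : 2 ≤ d) (B : ℕ) (hB : 1 ≤ B) (x y : Fin (n + 1) → ℤ)
    (hx : Prim x) (hy : Prim y) (E : ℝ) (hf : FineD n d E x y)
    (i0 : Fin (n + 1)) (hi0 : (B : ℝ) / 2 ≤ |(x i0 : ℝ)|) (hi0' : (B : ℝ) / 2 ≤ |(y i0 : ℝ)|)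
    (hx2 : ∀ i, |(x i : ℝ)| ≤ 2 * B) (hy2 : ∀ i, |(y i : ℝ)| ≤ 2 * B)
    (h : 0 < dl x y) (s : ℤ) (hs : (mg x y : ℤ) ∣ s) :
    ∃ t : Idx n d → ℤ, F t x = 0 ∧ F t y = s ∧
      ∀ m, |(t m : ℝ)| ≤ 2 ^ (d + 3) * |(s : ℝ)| / ((B : ℝ) ^ (d - 2) * dl x y) + E := by
  have hE := fine_nonneg hd E x y hf h
  obtain ⟨m, g, hg0, hgm', hgs⟩ := hf
  obtain ⟨b, hgm, hmb⟩ : ∃ b : ℝ, (∀ q t, |(g q t : ℝ)| ≤ b) ∧ (m : ℝ) * b ≤ E := by
    rcases Nat.eq_zero_or_pos m with hm | hm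
    · subst hm
      exact ⟨0, fun q => q.elim0, by simpa using hE⟩
    · have hm' : (0 : ℝ) < m := by exact_mod_cast hm
      refine ⟨E / m, fun q t => ?_, by field_simp; exact le_rfl⟩
      rw [le_div_iff₀ hm', mul_comm]
      exact hgm' q t
  have hBpos : (0 : ℝ) < B := by exact_mod_cast hB
  have hdpos : (0 : ℝ) < dl x y := by exact_mod_cast h
  have hy0 : (y i0 : ℝ) ≠ 0 := by
    intro h
    rw [h, abs_zero] at hi0'
    linarith
  obtain ⟨j, hj⟩ := exists_large_minor B hB x y i0 hi0 hx2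
  obtain ⟨t1, ht1x, ht1y⟩ := exists_vec_mg (d := d) (by omega) x y hx hy h
  obtain ⟨s', hs'⟩ := hs
  obtain ⟨e, rfl⟩ : ∃ e, d = e + 2 := ⟨d - 2, by omega⟩
  -- the real solution
  set δ : ℝ := ((minor x y i0 j : ℤ) : ℝ) with hδ
  have hδ0 : δ ≠ 0 := by
    intro h
    rw [h, abs_zero] at hj
    linarith
  have hji : j ≠ i0 := by
    rintro rfl
    apply hδ0
    rw [hδ, minor]
    simp
  have hδe : δ = (x i0 : ℝ) * y j - x j * y i0 := by
    rw [hδ, minor]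
    push_cast
    ring
  set m1 : Idx n (e + 2) := mk fun _ => i0 with hm1
  set m2 : Idx n (e + 2) := mk (Fin.cons j fun _ => i0 : Fin (e + 1 + 1) → Fin (n + 1)) with hm2
  have hm12 : m2 ≠ m1 := mk_cons_ne i0 j hji
  set tR : Idx n (e + 2) → ℝ := fun m => (s : ℝ) / ((y i0 : ℝ) ^ (e + 1) * δ) *
    ((Pi.single m2 (x i0 : ℝ) : Idx n (e + 2) → ℝ) m
      - (Pi.single m1 (x j : ℝ) : Idx n (e + 2) → ℝ) m) with htR
  have hFR : ∀ z : Fin (n + 1) → ℝ, F tR z = (s : ℝ) / ((y i0 : ℝ) ^ (e + 1) * δ) *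
      (x i0 * (z j * z i0 ^ (e + 1)) - x j * (z i0 ^ (e + 2))) := by
    intro z
    rw [htR, F_smul]
    congr 1
    have h3 : F (fun m => (Pi.single m2 (x i0 : ℝ) : Idx n (e + 2) → ℝ) m
      - (Pi.single m1 (x j : ℝ) : Idx n (e + 2) → ℝ) m) z =
      F (Pi.single m2 (x i0 : ℝ) : Idx n (e + 2) → ℝ) z
        - F (Pi.single m1 (x j : ℝ) : Idx n (e + 2) → ℝ) z := by
      simp only [F, sub_mul, Finset.sum_sub_distrib]
    rw [h3, F_single, F_single, hm1, hm2, mon_mk, mon_mk, Fin.prod_univ_succ]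
    simp
  have hRx : F tR (fun i => (x i : ℝ)) = 0 := by
    rw [hFR]
    ring
  have hRy : F tR (fun i => (y i : ℝ)) = s := by
    rw [hFR]
    have : (x i0 : ℝ) * (y j * y i0 ^ (e + 1)) - x j * (y i0 ^ (e + 2)) =
        (y i0 : ℝ) ^ (e + 1) * δ := by
      rw [hδe]
      ring
    rw [this]
    field_simp
  obtain ⟨r, hr⟩ := hgs
    (fun m => (((fun m => s' * t1 m : Idx n (e + 2) → ℤ) m : ℤ) : ℝ) - tR m)
    (by rw [F_cast_sub, hRx, F_smul, ht1x]; simp)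
    (by
      rw [F_cast_sub, hRy, F_smul, ht1y, hs']
      push_cast
      ring)
  obtain ⟨t, ht1, ht2⟩ := round_family g b hgm (fun m => s' * t1 m) tR r hr
  refine ⟨t, ?_, ?_, fun m' => (ht2 m').trans ?_⟩
  · rw [ht1 x (fun q => (hg0 q).1), F_smul, ht1x, mul_zero]
  · rw [ht1 y (fun q => (hg0 q).2), F_smul, ht1y, hs', mul_comm]
  · have h1 : |tR m'| ≤ 2 ^ (e + 2 + 3) * |(s : ℝ)| / ((B : ℝ) ^ (e + 2 - 2) * dl x y) := by
      rw [htR]
      simp only
      rw [abs_mul, abs_div, abs_mul, abs_pow]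
      have h2 : |(Pi.single m2 (x i0 : ℝ) : Idx n (e + 2) → ℝ) m'
          - (Pi.single m1 (x j : ℝ) : Idx n (e + 2) → ℝ) m'| ≤ 2 * B := by
        by_cases h3 : m' = m1
        · subst h3
          rw [Pi.single_eq_of_ne hm12.symm, Pi.single_eq_same, zero_sub, abs_neg]
          exact hx2 j
        · rw [Pi.single_eq_of_ne h3, sub_zero]
          by_cases h4 : m' = m2
          · subst h4
            rw [Pi.single_eq_same]
            exact hx2 i0
          · rw [Pi.single_eq_of_ne h4, abs_zero]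
            positivity
      have h3 : (B : ℝ) ^ (e + 1) ≤ 2 ^ (e + 1) * |(y i0 : ℝ)| ^ (e + 1) := by
        rw [← mul_pow]
        gcongr
        linarith
      have hy0' : 0 < |(y i0 : ℝ)| := abs_pos.mpr hy0
      have hδ' : 0 < |δ| := abs_pos.mpr hδ0
      rw [show e + 2 - 2 = e by omega]
      calc |(s : ℝ)| / (|(y i0 : ℝ)| ^ (e + 1) * |δ|) *
            |(Pi.single m2 (x i0 : ℝ) : Idx n (e + 2) → ℝ) m'
              - (Pi.single m1 (x j : ℝ) : Idx n (e + 2) → ℝ) m'|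
          ≤ |(s : ℝ)| / (|(y i0 : ℝ)| ^ (e + 1) * |δ|) * (2 * B) := by gcongr
        _ = |(s : ℝ)| * (2 * B) / (|(y i0 : ℝ)| ^ (e + 1) * |δ|) := by ring
        _ ≤ 2 ^ (e + 2 + 3) * |(s : ℝ)| / ((B : ℝ) ^ e * dl x y) := by
            rw [div_le_div_iff₀ (by positivity) (by positivity)]
            have h5 : (B : ℝ) ^ (e + 1) * dl x y ≤
                2 ^ (e + 1) * |(y i0 : ℝ)| ^ (e + 1) * (8 * |δ|) :=
              mul_le_mul h3 hj hdpos.le (by positivity)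
            calc |(s : ℝ)| * (2 * B) * ((B : ℝ) ^ e * dl x y)
                = 2 * |(s : ℝ)| * ((B : ℝ) ^ (e + 1) * dl x y) := by ring
              _ ≤ 2 * |(s : ℝ)| * (2 ^ (e + 1) * |(y i0 : ℝ)| ^ (e + 1) * (8 * |δ|)) := by gcongr
              _ = 2 ^ (e + 2 + 3) * |(s : ℝ)| * (|(y i0 : ℝ)| ^ (e + 1) * |δ|) := by ring
    have h2 : (Fintype.card (Fin m) : ℝ) * b ≤ E := by
      rw [Fintype.card_fin]
      exact hmb
    linarith

end CIHP
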