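import Pool.Agent.Lib.MP_e426f4_ag.CI.Basic
import Pool.Agent.Lib.MP_e426f4_ag.CI.Heights
import Pool.Agent.Lib.MP_e426f4_ag.CI.ClassPts
import Pool.Agent.Lib.MP_e426f4_ag.CI.ShortFine
import Pool.Agent.Lib.MP_e426f4_ag.G.Alg
import Pool.Agent.Lib.MP_e426f4_ag.G.Minors

/-! Module CI-TP: translation inequality for pairs of points. -/

namespace CIHP

open Finset Filter Topology GenHP

/-- the cofactor `q = lcm(M, Q m) / M` -/
private theorem cofactor' (W Q k G : ℕ) (hW : 0 < W) (hQ : ∃ n, Q = W ^ n) (hn : Q * W ^ G ∣ W ^ k)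
    (m : ℕ) (hm : 0 < m) (hmG : m ≤ G) :
    ∃ q : ℕ, 0 < q ∧ q ∣ m ∧ Nat.Coprime q W ∧ Nat.lcm (W ^ k) (Q * m) = W ^ k * q := by
  obtain ⟨t, ht⟩ := hn
  have hg : Nat.gcd (W ^ G) m ∣ m := Nat.gcd_dvd_right _ _
  obtain ⟨q, hq⟩ := hg
  have hgpos : 0 < Nat.gcd (W ^ G) m := Nat.gcd_pos_of_pos_right _ hm
  have hqpos : 0 < q := by
    rcases Nat.eq_zero_or_pos q with h | h
    · rw [h, Nat.mul_zero] at hq; omega
    · exact h
  have hcop : Nat.Coprime q W := by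
    rw [Nat.coprime_iff_gcd_eq_one]
    by_contra hne
    obtain ⟨p, hp, hpd⟩ := Nat.exists_prime_and_dvd hne
    have hpq : p ∣ q := hpd.trans (Nat.gcd_dvd_left _ _)
    have hpW : p ∣ W := hpd.trans (Nat.gcd_dvd_right _ _)
    obtain ⟨e, m', hm', hme⟩ := Nat.exists_eq_pow_mul_and_not_dvd (n := m) (by omega) p hp.ne_one
    have he1 : e < p ^ e := Nat.lt_pow_self hp.one_lt
    have he2 : p ^ e ≤ m := Nat.le_of_dvd hm ⟨m', hme⟩
    have heG : e ≤ G := by omega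
    have h1 : p ^ e ∣ W ^ G := (pow_dvd_pow p heG).trans (pow_dvd_pow_of_dvd hpW G)
    have h2 : p ^ e ∣ Nat.gcd (W ^ G) m := Nat.dvd_gcd h1 ⟨m', hme⟩
    have h3 : p ^ e * p ∣ m := by
      rw [hq]
      exact Nat.mul_dvd_mul h2 hpq
    rw [hme] at h3
    have h4 : p ∣ m' := Nat.dvd_of_mul_dvd_mul_left (pow_pos hp.pos e) h3
    exact hm' h4
  refine ⟨q, hqpos, ⟨Nat.gcd (W ^ G) m, by rw [mul_comm]; exact hq⟩, hcop, ?_⟩
  have hQpos : 0 < Q := by
    obtain ⟨n, rfl⟩ := hQ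
    exact pow_pos hW n
  -- W^k = Q * (W^G * t)
  have hWk : W ^ k = Q * (W ^ G * t) := by rw [ht, mul_assoc]
  rw [hWk, Nat.lcm_mul_left]
  rw [mul_assoc]
  congr 1
  have htk : W ^ G * t ∣ W ^ k := ⟨Q, by rw [hWk]; ring⟩
  have hc2 : Nat.Coprime q (W ^ G * t) := Nat.Coprime.coprime_dvd_right htk (hcop.pow_right k)
  have hgd : Nat.gcd (W ^ G) m ∣ W ^ G * t := (Nat.gcd_dvd_left _ _).trans (Dvd.intro _ rfl)
  apply Nat.dvd_antisymm
  · apply Nat.lcm_dvd
    · exact Dvd.intro _ rfl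
    · rw [hq]
      exact Nat.mul_dvd_mul hgd dvd_rfl
  · apply Nat.Coprime.mul_dvd_of_dvd_of_dvd hc2.symm
    · exact Nat.dvd_lcm_left _ _
    · exact (Dvd.intro_left _ hq.symm).trans (Nat.dvd_lcm_right _ _)

theorem trans_pair {n r : ℕ} {e : Fin r → ℕ} (p : Par n e) (eps : ℝ) (w : ℕ)
    (hp : p.Valid eps w) (K : ℝ)
    (hK : 1 ≤ K) (G : ℕ) (hG : 1 ≤ G) (tau : ℝ) (ht : 0 < tau) (ht1 : tau ≤ 1) (th : ℝ)
    (hth : 0 < th) (s : ℕ) (hs : p.Q * p.W ^ G ∣ p.W ^ s) (eps1 : ℝ) (he1 : 0 < eps1)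
    (he2 : p.Q * eps1 ≤ th) :
    ∀ᶠ H : ℝ in atTop, ∀ x y : Fin (n + 1) → ℤ, x ∈ p.GG K (p.B H) →
      y ∈ p.GG K (p.B H) → mg x y ≤ G → tau * (p.B H : ℝ) ^ 2 ≤ (dl x y : ℝ) →
      Fine n e (eps1 * H) x y →
      ∃ q : ℕ, 0 < q ∧ q ∣ mg x y ∧ Nat.Coprime q p.W ∧
        p.Lev th (p.W ^ s * q) H *
          (Set.ncard {A : Sys n e ℤ | A ∈ p.Cl p.rho H ∧
            ∀ i, F (A i) x = 0 ∧ F (A i) y = 0} : ℝ) ≤
          (Set.ncard {A : Sys n e ℤ | A ∈ p.Cl (p.rho + (2 ^ (n + 3) + 1) * th / tau) H ∧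
            ∀ i, F (A i) x = 0 ∧ ((p.W : ℤ) ^ s) ∣ F (A i) y ∧
            |((F (A i) y : ℤ) : ℝ)| ≤ th * H * (p.B H : ℝ) ^ e i} : ℝ) := by
  have hQpos : (0 : ℝ) < p.Q := by exact_mod_cast hp.Q_pos
  have hWpos : 0 < p.W := hp.W_pos
  have hBH := (Bf_atTop e hp.r_pos hp.sum_le p.C0 hp.C0_ge).eventually_ge_atTop 1
  filter_upwards [hBH, Filter.eventually_gt_atTop 0] with H hBpos hHpos
  intro x y hx hy hmG hdl hfine
  have hBpos : 1 ≤ p.B H := hBpos
  set B := p.B H with hB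
  have hBpos' : (0 : ℝ) < B := by
    have : 0 < B := by omega
    exact_mod_cast this
  have hB1 : (1 : ℝ) ≤ B := by exact_mod_cast hBpos
  have hdlpos' : (0 : ℝ) < dl x y := lt_of_lt_of_le (by positivity) hdl
  have hdlpos : 0 < dl x y := by exact_mod_cast hdlpos'
  have hmpos : 0 < mg x y := mg_pos_of_dl_pos x y hdlpos
  obtain ⟨q, hqpos, hqm, hqW, hlcm⟩ := cofactor' p.W p.Q s G hWpos hp.hens.2.1 hs (mg x y) hmpos hmG
  refine ⟨q, hqpos, hqm, hqW, ?_⟩
  obtain ⟨i0, hi0⟩ := hp.xi_eq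
  have hbx := mem_XX_bounds p eps w hp B x hx.1
  have hby := mem_XX_bounds p eps w hp B y hy.1
  -- the modulus
  set M : ℕ := p.W ^ s * q with hM
  have hMpos : 0 < M := Nat.mul_pos (pow_pos hWpos s) hqpos
  have hMpos' : (0 : ℝ) < M := by exact_mod_cast hMpos
  have hQm : p.Q * mg x y ∣ M := by
    rw [← hlcm]
    exact Nat.dvd_lcm_right _ _
  obtain ⟨u, hu⟩ := hQm
  set N : Fin r → ℕ := fun i => ⌊th * H * (B : ℝ) ^ e i / M⌋₊ with hN
  have hNle : ∀ i, (N i : ℝ) ≤ th * H * (B : ℝ) ^ e i / M := fun i => Nat.floor_le (by positivity)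
  have hex : ∀ (i : Fin r) (j : ℤ), |j| ≤ N i → ∃ t : Idx n (e i) → ℤ, F t x = 0 ∧ F t y = M * j ∧
      (∀ m, (p.Q : ℤ) ∣ t m) ∧ ∀ m, |(t m : ℝ)| ≤ (2 ^ (n + 3) + 1) * th / tau * H := by
    intro i j hj
    have hBd : (B : ℝ) ^ e i = (B : ℝ) ^ (e i - 2) * (B : ℝ) ^ 2 := by
      rw [← pow_add]
      congr 1
      have := hp.e_ge i
      omega
    have hjM : |(M : ℝ) * j| ≤ th * H * (B : ℝ) ^ e i := by
      rw [abs_mul, abs_of_pos hMpos']
      have hj' : |(j : ℝ)| ≤ N i := by exact_mod_cast hj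
      calc (M : ℝ) * |(j : ℝ)| ≤ M * (th * H * (B : ℝ) ^ e i / M) := by
            apply mul_le_mul_of_nonneg_left (hj'.trans (hNle i)) hMpos'.le
        _ = th * H * (B : ℝ) ^ e i := by field_simp
    obtain ⟨t, ht0, hts, htb⟩ := short_fine (hp.e_ge i) B hBpos x y hx.2.1 hy.2.1 (eps1 * H)
      (hfine i) i0 ((hbx i0).2 hi0) ((hby i0).2 hi0) (fun i => (hbx i).1)
      (fun i => (hby i).1) hdlpos ((mg x y : ℤ) * (u * j)) (Dvd.intro _ rfl)
    refine ⟨fun m => p.Q * t m, ?_, ?_, fun m => Dvd.intro _ rfl, ?_⟩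
    · rw [F_smul, ht0, mul_zero]
    · rw [F_smul, hts, hu]
      push_cast
      ring
    · intro m
      have h5 := htb m
      push_cast
      rw [abs_mul, abs_of_pos hQpos]
      have h6 : (p.Q : ℝ) * |(t m : ℝ)| ≤
          p.Q * (2 ^ (e i + 3) * |(((mg x y : ℤ) * (u * j) : ℤ) : ℝ)| /
          ((B : ℝ) ^ (e i - 2) * dl x y) + eps1 * H) :=
        mul_le_mul_of_nonneg_left h5 hQpos.le
      refine h6.trans ?_
      have h7 : (p.Q : ℝ) * |(((mg x y : ℤ) * (u * j) : ℤ) : ℝ)| = |(M : ℝ) * j| := by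
        rw [hu]
        push_cast
        rw [← abs_of_pos hQpos, ← abs_mul, abs_of_pos hQpos]
        congr 1
        ring
      have h8 : (p.Q : ℝ) * (2 ^ (e i + 3) * |(((mg x y : ℤ) * (u * j) : ℤ) : ℝ)| /
          ((B : ℝ) ^ (e i - 2) * dl x y)) ≤ 2 ^ (e i + 3) * th / tau * H := by
        have : (p.Q : ℝ) * (2 ^ (e i + 3) * |(((mg x y : ℤ) * (u * j) : ℤ) : ℝ)| /
            ((B : ℝ) ^ (e i - 2) * dl x y)) =
            2 ^ (e i + 3) * |(M : ℝ) * j| / ((B : ℝ) ^ (e i - 2) * dl x y) := by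
          rw [← h7]; ring
        rw [this]
        rw [div_le_iff₀ (by positivity)]
        calc 2 ^ (e i + 3) * |(M : ℝ) * j| ≤ 2 ^ (e i + 3) * (th * H * (B : ℝ) ^ e i) := by
              apply mul_le_mul_of_nonneg_left hjM (by positivity)
          _ = 2 ^ (e i + 3) * th / tau * H * ((B : ℝ) ^ (e i - 2) * (tau * (B : ℝ) ^ 2)) := by
              rw [hBd]
              field_simp
          _ ≤ 2 ^ (e i + 3) * th / tau * H * ((B : ℝ) ^ (e i - 2) * dl x y) := by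
              apply mul_le_mul_of_nonneg_left _ (by positivity)
              apply mul_le_mul_of_nonneg_left hdl (by positivity)
      have h8' : 2 ^ (e i + 3) * th / tau * H ≤ 2 ^ (n + 3) * th / tau * H := by
        have hei : e i ≤ n :=
          (Finset.single_le_sum (f := e) (fun _ _ => Nat.zero_le _) (Finset.mem_univ i)).trans
            hp.sum_le
        have h2 : (2 : ℝ) ^ (e i + 3) ≤ 2 ^ (n + 3) := pow_le_pow_right₀ (by norm_num) (by omega)
        have h3 : (2 : ℝ) ^ (e i + 3) * (th / tau * H) ≤ 2 ^ (n + 3) * (th / tau * H) :=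
          mul_le_mul_of_nonneg_right h2 (by positivity)
        calc 2 ^ (e i + 3) * th / tau * H = 2 ^ (e i + 3) * (th / tau * H) := by ring
          _ ≤ 2 ^ (n + 3) * (th / tau * H) := h3
          _ = 2 ^ (n + 3) * th / tau * H := by ring
      have h9 : (p.Q : ℝ) * (eps1 * H) ≤ th / tau * H := by
        have h10 : th ≤ th / tau := by
          rw [le_div_iff₀ ht]
          nlinarith
        calc (p.Q : ℝ) * (eps1 * H) = p.Q * eps1 * H := by ring
          _ ≤ th / tau * H := mul_le_mul_of_nonneg_right (he2.trans h10) hHpos.le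
      calc (p.Q : ℝ) * (2 ^ (e i + 3) * |(((mg x y : ℤ) * (u * j) : ℤ) : ℝ)| /
              ((B : ℝ) ^ (e i - 2) * dl x y) + eps1 * H)
          = (p.Q : ℝ) * (2 ^ (e i + 3) * |(((mg x y : ℤ) * (u * j) : ℤ) : ℝ)| /
              ((B : ℝ) ^ (e i - 2) * dl x y)) + (p.Q : ℝ) * (eps1 * H) := by ring
        _ ≤ 2 ^ (n + 3) * th / tau * H + th / tau * H := add_le_add (h8.trans h8') h9
        _ = (2 ^ (n + 3) + 1) * th / tau * H := by ring
  choose! T hT using hex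
  set S1 : Set (Sys n e ℤ) := {A | A ∈ p.Cl p.rho H ∧ ∀ i, F (A i) x = 0 ∧ F (A i) y = 0} with hS1
  set S2 : Set (Sys n e ℤ) := {A | A ∈ p.Cl (p.rho + (2 ^ (n + 3) + 1) * th / tau) H ∧
            ∀ i, F (A i) x = 0 ∧ ((p.W : ℤ) ^ s) ∣ F (A i) y ∧
            |((F (A i) y : ℤ) : ℝ)| ≤ th * H * (B : ℝ) ^ e i} with hS2
  have hS2fin : S2.Finite := (Cl_finite p _ H).subset fun A hA => hA.1
  have hS1fin : S1.Finite := (Cl_finite p _ H).subset fun A hA => hA.1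
  set J : Set (Fin r → ℤ) := {j | ∀ i, j i ∈ Set.Icc (-(N i : ℤ)) (N i)} with hJ
  have hcard : (S1 ×ˢ J).ncard ≤ S2.ncard := by
    refine Set.ncard_le_ncard_of_injOn (fun a => fun i m => a.1 i m + T i (a.2 i) m) ?_ ?_ hS2fin
    · rintro ⟨A, j⟩ ⟨hA, hj⟩
      have hj' : ∀ i, |j i| ≤ (N i : ℤ) := fun i => abs_le.mpr ⟨(hj i).1, (hj i).2⟩
      have hT0 := fun i => hT i (j i) (hj' i)
      refine ⟨⟨?_, ?_⟩, fun i => ⟨?_, ?_, ?_⟩⟩
      · intro i m
        have ha := hA.1.1 i m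
        have hb := (hT0 i).2.2.2 m
        have : ((A i m + T i (j i) m : ℤ) : ℝ) - H * p.AC i m =
            ((A i m : ℝ) - H * p.AC i m) + T i (j i) m := by
          push_cast; ring
        show |((A i m + T i (j i) m : ℤ) : ℝ) - H * p.AC i m| ≤ _
        rw [this]
        calc |((A i m : ℝ) - H * p.AC i m) + T i (j i) m| ≤
              |(A i m : ℝ) - H * p.AC i m| + |(T i (j i) m : ℝ)| := abs_add_le _ _
          _ ≤ p.rho * H + (2 ^ (n + 3) + 1) * th / tau * H := add_le_add ha hb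
          _ = (p.rho + (2 ^ (n + 3) + 1) * th / tau) * H := by ring
      · intro i m
        have ha := hA.1.2 i m
        show (p.Q : ℤ) ∣ A i m + T i (j i) m - p.A0 i m
        have : A i m + T i (j i) m - p.A0 i m = (A i m - p.A0 i m) + T i (j i) m := by ring
        rw [this]
        exact dvd_add ha ((hT0 i).2.2.1 m)
      · show F (fun m => A i m + T i (j i) m) x = 0
        rw [F_add, (hA.2 i).1, (hT0 i).1, add_zero]
      · show ((p.W : ℤ) ^ s) ∣ F (fun m => A i m + T i (j i) m) y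
        rw [F_add, (hA.2 i).2, (hT0 i).2.1, zero_add, hM]
        push_cast
        exact ⟨q * j i, by ring⟩
      · show |((F (fun m => A i m + T i (j i) m) y : ℤ) : ℝ)| ≤ th * H * (B : ℝ) ^ e i
        rw [F_add, (hA.2 i).2, (hT0 i).2.1, zero_add]
        push_cast
        rw [abs_mul, abs_of_pos hMpos']
        have hj'' : |(j i : ℝ)| ≤ N i := by exact_mod_cast hj' i
        calc (M : ℝ) * |(j i : ℝ)| ≤ M * (th * H * (B : ℝ) ^ e i / M) := by
              apply mul_le_mul_of_nonneg_left (hj''.trans (hNle i)) hMpos'.le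
          _ = th * H * (B : ℝ) ^ e i := by field_simp
    · rintro ⟨A, j⟩ ⟨hA, hj⟩ ⟨A', j'⟩ ⟨hA', hj'⟩ heq
      simp only at heq hA hA' hj hj'
      have hjj : j = j' := by
        funext i
        have hj1 : |j i| ≤ (N i : ℤ) := abs_le.mpr ⟨(hj i).1, (hj i).2⟩
        have hj2 : |j' i| ≤ (N i : ℤ) := abs_le.mpr ⟨(hj' i).1, (hj' i).2⟩
        have h5 : F (fun m => A i m + T i (j i) m) y = F (fun m => A' i m + T i (j' i) m) y := by
          rw [congrFun heq i]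
        rw [F_add, F_add, (hA.2 i).2, (hA'.2 i).2, (hT i _ hj1).2.1, (hT i _ hj2).2.1, zero_add,
          zero_add] at h5
        have hMne : (M : ℤ) ≠ 0 := by exact_mod_cast hMpos.ne'
        exact mul_left_cancel₀ hMne h5
      subst hjj
      have : A = A' := by
        funext i m
        have := congrFun (congrFun heq i) m
        linarith
      rw [this]
  rw [Set.ncard_prod] at hcard
  have hI : J.ncard = ∏ i, (2 * N i + 1) := by
    rw [hJ, ncard_pi _ fun i => Set.finite_Icc _ _]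
    refine Finset.prod_congr rfl fun i _ => ?_
    rw [← Finset.coe_Icc, Set.ncard_coe_finset, Int.card_Icc]
    omega
  rw [hI] at hcard
  have hLev : p.Lev th M H = ((∏ i, (2 * N i + 1) : ℕ) : ℝ) := by
    rw [Par.Lev, hN, hB]
    push_cast
    rfl
  rw [hLev]
  have : (S1.ncard : ℝ) * ((∏ i, (2 * N i + 1) : ℕ) : ℝ) ≤ S2.ncard := by exact_mod_cast hcard
  linarith

end CIHP
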