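import Pool.Agent.Lib.MP_e426f4_ag.CI.Basic
import Pool.Agent.Lib.MP_e426f4_ag.CI.Heights
import Pool.Agent.Lib.MP_e426f4_ag.CI.ClassPts
import Pool.Agent.Lib.MP_e426f4_ag.CI.NLoc
import Pool.Agent.Lib.MP_e426f4_ag.CI.FirstUpper
import Pool.Agent.Lib.MP_e426f4_ag.CI.TransPair
import Pool.Agent.Lib.MP_e426f4_ag.G.Minors

/-! Main pairs of points. -/

namespace CIHP

open Finset Filter Topology GenHP

private theorem s2m_count {α β : Type*} (C0 C1 : Finset α) (GF : Finset β) (e l : α → β → Prop)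
    (m : ℕ → β → β → Prop) (good : β → β → Prop) [∀ A x, Decidable (e A x)]
    [∀ A x, Decidable (l A x)] [∀ q x y, Decidable (m q x y)]
    [∀ x y, Decidable (good x y)] (QQ : Finset ℕ) (c : ℝ) (hc : 0 ≤ c)
    (a b : ℕ → ℝ) (ha : ∀ q, 0 ≤ a q)
    (h1 : ∀ x ∈ GF, ∀ y ∈ GF, good x y → ∃ q ∈ QQ, m q x y ∧
      ((C0.filter (fun A => e A x ∧ e A y)).card : ℝ) ≤
        c * a q * ((C1.filter (fun A => e A x ∧ l A y)).card : ℝ))
    (h2 : ∀ A ∈ C1, ∀ x ∈ GF, e A x → ∀ q ∈ QQ,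
      ((GF.filter (fun y => m q x y ∧ l A y)).card : ℝ) ≤ b q) :
    (((C0 ×ˢ (GF ×ˢ GF)).filter
      (fun t => e t.1 t.2.1 ∧ e t.1 t.2.2 ∧ good t.2.1 t.2.2)).card : ℝ) ≤
      c * (∑ q ∈ QQ, a q * b q) * (((C1 ×ˢ GF).filter (fun p => e p.1 p.2)).card : ℝ) := by
  have e1 : (((C0 ×ˢ (GF ×ˢ GF)).filter
      (fun t => e t.1 t.2.1 ∧ e t.1 t.2.2 ∧ good t.2.1 t.2.2)).card : ℝ) =
      ∑ x ∈ GF, ∑ y ∈ GF, if good x y then
        ((C0.filter (fun A => e A x ∧ e A y)).card : ℝ) else 0 := by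
    rw [Finset.card_filter]
    push_cast
    rw [Finset.sum_product, Finset.sum_comm, Finset.sum_product]
    refine Finset.sum_congr rfl fun x _ => Finset.sum_congr rfl fun y _ => ?_
    by_cases hg : good x y
    · rw [if_pos hg, Finset.card_filter]
      push_cast
      refine Finset.sum_congr rfl fun A _ => ?_
      simp only [hg, and_true]
    · rw [if_neg hg]
      refine Finset.sum_eq_zero fun A _ => ?_
      simp only [hg, and_false, if_false]
  have e2 : ∀ x ∈ GF, ∀ y ∈ GF, (if good x y then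
        ((C0.filter (fun A => e A x ∧ e A y)).card : ℝ) else 0) ≤
      ∑ q ∈ QQ, ∑ A ∈ C1, c * a q * (if (e A x) then (if (m q x y ∧ l A y) then 1 else 0) else 0) := by
    intro x hx y hy
    have hnn : ∀ q ∈ QQ, 0 ≤ ∑ A ∈ C1, c * a q *
        (if (e A x) then (if (m q x y ∧ l A y) then 1 else 0) else 0) := by
      intro q _
      refine Finset.sum_nonneg fun A _ => ?_
      refine mul_nonneg (mul_nonneg hc (ha q)) ?_
      split_ifs <;> norm_num
    by_cases hg : good x y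
    · rw [if_pos hg]
      obtain ⟨q, hq, hqm, hle⟩ := h1 x hx y hy hg
      refine hle.trans ?_
      refine le_trans (le_of_eq ?_) (Finset.single_le_sum hnn hq)
      rw [Finset.card_filter, ← Finset.mul_sum]
      push_cast
      congr 1
      refine Finset.sum_congr rfl fun A _ => ?_
      by_cases h3 : e A x <;> by_cases h4 : l A y <;> simp [h3, h4, hqm]
    · rw [if_neg hg]
      exact Finset.sum_nonneg hnn
  rw [e1]
  refine (Finset.sum_le_sum fun x hx => Finset.sum_le_sum fun y hy => e2 x hx y hy).trans ?_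
  have e3 : ∑ x ∈ GF, ∑ y ∈ GF, ∑ q ∈ QQ, ∑ A ∈ C1, c * a q *
        (if (e A x) then (if (m q x y ∧ l A y) then (1 : ℝ) else 0) else 0) =
      ∑ q ∈ QQ, ∑ A ∈ C1, ∑ x ∈ GF, c * a q * (if (e A x) then
        ((GF.filter (fun y => m q x y ∧ l A y)).card : ℝ) else 0) := by
    have e4 : ∀ x ∈ GF, (∑ y ∈ GF, ∑ q ∈ QQ, ∑ A ∈ C1, c * a q *
        (if (e A x) then (if (m q x y ∧ l A y) then (1 : ℝ) else 0) else 0)) =
        ∑ q ∈ QQ, ∑ A ∈ C1, c * a q * (if (e A x) then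
        ((GF.filter (fun y => m q x y ∧ l A y)).card : ℝ) else 0) := by
      intro x _
      rw [Finset.sum_comm]
      refine Finset.sum_congr rfl fun q _ => ?_
      rw [Finset.sum_comm]
      refine Finset.sum_congr rfl fun A _ => ?_
      rw [← Finset.mul_sum]
      congr 1
      by_cases h3 : e A x
      · simp only [h3, if_true]
        rw [Finset.card_filter]
        push_cast
        rfl
      · simp only [h3, if_false, Finset.sum_const_zero]
    rw [Finset.sum_congr rfl e4, Finset.sum_comm]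
    refine Finset.sum_congr rfl fun q _ => ?_
    rw [Finset.sum_comm]
  rw [e3]
  have e5 : ∀ q ∈ QQ, ∑ A ∈ C1, ∑ x ∈ GF, c * a q * (if (e A x) then
        ((GF.filter (fun y => m q x y ∧ l A y)).card : ℝ) else 0) ≤
      c * (a q * b q) * (((C1 ×ˢ GF).filter (fun p => e p.1 p.2)).card : ℝ) := by
    intro q hq
    rw [Finset.card_filter]
    push_cast
    rw [Finset.sum_product, Finset.mul_sum]
    refine Finset.sum_le_sum fun A hA => ?_
    rw [Finset.mul_sum]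
    refine Finset.sum_le_sum fun x hx => ?_
    by_cases h3 : e A x
    · rw [if_pos h3, if_pos h3, mul_one, ← mul_assoc]
      exact mul_le_mul_of_nonneg_left (h2 A hA x hx h3 q hq) (mul_nonneg hc (ha q))
    · rw [if_neg h3, if_neg h3, mul_zero, mul_zero]
  refine (Finset.sum_le_sum e5).trans (le_of_eq ?_)
  rw [← Finset.sum_mul, ← Finset.mul_sum]

private theorem s2m_sum {n r : ℕ} {e : Fin r → ℕ} (p : Par n e) (eps : ℝ) (w : ℕ)
    (hp : p.Valid eps w) (G : ℕ) :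
    ∑ q ∈ (Icc 1 G).filter (fun q => Nat.Coprime q p.W), (1 : ℝ) / (q : ℝ) ^ 2 ≤ 1 + 1 / w := by
  have hw : 2 ≤ w := hp.w_two
  have hsub : (Icc 1 G).filter (fun q => Nat.Coprime q p.W) ⊆ insert 1 (Ioc w (max w G)) := by
    intro q hq
    rw [Finset.mem_filter, Finset.mem_Icc] at hq
    rw [Finset.mem_insert, Finset.mem_Ioc]
    by_cases h1 : q = 1
    · exact Or.inl h1
    · right
      refine ⟨?_, hq.1.2.trans (le_max_right _ _)⟩
      have hqp := Nat.minFac_prime h1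
      have hdv := Nat.minFac_dvd q
      have h2 : ¬ (q.minFac ∣ p.W) := fun h => by
        have := Nat.dvd_gcd hdv h
        rw [hq.2] at this
        exact hqp.one_lt.ne' (Nat.dvd_one.1 this)
      rw [hp.W_primes _ hqp] at h2
      have := Nat.le_of_dvd (by omega) hdv
      omega
  refine (Finset.sum_le_sum_of_subset_of_nonneg hsub fun q _ _ => by positivity).trans ?_
  rw [Finset.sum_insert (by rw [Finset.mem_Ioc]; omega)]
  have h3 := sum_Ioc_inv_sq_le_sub (α := ℝ) (k := w) (n := max w G) (by omega) (le_max_left _ _)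
  have h4 : ∑ q ∈ Ioc w (max w G), (1 : ℝ) / (q : ℝ) ^ 2 =
      ∑ q ∈ Ioc w (max w G), ((q : ℝ) ^ 2)⁻¹ := Finset.sum_congr rfl fun q _ => one_div _
  rw [h4]
  have h5 : (0 : ℝ) ≤ ((max w G : ℕ) : ℝ)⁻¹ := by positivity
  rw [one_div (w : ℝ)]
  norm_num
  linarith only [h3, h5]

private theorem s2m_num (e v : ℝ) (N : ℕ) (hN : 0 < N) (he : 0 < e) (he1 : e ≤ 1 / 10) (hv : 0 ≤ v)
    (hv2 : v ≤ 1 / 2) :
    (1 + 2 * e) * (1 + e) * (1 + v) * ((1 + 8 * e) * (1 + e / N) ^ N) ≤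
      1 + 40 * e + 3 * v := by
  have hNr : (0 : ℝ) < N := by exact_mod_cast hN
  have h1 : (1 + e / N) ^ N ≤ 1 + e + e ^ 2 := by
    have h2 : 1 + e / N ≤ Real.exp (e / N) := by
      have := Real.add_one_le_exp (e / N)
      linarith only [this]
    have h3 : (1 + e / N) ^ N ≤ Real.exp (e / N) ^ N := pow_le_pow_left₀ (by positivity) h2 N
    rw [← Real.exp_nat_mul] at h3
    have h4 : (N : ℝ) * (e / N) = e := by field_simp
    rw [h4] at h3
    have h5 := Real.abs_exp_sub_one_sub_id_le (x := e) (by rw [abs_of_pos he]; linarith)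
    rw [abs_le] at h5
    linarith
  have h2 : (1 + 8 * e) * (1 + e / N) ^ N ≤ 1 + 10 * e := by
    calc (1 + 8 * e) * (1 + e / N) ^ N ≤ (1 + 8 * e) * (1 + e + e ^ 2) :=
          mul_le_mul_of_nonneg_left h1 (by positivity)
      _ ≤ 1 + 10 * e := by nlinarith [mul_pos he he, mul_nonneg (mul_nonneg he.le he.le) he.le]
  have h3 : (1 + 2 * e) * (1 + e) ≤ 1 + 32 / 10 * e := by nlinarith
  have h4 : (1 + 2 * e) * (1 + e) * (1 + v) ≤ (1 + 32 / 10 * e) * (1 + v) :=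
    mul_le_mul_of_nonneg_right h3 (by positivity)
  calc _ ≤ (1 + 32 / 10 * e) * (1 + v) * (1 + 10 * e) :=
        mul_le_mul h4 h2 (by positivity) (by positivity)
    _ ≤ 1 + 40 * e + 3 * v := by nlinarith only [h3, he, hv, hv2, mul_nonneg he.le hv, mul_nonneg (mul_nonneg he.le he.le) hv]

theorem S2_main {n r : ℕ} {e : Fin r → ℕ} (p : Par n e) (eps : ℝ) (w : ℕ) (hp : p.Valid eps w)
    (K : ℝ) (hK : 1 ≤ K) (G : ℕ) (hG : 1 ≤ G) (tau : ℝ) (ht : 0 < tau) (ht1 : tau ≤ 1) :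
    ∃ eps1 : ℝ, 0 < eps1 ∧ ∀ᶠ H : ℝ in atTop,
      ((p.TMain K G tau eps1 H).ncard : ℝ) ≤ (1 + 40 * eps + 3 / w) * p.TT H ^ 2 * p.Xn H := by
  classical
  have he := hp.eps_pos
  have he1 := hp.eps_le
  have hrho := hp.rho_pos
  have hW := hp.W_pos
  have hQ := hp.Q_pos
  have hw : 2 ≤ w := hp.w_two
  have hr1' := hp.r_pos
  have hnr := hp.n_ge
  have hWr : (0 : ℝ) < p.W := by exact_mod_cast hW
  have hQr : (0 : ℝ) < p.Q := by exact_mod_cast hQ
  have hgam : 0 < |p.gam| := abs_pos.2 hp.gam_ne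
  have hwr : (2 : ℝ) ≤ w := by exact_mod_cast hw
  have hdens := dens_pos p eps w hp
  have hNSpos : 0 < NS n e := by
    unfold NS
    refine Finset.sum_pos (fun i _ => NN_pos n (e i)) ?_
    exact ⟨⟨0, by omega⟩, Finset.mem_univ _⟩
  have hNN : (0 : ℝ) < NS n e := by exact_mod_cast hNSpos
  have hNN1 : (1 : ℝ) ≤ NS n e := by exact_mod_cast hNSpos
  obtain ⟨s0, hs0⟩ := hp.hens.2.1
  obtain ⟨th, hth, hth2, hth3⟩ : ∃ th : ℝ, 0 < th ∧ th ≤ p.th1 ∧
      th ≤ eps * p.rho * tau / ((2 ^ (n + 3) + 1) * NS n e) :=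
    ⟨min p.th1 (eps * p.rho * tau / ((2 ^ (n + 3) + 1) * NS n e)),
      lt_min hp.th1_pos (by positivity), min_le_left _ _, min_le_right _ _⟩
  set s : ℕ := s0 + G with hs
  have hsG : p.Q * p.W ^ G ∣ p.W ^ s := by
    rw [hs, pow_add, ← hs0]
  have hsQ : p.Q ∣ p.W ^ s := (Dvd.intro _ rfl).trans hsG
  set r1 : ℝ := p.rho + (2 ^ (n + 3) + 1) * th / tau with hr1
  have hr1a : p.rho ≤ r1 := by
    have : 0 ≤ (2 ^ (n + 3) + 1) * th / tau := by positivity
    linarith only [this]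
  have hr1b : r1 ≤ p.rho * (1 + eps / NS n e) := by
    have h1 : (2 ^ (n + 3) + 1) * th / tau ≤ eps * p.rho / NS n e := by
      rw [div_le_div_iff₀ ht hNN]
      rw [le_div_iff₀ (by positivity)] at hth3
      linarith
    have h2 : p.rho * (1 + eps / NS n e) = p.rho + eps * p.rho / NS n e := by ring
    rw [hr1, h2]
    linarith
  have hr1c : r1 ≤ 3 / 2 * p.rho := by
    have h1 : eps / NS n e ≤ 1 / 2 := by
      rw [div_le_iff₀ hNN]
      linarith only [hNN1, he, he1]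
    have h2 : p.rho * (1 + eps / NS n e) ≤ 3 / 2 * p.rho := by
      have := mul_le_mul_of_nonneg_left h1 hrho.le
      linarith
    linarith only [h2, hr1b]
  set QQ : Finset ℕ := (Icc 1 G).filter (fun q => Nat.Coprime q p.W) with hQQ
  set T' : ℕ → ℝ := fun B => p.TL th s B with hT'
  -- uniform version of the local count
  obtain ⟨B0, hB0⟩ : ∃ B0 : ℕ, ∀ q ∈ QQ, ∀ B : ℕ, B0 ≤ B → ∀ H : ℝ, 0 < H → ∀ A : Sys n e ℤ,
      (∀ i m, |(A i m : ℝ) - H * p.Ainf i m| ≤ 3 * p.rho * H) →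
      (∀ i m, (p.Q : ℤ) ∣ A i m - p.A0 i m) →
      ∀ z : Fin (n + 1) → ℤ,
      (Set.ncard {x : Fin (n + 1) → ℤ | x ∈ p.XX B ∧ (∀ i, ((p.W : ℤ) ^ s) ∣ F (A i) x ∧
          |((F (A i) x : ℤ) : ℝ)| ≤ th * H * (B : ℝ) ^ e i) ∧ ∀ i, (q : ℤ) ∣ x i - z i} : ℝ) ≤
        (1 + eps) * T' B / (q : ℝ) ^ (n + 1) := by
    have h1 : ∀ q : ℕ, ∃ B0 : ℕ, q ∈ QQ → ∀ B : ℕ, B0 ≤ B → ∀ H : ℝ, 0 < H →
      ∀ A : Sys n e ℤ,
      (∀ i m, |(A i m : ℝ) - H * p.Ainf i m| ≤ 3 * p.rho * H) →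
      (∀ i m, (p.Q : ℤ) ∣ A i m - p.A0 i m) →
      ∀ z : Fin (n + 1) → ℤ,
      (Set.ncard {x : Fin (n + 1) → ℤ | x ∈ p.XX B ∧ (∀ i, ((p.W : ℤ) ^ s) ∣ F (A i) x ∧
          |((F (A i) x : ℤ) : ℝ)| ≤ th * H * (B : ℝ) ^ e i) ∧ ∀ i, (q : ℤ) ∣ x i - z i} : ℝ) ≤
        (1 + eps) * T' B / (q : ℝ) ^ (n + 1) := by
      intro q
      by_cases hq : q ∈ QQ
      · have hq' := hq
        rw [hQQ, Finset.mem_filter, Finset.mem_Icc] at hq'
        obtain ⟨B0, h⟩ := nloc p eps w hp th hth hth2 s hsQ q (by omega) hq'.2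
        exact ⟨B0, fun _ B hB H hH A h1 h2 z => (h B hB H hH A h1 h2 z).2⟩
      · exact ⟨0, fun h => absurd h hq⟩
    choose f hf using h1
    refine ⟨QQ.sup f, fun q hq B hB => hf q hq B ((Finset.le_sup hq).trans hB)⟩
  have hMpos : (0 : ℝ) < (p.W : ℝ) ^ s := by positivity
  have hev1 : ∀ᶠ H : ℝ in atTop, max B0 1 ≤ p.B H :=
    (Bf_atTop e hp.r_pos hp.sum_le p.C0 hp.C0_ge).eventually_ge_atTop _
  have hlevs : ∀ᶠ H : ℝ in atTop, ∀ q ∈ QQ,
      (1 - eps) * ((2 * th * H / ((p.W ^ s * q : ℕ) : ℝ)) ^ r * (p.B H : ℝ) ^ (∑ i, e i)) ≤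
        p.Lev th (p.W ^ s * q) H := by
    rw [Filter.eventually_all_finset]
    intro q hq
    rw [hQQ, Finset.mem_filter, Finset.mem_Icc] at hq
    have hM0 : 0 < p.W ^ s * q := Nat.mul_pos (pow_pos hW s) (by omega)
    exact (Lev_asymp p eps w hp th hth (p.W ^ s * q) hM0 eps he).mono fun H h => h.1
  refine ⟨th / p.Q, by positivity, ?_⟩
  filter_upwards [trans_pair p eps w hp K hK G hG tau ht ht1 th hth s hsG (th / p.Q)
      (by positivity) (le_of_eq (by field_simp)),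
    S1_upper p eps w hp K hK r1 hr1a hr1c, hev1, hlevs,
    eventually_ge_atTop (1 : ℝ)] with H hTP hS1 hB1 hlev0 hHr
  have hH0 : (0 : ℝ) < H := by linarith only [hHr, he, he1]
  have hBB0 : B0 ≤ p.B H := (le_max_left _ _).trans hB1
  have hB1' : (1 : ℝ) ≤ p.B H := by exact_mod_cast (le_max_right _ _).trans hB1
  set B := p.B H with hB
  have hBpos : (0 : ℝ) < B := by linarith only [hB1', he, he1]
  set LV : ℝ := (2 * th * H / (p.W : ℝ) ^ s) ^ r * (B : ℝ) ^ (∑ i, e i) with hLV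
  have hLV0 : 0 < LV := by positivity
  set c : ℝ := (1 + 2 * eps) / LV with hc
  have hc0 : 0 < c := by positivity
  -- finsets
  set C0 := (Cl_finite p p.rho H).toFinset with hC0
  set C1 := (Cl_finite p r1 H).toFinset with hC1
  set GF := (GG_finite p K B).toFinset with hGF
  have hGFm : ∀ z, z ∈ GF ↔ z ∈ p.GG K B := by
    intro z
    rw [hGF, Set.Finite.mem_toFinset]
  have hC0m : ∀ A, A ∈ C0 ↔ A ∈ p.Cl p.rho H := by
    intro A
    rw [hC0, Set.Finite.mem_toFinset]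
  have hC1m : ∀ A, A ∈ C1 ↔ A ∈ p.Cl r1 H := by
    intro A
    rw [hC1, Set.Finite.mem_toFinset]
  set LL : Sys n e ℤ → (Fin (n + 1) → ℤ) → Prop := fun A y => ∀ i,
    ((p.W : ℤ) ^ s) ∣ F (A i) y ∧ |((F (A i) y : ℤ) : ℝ)| ≤ th * H * (B : ℝ) ^ e i with hLL
  set EE : Sys n e ℤ → (Fin (n + 1) → ℤ) → Prop := fun A x => ∀ i, F (A i) x = 0 with hEE
  set DD : ℕ → (Fin (n + 1) → ℤ) → (Fin (n + 1) → ℤ) → Prop := fun q x y => q ∣ mg x y with hDD
  set GOOD : (Fin (n + 1) → ℤ) → (Fin (n + 1) → ℤ) → Prop := fun x y =>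
    mg x y ≤ G ∧ tau * (B : ℝ) ^ 2 ≤ (dl x y : ℝ) ∧ Fine n e (th / p.Q * H) x y with hGOOD
  have key := s2m_count C0 C1 GF EE LL DD GOOD QQ c hc0.le (fun q => (q : ℝ) ^ r)
    (fun q => q * ((1 + eps) * T' B / (q : ℝ) ^ (n + 1))) (fun q => by positivity) ?_ ?_
  rotate_left
  · -- transference
    intro x hx y hy hg
    rw [hGFm] at hx hy
    obtain ⟨q, hq0, hqm, hqW, hle⟩ := hTP x y hx hy hg.1 hg.2.1 hg.2.2
    have hdl : 0 < dl x y := by
      have h1 : (0 : ℝ) < tau * (B : ℝ) ^ 2 := by positivity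
      have h2 := h1.trans_le hg.2.1
      exact_mod_cast h2
    have hmg : 0 < mg x y := mg_pos_of_dl_pos x y hdl
    have hqG : q ≤ G := (Nat.le_of_dvd hmg hqm).trans hg.1
    have hqQ : q ∈ QQ := by
      rw [hQQ, Finset.mem_filter, Finset.mem_Icc]
      exact ⟨⟨hq0, hqG⟩, hqW⟩
    refine ⟨q, hqQ, hqm, ?_⟩
    have e1 : (Set.ncard {A : Sys n e ℤ | A ∈ p.Cl p.rho H ∧ ∀ i, F (A i) x = 0 ∧
          F (A i) y = 0} : ℝ) =
        ((C0.filter (fun A => EE A x ∧ EE A y)).card : ℝ) := by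
      rw [← Set.ncard_coe_finset]
      congr 2
      ext A
      rw [Finset.mem_coe, Finset.mem_filter, hC0m]
      exact ⟨fun h => ⟨h.1, fun i => (h.2 i).1, fun i => (h.2 i).2⟩,
        fun h => ⟨h.1, fun i => ⟨h.2.1 i, h.2.2 i⟩⟩⟩
    have e2 : (Set.ncard {A : Sys n e ℤ | A ∈ p.Cl r1 H ∧ ∀ i, F (A i) x = 0 ∧
          ((p.W : ℤ) ^ s) ∣ F (A i) y ∧
          |((F (A i) y : ℤ) : ℝ)| ≤ th * H * (B : ℝ) ^ e i} : ℝ) =
        ((C1.filter (fun A => EE A x ∧ LL A y)).card : ℝ) := by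
      rw [← Set.ncard_coe_finset]
      congr 2
      ext A
      rw [Finset.mem_coe, Finset.mem_filter, hC1m]
      exact ⟨fun h => ⟨h.1, fun i => (h.2 i).1, fun i => (h.2 i).2⟩,
        fun h => ⟨h.1, fun i => ⟨h.2.1 i, h.2.2 i⟩⟩⟩
    rw [e1, e2] at hle
    have hqr : (0 : ℝ) < q := by exact_mod_cast hq0
    have hR0 : (0 : ℝ) ≤ ((C0.filter (fun A => EE A x ∧ EE A y)).card : ℝ) := Nat.cast_nonneg _
    have hR1 : (0 : ℝ) ≤ ((C1.filter (fun A => EE A x ∧ LL A y)).card : ℝ) := Nat.cast_nonneg _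
    have hlev := hlev0 q hqQ
    have h3 : (2 * th * H / ((p.W ^ s * q : ℕ) : ℝ)) ^ r * (B : ℝ) ^ (∑ i, e i) =
        LV / (q : ℝ) ^ r := by
      rw [hLV]
      push_cast
      rw [← div_div, div_pow (2 * th * H / (p.W : ℝ) ^ s) (q : ℝ) r]
      ring
    rw [h3] at hlev
    have h4 : LV / (q : ℝ) ^ r * ((C0.filter (fun A => EE A x ∧ EE A y)).card : ℝ) ≤
        (1 + 2 * eps) * ((C1.filter (fun A => EE A x ∧ LL A y)).card : ℝ) := by
      have h5 : (1 - eps) * (LV / (q : ℝ) ^ r) *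
          ((C0.filter (fun A => EE A x ∧ EE A y)).card : ℝ) ≤
          ((C1.filter (fun A => EE A x ∧ LL A y)).card : ℝ) :=
        (mul_le_mul_of_nonneg_right hlev hR0).trans hle
      have h6 : 1 ≤ (1 + 2 * eps) * (1 - eps) := by nlinarith only [he, he1]
      have h7 : 0 ≤ LV / (q : ℝ) ^ r * ((C0.filter (fun A => EE A x ∧ EE A y)).card : ℝ) := by
        (clear * - hB1' hHr hW hq0 hth; positivity)
      calc LV / (q : ℝ) ^ r * ((C0.filter (fun A => EE A x ∧ EE A y)).card : ℝ) ≤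
          ((1 + 2 * eps) * (1 - eps)) *
            (LV / (q : ℝ) ^ r * ((C0.filter (fun A => EE A x ∧ EE A y)).card : ℝ)) :=
            le_mul_of_one_le_left h7 h6
        _ = (1 + 2 * eps) * ((1 - eps) * (LV / (q : ℝ) ^ r) *
            ((C0.filter (fun A => EE A x ∧ EE A y)).card : ℝ)) := by ring
        _ ≤ _ := mul_le_mul_of_nonneg_left h5 (by positivity)
    rw [div_mul_eq_mul_div, div_le_iff₀ (by positivity)] at h4
    show _ ≤ c * (q : ℝ) ^ r * _
    rw [hc, div_mul_eq_mul_div, div_mul_eq_mul_div, le_div_iff₀ hLV0]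
    linarith only [h4]
  · -- local count
    intro A hA x hx hAx q hq
    rw [hGFm] at hx
    rw [hC1m] at hA
    have hq' := hq
    rw [hQQ, Finset.mem_filter, Finset.mem_Icc] at hq'
    have hq0 : 0 < q := by omega
    have hAinf : ∀ i m, |(A i m : ℝ) - H * p.Ainf i m| ≤ 3 * p.rho * H := by
      intro i m
      have h1 := hA.1 i m
      have h2 := hp.AC_near i m
      calc |(A i m : ℝ) - H * p.Ainf i m| =
            |((A i m : ℝ) - H * p.AC i m) + H * (p.AC i m - p.Ainf i m)| := by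
            ring_nf
        _ ≤ |(A i m : ℝ) - H * p.AC i m| + |(H : ℝ) * (p.AC i m - p.Ainf i m)| := abs_add_le _ _
        _ = |(A i m : ℝ) - H * p.AC i m| + H * |p.AC i m - p.Ainf i m| := by
            rw [abs_mul, abs_of_pos hH0]
        _ ≤ r1 * H + H * p.rho := add_le_add h1 (mul_le_mul_of_nonneg_left h2 hH0.le)
        _ ≤ 3 * p.rho * H := by nlinarith only [hHr, he, he1, hr1c, hrho]
    set Sl : ℕ → Finset (Fin (n + 1) → ℤ) := fun l => (XX_finite p B).toFinset.filter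
      (fun y => LL A y ∧ ∀ i, (q : ℤ) ∣ y i - (l : ℤ) * x i) with hSl
    have hcov : GF.filter (fun y => DD q x y ∧ LL A y) ⊆ (Finset.range q).biUnion Sl := by
      intro y hy
      rw [Finset.mem_filter, hGFm] at hy
      obtain ⟨hyG, hqm, hl⟩ := hy
      obtain ⟨l, hl'⟩ := exists_mod_of_dvd_mg x y hx.2.1 q hqm
      rw [Finset.mem_biUnion]
      have hq0' : (0 : ℤ) < q := by exact_mod_cast hq0
      have h1 := Int.emod_nonneg l hq0'.ne'
      have h2 := Int.emod_lt_of_pos l hq0'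
      refine ⟨(l % q).toNat, ?_, ?_⟩
      · rw [Finset.mem_range]
        omega
      · rw [hSl]
        simp only [Finset.mem_filter, Set.Finite.mem_toFinset]
        refine ⟨hyG.1, hl, fun i => ?_⟩
        rw [Int.toNat_of_nonneg h1]
        have h3 : (q : ℤ) ∣ l - l % q := Int.dvd_self_sub_emod
        have h4 : y i - l % q * x i = (y i - l * x i) + (l - l % q) * x i := by ring
        rw [h4]
        exact dvd_add (hl' i) (h3.mul_right _)
    have hcard : ∀ l ∈ Finset.range q, ((Sl l).card : ℝ) ≤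
        (1 + eps) * T' B / (q : ℝ) ^ (n + 1) := by
      intro l _
      have h1 := hB0 q hq B hBB0 H hH0 A hAinf hA.2 (fun i => (l : ℤ) * x i)
      refine le_trans (le_of_eq ?_) h1
      rw [← Set.ncard_coe_finset]
      congr 2
      ext y
      simp only [hSl, Finset.coe_filter, Set.mem_ofPred_eq, Set.Finite.mem_toFinset, hLL]
    calc ((GF.filter (fun y => DD q x y ∧ LL A y)).card : ℝ) ≤
        (((Finset.range q).biUnion Sl).card : ℝ) := by exact_mod_cast Finset.card_le_card hcov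
      _ ≤ ∑ l ∈ Finset.range q, ((Sl l).card : ℝ) := by
        have := Finset.card_biUnion_le (s := Finset.range q) (t := Sl)
        exact_mod_cast this
      _ ≤ ∑ l ∈ Finset.range q, (1 + eps) * T' B / (q : ℝ) ^ (n + 1) :=
        Finset.sum_le_sum hcard
      _ = q * ((1 + eps) * T' B / (q : ℝ) ^ (n + 1)) := by
        rw [Finset.sum_const, Finset.card_range, nsmul_eq_mul]
  -- final computation
  have eL : ((p.TMain K G tau (th / p.Q) H).ncard : ℝ) = (((C0 ×ˢ (GF ×ˢ GF)).filter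
      (fun t => EE t.1 t.2.1 ∧ EE t.1 t.2.2 ∧ GOOD t.2.1 t.2.2)).card : ℝ) := by
    rw [← Set.ncard_coe_finset]
    congr 2
    ext t
    rw [Finset.mem_coe, Finset.mem_filter, Finset.mem_product, Finset.mem_product, hC0m, hGFm, hGFm]
    exact ⟨fun h => ⟨⟨h.1, h.2.1, h.2.2.1⟩, fun i => (h.2.2.2.1 i).1, fun i => (h.2.2.2.1 i).2,
        h.2.2.2.2.1, h.2.2.2.2.2.1, h.2.2.2.2.2.2⟩,
      fun h => ⟨h.1.1, h.1.2.1, h.1.2.2, fun i => ⟨h.2.1 i, h.2.2.1 i⟩, h.2.2.2.1, h.2.2.2.2.1,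
        h.2.2.2.2.2⟩⟩
  have eR : ((p.Pairs r1 K H).ncard : ℝ) =
      (((C1 ×ˢ GF).filter (fun t => EE t.1 t.2)).card : ℝ) := by
    rw [← Set.ncard_coe_finset]
    congr 2
    ext t
    rw [Finset.mem_coe, Finset.mem_filter, Finset.mem_product, hC1m, hGFm]
    exact ⟨fun h => ⟨⟨h.1, h.2.1⟩, h.2.2⟩, fun h => ⟨h.1.1, h.1.2, h.2⟩⟩
  rw [eL]
  refine key.trans ?_
  rw [← eR]
  have hTT0 : 0 ≤ p.TT H := by
    simp only [Par.TT]
    (clear * - hB1' hHr hQ hdens hgam; positivity)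
  have hTL : T' B = p.TT H * LV := by
    rw [hT', hLV]
    exact TL_eq p eps w hp th hth s H hH0
  have hT'nn : 0 ≤ T' B := by
    rw [hTL]
    positivity
  have hsum : ∑ q ∈ QQ, (q : ℝ) ^ r * (q * ((1 + eps) * T' B / (q : ℝ) ^ (n + 1))) ≤
      (1 + eps) * T' B * (1 + 1 / w) := by
    have h1 : ∀ q ∈ QQ, (q : ℝ) ^ r * (q * ((1 + eps) * T' B / (q : ℝ) ^ (n + 1))) ≤
        (1 + eps) * T' B * (1 / (q : ℝ) ^ 2) := by
      intro q hq
      rw [hQQ, Finset.mem_filter, Finset.mem_Icc] at hq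
      have hq1 : (1 : ℝ) ≤ q := by exact_mod_cast hq.1.1
      have hq0 : (0 : ℝ) < q := by linarith only [he, he1, hq1]
      have h2 : (q : ℝ) ^ (r + 1 + 2) ≤ (q : ℝ) ^ (n + 1) := pow_le_pow_right₀ hq1 (by omega)
      have h3 : (q : ℝ) ^ r * (q * ((1 + eps) * T' B / (q : ℝ) ^ (n + 1))) =
          (1 + eps) * T' B * ((q : ℝ) ^ (r + 1) / (q : ℝ) ^ (n + 1)) := by
        rw [pow_succ (q : ℝ) r]
        ring
      rw [h3]
      refine mul_le_mul_of_nonneg_left ?_ (by positivity)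
      rw [div_le_div_iff₀ (by positivity) (by (clear * - hq1; positivity))]
      calc (q : ℝ) ^ (r + 1) * (q : ℝ) ^ 2 = (q : ℝ) ^ (r + 1 + 2) := (pow_add _ _ _).symm
        _ ≤ (q : ℝ) ^ (n + 1) := h2
        _ = 1 * (q : ℝ) ^ (n + 1) := (one_mul _).symm
    refine (Finset.sum_le_sum h1).trans ?_
    rw [← Finset.mul_sum]
    exact mul_le_mul_of_nonneg_left (s2m_sum p eps w hp G) (by (clear * - hT'nn he; positivity))
  have hcT : c * T' B = (1 + 2 * eps) * p.TT H := by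
    rw [hTL, hc]
    field_simp
  have hX : (2 * r1 * H / p.Q) ^ NS n e ≤ (1 + eps / NS n e) ^ NS n e * p.Xn H := by
    simp only [Par.Xn]
    rw [← mul_pow]
    refine pow_le_pow_left₀ (by positivity) ?_ (NS n e)
    rw [mul_div_assoc', div_le_div_iff_of_pos_right hQr]
    nlinarith only [hHr, he, he1, hr1b]
  have hXn0 : 0 ≤ p.Xn H := by
    simp only [Par.Xn]
    positivity
  have hPb : ((p.Pairs r1 K H).ncard : ℝ) ≤
      (1 + 8 * eps) * (1 + eps / NS n e) ^ NS n e * (p.TT H * p.Xn H) := by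
    refine hS1.trans ?_
    calc (1 + 8 * eps) * p.TT H * (2 * r1 * H / p.Q) ^ NS n e ≤
        (1 + 8 * eps) * p.TT H * ((1 + eps / NS n e) ^ NS n e * p.Xn H) :=
          mul_le_mul_of_nonneg_left hX (by positivity)
      _ = _ := by ring
  have hP0 : (0 : ℝ) ≤ ((p.Pairs r1 K H).ncard : ℝ) := Nat.cast_nonneg _
  calc c * (∑ q ∈ QQ, (q : ℝ) ^ r * (q * ((1 + eps) * T' B / (q : ℝ) ^ (n + 1)))) *
        ((p.Pairs r1 K H).ncard : ℝ) ≤
      c * ((1 + eps) * T' B * (1 + 1 / w)) * ((p.Pairs r1 K H).ncard : ℝ) :=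
        mul_le_mul_of_nonneg_right (mul_le_mul_of_nonneg_left hsum hc0.le) hP0
    _ = (c * T' B) * ((1 + eps) * (1 + 1 / w)) * ((p.Pairs r1 K H).ncard : ℝ) := by ring
    _ = (1 + 2 * eps) * p.TT H * ((1 + eps) * (1 + 1 / w)) * ((p.Pairs r1 K H).ncard : ℝ) := by
        rw [hcT]
    _ ≤ (1 + 2 * eps) * p.TT H * ((1 + eps) * (1 + 1 / w)) *
        ((1 + 8 * eps) * (1 + eps / NS n e) ^ NS n e * (p.TT H * p.Xn H)) :=
        mul_le_mul_of_nonneg_left hPb (by (clear * - hTT0 he hw; positivity))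
    _ = ((1 + 2 * eps) * (1 + eps) * (1 + 1 / w) * ((1 + 8 * eps) * (1 + eps / NS n e) ^ NS n e)) *
        (p.TT H ^ 2 * p.Xn H) := by ring
    _ ≤ (1 + 40 * eps + 3 * (1 / w)) * (p.TT H ^ 2 * p.Xn H) := by
        refine mul_le_mul_of_nonneg_right (s2m_num eps (1 / w) (NS n e) hNSpos he he1
          (by positivity) ?_) (by (clear * - hXn0; positivity))
        exact one_div_le_one_div_of_le two_pos hwr
    _ = (1 + 40 * eps + 3 / w) * p.TT H ^ 2 * p.Xn H := by ring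

end CIHP
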