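import Pool.Agent.Lib.MP_e426f4_ag.CI.FewNotFine
import Pool.Agent.Lib.MP_e426f4_ag.CI.Defs
import Pool.Agent.Lib.MP_e426f4_ag.CI.Basic
import Pool.Agent.Lib.MP_e426f4_ag.CI.Heights
import Pool.Agent.Lib.MP_e426f4_ag.CI.ClassPts
import Pool.Agent.Lib.MP_e426f4_ag.CI.FineGood
import Pool.Agent.Lib.MP_e426f4_ag.CI.Crude
import Pool.Agent.Lib.MP_e426f4_ag.CI.SecondBad

/-! Module CI-S2N: pairs of points that are not fine contribute little to the second moment. -/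

namespace CIHP

open Finset Filter Topology GenHP

variable {n r : ℕ} {e : Fin r → ℕ}

private theorem s2n_ne_of_dl_pos {x y : Fin (n + 1) → ℤ} (h : 0 < dl x y) : x ≠ y := by
  rintro rfl
  have h0 : dl x x = 0 := by
    unfold dl
    apply le_antisymm _ (Nat.zero_le _)
    refine Finset.sup_le fun q _ => ?_
    have : minor x x q.1 q.2 = 0 := by
      unfold minor
      ring
    rw [this]
    simp
  omega

/-- outside the borderline case all pairs are fine -/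
private theorem s2n_easy (p : Par n e) (eps : ℝ) (w : ℕ) (hp : p.Valid eps w) (K : ℝ) (hK : 1 ≤ K)
    (G : ℕ) (tau : ℝ) (ht : 0 < tau) (eps1 : ℝ) (he1 : 0 < eps1)
    (hb : 2 * r < n * nu n e) :
    ∀ᶠ H : ℝ in atTop,
      ((p.TNF K G tau eps1 H).ncard : ℝ) ≤ eps * p.TT H ^ 2 * p.Xn H := by
  have heps := hp.eps_pos
  have hrho := hp.rho_pos
  have hn2 : 2 ≤ n := by have := hp.n_ge; omega
  have hf : ∀ i : Fin r, ∃ C : ℝ, 0 < C ∧ ∀ B : ℕ, 1 ≤ B → ∀ E : ℝ,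
      C * (B : ℝ) ^ (2 / (n : ℝ)) ≤ E → ∀ x y : Fin (n + 1) → ℤ, Good K B x → Good K B y →
      0 < dl x y → FineD n (e i) E x y := fun i => fine_of_good n (e i) (by omega) (hp.e_ge i) K hK
  choose C hC hfi using hf
  obtain ⟨s, hs⟩ : ∃ s : ℝ, s = ∑ i, C i := ⟨_, rfl⟩
  have hs' : ∀ i, C i ≤ s := fun i => by
    rw [hs]
    exact Finset.single_le_sum (f := fun i => C i) (fun i _ => (hC i).le) (Finset.mem_univ i)
  filter_upwards [(Bf_atTop e hp.r_pos hp.sum_le p.C0 hp.C0_ge).eventually_ge_atTop 1,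
    Bf_small_two e hn2 hp.r_pos hp.sum_le hb p.C0 hp.C0_ge (s / eps1),
    eventually_ge_atTop (1 : ℝ)] with H hB hsm hH
  change 1 ≤ p.B H at hB
  change s / eps1 * (p.B H : ℝ) ^ (2 / (n : ℝ)) ≤ H at hsm
  have hB1 : (1 : ℝ) ≤ p.B H := by exact_mod_cast hB
  have hempty : p.TNF K G tau eps1 H = ∅ := by
    rw [Set.eq_empty_iff_forall_notMem]
    rintro ⟨A, x, y⟩ ⟨_, hx, hy, _, _, hdl, hnf⟩
    apply hnf
    intro i
    have hd : 0 < dl x y := by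
      have h1 : 0 < tau * (p.B H : ℝ) ^ 2 := by positivity
      have h2 : (0 : ℝ) < dl x y := lt_of_lt_of_le h1 hdl
      exact_mod_cast h2
    refine hfi i (p.B H) hB (eps1 * H) ?_ x y hx.2.2 hy.2.2 hd
    calc C i * (p.B H : ℝ) ^ (2 / (n : ℝ)) ≤ s * (p.B H : ℝ) ^ (2 / (n : ℝ)) := by
          have := hs' i
          gcongr
      _ = eps1 * (s / eps1 * (p.B H : ℝ) ^ (2 / (n : ℝ))) := by
          field_simp
      _ ≤ eps1 * H := mul_le_mul_of_nonneg_left hsm he1.le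
  rw [hempty, Set.ncard_empty, Nat.cast_zero]
  have hXn : 0 ≤ p.Xn H := by unfold Par.Xn; positivity
  positivity

/-- the borderline case -/
private theorem s2n_hard (p : Par n e) (eps : ℝ) (w : ℕ) (hp : p.Valid eps w) (K : ℝ) (hK : 1 ≤ K)
    (G : ℕ) (hG : 1 ≤ G) (tau : ℝ) (ht : 0 < tau) (eps1 : ℝ) (he1 : 0 < eps1)
    (hb : ∀ i, e i = 2) :
    ∀ᶠ H : ℝ in atTop,
      ((p.TNF K G tau eps1 H).ncard : ℝ) ≤ eps * p.TT H ^ 2 * p.Xn H := by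
  classical
  have heps := hp.eps_pos
  have hrho := hp.rho_pos
  have hC0 : 0 < p.C0 := lt_of_lt_of_le one_pos hp.C0_ge
  have hn3 : 3 ≤ n := by have := hp.n_ge; have := hp.r_pos; omega
  have hn0 : (0 : ℝ) < n := by
    have : 0 < n := by omega
    exact_mod_cast this
  have hG0 : (0 : ℝ) < G := by exact_mod_cast hG
  obtain ⟨Cc, hCc, hcr⟩ := crude_sys p eps w hp K hK
  obtain ⟨Cf, hCf, hfew⟩ := few_not_fine n hn3 K (p.C0 / eps1) hK (by positivity)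
  obtain ⟨a, ha, hTT⟩ := s2_TT p eps w hp
  obtain ⟨cst, hcst⟩ : ∃ cst : ℝ, cst = 5 ^ (n + 1) * Cf * Cc * (G / tau) ^ r := ⟨_, rfl⟩
  have hcst0 : 0 < cst := by rw [hcst]; positivity
  have hBr : Tendsto (fun H : ℝ => (p.B H : ℝ) ^ (1 / (n : ℝ))) atTop atTop :=
    (tendsto_rpow_atTop (by positivity)).comp
      (tendsto_natCast_atTop_atTop.comp (Bf_atTop e hp.r_pos hp.sum_le p.C0 hp.C0_ge))
  filter_upwards [(Bf_atTop e hp.r_pos hp.sum_le p.C0 hp.C0_ge).eventually_ge_atTop 1,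
    hcr, hBr.eventually_ge_atTop (cst / (eps * a ^ 2)), eventually_ge_atTop (1 : ℝ)]
    with H hB hcr hBl hH
  change 1 ≤ p.B H at hB
  have hn2 : 2 ≤ n := by omega
  have htwo : (p.B H : ℝ) ^ (2 / (n : ℝ)) ≤ p.C0 * H :=
    Bf_two e hn2 hp.e_ge hp.r_pos hp.sum_le p.C0 hp.C0_ge H hH
  obtain ⟨B, hBd⟩ : ∃ B : ℕ, B = p.B H := ⟨_, rfl⟩
  rw [← hBd] at hB hcr hBl htwo
  have hB1 : (1 : ℝ) ≤ B := by exact_mod_cast hB
  have hB0 : (0 : ℝ) < B := by linarith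
  have hH0 : 0 < H := by linarith
  have hXn : 0 ≤ p.Xn H := by unfold Par.Xn; positivity
  obtain ⟨bd, hbd⟩ : ∃ bd : ℝ, bd = Cc * p.Xn H * (G / (tau * (B : ℝ) ^ 2)) ^ r *
    (B : ℝ) ^ (2 * r) / (H ^ (2 * r) * (B : ℝ) ^ (2 * ∑ i, e i)) := ⟨_, rfl⟩
  have hbd0 : 0 ≤ bd := by rw [hbd]; positivity
  obtain ⟨GF, hGF⟩ : ∃ GF, GF = (GG_finite p K B).toFinset := ⟨_, rfl⟩
  have hmem : ∀ x, x ∈ GF ↔ x ∈ p.GG K B := fun x => by rw [hGF, Set.Finite.mem_toFinset]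
  have hGc : (GF.card : ℝ) ≤ 5 ^ (n + 1) * (B : ℝ) ^ (n + 1) := by
    rw [hGF]; exact s2_card_GG p eps w hp K B hB
  have hxb : ∀ x ∈ p.GG K B, ∀ i, |(x i : ℝ)| ≤ 2 * B := fun x hx i =>
    (mem_XX_bounds p eps w hp B x hx.1 i).1
  -- the pairs
  obtain ⟨P, hP⟩ : ∃ P : (Fin (n + 1) → ℤ) → (Fin (n + 1) → ℤ) → Prop, P = fun x y =>
    x ∈ p.GG K B ∧ mg x y ≤ G ∧ tau * (B : ℝ) ^ 2 ≤ (dl x y : ℝ) ∧
      ¬ FineD n 2 (eps1 * H) x y := ⟨_, rfl⟩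
  have hdlpos : ∀ x y : Fin (n + 1) → ℤ, tau * (B : ℝ) ^ 2 ≤ (dl x y : ℝ) → 0 < dl x y := by
    intro x y h
    have h1 : 0 < tau * (B : ℝ) ^ 2 := by positivity
    have h2 : (0 : ℝ) < dl x y := lt_of_lt_of_le h1 h
    exact_mod_cast h2
  have hcf := s2_card_fib (p.TNF K G tau eps1 H) (TNF_finite p K G tau eps1 H)
    ((GF ×ˢ GF).filter (fun b => P b.1 b.2))
    (by
      rintro ⟨A, x, y⟩ ⟨_, hx, hy, _, hm, hdl, hnf⟩
      simp only [← hBd] at hx hy hdl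
      simp only [Finset.mem_filter, Finset.mem_product]
      rw [hP]
      refine ⟨⟨(hmem x).2 hx, (hmem y).2 hy⟩, hx, hm, hdl, ?_⟩
      intro hfd
      apply hnf
      intro i
      rw [hb i]
      exact hfd)
    (fun b => {A : Sys n e ℤ | A ∈ p.Cl p.rho H ∧ ∀ i, F (A i) b.1 = 0 ∧ F (A i) b.2 = 0})
    (fun b _ => (Cl_finite p p.rho H).subset fun A hA => hA.1)
    (by
      rintro ⟨A, x, y⟩ ⟨hA, hx, hy, hF, _⟩
      exact ⟨hA, hF⟩)
  refine hcf.trans ?_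
  have hbb : ∀ b ∈ (GF ×ˢ GF).filter (fun b => P b.1 b.2),
      (Set.ncard {A : Sys n e ℤ | A ∈ p.Cl p.rho H ∧
        ∀ i, F (A i) b.1 = 0 ∧ F (A i) b.2 = 0} : ℝ) ≤ bd := by
    rintro ⟨x, y⟩ hb
    simp only [Finset.mem_filter, Finset.mem_product] at hb
    rw [hP] at hb
    obtain ⟨⟨hx, hy⟩, _, hm, hdl, _⟩ := hb
    refine (hcr x y ((hmem x).1 hx) ((hmem y).1 hy) (s2n_ne_of_dl_pos (hdlpos x y hdl))).trans ?_
    rw [hbd]
    have hm' : (mg x y : ℝ) ≤ G := by exact_mod_cast hm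
    have h1 : (mg x y : ℝ) / dl x y ≤ G / (tau * (B : ℝ) ^ 2) := by
      gcongr
    gcongr
  refine (Finset.sum_le_card_nsmul _ _ _ hbb).trans ?_
  rw [nsmul_eq_mul]
  -- number of pairs
  have hpairs : ((((GF ×ˢ GF).filter (fun b => P b.1 b.2)).card : ℕ) : ℝ) ≤
      GF.card * (Cf * (B : ℝ) ^ ((n : ℝ) + 1 - 1 / (n : ℝ))) := by
    have h1 : ((GF ×ˢ GF).filter (fun b => P b.1 b.2)).card =
        ∑ y ∈ GF, ((GF.filter fun x => P x y).card) := by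
      rw [Finset.card_filter, Finset.sum_product_right]
      refine Finset.sum_congr rfl fun y _ => ?_
      rw [Finset.card_filter]
    rw [h1]
    push_cast
    rw [← nsmul_eq_mul]
    refine Finset.sum_le_card_nsmul _ _ _ fun y hy => ?_
    have hy' := (hmem y).1 hy
    refine le_trans ?_ (hfew B hB (eps1 * H) (by positivity) ?_ y hy'.2.1 hy'.2.2)
    · rw [← Set.ncard_coe_finset]
      refine Nat.cast_le.mpr (Set.ncard_le_ncard ?_ ?_)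
      · intro x hx
        rw [Finset.mem_coe, Finset.mem_filter, hP] at hx
        obtain ⟨hx, _, _, hdl, hnf⟩ := hx
        have hx' := (hmem x).1 hx
        refine ⟨?_, hx'.2.1, hx'.2.2, hdlpos x y hdl, hnf⟩
        rw [mem_boxn]
        intro j
        have := hxb x hx' j
        exact_mod_cast this
      · exact (Finset.finite_toSet (boxn n (2 * B))).subset fun x hx => hx.1
    · calc (B : ℝ) ^ (2 / (n : ℝ)) ≤ p.C0 * H := htwo
        _ = p.C0 / eps1 * (eps1 * H) := by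
          field_simp
  have hBp : (B : ℝ) ^ ((n : ℝ) + 1 - 1 / (n : ℝ)) = (B : ℝ) ^ (n + 1) / (B : ℝ) ^ (1 / (n : ℝ)) := by
    rw [Real.rpow_sub hB0]
    congr 1
    rw [← Real.rpow_natCast]
    push_cast
    rfl
  have hq0 : 0 < (B : ℝ) ^ (1 / (n : ℝ)) := by positivity
  obtain ⟨q, hq⟩ : ∃ q : ℝ, q = (B : ℝ) ^ (1 / (n : ℝ)) := ⟨_, rfl⟩
  rw [← hq] at hq0 hBl hBp
  rw [hBp] at hpairs
  have hz : cst / q ≤ eps * a ^ 2 := by
    rw [div_le_iff₀ hq0]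
    rw [div_le_iff₀ (by positivity)] at hBl
    linarith
  have hnu : (B : ℝ) ^ (n + 1) * (B : ℝ) ^ (n + 1) =
      ((B : ℝ) ^ nu n e) ^ 2 * (B : ℝ) ^ (2 * ∑ i, e i) := by
    rw [← pow_add, ← pow_mul, ← pow_add]
    congr 1
    have h1 := hp.sum_le
    unfold nu
    omega
  calc ((((GF ×ˢ GF).filter (fun b => P b.1 b.2)).card : ℕ) : ℝ) * bd
      ≤ (GF.card * (Cf * ((B : ℝ) ^ (n + 1) / q))) * bd :=
        mul_le_mul_of_nonneg_right hpairs hbd0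
    _ ≤ ((5 ^ (n + 1) * (B : ℝ) ^ (n + 1)) * (Cf * ((B : ℝ) ^ (n + 1) / q))) * bd := by
        gcongr
    _ = (cst / q) * p.Xn H * ((B : ℝ) ^ (n + 1) * (B : ℝ) ^ (n + 1)) /
        (H ^ (2 * r) * (B : ℝ) ^ (2 * ∑ i, e i)) := by
        rw [hbd, hcst, div_pow, div_pow, mul_pow, ← pow_mul]
        field_simp
    _ = (cst / q) * p.Xn H * ((B : ℝ) ^ nu n e / H ^ r) ^ 2 := by
        rw [hnu, div_pow, ← pow_mul H, mul_comm r 2]
        have h7 : (H ^ (2 * r) : ℝ) ≠ 0 := by positivity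
        have h8 : ((B : ℝ) ^ (2 * ∑ i, e i)) ≠ 0 := by positivity
        field_simp
    _ ≤ (eps * a ^ 2) * p.Xn H * ((B : ℝ) ^ nu n e / H ^ r) ^ 2 := by gcongr
    _ = eps * p.TT H ^ 2 * p.Xn H := by
        rw [hTT H, ← hBd]
        ring

theorem S2_not_fine (p : Par n e) (eps : ℝ) (w : ℕ) (hp : p.Valid eps w) (K : ℝ) (hK : 1 ≤ K)
    (G : ℕ) (hG : 1 ≤ G) (tau : ℝ) (ht : 0 < tau) (eps1 : ℝ) (he1 : 0 < eps1) :
    ∀ᶠ H : ℝ in atTop,
      ((p.TNF K G tau eps1 H).ncard : ℝ) ≤ eps * p.TT H ^ 2 * p.Xn H := by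
  by_cases hb : 2 * r < n * nu n e
  · exact s2n_easy p eps w hp K hK G tau ht eps1 he1 hb
  · exact s2n_hard p eps w hp K hK G hG tau ht eps1 he1
      (borderline e hp.e_ge hp.r_pos hp.sum_le hb)

end CIHP
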