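import Pool.Agent.Lib.MP_e426f4_ag.CI.Basic
import Pool.Agent.Lib.MP_e426f4_ag.CI.ClassPts
import Pool.Agent.Lib.MP_e426f4_ag.CI.RealCount
import Pool.Agent.Lib.MP_e426f4_ag.CI.HensLocal
import Pool.Agent.Lib.MP_e426f4_ag.CI.SecondMoment

/-! Module CT2: the class theorem. -/

namespace CIHP

open Finset Filter Topology GenHP

theorem class_thm (n : ℕ) {r : ℕ} (e : Fin r → ℕ) (hr : 1 ≤ r) (hn : r + 2 ≤ n)
    (he : ∀ i, 2 ≤ e i) (hs : ∑ i, e i ≤ n) (w : ℕ) (hw : 2 ≤ w)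
    (bet : ℝ) (hb : 0 < bet) (hb1 : bet ≤ 1) :
    ∃ rho0 : ℝ, 0 < rho0 ∧ rho0 ≤ 1 ∧ ∀ rho : ℝ, 0 < rho → rho ≤ rho0 → ∀ k : ℕ, 1 ≤ k →
      ∀ A0 : Sys n e ℤ,
      (∀ p : ℕ, p.Prime → p ≤ w → ∃ x : Fin (n + 1) → ℤ, (∃ i, ¬ (p : ℤ) ∣ x i) ∧
        (∀ i, ((p : ℤ) ^ (2 * k)) ∣ F (A0 i) x) ∧ ∃ J, ¬ ((p : ℤ) ^ k ∣ (Jac A0 x J).det)) →
      ∀ (AC Ainf : Sys n e ℝ) (xi : Fin (n + 1) → ℝ) (J : Fin r → Fin (n + 1)),
      (∀ i m, |Ainf i m| ≤ 1) → (∀ i m, |AC i m - Ainf i m| ≤ rho) → (∀ i, |xi i| ≤ 1) →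
      (∃ i, |xi i| = 1) → (∀ i, |F (Ainf i) xi| ≤ rho0) → bet ≤ |(Jac Ainf xi J).det| →
      ∀ᶠ H : ℝ in atTop,
        (Set.ncard {A : Sys n e ℤ | (∀ i m, |(A i m : ℝ) - H * AC i m| ≤ rho * H) ∧
          (∀ i m, ((primorial w : ℤ) ^ (2 * k)) ∣ A i m - A0 i m) ∧ ¬ Soluble A} : ℝ) ≤
          30 / w * (2 * rho * H / (primorial w : ℝ) ^ (2 * k)) ^ NS n e := by
  have hw0 : (0 : ℝ) < w := by
    have : 0 < w := by omega
    exact_mod_cast this
  have hw2 : (2 : ℝ) ≤ w := by exact_mod_cast hw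
  set eps : ℝ := 1 / (10 * w) with heps
  have heps0 : 0 < eps := by positivity
  have heps1 : eps ≤ 1 / 10 := by
    rw [heps]
    exact one_div_le_one_div_of_le (by norm_num) (by linarith)
  obtain ⟨kap, hkap, hkap1, rho0, th1, hrho0, hrho01, hth1, hRC⟩ :=
    real_count n e hr (fun i => le_trans (by norm_num) (he i)) eps bet heps0 heps1 hb hb1
  refine ⟨rho0, hrho0, hrho01, fun rho hrho hrho' k hk A0 hloc AC Ainf xi J hA hAC hxi hxi1 hF
    hD => ?_⟩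
  obtain ⟨P, x0, hP, hH⟩ := hens_of_local w k hw hk A0 hloc
  have hWp : 0 < primorial w := primorial_pos w
  have hQp : 0 < primorial w ^ (2 * k) := pow_pos hWp _
  -- the density of the admissible points
  set dn : ℝ := (nadm P (primorial w ^ (2 * k)) A0 x0 : ℝ) /
    ((primorial w ^ (2 * k) : ℕ) : ℝ) ^ (n + 1) with hdn
  have hnad : (0 : ℝ) < nadm P (primorial w ^ (2 * k)) A0 x0 := by
    exact_mod_cast nadm_pos P _ (primorial w) hQp A0 x0 hH
  have hQr : (0 : ℝ) < ((primorial w ^ (2 * k) : ℕ) : ℝ) := by exact_mod_cast hQp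
  have hdn0 : 0 < dn := by positivity
  set gam : ℝ := (Jac Ainf xi J).det with hgam
  have hgam0 : 0 < |gam| := lt_of_lt_of_le hb hD
  set cc : ℝ := (2 * kap ^ 2) ^ (n + 1 - r) * dn * ((primorial w ^ (2 * k) : ℕ) : ℝ) ^ r with hcc
  have hcc0 : 0 < cc := by positivity
  set C0 : ℝ := max 1 (2 * |gam| / (eps * cc)) with hC0
  have hC01 : 1 ≤ C0 := le_max_left _ _
  have hC02 : 2 * |gam| ≤ eps * (cc * C0) := by
    have h1 : 2 * |gam| / (eps * cc) ≤ C0 := le_max_right _ _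
    rw [div_le_iff₀ (by positivity)] at h1
    linarith
  set p : Par n e := ⟨Ainf, AC, xi, J, kap, rho, th1, C0, primorial w, P, primorial w ^ (2 * k),
    A0, x0⟩ with hpdef
  have hvalid : p.Valid eps w := by
    refine ⟨hr, hn, he, hs, heps0, heps1, hw, hkap, hkap1, hrho, hrho'.trans hrho01, hth1, hA,
      hAC, hxi, hxi1, ?_, hRC rho hrho hrho' Ainf xi J hA hxi hxi1 hF hD, hWp, ?_, hQp, hP, hH,
      hC01, hC02⟩
    · show gam ≠ 0
      exact abs_pos.1 hgam0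
    intro l hl
    show l ∣ primorial w ↔ l ≤ w
    unfold primorial
    rw [Prime.dvd_finsetProd_iff hl.prime]
    constructor
    · rintro ⟨q, hq, hlq⟩
      rw [Finset.mem_filter, Finset.mem_range] at hq
      rw [Nat.prime_dvd_prime_iff_eq hl hq.2] at hlq
      omega
    · intro hlw
      exact ⟨l, Finset.mem_filter.mpr ⟨Finset.mem_range.mpr (by omega), hl⟩, dvd_rfl⟩
  have h := second_moment p eps w hvalid
  filter_upwards [h, Filter.eventually_ge_atTop 0] with H hH hH0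
  have e1 : {A : Sys n e ℤ | (∀ i m, |(A i m : ℝ) - H * AC i m| ≤ rho * H) ∧
          (∀ i m, ((primorial w : ℤ) ^ (2 * k)) ∣ A i m - A0 i m) ∧ ¬ Soluble A} =
      {A : Sys n e ℤ | A ∈ p.Cl p.rho H ∧ ¬ Soluble A} := by
    ext A
    simp only [Par.Cl, hpdef, ← and_assoc]
    push_cast
    rfl
  rw [e1]
  refine hH.trans ?_
  have e2 : p.Xn H = (2 * rho * H / (primorial w : ℝ) ^ (2 * k)) ^ NS n e := by
    unfold Par.Xn
    rw [hpdef]
    push_cast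
    rfl
  rw [e2]
  refine mul_le_mul_of_nonneg_right ?_ (by positivity)
  rw [heps]
  have : 100 * (1 / (10 * (w : ℝ))) = 10 / w := by field_simp; norm_num
  rw [this, ← add_div]
  exact div_le_div_of_nonneg_right (by norm_num) hw0.le

end CIHP
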