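import Mathlib

/-! Module CI-FN3a: few frames satisfy a symmetry relation. -/

namespace CIHP

open Finset

/-- a set of integer vectors in a box which are determined by the coordinates off `i0` -/
theorem count_off {ι : Type*} [Fintype ι] [DecidableEq ι] (m : ℕ) (i0 : ι) (S : Set (ι → ℤ))
    (hS : ∀ l ∈ S, ∀ i, |l i| ≤ (m : ℤ))
    (hinj : ∀ l ∈ S, ∀ l' ∈ S, (∀ i, i ≠ i0 → l i = l' i) → l = l') :
    S.Finite ∧ S.ncard ≤ (2 * m + 1) ^ (Fintype.card ι - 1) := by
  have hsub : S ⊆ ↑(Fintype.piFinset fun _ : ι => Finset.Icc (-(m : ℤ)) m) := by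
    intro l hl
    rw [Finset.mem_coe, Fintype.mem_piFinset]
    intro i
    rw [Finset.mem_Icc]
    exact abs_le.mp (hS l hl i)
  have hfin : S.Finite := (Finset.finite_toSet _).subset hsub
  refine ⟨hfin, ?_⟩
  let f : (ι → ℤ) → ({i : ι // i ≠ i0} → ℤ) := fun l i => l i.1
  have h1 : Set.InjOn f S := by
    intro l hl l' hl' h
    refine hinj l hl l' hl' fun i hi => ?_
    exact congrFun h ⟨i, hi⟩
  rw [← Set.InjOn.ncard_image h1]
  have h2 : f '' S ⊆ ↑(Fintype.piFinset fun _ : {i : ι // i ≠ i0} =>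
      Finset.Icc (-(m : ℤ)) m) := by
    rintro _ ⟨l, hl, rfl⟩
    rw [Finset.mem_coe, Fintype.mem_piFinset]
    intro i
    rw [Finset.mem_Icc]
    exact abs_le.mp (hS l hl i.1)
  refine (Set.ncard_le_ncard h2 (Finset.finite_toSet _)).trans ?_
  rw [Set.ncard_coe_finset, Fintype.card_piFinset, Finset.prod_const, Finset.card_univ,
    Int.card_Icc]
  have h3 : Fintype.card {i : ι // i ≠ i0} = Fintype.card ι - 1 := by
    rw [Fintype.card_subtype_compl, Fintype.card_subtype_eq]
  rw [h3]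
  have h4 : ((m : ℤ) + 1 - -(m : ℤ)).toNat = 2 * m + 1 := by omega
  rw [h4]

/-- matrices with bounded integral entries whose row `p` satisfies a linear equation with
nonzero normal vector, both depending on the other rows -/
theorem count_row {n k : ℕ} (m : ℕ) (p : Fin n) (S : Set (Fin n → Fin k → ℤ))
    (hS : ∀ l ∈ S, ∀ i a, |l i a| ≤ (m : ℤ)) (V : (Fin n → Fin k → ℤ) → Fin k → ℝ)
    (c : (Fin n → Fin k → ℤ) → ℝ)
    (hV : ∀ l l' : Fin n → Fin k → ℤ, (∀ i, i ≠ p → l i = l' i) → V l = V l')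
    (hc : ∀ l l' : Fin n → Fin k → ℤ, (∀ i, i ≠ p → l i = l' i) → c l = c l')
    (h0 : ∀ l ∈ S, V l ≠ 0) (h : ∀ l ∈ S, ∑ a, (l p a : ℝ) * V l a = c l) :
    S.Finite ∧ S.ncard ≤ k * (2 * m + 1) ^ (n * k - 1) := by
  classical
  -- pass to functions on `Fin n × Fin k`
  let u : (Fin n → Fin k → ℤ) → (Fin n × Fin k → ℤ) := fun l q => l q.1 q.2
  have hu : Function.Injective u := by
    intro l l' hll
    funext i a
    exact congrFun hll (i, a)
  let Sa : Fin k → Set (Fin n → Fin k → ℤ) := fun a => {l | l ∈ S ∧ V l a ≠ 0}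
  have hSa : ∀ a, (Sa a).Finite ∧ (Sa a).ncard ≤ (2 * m + 1) ^ (n * k - 1) := by
    intro a
    have h1 := count_off m (p, a) (u '' Sa a) (by
      rintro _ ⟨l, hl, rfl⟩ ⟨i, b⟩
      exact hS l hl.1 i b) (by
      rintro _ ⟨l, hl, rfl⟩ _ ⟨l', hl', rfl⟩ hll
      have hrows : ∀ i, i ≠ p → l i = l' i := by
        intro i hi
        funext b
        exact hll (i, b) (by simp [hi])
      have hVV := hV l l' hrows
      have hcc := hc l l' hrows
      have e1 := h l hl.1
      have e2 := h l' hl'.1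
      rw [← hVV, ← hcc, ← e1, ← Finset.add_sum_erase _ _ (Finset.mem_univ a),
        ← Finset.add_sum_erase univ (fun a => (l p a : ℝ) * V l a) (Finset.mem_univ a)] at e2
      have e3 : ∑ b ∈ univ.erase a, (l' p b : ℝ) * V l b =
          ∑ b ∈ univ.erase a, (l p b : ℝ) * V l b := by
        refine Finset.sum_congr rfl fun b hb => ?_
        have hb' : b ≠ a := Finset.ne_of_mem_erase hb
        have := hll (p, b) (by simp [hb'])
        simp only [u] at this
        rw [this]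
      rw [e3] at e2
      have e4 : (l' p a : ℝ) * V l a = (l p a : ℝ) * V l a := add_right_cancel e2
      have e5 : l' p a = l p a := by exact_mod_cast mul_right_cancel₀ hl.2 e4
      congr 1
      funext i b
      by_cases hi : i = p
      · subst hi
        by_cases hb : b = a
        · subst hb
          exact e5.symm
        · exact hll (i, b) (by simp [hb])
      · rw [hrows i hi])
    rw [Set.ncard_image_of_injective _ hu, Fintype.card_prod, Fintype.card_fin,
      Fintype.card_fin] at h1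
    exact ⟨h1.1.of_finite_image hu.injOn, h1.2⟩
  have hU : S = ⋃ a, Sa a := by
    ext l
    rw [Set.mem_iUnion]
    constructor
    · intro hl
      obtain ⟨a, ha⟩ := Function.ne_iff.mp (h0 l hl)
      exact ⟨a, hl, ha⟩
    · rintro ⟨a, ha⟩
      exact ha.1
  have hfin : S.Finite := by
    rw [hU]
    exact Set.finite_iUnion fun a => (hSa a).1
  refine ⟨hfin, ?_⟩
  have h3 : S.ncard ≤ ∑ a : Fin k, (Sa a).ncard := by
    have : hfin.toFinset ⊆ univ.biUnion fun a => (hSa a).1.toFinset := by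
      intro l hl
      rw [Set.Finite.mem_toFinset, hU, Set.mem_iUnion] at hl
      obtain ⟨a, ha⟩ := hl
      rw [Finset.mem_biUnion]
      exact ⟨a, Finset.mem_univ a, by rwa [Set.Finite.mem_toFinset]⟩
    rw [Set.ncard_eq_toFinset_card _ hfin]
    refine (Finset.card_le_card this).trans (Finset.card_biUnion_le.trans ?_)
    exact Finset.sum_le_sum fun a _ => (Set.ncard_eq_toFinset_card _ (hSa a).1).ge
  refine h3.trans ?_
  calc ∑ a : Fin k, (Sa a).ncard ≤ ∑ _a : Fin k, (2 * m + 1) ^ (n * k - 1) :=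
        Finset.sum_le_sum fun a _ => (hSa a).2
    _ = k * (2 * m + 1) ^ (n * k - 1) := by simp

/-- few frames satisfy a symmetry relation -/
theorem frame_count_real (n : ℕ) (hn : 3 ≤ n) : ∃ C : ℝ, 0 < C ∧ ∀ (mu : ℝ), 1 ≤ mu →
    ∀ (y : Fin (n + 1) → ℝ) (v : Fin (n + 1) → ℝ), ∑ a, v a * y a = 0 → y ≠ 0 →
    ∀ t : Fin n → Fin (n + 1) → ℝ, (∃ i, ∑ a, t i a * v a ≠ 0) →
      {l : Fin n → Fin (n + 1) → ℤ | (∀ i a, |(l i a : ℝ)| ≤ mu) ∧
        ∃ k : Fin n → ℝ, ∀ i j, ∑ a, (l j a : ℝ) * (t i a + k i * y a) =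
          ∑ a, (l i a : ℝ) * (t j a + k j * y a)}.Finite ∧
      (Set.ncard {l : Fin n → Fin (n + 1) → ℤ | (∀ i a, |(l i a : ℝ)| ≤ mu) ∧
        ∃ k : Fin n → ℝ, ∀ i j, ∑ a, (l j a : ℝ) * (t i a + k i * y a) =
          ∑ a, (l i a : ℝ) * (t j a + k j * y a)} : ℝ) ≤ C * mu ^ (n * (n + 1) - 1) := by
  classical
  refine ⟨2 * (n + 1) * 3 ^ (n * (n + 1) - 1), by positivity, ?_⟩
  intro mu hmu y v hvy hy t ⟨i0, hi0⟩
  obtain ⟨p, hp⟩ : ∃ p, p ≠ i0 := by
    have : Nontrivial (Fin n) := Fin.nontrivial_iff_two_le.mpr (by omega)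
    exact exists_ne i0
  obtain ⟨q, hq0, hqp⟩ : ∃ q, q ≠ i0 ∧ q ≠ p := by
    by_contra h
    push Not at h
    have h1 : (Finset.univ : Finset (Fin n)) ⊆ {i0, p} := by
      intro X _
      rw [Finset.mem_insert, Finset.mem_singleton]
      by_cases hX : X = i0
      · exact Or.inl hX
      · exact Or.inr (h X hX)
    have h2 := Finset.card_le_card h1
    rw [Finset.card_univ, Fintype.card_fin] at h2
    have h3 := Finset.card_le_two (a := i0) (b := p)
    omega
  set m : ℕ := ⌊mu⌋₊ with hm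
  have hbd : ∀ x : ℤ, |(x : ℝ)| ≤ mu → |x| ≤ (m : ℤ) := by
    intro x hx
    have h1 : ((x.natAbs : ℕ) : ℝ) ≤ mu := by
      rw [Nat.cast_natAbs]
      push_cast
      exact hx
    have h2 := Nat.le_floor h1
    have h3 : (x.natAbs : ℤ) ≤ (m : ℤ) := by exact_mod_cast h2
    rwa [Int.natCast_natAbs] at h3
  let z : (Fin n → Fin (n + 1) → ℤ) → Fin n → ℝ := fun l i => ∑ a, (l i a : ℝ) * y a
  let dt : (Fin n → Fin (n + 1) → ℤ) → Fin n → Fin n → ℝ := fun l i j => ∑ a, (l i a : ℝ) * t j a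
  let V : (Fin n → Fin (n + 1) → ℤ) → Fin (n + 1) → ℝ := fun l a =>
    z l i0 * t q a + (dt l q i0 - dt l i0 q) * y a - z l q * t i0 a
  let c : (Fin n → Fin (n + 1) → ℤ) → ℝ := fun l => z l i0 * dt l q p - z l q * dt l i0 p
  set S : Set (Fin n → Fin (n + 1) → ℤ) := {l | (∀ i a, |(l i a : ℝ)| ≤ mu) ∧
        ∃ k : Fin n → ℝ, ∀ i j, ∑ a, (l j a : ℝ) * (t i a + k i * y a) =
          ∑ a, (l i a : ℝ) * (t j a + k j * y a)} with hS
  have hkey : ∀ l ∈ S, ∑ a, (l p a : ℝ) * V l a = c l := by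
    rintro l ⟨_, k, hk⟩
    have hk' : ∀ i j, dt l j i + k i * z l j = dt l i j + k j * z l i := by
      intro i j
      have h1 := hk i j
      have h2 : ∀ i j, ∑ a, (l j a : ℝ) * (t i a + k i * y a) = dt l j i + k i * z l j := by
        intro i j
        simp only [dt, z, Finset.mul_sum]
        rw [← Finset.sum_add_distrib]
        refine Finset.sum_congr rfl fun a _ => ?_
        ring
      rw [h2, h2] at h1
      exact h1
    have h3 : ∑ a, (l p a : ℝ) * V l a = z l i0 * dt l p q + (dt l q i0 - dt l i0 q) * z l p -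
        z l q * dt l p i0 := by
      have s1 : z l i0 * dt l p q = ∑ a, z l i0 * ((l p a : ℝ) * t q a) := Finset.mul_sum _ _ _
      have s2 : (dt l q i0 - dt l i0 q) * z l p =
          ∑ a, (dt l q i0 - dt l i0 q) * ((l p a : ℝ) * y a) := Finset.mul_sum _ _ _
      have s3 : z l q * dt l p i0 = ∑ a, z l q * ((l p a : ℝ) * t i0 a) := Finset.mul_sum _ _ _
      rw [s1, s2, s3, ← Finset.sum_add_distrib, ← Finset.sum_sub_distrib]
      refine Finset.sum_congr rfl fun a _ => ?_
      show (l p a : ℝ) * (z l i0 * t q a + (dt l q i0 - dt l i0 q) * y a - z l q * t i0 a) = _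
      ring
    rw [h3]
    simp only [c]
    have a1 := hk' p q
    have a2 := hk' q i0
    have a3 := hk' i0 p
    linear_combination (-(z l i0)) * a1 - z l p * a2 - z l q * a3
  -- the two parts
  have hpart1 := count_row m p {l | l ∈ S ∧ V l ≠ 0} (fun l hl i a => hbd _ (hl.1.1 i a)) V c (by
    intro l l' hll
    have e1 : ∀ i, i ≠ p → z l i = z l' i := fun i hi => by simp only [z, hll i hi]
    have e2 : ∀ i j, i ≠ p → dt l i j = dt l' i j := fun i j hi => by simp only [dt, hll i hi]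
    funext a
    simp only [V]
    rw [e1 i0 hp.symm, e1 q hqp, e2 q i0 hqp, e2 i0 q hp.symm]) (by
    intro l l' hll
    have e1 : ∀ i, i ≠ p → z l i = z l' i := fun i hi => by simp only [z, hll i hi]
    have e2 : ∀ i j, i ≠ p → dt l i j = dt l' i j := fun i j hi => by simp only [dt, hll i hi]
    simp only [c]
    rw [e1 i0 hp.symm, e1 q hqp, e2 q p hqp, e2 i0 p hp.symm]) (fun l hl => hl.2)
    (fun l hl => hkey l hl.1)
  have hpart2 := count_row m q {l | l ∈ S ∧ V l = 0} (fun l hl i a => hbd _ (hl.1.1 i a))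
    (fun _ => y) (fun l => z l i0 * (∑ a, t q a * v a) / (∑ a, t i0 a * v a)) (by
    intro l l' _; rfl) (by
    intro l l' hll
    have e1 : z l i0 = z l' i0 := by simp only [z, hll i0 hq0.symm]
    simp only [e1]) (fun _ _ => hy) (by
    rintro l ⟨_, hl⟩
    have h1 : ∑ a, V l a * v a = 0 := by
      rw [hl]
      simp
    have h2 : ∑ a, V l a * v a = z l i0 * (∑ a, t q a * v a) - z l q * (∑ a, t i0 a * v a) := by
      have h3 : ∑ a, V l a * v a = ∑ a, (z l i0 * (t q a * v a) +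
          (dt l q i0 - dt l i0 q) * (v a * y a) - z l q * (t i0 a * v a)) := by
        refine Finset.sum_congr rfl fun a _ => ?_
        show (z l i0 * t q a + (dt l q i0 - dt l i0 q) * y a - z l q * t i0 a) * v a = _
        ring
      rw [h3, Finset.sum_sub_distrib, Finset.sum_add_distrib, ← Finset.mul_sum,
        ← Finset.mul_sum, ← Finset.mul_sum, hvy]
      ring
    rw [h2] at h1
    show z l q = _
    rw [eq_div_iff hi0]
    linarith)
  have hSU : S = {l | l ∈ S ∧ V l ≠ 0} ∪ {l | l ∈ S ∧ V l = 0} := by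
    ext l
    simp only [Set.mem_union, Set.mem_ofPred_eq]
    tauto
  have hfin : S.Finite := by
    rw [hSU]
    exact hpart1.1.union hpart2.1
  refine ⟨hfin, ?_⟩
  have hcard : S.ncard ≤ 2 * ((n + 1) * (2 * m + 1) ^ (n * (n + 1) - 1)) := by
    rw [hSU]
    refine (Set.ncard_union_le _ _).trans ?_
    have := hpart1.2
    have := hpart2.2
    omega
  have hm1 : (m : ℝ) ≤ mu := Nat.floor_le (by linarith)
  have h4 : (2 * (m : ℝ) + 1) ^ (n * (n + 1) - 1) ≤ (3 * mu) ^ (n * (n + 1) - 1) := by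
    refine pow_le_pow_left₀ (by positivity) ?_ _
    linarith
  calc (S.ncard : ℝ) ≤ ((2 * ((n + 1) * (2 * m + 1) ^ (n * (n + 1) - 1)) : ℕ) : ℝ) := by
        exact_mod_cast hcard
    _ = 2 * ((n + 1) * (2 * (m : ℝ) + 1) ^ (n * (n + 1) - 1)) := by push_cast; ring
    _ ≤ 2 * ((n + 1) * (3 * mu) ^ (n * (n + 1) - 1)) := by
        gcongr
    _ = 2 * (n + 1) * 3 ^ (n * (n + 1) - 1) * mu ^ (n * (n + 1) - 1) := by
        rw [mul_pow]
        ring

end CIHP
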