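import Pool.Agent.Lib.MP_e426f4_ag.G.Alg
import Pool.Agent.Lib.MP_e426f4_ag.G.Span1

/-! Products of two linear forms; quadratic forms through two points. -/

namespace CIHP

open Finset GenHP

variable {n : ℕ}

/-- the coefficient vector of the product of two linear forms, as a bilinear map -/
noncomputable def Bm (n : ℕ) :
    (Fin (n + 1) → ℝ) →ₗ[ℝ] (Fin (n + 1) → ℝ) →ₗ[ℝ] (Idx n 2 → ℝ) :=
  LinearMap.mk₂ ℝ (fun u v => T ![u, v])
    (by
      intro u u' v
      have h := T_update_add (![0, v] : Fin 2 → Fin (n + 1) → ℝ) 0 u u'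
      have e : ∀ w : Fin (n + 1) → ℝ, Function.update (![0, v] : Fin 2 → Fin (n + 1) → ℝ) 0 w =
          ![w, v] := by
        intro w
        funext i
        fin_cases i <;> simp
      rwa [e, e, e] at h)
    (by
      intro c u v
      have h := T_update_smul (![0, v] : Fin 2 → Fin (n + 1) → ℝ) 0 c u
      have e : ∀ w : Fin (n + 1) → ℝ, Function.update (![0, v] : Fin 2 → Fin (n + 1) → ℝ) 0 w =
          ![w, v] := by
        intro w
        funext i
        fin_cases i <;> simp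
      rwa [e, e] at h)
    (by
      intro u v v'
      have h := T_update_add (![u, 0] : Fin 2 → Fin (n + 1) → ℝ) 1 v v'
      have e : ∀ w : Fin (n + 1) → ℝ, Function.update (![u, 0] : Fin 2 → Fin (n + 1) → ℝ) 1 w =
          ![u, w] := by
        intro w
        funext i
        fin_cases i <;> simp
      rwa [e, e, e] at h)
    (by
      intro c u v
      have h := T_update_smul (![u, 0] : Fin 2 → Fin (n + 1) → ℝ) 1 c v
      have e : ∀ w : Fin (n + 1) → ℝ, Function.update (![u, 0] : Fin 2 → Fin (n + 1) → ℝ) 1 w =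
          ![u, w] := by
        intro w
        funext i
        fin_cases i <;> simp
      rwa [e, e] at h)

theorem Bm_apply (u v : Fin (n + 1) → ℝ) : Bm n u v = T ![u, v] := rfl

theorem Bm_comm (u v : Fin (n + 1) → ℝ) : Bm n u v = Bm n v u := by
  rw [Bm_apply, Bm_apply]
  have h := T_perm (![u, v] : Fin 2 → Fin (n + 1) → ℝ) (Equiv.swap 0 1)
  rw [← h]
  congr 1
  funext i
  fin_cases i <;> simp

theorem F_Bm (u v x : Fin (n + 1) → ℝ) :
    F (Bm n u v) x = (∑ a, u a * x a) * ∑ a, v a * x a := by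
  rw [Bm_apply, F_T, Fin.prod_univ_two]
  rfl

theorem F_add' (A B : Idx n 2 → ℝ) (x : Fin (n + 1) → ℝ) : F (A + B) x = F A x + F B x :=
  F_add A B x

theorem F_smul' (c : ℝ) (A : Idx n 2 → ℝ) (x : Fin (n + 1) → ℝ) : F (c • A) x = c * F A x :=
  F_smul c A x

theorem Bm_abs_le (u v : Fin (n + 1) → ℝ) (mu : ℝ) (hmu : 0 ≤ mu) (hu : ∀ a, |u a| ≤ mu)
    (hv : ∀ a, |v a| ≤ mu) (t : Idx n 2) : |Bm n u v t| ≤ ((n : ℝ) + 1) ^ 2 * mu ^ 2 := by
  rw [Bm_apply]
  refine (T_abs_le _ t).trans ?_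
  rw [Fin.prod_univ_two]
  have h : ∀ w : Fin (n + 1) → ℝ, (∀ a, |w a| ≤ mu) → ∑ a, |w a| ≤ ((n : ℝ) + 1) * mu := by
    intro w hw
    calc ∑ a, |w a| ≤ ∑ _a : Fin (n + 1), mu := Finset.sum_le_sum fun a _ => hw a
      _ = ((n : ℝ) + 1) * mu := by simp
  have h1 := h u hu
  have h2 := h v hv
  calc (∑ a, |(![u, v] : Fin 2 → Fin (n + 1) → ℝ) 0 a|) *
        ∑ a, |(![u, v] : Fin 2 → Fin (n + 1) → ℝ) 1 a| =
        (∑ a, |u a|) * ∑ a, |v a| := by simp
    _ ≤ (((n : ℝ) + 1) * mu) * (((n : ℝ) + 1) * mu) :=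
        mul_le_mul h1 h2 (Finset.sum_nonneg fun _ _ => abs_nonneg _) (by positivity)
    _ = ((n : ℝ) + 1) ^ 2 * mu ^ 2 := by ring

/-- quadratic forms vanishing at two independent points are spanned by products -/
theorem span_two (x y : Fin (n + 1) → ℝ) (a b : Fin (n + 1)) (hδ : x a * y b - x b * y a ≠ 0)
    (w v : Fin n → Fin (n + 1) → ℝ) (hw : LinearIndependent ℝ w) (hv : LinearIndependent ℝ v)
    (hwx : ∀ k, ∑ i, w k i * x i = 0) (hvy : ∀ k, ∑ i, v k i * y i = 0)
    (A : Idx n 2 → ℝ) (hAx : F A x = 0) (hAy : F A y = 0) :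
    A ∈ Submodule.span ℝ (Set.range fun q : Fin n × Fin n => Bm n (w q.1) (v q.2)) := by
  set S := Submodule.span ℝ (Set.range fun q : Fin n × Fin n => Bm n (w q.1) (v q.2)) with hS
  have hx0 : x ≠ 0 := by
    rintro rfl
    apply hδ
    simp
  have hy0 : y ≠ 0 := by
    rintro rfl
    apply hδ
    simp
  set δ := x a * y b - x b * y a with hδd
  -- products with factors orthogonal to `x` and `y`
  have h1 : ∀ p q : Fin (n + 1) → ℝ, ∑ i, p i * x i = 0 → ∑ i, q i * y i = 0 → Bm n p q ∈ S := by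
    intro p q hp hq
    have hp' := mem_span_of_ortho x hx0 w hw hwx p hp
    have hq' := mem_span_of_ortho y hy0 v hv hvy q hq
    clear hp hq
    induction hp' using Submodule.span_induction with
    | mem p hp =>
      obtain ⟨k, rfl⟩ := hp
      induction hq' using Submodule.span_induction with
      | mem q hq =>
        obtain ⟨k', rfl⟩ := hq
        exact Submodule.subset_span ⟨(k, k'), rfl⟩
      | zero => rw [map_zero]; exact S.zero_mem
      | add q q' _ _ h h' => rw [map_add]; exact S.add_mem h h'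
      | smul c q _ h => rw [map_smul]; exact S.smul_mem _ h
    | zero => rw [map_zero, LinearMap.zero_apply]; exact S.zero_mem
    | add p p' _ _ h h' => rw [map_add, LinearMap.add_apply]; exact S.add_mem h h'
    | smul c p _ h => rw [map_smul, LinearMap.smul_apply]; exact S.smul_mem _ h
  -- dual vectors
  have hdot : ∀ (c c' : ℝ) (z : Fin (n + 1) → ℝ),
      ∑ i, (c • (Pi.single a 1 : Fin (n + 1) → ℝ) + c' • (Pi.single b 1 : Fin (n + 1) → ℝ)) i *
        z i = c * z a + c' * z b := by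
    intro c c' z
    simp only [Pi.add_apply, Pi.smul_apply, smul_eq_mul, add_mul, Finset.sum_add_distrib,
      Pi.single_apply, mul_ite, mul_one, mul_zero, ite_mul, zero_mul]
    simp
  obtain ⟨L0, d00, d01⟩ : ∃ L0 : Fin (n + 1) → ℝ, ∑ i, L0 i * x i = 1 ∧ ∑ i, L0 i * y i = 0 := by
    refine ⟨(y b / δ) • (Pi.single a 1 : Fin (n + 1) → ℝ) +
      (-(y a / δ)) • (Pi.single b 1 : Fin (n + 1) → ℝ), ?_, ?_⟩
    · rw [hdot]
      field_simp
      rw [hδd]
      ring
    · rw [hdot]
      field_simp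
      ring
  obtain ⟨L1, d10, d11⟩ : ∃ L1 : Fin (n + 1) → ℝ, ∑ i, L1 i * x i = 0 ∧ ∑ i, L1 i * y i = 1 := by
    refine ⟨(-(x b / δ)) • (Pi.single a 1 : Fin (n + 1) → ℝ) +
      (x a / δ) • (Pi.single b 1 : Fin (n + 1) → ℝ), ?_, ?_⟩
    · rw [hdot]
      field_simp
      ring
    · rw [hdot]
      field_simp
      rw [hδd]
      ring
  have hdec : ∀ u : Fin (n + 1) → ℝ, ∃ u' : Fin (n + 1) → ℝ,
      u = (∑ i, u i * x i) • L0 + (∑ i, u i * y i) • L1 + u' ∧ ∑ i, u' i * x i = 0 ∧
        ∑ i, u' i * y i = 0 := by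
    intro u
    refine ⟨u - (∑ i, u i * x i) • L0 - (∑ i, u i * y i) • L1, by abel, ?_, ?_⟩
    · simp only [Pi.sub_apply, Pi.smul_apply, smul_eq_mul, sub_mul, Finset.sum_sub_distrib,
        mul_assoc, ← Finset.mul_sum]
      rw [d00, d10]
      ring
    · simp only [Pi.sub_apply, Pi.smul_apply, smul_eq_mul, sub_mul, Finset.sum_sub_distrib,
        mul_assoc, ← Finset.mul_sum]
      rw [d01, d11]
      ring
  have hkey : ∀ u u1 : Fin (n + 1) → ℝ,
      Bm n u u1 - F (Bm n u u1) x • Bm n L0 L0 - F (Bm n u u1) y • Bm n L1 L1 ∈ S := by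
    intro u u1
    obtain ⟨u', hu, hux, huy⟩ := hdec u
    obtain ⟨u1', hu1, hu1x, hu1y⟩ := hdec u1
    rw [F_Bm, F_Bm]
    set p := ∑ i, u i * x i
    set q := ∑ i, u i * y i
    set p1 := ∑ i, u1 i * x i
    set q1 := ∑ i, u1 i * y i
    have e : Bm n u u1 - (p * p1) • Bm n L0 L0 - (q * q1) • Bm n L1 L1 =
        (p * q1 + q * p1) • Bm n L1 L0 + p • Bm n u1' L0 + q • Bm n L1 u1' + p1 • Bm n u' L0 +
          q1 • Bm n L1 u' + Bm n u' u1' := by
      conv_lhs => rw [hu, hu1]
      simp only [map_add, map_smul, LinearMap.add_apply, LinearMap.smul_apply]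
      rw [Bm_comm L0 L1, Bm_comm L0 u1', Bm_comm u' L1]
      module
    rw [e]
    refine S.add_mem (S.add_mem (S.add_mem (S.add_mem (S.add_mem ?_ ?_) ?_) ?_) ?_) ?_
    · exact S.smul_mem _ (h1 _ _ d10 d01)
    · exact S.smul_mem _ (h1 _ _ hu1x d01)
    · exact S.smul_mem _ (h1 _ _ d10 hu1y)
    · exact S.smul_mem _ (h1 _ _ hux d01)
    · exact S.smul_mem _ (h1 _ _ d10 huy)
    · exact h1 _ _ hux hu1y
  have hA : A - F A x • Bm n L0 L0 - F A y • Bm n L1 L1 ∈ S := by
    have e := eq_sum_T A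
    have e2 : ∀ t : Idx n 2, T (fun i => Pi.single ((exists_mk t).choose i) (1 : ℝ)) =
        Bm n (Pi.single ((exists_mk t).choose 0) 1) (Pi.single ((exists_mk t).choose 1) 1) := by
      intro t
      rw [Bm_apply]
      congr 1
      funext i
      fin_cases i <;> rfl
    simp only [e2] at e
    have e3 : ∀ (z : Fin (n + 1) → ℝ) (s : Finset (Idx n 2)) (g : Idx n 2 → Idx n 2 → ℝ),
        F (∑ t ∈ s, A t • g t) z = ∑ t ∈ s, A t * F (g t) z := by
      intro z s g
      induction s using Finset.induction_on with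
      | empty => simp [F]
      | insert t s hts ih =>
        rw [Finset.sum_insert hts, Finset.sum_insert hts, F_add', F_smul', ih]
    have e4 : A - F A x • Bm n L0 L0 - F A y • Bm n L1 L1 = ∑ t : Idx n 2, A t •
        (Bm n (Pi.single ((exists_mk t).choose 0) 1) (Pi.single ((exists_mk t).choose 1) 1) -
          F (Bm n (Pi.single ((exists_mk t).choose 0) 1)
            (Pi.single ((exists_mk t).choose 1) 1)) x • Bm n L0 L0 -
          F (Bm n (Pi.single ((exists_mk t).choose 0) 1)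
            (Pi.single ((exists_mk t).choose 1) 1)) y • Bm n L1 L1) := by
      simp only [smul_sub, Finset.sum_sub_distrib, smul_smul]
      rw [← Finset.sum_smul, ← Finset.sum_smul, ← e, ← e3, ← e3, ← e]
    rw [e4]
    exact S.sum_mem fun t _ => S.smul_mem _ (hkey _ _)
  rw [hAx, hAy, zero_smul, zero_smul, sub_zero, sub_zero] at hA
  exact hA

end CIHP
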