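import Pool.Agent.Lib.MP_e426f4_ag.CI.BoundedNormal

/-! Module CI-FN1b: transference for the group generated by finitely many vectors. -/

namespace CIHP

open Finset

/-- a spanning family of bounded length inside a set -/
theorem exists_span_family {E : Type*} [AddCommGroup E] [Module ℝ E] [FiniteDimensional ℝ E]
    (S : Set E) : ∃ (u : Fin (Module.finrank ℝ (Submodule.span ℝ S)) → E), (∀ q, u q ∈ S) ∧
      Submodule.span ℝ (Set.range u) = Submodule.span ℝ S := by
  obtain ⟨b, hbS, hspan, hli⟩ := exists_linearIndependent ℝ S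
  have hfin : b.Finite := hli.setFinite
  have : Fintype b := hfin.fintype
  have h1 := finrank_span_set_eq_card hli
  have hcard : Fintype.card b = Module.finrank ℝ (Submodule.span ℝ S) := by
    rw [← hspan, h1, Set.toFinset_card]
  let e := (Fintype.equivFinOfCardEq hcard).symm
  refine ⟨fun q => (e q).1, fun q => hbS (e q).2, ?_⟩
  refine (congrArg (Submodule.span ℝ) ?_).trans hspan
  ext x
  constructor
  · rintro ⟨q, rfl⟩
    exact (e q).2
  · intro hx
    obtain ⟨q, hq⟩ := e.surjective ⟨x, hx⟩
    exact ⟨q, congrArg Subtype.val hq⟩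

theorem transference (κ : Type*) [Fintype κ] [DecidableEq κ] (del : ℝ) (hdel : 0 < del) :
    ∃ Q0 : ℕ, ∀ {ι : Type} [Fintype ι] (g : κ → ι → ℝ), (∀ i j, |g i j| ≤ 1) →
      (∃ (m : ℕ) (a : Fin m → κ → ℤ), m ≤ Fintype.card κ ∧
        (∀ q j, |∑ i, (a q i : ℝ) * g i j| ≤ del) ∧
        ∀ i, g i ∈ Submodule.span ℝ (Set.range fun q => fun j => ∑ i, (a q i : ℝ) * g i j)) ∨
      ∃ (N : κ → ℤ) (φ : (ι → ℝ) →ₗ[ℝ] ℝ), N ≠ 0 ∧ (∀ i, |N i| ≤ (Q0 : ℤ)) ∧
        ∀ i, φ (g i) = N i := by
  classical
  set M := Fintype.card κ with hM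
  let t : ℕ → ℝ := fun j => del / (2 * M + 2) ^ j
  have ht : ∀ j, 0 < t j := fun j => by simp only [t]; positivity
  have htsucc : ∀ j, t (j + 1) * (2 * M + 2) = t j := by
    intro j
    simp only [t, pow_succ]
    field_simp
  have htanti : ∀ j, t (j + 1) ≤ t j := by
    intro j
    have h1 := htsucc j
    have h2 := ht (j + 1)
    have h3 : (0 : ℝ) ≤ M := Nat.cast_nonneg M
    nlinarith [mul_nonneg h2.le h3]
  have htmono : ∀ i j, i ≤ j → t j ≤ t i := by
    intro i j hij
    exact antitone_nat_of_succ_le htanti hij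
  obtain ⟨s, hs⟩ : ∃ s : ℕ, 2 * M / t M ≤ (s : ℝ) := exists_nat_ge _
  obtain ⟨Q0, hQ0⟩ := bounded_normal κ (s + 2) (by omega)
  refine ⟨Q0, ?_⟩
  intro ι _ g hg
  let Φ : (κ → ℝ) →ₗ[ℝ] (ι → ℝ) := ∑ i, (LinearMap.proj i : (κ → ℝ) →ₗ[ℝ] ℝ).smulRight (g i)
  have hΦ : ∀ c j, Φ c j = ∑ i, c i * g i j := by
    intro c j
    simp only [Φ, LinearMap.sum_apply, LinearMap.smulRight_apply, Finset.sum_apply,
      LinearMap.proj_apply, Pi.smul_apply, smul_eq_mul]
  let Sj : ℕ → Set (ι → ℝ) := fun j => {v | (∃ a : κ → ℤ, v = Φ fun k => (a k : ℝ)) ∧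
    ∀ i, |v i| ≤ t j}
  let U : ℕ → Submodule ℝ (ι → ℝ) := fun j => Submodule.span ℝ (Sj j)
  have hSanti : ∀ i j, i ≤ j → Sj j ⊆ Sj i := by
    intro i j hij v hv
    exact ⟨hv.1, fun l => (hv.2 l).trans (htmono i j hij)⟩
  have hUanti : ∀ i j, i ≤ j → U j ≤ U i := fun i j hij => Submodule.span_mono (hSanti i j hij)
  have hUle : ∀ j, U j ≤ LinearMap.range Φ := by
    intro j
    rw [Submodule.span_le]
    rintro v ⟨⟨a, rfl⟩, -⟩
    exact ⟨_, rfl⟩
  have hrange : Module.finrank ℝ (LinearMap.range Φ) ≤ M := by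
    have h1 := LinearMap.finrank_range_le Φ
    rwa [Module.finrank_fintype_fun_eq_card] at h1
  have hUrank : ∀ j, Module.finrank ℝ (U j) ≤ M := fun j =>
    (Submodule.finrank_mono (hUle j)).trans hrange
  have hgΦ : ∀ i, g i = Φ (Pi.single i 1) := by
    intro i
    funext j
    rw [hΦ, Finset.sum_eq_single i]
    · simp
    · intro k _ hk
      rw [Pi.single_eq_of_ne hk, zero_mul]
    · simp
  by_cases hcase : ∀ i, g i ∈ U 0
  · left
    obtain ⟨u, hu, hspan⟩ := exists_span_family (Sj 0)
    choose a ha using fun q => (hu q).1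
    have hua : u = fun q => fun j => ∑ i, (a q i : ℝ) * g i j := by
      funext q j
      rw [ha q, hΦ]
    refine ⟨_, a, hUrank 0, fun q j => ?_, fun i => ?_⟩
    · have h1 := (hu q).2 j
      rw [hua] at h1
      have h2 : t 0 = del := by simp [t]
      rwa [h2] at h1
    · rw [← hua, hspan]
      exact hcase i
  · right
    push Not at hcase
    obtain ⟨i0, hi0⟩ := hcase
    -- two consecutive equal spaces
    obtain ⟨j, hjM, hj⟩ : ∃ j < M, U j = U (j + 1) := by
      by_contra hcon
      push Not at hcon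
      have h1 : ∀ j ≤ M, Module.finrank ℝ (U j) + j + 1 ≤ M := by
        intro j
        induction j with
        | zero =>
          intro _
          have h2 : U 0 < LinearMap.range Φ := by
            refine lt_of_le_of_ne (hUle 0) fun h => hi0 ?_
            rw [h, hgΦ i0]
            exact ⟨_, rfl⟩
          have h3 := Submodule.finrank_lt_finrank_of_lt h2
          omega
        | succ j ih =>
          intro hj
          have h2 := ih (by omega)
          have h3 : U (j + 1) < U j := lt_of_le_of_ne (hUanti j (j + 1) (by omega))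
            fun h => hcon j (by omega) h.symm
          have h4 := Submodule.finrank_lt_finrank_of_lt h3
          omega
      have := h1 M le_rfl
      omega
    let R : Submodule ℝ (κ → ℝ) := (U j).comap Φ
    have hRtop : R ≠ ⊤ := by
      intro h
      have h1 : Pi.single i0 1 ∈ R := by rw [h]; trivial
      have h2 : Φ (Pi.single i0 1) ∈ U j := h1
      rw [← hgΦ] at h2
      exact hi0 (hUanti 0 j (Nat.zero_le j) h2)
    have hs2 : (0 : ℝ) < ((s + 2 : ℕ) : ℝ) := by positivity
    have hgap : ∀ (a : κ → ℤ) (c : κ → ℝ), (∀ k, |c k| ≤ 1 / ((s + 2 : ℕ) : ℝ)) →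
        (fun k => (a k : ℝ) - c k) ∈ R → (fun k => (a k : ℝ)) ∈ R := by
      intro a c hc hac
      have h1 : Φ (fun k => (a k : ℝ) - c k) ∈ U (j + 1) := by
        rw [← hj]
        exact hac
      obtain ⟨u, hu, hspan⟩ := exists_span_family (Sj (j + 1))
      have h2 : Φ (fun k => (a k : ℝ) - c k) ∈ Submodule.span ℝ (Set.range u) := by
        rw [hspan]
        exact h1
      rw [Submodule.mem_span_range_iff_exists_fun] at h2
      obtain ⟨b, hb⟩ := h2
      choose a' ha' using fun q => (hu q).1
      -- the rounded vector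
      have h3 : (fun l => Φ (fun k => (a k : ℝ)) l - ∑ q, (round (b q) : ℝ) * u q l) ∈ Sj j := by
        refine ⟨⟨fun k => a k - ∑ q, round (b q) * a' q k, ?_⟩, fun l => ?_⟩
        · funext l
          rw [hΦ, hΦ]
          have : ∀ q, u q l = ∑ k, (a' q k : ℝ) * g k l := by
            intro q
            rw [ha' q, hΦ]
          simp only [this]
          push_cast
          simp only [sub_mul, Finset.sum_sub_distrib, Finset.mul_sum, Finset.sum_mul]
          congr 1
          rw [Finset.sum_comm]
          refine Finset.sum_congr rfl fun k _ => Finset.sum_congr rfl fun q _ => ?_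
          ring
        · have e1 : Φ (fun k => (a k : ℝ)) l - ∑ q, (round (b q) : ℝ) * u q l =
              Φ c l + ∑ q, (b q - round (b q)) * u q l := by
            have h4 := congrFun hb l
            simp only [Finset.sum_apply, Pi.smul_apply, smul_eq_mul] at h4
            have h5 : Φ (fun k => (a k : ℝ) - c k) l = Φ (fun k => (a k : ℝ)) l - Φ c l := by
              rw [hΦ, hΦ, hΦ, ← Finset.sum_sub_distrib]
              refine Finset.sum_congr rfl fun k _ => ?_
              ring
            rw [h5] at h4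
            have h6 : ∑ q, (b q - round (b q)) * u q l =
                ∑ q, b q * u q l - ∑ q, (round (b q) : ℝ) * u q l := by
              rw [← Finset.sum_sub_distrib]
              refine Finset.sum_congr rfl fun q _ => ?_
              ring
            rw [h6, h4]
            ring
          show |Φ (fun k => (a k : ℝ)) l - ∑ q, (round (b q) : ℝ) * u q l| ≤ t j
          rw [e1]
          have e2 : |Φ c l| ≤ M * (1 / ((s + 2 : ℕ) : ℝ)) := by
            rw [hΦ]
            refine (Finset.abs_sum_le_sum_abs _ _).trans ?_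
            have : ∀ k ∈ (univ : Finset κ), |c k * g k l| ≤ 1 / ((s + 2 : ℕ) : ℝ) := by
              intro k _
              rw [abs_mul]
              calc |c k| * |g k l| ≤ (1 / ((s + 2 : ℕ) : ℝ)) * 1 :=
                    mul_le_mul (hc k) (hg k l) (abs_nonneg _) (by positivity)
                _ = _ := mul_one _
            refine (Finset.sum_le_sum this).trans ?_
            rw [Finset.sum_const, Finset.card_univ, nsmul_eq_mul]
          have e3 : |∑ q, (b q - round (b q)) * u q l| ≤ M * (1 / 2 * t (j + 1)) := by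
            refine (Finset.abs_sum_le_sum_abs _ _).trans ?_
            have : ∀ q ∈ (univ : Finset (Fin (Module.finrank ℝ (Submodule.span ℝ (Sj (j + 1)))))),
                |(b q - round (b q)) * u q l| ≤ 1 / 2 * t (j + 1) := by
              intro q _
              rw [abs_mul]
              exact mul_le_mul (abs_sub_round _) ((hu q).2 l) (abs_nonneg _) (by norm_num)
            refine (Finset.sum_le_sum this).trans ?_
            rw [Finset.sum_const, Finset.card_univ, Fintype.card_fin, nsmul_eq_mul]
            have h7 : (Module.finrank ℝ (Submodule.span ℝ (Sj (j + 1))) : ℝ) ≤ M := by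
              exact_mod_cast hUrank (j + 1)
            exact mul_le_mul_of_nonneg_right h7 (by have := ht (j + 1); positivity)
          have e4 : (M : ℝ) * (1 / ((s + 2 : ℕ) : ℝ)) ≤ t j / 2 := by
            have h8 : t M ≤ t j := htmono j M hjM.le
            have h9 : 2 * (M : ℝ) ≤ s * t M := by
              rwa [div_le_iff₀ (ht M)] at hs
            rw [mul_one_div, div_le_iff₀ hs2]
            have h10 : (s : ℝ) * t M ≤ ((s + 2 : ℕ) : ℝ) * t j := by
              apply mul_le_mul _ h8 (ht M).le hs2.le
              push_cast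
              linarith
            linarith
          have e5 : (M : ℝ) * (1 / 2 * t (j + 1)) ≤ t j / 2 := by
            have h1 := htsucc j
            have h2 := ht (j + 1)
            have h3 : (0 : ℝ) ≤ M := Nat.cast_nonneg M
            nlinarith [mul_nonneg h2.le h3]
          calc |Φ c l + ∑ q, (b q - round (b q)) * u q l| ≤
                |Φ c l| + |∑ q, (b q - round (b q)) * u q l| := abs_add_le _ _
            _ ≤ t j := by linarith
      have h4 : (fun l => ∑ q, (round (b q) : ℝ) * u q l) ∈ U j := by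
        have : (fun l => ∑ q, (round (b q) : ℝ) * u q l) = ∑ q, (round (b q) : ℝ) • u q := by
          funext l
          simp
        rw [this, hj]
        refine Submodule.sum_mem _ fun q _ => Submodule.smul_mem _ _ ?_
        exact Submodule.subset_span (hu q)
      have h5 : Φ (fun k => (a k : ℝ)) =
          (fun l => Φ (fun k => (a k : ℝ)) l - ∑ q, (round (b q) : ℝ) * u q l) +
            (fun l => ∑ q, (round (b q) : ℝ) * u q l) := by
        funext l
        simp
      show Φ (fun k => (a k : ℝ)) ∈ U j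
      rw [h5]
      exact (U j).add_mem (Submodule.subset_span h3) h4
    obtain ⟨N, hN0, hNb, hN⟩ := hQ0 R hRtop hgap
    -- the functional
    let ν : (κ → ℝ) →ₗ[ℝ] ℝ := ∑ i, ((N i : ℝ)) • (LinearMap.proj i : (κ → ℝ) →ₗ[ℝ] ℝ)
    have hν : ∀ c, ν c = ∑ i, c i * (N i : ℝ) := by
      intro c
      simp only [ν, LinearMap.sum_apply, LinearMap.smul_apply, LinearMap.proj_apply, smul_eq_mul]
      exact Finset.sum_congr rfl fun i _ => mul_comm _ _
    obtain ⟨ψ, hψ⟩ := Φ.rangeRestrict.exists_rightInverse_of_surjective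
      (LinearMap.range_rangeRestrict Φ)
    obtain ⟨φ, hφ⟩ := LinearMap.exists_extend (ν.comp ψ)
    refine ⟨N, φ, hN0, hNb, fun i => ?_⟩
    have h1 : φ (g i) = ν (ψ ⟨g i, by rw [hgΦ i]; exact ⟨_, rfl⟩⟩) := by
      have := LinearMap.congr_fun hφ ⟨g i, by rw [hgΦ i]; exact ⟨_, rfl⟩⟩
      simpa using this
    have h2 : Φ (ψ ⟨g i, by rw [hgΦ i]; exact ⟨_, rfl⟩⟩) = g i := by
      have := LinearMap.congr_fun hψ ⟨g i, by rw [hgΦ i]; exact ⟨_, rfl⟩⟩
      simpa using congrArg Subtype.val this
    have h3 : ψ ⟨g i, by rw [hgΦ i]; exact ⟨_, rfl⟩⟩ - Pi.single i 1 ∈ R := by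
      show Φ _ ∈ U j
      rw [map_sub, h2, ← hgΦ, sub_self]
      exact (U j).zero_mem
    have h4 := hN _ h3
    rw [← hν, map_sub, sub_eq_zero] at h4
    rw [h1, h4, hν, Finset.sum_eq_single i]
    · simp
    · intro k _ hk
      rw [Pi.single_eq_of_ne hk, zero_mul]
    · simp

end CIHP
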