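import Pool.Agent.Lib.MP_e426f4_ag.CI.Defs
import Pool.Agent.Lib.MP_e426f4_ag.CI.Transference
import Pool.Agent.Lib.MP_e426f4_ag.CI.FrameCount
import Pool.Agent.Lib.MP_e426f4_ag.CI.SpanTwo
import Pool.Agent.Lib.MP_e426f4_ag.G.SumBad
import Pool.Agent.Lib.MP_e426f4_ag.G.Minors

/-! Module CI-FN3b: few pairs of points are not fine for quadrics. -/

namespace CIHP

open Finset GenHP

/-- for a pair of points which is not fine there is a bounded integral matrix of values of a
linear functional on the products of the vectors of the frames -/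
theorem fine_or_functional (n : ℕ) (hn : 1 ≤ n) (K R0 : ℝ) (hK : 1 ≤ K) (hR : 0 < R0) :
    ∃ Q0 : ℕ, ∀ B : ℕ, 1 ≤ B → ∀ E : ℝ, 0 < E → (B : ℝ) ^ (2 / (n : ℝ)) ≤ R0 * E →
    ∀ x y : Fin (n + 1) → ℤ, 0 < dl x y → ∀ w v : Fin n → Fin (n + 1) → ℤ,
      LinearIndependent ℝ (fun k : Fin n => fun i : Fin (n + 1) => (w k i : ℝ)) →
      LinearIndependent ℝ (fun k : Fin n => fun i : Fin (n + 1) => (v k i : ℝ)) →
      (∀ k, ∑ i, w k i * x i = 0) → (∀ k, ∑ i, v k i * y i = 0) →
      (∀ k i, |(w k i : ℝ)| ≤ K * (B : ℝ) ^ (1 / (n : ℝ))) →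
      (∀ k i, |(v k i : ℝ)| ≤ K * (B : ℝ) ^ (1 / (n : ℝ))) →
      ¬ FineD n 2 E x y →
      ∃ (N : Fin n → Fin n → ℤ) (φ : (Idx n 2 → ℝ) →ₗ[ℝ] ℝ), N ≠ 0 ∧
        (∀ i j, |N i j| ≤ (Q0 : ℤ)) ∧
        ∀ i j, φ (Bm n (fun a => (w i a : ℝ)) (fun a => (v j a : ℝ))) = N i j := by
  have hn0 : (0 : ℝ) < n := by exact_mod_cast hn
  set del : ℝ := 1 / ((n : ℝ) ^ 2 * ((n : ℝ) + 1) ^ 2 * K ^ 2 * R0) with hdel
  have hdel0 : 0 < del := by positivity
  obtain ⟨Q0, hQ0⟩ := transference (Fin n × Fin n) del hdel0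
  refine ⟨Q0, ?_⟩
  intro B hB E hE hBE x y hdl w v hw hv hwx hvy hwb hvb hnf
  have hB0 : (0 : ℝ) < B := by exact_mod_cast hB
  set mu : ℝ := K * (B : ℝ) ^ (1 / (n : ℝ)) with hmu
  have hmu0 : 0 < mu := by positivity
  set lam : ℝ := ((n : ℝ) + 1) ^ 2 * mu ^ 2 with hlam
  have hlam0 : 0 < lam := by positivity
  have hmu2 : mu ^ 2 = K ^ 2 * (B : ℝ) ^ (2 / (n : ℝ)) := by
    rw [hmu, mul_pow, ← Real.rpow_natCast ((B : ℝ) ^ (1 / (n : ℝ))) 2, ← Real.rpow_mul hB0.le]
    congr 2
    push_cast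
    ring
  set wr : Fin n → Fin (n + 1) → ℝ := fun k i => (w k i : ℝ) with hwr
  set vr : Fin n → Fin (n + 1) → ℝ := fun k i => (v k i : ℝ) with hvr
  have hcast : ∀ i j t, Bm n (wr i) (vr j) t = ((T ![w i, v j] t : ℤ) : ℝ) := by
    intro i j t
    rw [Bm_apply, ← T_cast]
    congr 1
    funext k a
    fin_cases k <;> simp [hwr, hvr]
  have hTx : ∀ i j, F (T ![w i, v j]) x = 0 := by
    intro i j
    exact F_T_eq_zero _ x 0 (hwx i)
  have hTy : ∀ i j, F (T ![w i, v j]) y = 0 := by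
    intro i j
    exact F_T_eq_zero _ y 1 (hvy j)
  have hg1 : ∀ (q : Fin n × Fin n) (t : Idx n 2),
      |(fun (q : Fin n × Fin n) (t : Idx n 2) => Bm n (wr q.1) (vr q.2) t / lam) q t| ≤ 1 := by
    intro q t
    show |Bm n (wr q.1) (vr q.2) t / lam| ≤ 1
    rw [abs_div, abs_of_pos hlam0, div_le_one hlam0]
    exact Bm_abs_le _ _ mu hmu0.le (hwb q.1) (hvb q.2) t
  rcases hQ0 _ hg1 with ⟨m, a, hm, ha, hspan⟩ | ⟨N, φ, hN0, hNb, hφ⟩
  · -- the pair is fine
    exfalso
    apply hnf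
    have hval : ∀ q t, ((∑ i : Fin n × Fin n, a q i * T ![w i.1, v i.2] t : ℤ) : ℝ) =
        lam * ∑ i : Fin n × Fin n, (a q i : ℝ) * (Bm n (wr i.1) (vr i.2) t / lam) := by
      intro q t
      push_cast
      rw [Finset.mul_sum]
      refine Finset.sum_congr rfl fun i _ => ?_
      rw [hcast]
      field_simp
    refine ⟨m, fun q t => ∑ i : Fin n × Fin n, a q i * T ![w i.1, v i.2] t, ?_, ?_, ?_⟩
    · intro q
      have h1 : ∀ z : Fin (n + 1) → ℤ, (∀ i j, F (T ![w i, v j]) z = 0) →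
          F (fun t => ∑ i : Fin n × Fin n, a q i * T ![w i.1, v i.2] t) z = 0 := by
        intro z hz
        unfold F at hz ⊢
        simp only [Finset.sum_mul]
        rw [Finset.sum_comm]
        refine Finset.sum_eq_zero fun i _ => ?_
        have h2 := hz i.1 i.2
        have h3 : ∀ t : Idx n 2, a q i * T ![w i.1, v i.2] t * mon z t.1 =
            a q i * (T ![w i.1, v i.2] t * mon z t.1) := fun t => by ring
        simp only [h3]
        rw [← Finset.mul_sum, h2, mul_zero]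
      exact ⟨h1 x hTx, h1 y hTy⟩
    · intro q t
      rw [hval, abs_mul, abs_of_pos hlam0]
      have h1 := ha q t
      have hm' : (m : ℝ) ≤ (n : ℝ) ^ 2 := by
        have h2 : (m : ℝ) ≤ ((Fintype.card (Fin n × Fin n) : ℕ) : ℝ) := by exact_mod_cast hm
        rw [Fintype.card_prod, Fintype.card_fin] at h2
        push_cast at h2
        nlinarith
      calc (m : ℝ) * (lam * |∑ i : Fin n × Fin n, (a q i : ℝ) * (Bm n (wr i.1) (vr i.2) t / lam)|)
          ≤ (n : ℝ) ^ 2 * (lam * del) := by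
            refine mul_le_mul hm' (mul_le_mul_of_nonneg_left h1 hlam0.le) ?_ (by positivity)
            exact mul_nonneg hlam0.le (abs_nonneg _)
        _ = (B : ℝ) ^ (2 / (n : ℝ)) / R0 := by
            rw [hlam, hmu2, hdel]
            field_simp
        _ ≤ E := by
            rw [div_le_iff₀ hR]
            linarith
    · intro A hAx hAy
      obtain ⟨i0, j0, hij⟩ := exists_minor_ne_zero x y hdl
      have hδ : (fun i => (x i : ℝ)) i0 * (fun i => (y i : ℝ)) j0 -
          (fun i => (x i : ℝ)) j0 * (fun i => (y i : ℝ)) i0 ≠ 0 := by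
        have h1 : ((minor x y i0 j0 : ℤ) : ℝ) ≠ 0 := by exact_mod_cast hij
        unfold minor at h1
        push_cast at h1
        exact h1
      have hAs := span_two (fun i => (x i : ℝ)) (fun i => (y i : ℝ)) i0 j0 hδ wr vr hw hv
        (fun k => by
          have h1 : ((∑ i, w k i * x i : ℤ) : ℝ) = 0 := by rw [hwx k]; simp
          push_cast at h1
          exact h1)
        (fun k => by
          have h1 : ((∑ i, v k i * y i : ℤ) : ℝ) = 0 := by rw [hvy k]; simp
          push_cast at h1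
          exact h1) A hAx hAy
      have hle : Submodule.span ℝ (Set.range fun q : Fin n × Fin n =>
          Bm n (wr q.1) (vr q.2)) ≤ Submodule.span ℝ (Set.range fun q : Fin m => fun t =>
          ((∑ i : Fin n × Fin n, a q i * T ![w i.1, v i.2] t : ℤ) : ℝ)) := by
        rw [Submodule.span_le]
        rintro _ ⟨i, rfl⟩
        have h1 := hspan i
        have h2 : Bm n (wr i.1) (vr i.2) = lam •
            (fun t : Idx n 2 => Bm n (wr i.1) (vr i.2) t / lam) := by
          funext t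
          simp only [Pi.smul_apply, smul_eq_mul]
          field_simp
        rw [SetLike.mem_coe]
        show Bm n (wr i.1) (vr i.2) ∈ _
        rw [h2]
        refine Submodule.smul_mem _ _ ?_
        refine (Submodule.span_le.mpr ?_) h1
        rintro _ ⟨q, rfl⟩
        have h3 : (fun t : Idx n 2 => ∑ i : Fin n × Fin n, (a q i : ℝ) *
            (Bm n (wr i.1) (vr i.2) t / lam)) = lam⁻¹ • fun t =>
            ((∑ i : Fin n × Fin n, a q i * T ![w i.1, v i.2] t : ℤ) : ℝ) := by
          funext t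
          simp only [Pi.smul_apply, smul_eq_mul]
          rw [hval]
          field_simp
        rw [SetLike.mem_coe]
        show (fun t : Idx n 2 => ∑ i : Fin n × Fin n, (a q i : ℝ) *
            (Bm n (wr i.1) (vr i.2) t / lam)) ∈ _
        rw [h3]
        exact Submodule.smul_mem _ _ (Submodule.subset_span ⟨q, rfl⟩)
      have h4 := hle hAs
      rw [Submodule.mem_span_range_iff_exists_fun] at h4
      obtain ⟨c, hc⟩ := h4
      refine ⟨c, fun t => ?_⟩
      rw [← hc]
      simp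
  · refine ⟨fun i j => N (i, j), lam⁻¹ • φ, ?_, fun i j => hNb (i, j), fun i j => ?_⟩
    · intro h
      apply hN0
      funext q
      exact congrFun (congrFun h q.1) q.2
    · have h1 := hφ (i, j)
      rw [← h1, LinearMap.smul_apply, ← map_smul]
      congr 1
      funext t
      simp only [Pi.smul_apply, smul_eq_mul]
      rw [inv_mul_eq_div]

/-- few pairs are not fine for quadrics -/
theorem few_not_fine (n : ℕ) (hn : 3 ≤ n) (K R0 : ℝ) (hK : 1 ≤ K) (hR : 0 < R0) :
    ∃ C : ℝ, 0 < C ∧ ∀ B : ℕ, 1 ≤ B → ∀ E : ℝ, 0 < E → (B : ℝ) ^ (2 / (n : ℝ)) ≤ R0 * E →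
    ∀ y : Fin (n + 1) → ℤ, Prim y → Good K B y →
      (Set.ncard {x : Fin (n + 1) → ℤ | x ∈ boxn n (2 * B) ∧ Prim x ∧ Good K B x ∧
        0 < dl x y ∧ ¬ FineD n 2 E x y} : ℝ) ≤
        C * (B : ℝ) ^ ((n : ℝ) + 1 - 1 / (n : ℝ)) := by
  classical
  obtain ⟨Q0, hQ0⟩ := fine_or_functional n (by omega) K R0 hK hR
  obtain ⟨C1, hC1, hfc⟩ := frame_count_real n hn
  refine ⟨((2 * Q0 + 1) ^ (n * n) : ℕ) * (2 * (C1 * K ^ (n * (n + 1) - 1))), by positivity, ?_⟩
  intro B hB E hE hBE y hy hgy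
  have hn0 : (0 : ℝ) < n := by
    have : 0 < n := by omega
    exact_mod_cast this
  have hB0 : (0 : ℝ) < B := by exact_mod_cast hB
  have hB1 : (1 : ℝ) ≤ B := by exact_mod_cast hB
  obtain ⟨v, hv, hvy, hvb⟩ := hgy
  set mu : ℝ := K * (B : ℝ) ^ (1 / (n : ℝ)) with hmu
  have hmu1 : 1 ≤ mu := by
    have : 1 ≤ (B : ℝ) ^ (1 / (n : ℝ)) := Real.one_le_rpow hB1 (by positivity)
    rw [hmu]
    nlinarith
  set S : Set (Fin (n + 1) → ℤ) := {x : Fin (n + 1) → ℤ | x ∈ boxn n (2 * B) ∧ Prim x ∧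
    Good K B x ∧ 0 < dl x y ∧ ¬ FineD n 2 E x y} with hS
  have hSfin : S.Finite := (Finset.finite_toSet (boxn n (2 * B))).subset fun x hx => hx.1
  -- the frames and the functionals
  have hex : ∀ x : Fin (n + 1) → ℤ, ∃ (w : Fin n → Fin (n + 1) → ℤ) (N : Fin n → Fin n → ℤ),
      x ∈ S → (LinearIndependent ℝ (fun k : Fin n => fun i : Fin (n + 1) => (w k i : ℝ)) ∧
        (∀ k, ∑ i, w k i * x i = 0) ∧ (∀ k i, |(w k i : ℝ)| ≤ mu) ∧ N ≠ 0 ∧
        (∀ i j, |N i j| ≤ (Q0 : ℤ)) ∧ ∃ φ : (Idx n 2 → ℝ) →ₗ[ℝ] ℝ,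
        ∀ i j, φ (Bm n (fun a => (w i a : ℝ)) (fun a => (v j a : ℝ))) = N i j) := by
    intro x
    by_cases hx : x ∈ S
    · obtain ⟨hxb, hxp, ⟨w, hw, hwx, hwb⟩, hdl, hnf⟩ := hx
      obtain ⟨N, φ, hN0, hNb, hφ⟩ := hQ0 B hB E hE hBE x y hdl w v hw hv hwx hvy hwb hvb hnf
      exact ⟨w, N, fun _ => ⟨hw, hwx, hwb, hN0, hNb, φ, hφ⟩⟩
    · exact ⟨0, 0, fun h => absurd h hx⟩
  choose w N hwN using hex
  -- fibres over `N`
  have hyr0 : (fun i => (y i : ℝ)) ≠ 0 := by
    intro h
    obtain ⟨c, hc⟩ := hy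
    have h1 : ∀ i, y i = 0 := by
      intro i
      have := congrFun h i
      simpa using this
    simp [h1] at hc
  have hvyr : ∀ k, ∑ i, (v k i : ℝ) * (y i : ℝ) = 0 := by
    intro k
    have h1 : ((∑ i, v k i * y i : ℤ) : ℝ) = 0 := by rw [hvy k]; simp
    push_cast at h1
    exact h1
  have hfib : ∀ N0 : Fin n → Fin n → ℤ,
      ((hSfin.toFinset.filter fun x => N x = N0).card : ℝ) ≤
        2 * (C1 * mu ^ (n * (n + 1) - 1)) := by
    intro N0
    rcases (hSfin.toFinset.filter fun x => N x = N0).eq_empty_or_nonempty with hempty | ⟨x1, hx1⟩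
    · rw [hempty]
      simp only [Finset.card_empty, Nat.cast_zero]
      positivity
    rw [Finset.mem_filter, Set.Finite.mem_toFinset] at hx1
    obtain ⟨hx1S, hx1N⟩ := hx1
    -- the functional vectors
    have hsx : ∀ x ∈ S, N x = N0 → ∃ s : Fin n → Fin (n + 1) → ℝ,
        (∀ i j, ∑ a, s i a * (v j a : ℝ) = N0 i j) ∧
        ∀ i j, ∑ a, s i a * (w x j a : ℝ) = ∑ a, s j a * (w x i a : ℝ) := by
      intro x hx hxN
      obtain ⟨-, -, -, -, -, φ, hφ⟩ := hwN x hx
      have hlin : ∀ (p u : Fin (n + 1) → ℝ),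
          ∑ a, φ (Bm n p (Pi.single a 1)) * u a = φ (Bm n p u) := by
        intro p u
        have h1 : u = ∑ a, u a • (Pi.single a (1 : ℝ) : Fin (n + 1) → ℝ) :=
          eq_sum_smul_single u
        conv_rhs => rw [h1, map_sum, map_sum]
        refine Finset.sum_congr rfl fun a _ => ?_
        rw [map_smul, map_smul, smul_eq_mul, mul_comm]
      refine ⟨fun i a => φ (Bm n (fun b => (w x i b : ℝ)) (Pi.single a 1)), fun i j => ?_,
        fun i j => ?_⟩
      · rw [hlin, hφ, hxN]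
      · rw [hlin, hlin, Bm_comm]
    obtain ⟨t, ht, -⟩ := hsx x1 hx1S hx1N
    have hN00 : N0 ≠ 0 := by
      have := (hwN x1 hx1S).2.2.2.1
      rwa [hx1N] at this
    obtain ⟨i0, j0, hij0⟩ : ∃ i j, N0 i j ≠ 0 := by
      by_contra hcon
      push Not at hcon
      exact hN00 (funext fun i => funext fun j => hcon i j)
    have hFC := hfc mu hmu1 (fun i => (y i : ℝ)) (fun a => (v j0 a : ℝ)) (hvyr j0) hyr0 t
      ⟨i0, by rw [ht]; exact_mod_cast hij0⟩
    set FC : Set (Fin n → Fin (n + 1) → ℤ) := {l : Fin n → Fin (n + 1) → ℤ |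
      (∀ i a, |(l i a : ℝ)| ≤ mu) ∧
        ∃ k : Fin n → ℝ, ∀ i j, ∑ a, (l j a : ℝ) * (t i a + k i * (y a : ℝ)) =
          ∑ a, (l i a : ℝ) * (t j a + k j * (y a : ℝ))} with hFCdef
    have hmaps : ∀ x ∈ hSfin.toFinset.filter fun x => N x = N0, w x ∈ hFC.1.toFinset := by
      intro x hx
      rw [Finset.mem_filter, Set.Finite.mem_toFinset] at hx
      rw [Set.Finite.mem_toFinset]
      obtain ⟨hxS, hxN⟩ := hx
      obtain ⟨s, hs, hsym⟩ := hsx x hxS hxN
      refine ⟨(hwN x hxS).2.2.1, ?_⟩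
      have hk : ∀ i, ∃ c : ℝ, ∀ a, s i a - t i a = c * (y a : ℝ) := by
        intro i
        refine SB2_orth_prop (fun k a => (v k a : ℝ)) hv (fun a => (y a : ℝ))
          (fun a => s i a - t i a) hyr0 hvyr fun k => ?_
        have h1 : ∑ a, (v k a : ℝ) * (s i a - t i a) =
            ∑ a, s i a * (v k a : ℝ) - ∑ a, t i a * (v k a : ℝ) := by
          rw [← Finset.sum_sub_distrib]
          exact Finset.sum_congr rfl fun a _ => by ring
        rw [h1, hs, ht, sub_self]
      choose k hk using hk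
      refine ⟨k, fun i j => ?_⟩
      have h2 : ∀ i a, t i a + k i * (y a : ℝ) = s i a := by
        intro i a
        have := hk i a
        linarith
      simp only [h2]
      have h3 := hsym i j
      rw [show ∑ a, (w x j a : ℝ) * s i a = ∑ a, s i a * (w x j a : ℝ) from
        Finset.sum_congr rfl fun a _ => mul_comm _ _,
        show ∑ a, (w x i a : ℝ) * s j a = ∑ a, s j a * (w x i a : ℝ) from
        Finset.sum_congr rfl fun a _ => mul_comm _ _]
      exact h3
    -- at most two points for a frame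
    have htwo : ∀ l ∈ hFC.1.toFinset,
        ((hSfin.toFinset.filter fun x => N x = N0).filter fun x => w x = l).card ≤ 2 := by
      intro l _
      rcases ((hSfin.toFinset.filter fun x => N x = N0).filter
        fun x => w x = l).eq_empty_or_nonempty with he | ⟨x2, hx2⟩
      · rw [he]
        simp
      rw [Finset.mem_filter, Finset.mem_filter, Set.Finite.mem_toFinset] at hx2
      obtain ⟨⟨hx2S, -⟩, hx2l⟩ := hx2
      have hsub : ((hSfin.toFinset.filter fun x => N x = N0).filter fun x => w x = l) ⊆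
          {x2, -x2} := by
        intro x hx
        rw [Finset.mem_filter, Finset.mem_filter, Set.Finite.mem_toFinset] at hx
        obtain ⟨⟨hxS, -⟩, hxl⟩ := hx
        rw [Finset.mem_insert, Finset.mem_singleton]
        by_contra hcon
        push Not at hcon
        have hpos := dl_pos x2 x hx2S.2.1 hxS.2.1 hcon.1 hcon.2
        -- proportional vectors
        have hx20 : (fun i => (x2 i : ℝ)) ≠ 0 := by
          intro h
          obtain ⟨c, hc⟩ := hx2S.2.1
          have h1 : ∀ i, x2 i = 0 := by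
            intro i
            have := congrFun h i
            simpa using this
          simp [h1] at hc
        have hort : ∀ z ∈ S, w z = l → ∀ k, ∑ i, (l k i : ℝ) * (z i : ℝ) = 0 := by
          intro z hz hzl k
          have h1 : ((∑ i, w z k i * z i : ℤ) : ℝ) = 0 := by
            rw [(hwN z hz).2.1 k]
            simp
          rw [hzl] at h1
          push_cast at h1
          exact h1
        have hli : LinearIndependent ℝ (fun k : Fin n => fun i : Fin (n + 1) => (l k i : ℝ)) := by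
          have := (hwN x2 hx2S).1
          rwa [hx2l] at this
        obtain ⟨c, hc⟩ := SB2_orth_prop (fun k i => (l k i : ℝ)) hli (fun i => (x2 i : ℝ))
          (fun i => (x i : ℝ)) hx20 (hort x2 hx2S hx2l) (hort x hxS hxl)
        have hzero : dl x2 x = 0 := by
          refine SB2_dl_eq_zero_of x2 x fun a b => ?_
          have h1 : ((minor x2 x a b : ℤ) : ℝ) = 0 := by
            unfold minor
            push_cast
            have ea : (x a : ℝ) = c * (x2 a : ℝ) := hc a
            have eb : (x b : ℝ) = c * (x2 b : ℝ) := hc b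
            rw [ea, eb]
            ring
          exact_mod_cast h1
        omega
      exact (Finset.card_le_card hsub).trans Finset.card_le_two
    have hcard := Finset.card_le_mul_card_image_of_maps_to (f := w) hmaps 2 htwo
    have h5 : ((hFC.1.toFinset.card : ℕ) : ℝ) ≤ C1 * mu ^ (n * (n + 1) - 1) := by
      have h6 := hFC.2
      rwa [Set.ncard_eq_toFinset_card _ hFC.1] at h6
    calc ((hSfin.toFinset.filter fun x => N x = N0).card : ℝ) ≤
          ((2 * hFC.1.toFinset.card : ℕ) : ℝ) := by exact_mod_cast hcard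
      _ = 2 * ((hFC.1.toFinset.card : ℕ) : ℝ) := by push_cast; ring
      _ ≤ 2 * (C1 * mu ^ (n * (n + 1) - 1)) := by linarith
  -- sum over `N`
  let TN : Finset (Fin n → Fin n → ℤ) := Fintype.piFinset fun _ => Fintype.piFinset fun _ =>
    Finset.Icc (-(Q0 : ℤ)) Q0
  have hTN : TN.card = (2 * Q0 + 1) ^ (n * n) := by
    simp only [TN, Fintype.card_piFinset, Finset.prod_const, Finset.card_univ, Fintype.card_fin,
      Int.card_Icc]
    rw [← pow_mul]
    congr 1
    omega
  have hmapsN : ∀ x ∈ hSfin.toFinset, N x ∈ TN := by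
    intro x hx
    rw [Set.Finite.mem_toFinset] at hx
    rw [Fintype.mem_piFinset]
    intro i
    rw [Fintype.mem_piFinset]
    intro j
    rw [Finset.mem_Icc]
    exact abs_le.mp ((hwN x hx).2.2.2.2.1 i j)
  have hmain : (S.ncard : ℝ) ≤ TN.card * (2 * (C1 * mu ^ (n * (n + 1) - 1))) := by
    rw [Set.ncard_eq_toFinset_card _ hSfin, Finset.card_eq_sum_card_fiberwise hmapsN]
    push_cast
    refine (Finset.sum_le_sum fun N0 _ => hfib N0).trans ?_
    rw [Finset.sum_const, nsmul_eq_mul]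
  refine hmain.trans (le_of_eq ?_)
  rw [hTN]
  have hpow : mu ^ (n * (n + 1) - 1) = K ^ (n * (n + 1) - 1) *
      (B : ℝ) ^ ((n : ℝ) + 1 - 1 / (n : ℝ)) := by
    rw [hmu, mul_pow]
    congr 1
    rw [← Real.rpow_natCast ((B : ℝ) ^ (1 / (n : ℝ))) (n * (n + 1) - 1), ← Real.rpow_mul hB0.le]
    congr 1
    have h1 : 1 ≤ n * (n + 1) := by nlinarith
    rw [Nat.cast_sub h1]
    push_cast
    field_simp
  rw [hpow]
  ring

end CIHP
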