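import Mathlib

/-! Module CI-LK: small minors give a small combination of the rows. -/

namespace CIHP

open Finset

section aux

variable {R : Type*} [CommRing R] {r m : ℕ}

/-- cofactors of a minor extended by one row and one column -/
theorem lk_combination (L : Matrix (Fin r) (Fin m) R) {s : ℕ} (hs : s < r) (I0 : Fin s → Fin r)
    (hI : Function.Injective I0) (J : Fin s → Fin m) :
    ∃ (c : Fin r → R) (i1 : Fin r), c i1 = (L.submatrix I0 J).det ∧
      (∀ i, c i = 0 ∨ ∃ (a : ℕ) (I : Fin s → Fin r), c i = (-1) ^ a * (L.submatrix I J).det) ∧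
      ∀ j, ∃ (I : Fin (s + 1) → Fin r) (J' : Fin (s + 1) → Fin m),
        ∑ i, c i * L i j = (L.submatrix I J').det := by
  classical
  obtain ⟨i1, hi1⟩ : ∃ i1, i1 ∉ Set.range I0 := by
    by_contra hcon
    push Not at hcon
    have h1 : Function.Surjective I0 := hcon
    have h2 := Fintype.card_le_of_surjective I0 h1
    simp only [Fintype.card_fin] at h2
    omega
  obtain ⟨I, hIdef⟩ : ∃ I : Fin (s + 1) → Fin r, I = Fin.cons i1 I0 := ⟨_, rfl⟩
  have hI0 : I 0 = i1 := by rw [hIdef]; rfl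
  have hIs : ∀ a : Fin s, I a.succ = I0 a := fun a => by rw [hIdef]; rfl
  have hinj : Function.Injective I := by
    intro a b hab
    rcases Fin.eq_zero_or_eq_succ a with rfl | ⟨a, rfl⟩ <;>
      rcases Fin.eq_zero_or_eq_succ b with rfl | ⟨b, rfl⟩
    · rfl
    · exact absurd ⟨b, by rw [← hIs, ← hab, hI0]⟩ hi1
    · exact absurd ⟨a, by rw [← hIs, hab, hI0]⟩ hi1
    · rw [hIs, hIs] at hab
      rw [hI hab]
  obtain ⟨c, hc⟩ : ∃ c : Fin r → R, c = fun i => ∑ a : Fin (s + 1),
      if I a = i then (-1) ^ (a : ℕ) * (L.submatrix (fun b => I (a.succAbove b)) J).det else 0 :=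
    ⟨_, rfl⟩
  have hcI : ∀ a, c (I a) =
      (-1) ^ (a : ℕ) * (L.submatrix (fun b => I (a.succAbove b)) J).det := by
    intro a
    rw [hc]
    simp only
    rw [Finset.sum_eq_single a]
    · rw [if_pos rfl]
    · intro b _ hb
      rw [if_neg fun h => hb (hinj h)]
    · intro h
      exact absurd (Finset.mem_univ a) h
  refine ⟨c, i1, ?_, ?_, ?_⟩
  · rw [← hI0, hcI]
    simp only [Fin.val_zero, pow_zero, one_mul, Fin.zero_succAbove]
    congr 2
    funext b
    exact hIs b
  · intro i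
    by_cases hi : ∃ a, I a = i
    · obtain ⟨a, rfl⟩ := hi
      exact Or.inr ⟨a, _, hcI a⟩
    · left
      push Not at hi
      rw [hc]
      exact Finset.sum_eq_zero fun a _ => if_neg (hi a)
  · intro j
    refine ⟨I, Fin.cons j J, ?_⟩
    rw [Matrix.det_succ_column_zero]
    have h1 : ∑ i, c i * L i j = ∑ a : Fin (s + 1), c (I a) * L (I a) j := by
      have h2 : ∀ i, c i * L i j = ∑ a : Fin (s + 1), if I a = i then
          (-1) ^ (a : ℕ) * (L.submatrix (fun b => I (a.succAbove b)) J).det * L (I a) j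
          else 0 := by
        intro i
        rw [hc]
        simp only
        rw [Finset.sum_mul]
        refine Finset.sum_congr rfl fun a _ => ?_
        split_ifs with h
        · rw [h]
        · rw [zero_mul]
      rw [Finset.sum_congr rfl fun i _ => h2 i, Finset.sum_comm]
      refine Finset.sum_congr rfl fun a _ => ?_
      rw [Finset.sum_ite_eq, if_pos (Finset.mem_univ _), hcI]
    rw [h1]
    refine Finset.sum_congr rfl fun a _ => ?_
    rw [hcI]
    have h3 : (L.submatrix I (Fin.cons j J : Fin (s + 1) → Fin m)).submatrix a.succAbove Fin.succ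
        = L.submatrix (fun b => I (a.succAbove b)) J := by
      ext b b'
      simp only [Matrix.submatrix_apply, Fin.cons_succ]
    rw [h3]
    simp only [Matrix.submatrix_apply, Fin.cons_zero]
    ring

theorem lk_injective (L : Matrix (Fin r) (Fin m) R) {s : ℕ} (I : Fin s → Fin r)
    (J : Fin s → Fin m) (h : (L.submatrix I J).det ≠ 0) : Function.Injective I := by
  intro a b hab
  by_contra hne
  refine h (Matrix.det_zero_of_row_eq hne ?_)
  funext j
  simp only [Matrix.submatrix_apply, hab]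

/-- minors of full size -/
theorem lk_full (L : Matrix (Fin r) (Fin m) R) (I : Fin r → Fin r) (J : Fin r → Fin m) :
    (L.submatrix I J).det = 0 ∨ ∃ a : ℕ, (L.submatrix I J).det =
      (-1) ^ a * (L.submatrix id J).det := by
  by_cases hI : Function.Injective I
  · right
    have hb : Function.Bijective I := Finite.injective_iff_bijective.1 hI
    obtain ⟨σ, hσ⟩ : ∃ σ : Equiv.Perm (Fin r), ∀ a, σ a = I a :=
      ⟨Equiv.ofBijective I hb, fun a => rfl⟩
    have h1 : L.submatrix I J = (L.submatrix id J).submatrix σ id := by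
      ext a b
      simp only [Matrix.submatrix_apply, hσ, id]
    rw [h1, Matrix.det_permute]
    rcases Int.units_eq_one_or (Equiv.Perm.sign σ) with h | h
    · exact ⟨0, by rw [h]; simp⟩
    · exact ⟨1, by rw [h]; simp⟩
  · left
    by_contra h
    exact hI (lk_injective L I J h)

end aux

theorem left_kernel_padic {r m : ℕ} (hr : 1 ≤ r) (L : Matrix (Fin r) (Fin m) ℤ) (p k : ℕ)
    (hp : p.Prime) (h : ∀ J : Fin r → Fin m, (p : ℤ) ^ (r * k) ∣ (L.submatrix id J).det) :
    ∃ c : Fin r → ℤ, (∃ i, ¬ (p : ℤ) ∣ c i) ∧ ∀ j, (p : ℤ) ^ k ∣ ∑ i, c i * L i j := by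
  classical
  have hp0 : (p : ℤ) ≠ 0 := by exact_mod_cast hp.ne_zero
  have hP : ∃ s : ℕ, ∀ (I : Fin (s + 1) → Fin r) (J : Fin (s + 1) → Fin m),
      (p : ℤ) ^ ((s + 1) * k) ∣ (L.submatrix I J).det := by
    obtain ⟨s, rfl⟩ : ∃ s, r = s + 1 := ⟨r - 1, by omega⟩
    refine ⟨s, fun I J => ?_⟩
    rcases lk_full L I J with h1 | ⟨a, h1⟩
    · rw [h1]
      exact dvd_zero _
    · rw [h1]
      exact Dvd.dvd.mul_left (h J) _
  have hsr : Nat.find hP < r := by
    obtain ⟨s, rfl⟩ : ∃ s, r = s + 1 := ⟨r - 1, by omega⟩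
    have : Nat.find hP ≤ s := by
      refine Nat.find_min' hP fun I J => ?_
      rcases lk_full L I J with h1 | ⟨a, h1⟩
      · rw [h1]
        exact dvd_zero _
      · rw [h1]
        exact Dvd.dvd.mul_left (h J) _
    omega
  have hs := Nat.find_spec hP
  have hmin : ∀ t, t < Nat.find hP → ¬ ∀ (I : Fin (t + 1) → Fin r) (J : Fin (t + 1) → Fin m),
      (p : ℤ) ^ ((t + 1) * k) ∣ (L.submatrix I J).det := fun t ht => Nat.find_min hP ht
  generalize Nat.find hP = s at hs hsr hmin
  have hW : ∃ w : ℕ, ∃ (I : Fin s → Fin r) (J : Fin s → Fin m),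
      ¬ (p : ℤ) ^ (w + 1) ∣ (L.submatrix I J).det := by
    rcases Nat.eq_zero_or_pos s with rfl | hspos
    · refine ⟨0, fun a => a.elim0, fun a => a.elim0, ?_⟩
      rw [Matrix.det_isEmpty]
      intro h1
      have h2 : IsUnit ((p : ℤ) ^ (0 + 1)) := isUnit_of_dvd_one h1
      rw [zero_add, pow_one, Int.isUnit_iff] at h2
      have := hp.two_le
      omega
    · obtain ⟨t, rfl⟩ : ∃ t, s = t + 1 := ⟨s - 1, by omega⟩
      have h1 := hmin t (by omega)
      push Not at h1
      obtain ⟨I, J, hIJ⟩ := h1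
      exact ⟨(t + 1) * k, I, J, fun h2 => hIJ ((pow_dvd_pow _ (by omega)).trans h2)⟩
  have hwle : Nat.find hW ≤ s * k := by
    rcases Nat.eq_zero_or_pos s with rfl | hspos
    · refine le_trans (Nat.find_min' hW (m := 0) ?_) (Nat.zero_le _)
      refine ⟨fun a => a.elim0, fun a => a.elim0, ?_⟩
      rw [Matrix.det_isEmpty]
      intro h1
      have h2 : IsUnit ((p : ℤ) ^ (0 + 1)) := isUnit_of_dvd_one h1
      rw [zero_add, pow_one, Int.isUnit_iff] at h2
      have := hp.two_le
      omega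
    · obtain ⟨t, rfl⟩ : ∃ t, s = t + 1 := ⟨s - 1, by omega⟩
      have h1 := hmin t (by omega)
      push Not at h1
      obtain ⟨I, J, hIJ⟩ := h1
      exact Nat.find_min' hW ⟨I, J, fun h2 => hIJ ((pow_dvd_pow _ (by omega)).trans h2)⟩
  have hw := Nat.find_spec hW
  have hwmin : ∀ t, t < Nat.find hW → ¬ ∃ (I : Fin s → Fin r) (J : Fin s → Fin m),
      ¬ (p : ℤ) ^ (t + 1) ∣ (L.submatrix I J).det := fun t ht => Nat.find_min hW ht
  generalize Nat.find hW = w at hw hwle hwmin
  obtain ⟨I0, J0, hIJ⟩ := hw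
  have hall : ∀ (I : Fin s → Fin r) (J : Fin s → Fin m),
      (p : ℤ) ^ w ∣ (L.submatrix I J).det := by
    intro I J
    rcases Nat.eq_zero_or_pos w with rfl | hwpos
    · rw [pow_zero]
      exact one_dvd _
    · have h1 := hwmin (w - 1) (by omega)
      push Not at h1
      have h2 := h1 I J
      rwa [Nat.sub_add_cancel hwpos] at h2
  have hne : (L.submatrix I0 J0).det ≠ 0 := fun h0 => hIJ (by rw [h0]; exact dvd_zero _)
  obtain ⟨c, i1, hc1, hc2, hc3⟩ := lk_combination L hsr I0 (lk_injective L I0 J0 hne) J0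
  have hcd : ∀ i, (p : ℤ) ^ w ∣ c i := by
    intro i
    rcases hc2 i with h1 | ⟨a, I, h1⟩
    · rw [h1]
      exact dvd_zero _
    · rw [h1]
      exact Dvd.dvd.mul_left (hall I J0) _
  choose c' hc' using hcd
  refine ⟨c', ⟨i1, fun h1 => hIJ ?_⟩, fun j => ?_⟩
  · rw [← hc1, hc', pow_succ]
    exact mul_dvd_mul_left _ h1
  · obtain ⟨I, J, h1⟩ := hc3 j
    have h2 : ∑ i, c i * L i j = (p : ℤ) ^ w * ∑ i, c' i * L i j := by
      rw [Finset.mul_sum]
      refine Finset.sum_congr rfl fun i _ => ?_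
      rw [hc' i, mul_assoc]
    have h3 : (p : ℤ) ^ (w + k) ∣ (p : ℤ) ^ w * ∑ i, c' i * L i j := by
      rw [← h2, h1]
      refine (pow_dvd_pow _ ?_).trans (hs I J)
      rw [add_mul, one_mul]
      omega
    rw [pow_add] at h3
    exact (mul_dvd_mul_iff_left (pow_ne_zero _ hp0)).1 h3

theorem left_kernel_real {r m : ℕ} (hr : 1 ≤ r) (L : Matrix (Fin r) (Fin m) ℝ) (bet : ℝ)
    (hb : 0 < bet) (h : ∀ J : Fin r → Fin m, |(L.submatrix id J).det| < bet ^ r) :
    ∃ c : Fin r → ℝ, (∀ i, |c i| ≤ 1) ∧ (∃ i, c i = 1) ∧ ∀ j, |∑ i, c i * L i j| ≤ bet := by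
  classical
  have hPr : ∀ (I : Fin r → Fin r) (J : Fin r → Fin m), |(L.submatrix I J).det| < bet ^ r := by
    intro I J
    rcases lk_full L I J with h1 | ⟨a, h1⟩
    · rw [h1, abs_zero]
      positivity
    · rw [h1, abs_mul, abs_pow, abs_neg, abs_one, one_pow, one_mul]
      exact h J
  have hP : ∃ s : ℕ, ∀ (I : Fin s → Fin r) (J : Fin s → Fin m),
      |(L.submatrix I J).det| < bet ^ s := ⟨r, hPr⟩
  have hsr : Nat.find hP ≤ r := Nat.find_min' hP hPr
  have hs := Nat.find_spec hP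
  have hmin : ∀ t, t < Nat.find hP → ¬ ∀ (I : Fin t → Fin r) (J : Fin t → Fin m),
      |(L.submatrix I J).det| < bet ^ t := fun t ht => Nat.find_min hP ht
  generalize Nat.find hP = s' at hs hsr hmin
  obtain ⟨s, rfl⟩ : ∃ s, s' = s + 1 := by
    rcases Nat.eq_zero_or_pos s' with rfl | hpos
    · have h1 := hs (fun a => a.elim0) (fun a => a.elim0)
      rw [Matrix.det_isEmpty] at h1
      norm_num at h1
    · exact ⟨s' - 1, by omega⟩
  have h1 := hmin s (by omega)
  push Not at h1
  obtain ⟨I1, J1, hIJ1⟩ := h1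
  have : Nonempty ((Fin s → Fin r) × (Fin s → Fin m)) := ⟨(I1, J1)⟩
  obtain ⟨⟨I0, J0⟩, hmax⟩ := Finite.exists_max
    (fun q : (Fin s → Fin r) × (Fin s → Fin m) => |(L.submatrix q.1 q.2).det|)
  have hD : bet ^ s ≤ |(L.submatrix I0 J0).det| := hIJ1.trans (hmax (I1, J1))
  have hDpos : 0 < |(L.submatrix I0 J0).det| := lt_of_lt_of_le (by positivity) hD
  have hne : (L.submatrix I0 J0).det ≠ 0 := abs_pos.1 hDpos
  obtain ⟨c, i1, hc1, hc2, hc3⟩ :=
    lk_combination L (by omega) I0 (lk_injective L I0 J0 hne) J0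
  refine ⟨fun i => c i / (L.submatrix I0 J0).det, fun i => ?_, ⟨i1, ?_⟩, fun j => ?_⟩
  · rw [abs_div, div_le_one hDpos]
    rcases hc2 i with h1 | ⟨a, I, h1⟩
    · rw [h1, abs_zero]
      exact hDpos.le
    · rw [h1, abs_mul, abs_pow, abs_neg, abs_one, one_pow, one_mul]
      exact hmax (I, J0)
  · simp only
    rw [hc1, div_self hne]
  · obtain ⟨I, J, h1⟩ := hc3 j
    have h2 : ∑ i, c i / (L.submatrix I0 J0).det * L i j =
        (L.submatrix I J).det / (L.submatrix I0 J0).det := by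
      rw [← h1, Finset.sum_div]
      refine Finset.sum_congr rfl fun i _ => ?_
      ring
    rw [h2, abs_div, div_le_iff₀ hDpos]
    calc |(L.submatrix I J).det| ≤ bet ^ (s + 1) := (hs I J).le
      _ = bet * bet ^ s := by ring
      _ ≤ bet * |(L.submatrix I0 J0).det| := mul_le_mul_of_nonneg_left hD hb.le

end CIHP
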