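import Pool.Agent.Lib.MP_e426f4_ag.CI.Basic
import Pool.Agent.Lib.MP_e426f4_ag.G.Alg
import Pool.Agent.Lib.MP_e426f4_ag.M.Spec
import Pool.Agent.Lib.MP_e426f4_ag.CI.LeftKernel

/-! Module CI-EP1: systems with a bad `p`-adic zero are few. -/

namespace CIHP

open Finset Filter Topology GenHP

/-- the special exponent `X_{j0}^{d-1} X_j` -/
def sx {n d : ℕ} (j0 j : Fin (n + 1)) : Idx n d := mk fun i => if (i : ℕ) = 0 then j else j0

theorem sx_self {n d : ℕ} (j0 : Fin (n + 1)) : (sx j0 j0 : Idx n d) = mk fun _ => j0 := by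
  unfold sx
  congr 1
  funext i
  simp

theorem sx_apply {n d : ℕ} (hd : 1 ≤ d) (j0 j a : Fin (n + 1)) (hj : j ≠ j0) :
    (sx j0 j : Idx n d).1 a = if a = j then 1 else if a = j0 then d - 1 else 0 :=
  msp_mk_one hd j0 j hj a

theorem sx_self_apply {n d : ℕ} (j0 a : Fin (n + 1)) :
    (sx j0 j0 : Idx n d).1 a = if a = j0 then d else 0 := by
  rw [sx_self]
  exact msp_mk_const j0 a

theorem sx_inj {n d : ℕ} (hd : 1 ≤ d) (j0 : Fin (n + 1)) :
    Function.Injective (fun j => (sx j0 j : Idx n d)) := by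
  have key : ∀ j j' : Fin (n + 1), (sx j0 j : Idx n d) = sx j0 j' → j ≠ j0 → j = j' := by
    intro j j' h hj
    by_contra hne
    have h1 : (sx j0 j : Idx n d).1 j = (sx j0 j' : Idx n d).1 j := by rw [h]
    rw [sx_apply hd j0 j j hj, if_pos rfl] at h1
    by_cases hj' : j' = j0
    · rw [hj', sx_self_apply, if_neg hj] at h1
      exact one_ne_zero h1
    · rw [sx_apply hd j0 j' j hj', if_neg hne, if_neg hj] at h1
      exact one_ne_zero h1
  intro j j' h
  by_cases hj : j = j0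
  · by_cases hj' : j' = j0
    · rw [hj, hj']
    · exact (key j' j h.symm hj').symm
  · exact key j j' h hj

section ring
variable {R : Type*} [CommRing R]

theorem mon_sx {n d : ℕ} (j0 : Fin (n + 1)) (x : Fin (n + 1) → R) (hx : x j0 = 1) :
    mon x (sx j0 j0 : Idx n d).1 = 1 := by
  rw [sx_self, mon_mk]
  simp [hx]

theorem dmon_sx {n d : ℕ} (hd : 1 ≤ d) (j0 j j' : Fin (n + 1)) (hj : j ≠ j0)
    (x : Fin (n + 1) → R) (hx : x j0 = 1) :
    dmon x j (sx j0 j' : Idx n d).1 = if j' = j then 1 else 0 := by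
  by_cases h : j' = j
  · subst h
    rw [if_pos rfl]
    unfold dmon
    have h1 : ∀ a, x a ^ (if a = j' then (sx j0 j' : Idx n d).1 a - 1
        else (sx j0 j' : Idx n d).1 a) = 1 := by
      intro a
      rw [sx_apply hd j0 j' a hj]
      by_cases ha : a = j'
      · rw [if_pos ha, if_pos ha]
        simp
      · rw [if_neg ha, if_neg ha]
        by_cases ha0 : a = j0
        · rw [if_pos ha0, ha0, hx, one_pow]
        · rw [if_neg ha0, pow_zero]
    rw [Finset.prod_congr rfl fun a _ => h1 a, Finset.prod_const_one, sx_apply hd j0 j' j' hj,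
      if_pos rfl]
    simp
  · rw [if_neg h]
    unfold dmon
    have h1 : (sx j0 j' : Idx n d).1 j = 0 := by
      by_cases hj' : j' = j0
      · rw [hj', sx_self_apply, if_neg hj]
      · rw [sx_apply hd j0 j' j hj', if_neg (fun h' => h h'.symm), if_neg hj]
    rw [h1]
    simp

/-- two forms that agree off the special exponents -/
theorem D_sub_special {n d : ℕ} (hd : 1 ≤ d) (j0 j : Fin (n + 1)) (hj : j ≠ j0)
    (a a' : Idx n d → R) (x : Fin (n + 1) → R) (hx : x j0 = 1)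
    (h : ∀ t, (∀ j', t ≠ sx j0 j') → a t = a' t) :
    D a x j - D a' x j = a (sx j0 j) - a' (sx j0 j) := by
  unfold D
  rw [← Finset.sum_sub_distrib]
  rw [Finset.sum_eq_single (sx j0 j)]
  · rw [dmon_sx hd j0 j j hj x hx, if_pos rfl]
    ring
  · intro t _ ht
    by_cases h1 : ∀ j', t ≠ sx j0 j'
    · rw [h t h1, sub_self]
    · push Not at h1
      obtain ⟨j', rfl⟩ := h1
      have hne : j' ≠ j := fun h2 => ht (by rw [h2])
      rw [dmon_sx hd j0 j j' hj x hx, if_neg hne]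
      ring
  · intro h1
    exact absurd (Finset.mem_univ _) h1

theorem D_sub_top {n d : ℕ} (hd : 1 ≤ d) (j0 j : Fin (n + 1)) (hj : j ≠ j0)
    (a a' : Idx n d → R) (x : Fin (n + 1) → R) (hx : x j0 = 1)
    (h : ∀ t, t ≠ sx j0 j0 → a t = a' t) : D a x j - D a' x j = 0 := by
  rw [D_sub_special hd j0 j hj a a' x hx fun t ht => h t (ht j0)]
  rw [h _ fun h1 => hj (sx_inj hd j0 h1), sub_self]

theorem F_sub_top {n d : ℕ} (j0 : Fin (n + 1)) (a a' : Idx n d → R) (x : Fin (n + 1) → R)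
    (hx : x j0 = 1) (h : ∀ t, t ≠ sx j0 j0 → a t = a' t) :
    F a x - F a' x = a (sx j0 j0) - a' (sx j0 j0) := by
  unfold F
  rw [← Finset.sum_sub_distrib]
  rw [Finset.sum_eq_single (sx j0 j0)]
  · rw [mon_sx j0 x hx]
    ring
  · intro t _ ht
    rw [h t ht, sub_self]
  · intro h1
    exact absurd (Finset.mem_univ _) h1

end ring

/-- the special coefficients -/
def Spc {n r : ℕ} {e : Fin r → ℕ} (i0 : Fin r) (j0 : Fin (n + 1)) (i : Fin r)
    (t : Idx n (e i)) : Prop := t = sx j0 j0 ∨ (i = i0 ∧ ∃ j, t = sx j0 j)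

open Classical in
theorem prod_spc {n r : ℕ} {e : Fin r → ℕ} (he : ∀ i, 1 ≤ e i) (i0 : Fin r) (j0 : Fin (n + 1))
    (q : ℝ) : ∏ i : Fin r, ∏ t : Idx n (e i), (if Spc (e := e) i0 j0 i t then q else 1) =
      q ^ (n + r) := by
  have h1 : ∀ i : Fin r, ∏ t : Idx n (e i), (if Spc (e := e) i0 j0 i t then q else 1) =
      q ^ (1 + if i = i0 then n else 0) := by
    intro i
    rw [Finset.prod_ite, Finset.prod_const_one, mul_one, Finset.prod_const]
    congr 1
    by_cases hi : i = i0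
    · rw [if_pos hi]
      have h2 : (univ : Finset (Idx n (e i))).filter (fun t => Spc (e := e) i0 j0 i t) =
          (univ : Finset (Fin (n + 1))).image (fun j => sx j0 j) := by
        ext t
        rw [Finset.mem_filter, Finset.mem_image]
        constructor
        · rintro ⟨-, h | ⟨-, j, h⟩⟩
          · exact ⟨j0, Finset.mem_univ _, h.symm⟩
          · exact ⟨j, Finset.mem_univ _, h.symm⟩
        · rintro ⟨j, -, h⟩
          exact ⟨Finset.mem_univ _, Or.inr ⟨hi, j, h.symm⟩⟩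
      rw [h2, Finset.card_image_of_injective _ (sx_inj (he i) j0), Finset.card_univ,
        Fintype.card_fin]
      ring
    · rw [if_neg hi]
      have h2 : (univ : Finset (Idx n (e i))).filter (fun t => Spc (e := e) i0 j0 i t) =
          {sx j0 j0} := by
        ext t
        rw [Finset.mem_filter, Finset.mem_singleton]
        constructor
        · rintro ⟨-, h | ⟨h, -⟩⟩
          · exact h
          · exact absurd h hi
        · exact fun h => ⟨Finset.mem_univ _, Or.inl h⟩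
      rw [h2, Finset.card_singleton]
  rw [Finset.prod_congr rfl fun i _ => h1 i, Finset.prod_pow_eq_pow_sum, Finset.sum_add_distrib,
    Finset.sum_ite_eq' univ i0, if_pos (Finset.mem_univ _)]
  simp only [Finset.sum_const, Finset.card_univ, Fintype.card_fin, smul_eq_mul, mul_one]
  congr 1
  ring

/-- the congruence conditions at a normalised point -/
def EPc {n r : ℕ} {e : Fin r → ℕ} (N : ℤ) (A : Sys n e ℤ) (x : Fin (n + 1) → ℤ)
    (c : Fin r → ℤ) : Prop :=
  (∀ i, N ∣ F (A i) x) ∧ ∀ j, N ∣ ∑ i, c i * D (A i) x j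

theorem ep_inj {n r : ℕ} {e : Fin r → ℕ} (he : ∀ i, 1 ≤ e i) (N : ℤ) (i0 : Fin r)
    (j0 : Fin (n + 1)) (x : Fin (n + 1) → ℤ) (hx : x j0 = 1) (c : Fin r → ℤ) (hc : c i0 = 1)
    (A A' : Sys n e ℤ) (hA : EPc N A x c) (hA' : EPc N A' x c)
    (h0 : ∀ i t, ¬ Spc (e := e) i0 j0 i t → A i t = A' i t)
    (h : ∀ i t, Spc (e := e) i0 j0 i t → A i t / N = A' i t / N) : A = A' := by
  have key : ∀ a a' : ℤ, a / N = a' / N → N ∣ a - a' → a = a' := by
    intro a a' h1 h2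
    have h3 : a % N = a' % N :=
      Int.emod_eq_emod_iff_emod_sub_eq_zero.mpr (Int.emod_eq_zero_of_dvd h2)
    rw [← Int.mul_ediv_add_emod a N, ← Int.mul_ediv_add_emod a' N, h1, h3]
  -- forms with `i ≠ i0`
  have htop : ∀ i, i ≠ i0 → ∀ t, t ≠ sx j0 j0 → A i t = A' i t := by
    intro i hi t ht
    apply h0
    rintro (h1 | ⟨h1, -⟩)
    · exact ht h1
    · exact hi h1
  have hspec : ∀ t, (∀ j', t ≠ sx j0 j') → A i0 t = A' i0 t := by
    intro t ht
    apply h0
    rintro (h1 | ⟨-, j, h1⟩)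
    · exact ht j0 h1
    · exact ht j h1
  -- the special coefficients of the form `i0`
  have h1 : ∀ j, j ≠ j0 → A i0 (sx j0 j) = A' i0 (sx j0 j) := by
    intro j hj
    apply key _ _ (h i0 _ (Or.inr ⟨rfl, j, rfl⟩))
    have h2 := dvd_sub (hA.2 j) (hA'.2 j)
    rw [← Finset.sum_sub_distrib] at h2
    have h3 : ∑ i, (c i * D (A i) x j - c i * D (A' i) x j) =
        A i0 (sx j0 j) - A' i0 (sx j0 j) := by
      rw [Finset.sum_eq_single i0]
      · rw [hc, one_mul, one_mul]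
        exact D_sub_special (he i0) j0 j hj _ _ x hx hspec
      · intro i _ hi
        rw [← mul_sub, D_sub_top (he i) j0 j hj _ _ x hx (htop i hi), mul_zero]
      · intro h4
        exact absurd (Finset.mem_univ _) h4
    rw [h3] at h2
    exact h2
  have htop' : ∀ i t, t ≠ sx j0 j0 → A i t = A' i t := by
    intro i t ht
    by_cases hi : i = i0
    · subst hi
      by_cases h2 : ∀ j', t ≠ sx j0 j'
      · exact hspec t h2
      · push Not at h2
        obtain ⟨j', rfl⟩ := h2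
        exact h1 j' fun h3 => ht (by rw [h3])
    · exact htop i hi t ht
  funext i t
  by_cases ht : t = sx j0 j0
  · subst ht
    apply key _ _ (h i _ (Or.inl rfl))
    have h2 := dvd_sub (hA.1 i) (hA'.1 i)
    rw [F_sub_top j0 _ _ x hx (htop' i)] at h2
    exact h2
  · exact htop' i t ht

/-- number of quotients -/
theorem ep_card_Icc (H m : ℕ) (hm : 1 ≤ m) (hH : m ≤ H) :
    ((Finset.Icc (-(H : ℤ) / m) ((H : ℤ) / m)).card : ℝ) ≤ (2 * H + 1) * (2 / m) := by
  have hm0 : (0 : ℤ) < m := by exact_mod_cast hm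
  have hmR : (0 : ℝ) < m := by exact_mod_cast hm
  have h1 : -(H : ℤ) / m ≤ (H : ℤ) / m := Int.ediv_le_ediv hm0 (by omega)
  rw [Int.card_Icc]
  have h2 : (((H : ℤ) / m + 1 - -(H : ℤ) / m).toNat : ℝ)
      = (((H : ℤ) / m + 1 - -(H : ℤ) / m : ℤ) : ℝ) := by
    have h3 : (0 : ℤ) ≤ (H : ℤ) / m + 1 - -(H : ℤ) / m := by omega
    have h4 := Int.toNat_of_nonneg h3
    exact_mod_cast h4
  rw [h2]
  have h3 : (((H : ℤ) / m : ℤ) : ℝ) ≤ (H : ℝ) / m := by
    rw [le_div_iff₀ hmR]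
    have := Int.ediv_mul_le (H : ℤ) hm0.ne'
    exact_mod_cast this
  have h4 : (-(H : ℝ)) / m - 1 ≤ ((-(H : ℤ) / m : ℤ) : ℝ) := by
    have h5 := Int.lt_ediv_add_one_mul_self (-(H : ℤ)) hm0
    have h6 : (-(H : ℝ)) < (((-(H : ℤ) / m : ℤ) : ℝ) + 1) * m := by exact_mod_cast h5
    have h7 : (-(H : ℝ)) / m < (((-(H : ℤ) / m : ℤ) : ℝ) + 1) := by
      rw [div_lt_iff₀ hmR]; exact h6
    linarith
  push_cast
  have h5 : (1 : ℝ) ≤ (H : ℝ) / m := by
    rw [le_div_iff₀ hmR, one_mul]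
    exact_mod_cast hH
  have h6 : (H : ℝ) / m + 1 - (-(H : ℝ) / m - 1) = 2 * ((H : ℝ) / m) + 2 := by ring
  have h7 : (2 * (H : ℝ) + 1) * (2 / m) = 4 * ((H : ℝ) / m) + 2 / m := by ring
  have h8 : (0 : ℝ) < 2 / m := by positivity
  rw [h7]
  linarith

theorem ep_count {n r : ℕ} {e : Fin r → ℕ} (he : ∀ i, 1 ≤ e i) (N : ℕ) (hN : 1 ≤ N)
    (i0 : Fin r) (j0 : Fin (n + 1)) (x : Fin (n + 1) → ℤ) (hx : x j0 = 1) (c : Fin r → ℤ)
    (hc : c i0 = 1) (H : ℕ) (hH : N ≤ H) :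
    (Set.ncard {A : Sys n e ℤ | A ∈ box n e H ∧ EPc (N : ℤ) A x c} : ℝ) ≤
      (2 * H + 1) ^ NS n e * (2 / (N : ℝ)) ^ (n + r) := by
  classical
  have hNR : (0 : ℝ) < N := by exact_mod_cast hN
  set m : ∀ i : Fin r, Idx n (e i) → ℕ := fun i t => if Spc (e := e) i0 j0 i t then N else 1
    with hm
  have hm1 : ∀ i t, 1 ≤ m i t := by
    intro i t
    simp only [hm]
    split_ifs
    · exact hN
    · exact le_rfl
  set Φ : Sys n e ℤ → Sys n e ℤ := fun A i t => A i t / (m i t : ℤ) with hΦ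
  set Bx : Finset (Sys n e ℤ) := Fintype.piFinset fun i => Fintype.piFinset fun t =>
    Finset.Icc (-(H : ℤ) / (m i t : ℤ)) ((H : ℤ) / (m i t : ℤ)) with hBx
  have h1 : Set.ncard {A : Sys n e ℤ | A ∈ box n e H ∧ EPc (N : ℤ) A x c} ≤ Bx.card := by
    rw [← Set.ncard_coe_finset]
    refine Set.ncard_le_ncard_of_injOn Φ ?_ ?_ Bx.finite_toSet
    · intro A hA
      rw [Finset.mem_coe, hBx, Fintype.mem_piFinset]
      intro i
      rw [Fintype.mem_piFinset]
      intro t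
      rw [Finset.mem_Icc, hΦ]
      have h3 := abs_le.mp (hA.1 i t)
      have h4 : (0 : ℤ) < (m i t : ℤ) := by exact_mod_cast hm1 i t
      exact ⟨Int.ediv_le_ediv h4 h3.1, Int.ediv_le_ediv h4 h3.2⟩
    · intro A hA A' hA' hAA
      have h5 : ∀ i t, A i t / (m i t : ℤ) = A' i t / (m i t : ℤ) := fun i t =>
        congrFun (congrFun hAA i) t
      refine ep_inj he (N : ℤ) i0 j0 x hx c hc A A' hA.2 hA'.2 (fun i t ht => ?_)
        (fun i t ht => ?_)
      · have := h5 i t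
        simp only [hm, if_neg ht] at this
        simpa using this
      · have := h5 i t
        simp only [hm, if_pos ht] at this
        exact this
  have h2 : (Bx.card : ℝ) ≤ (2 * H + 1) ^ NS n e * (2 / (N : ℝ)) ^ (n + r) := by
    rw [hBx, Fintype.card_piFinset]
    push_cast
    have h3 : ∀ (i : Fin r) (t : Idx n (e i)),
        ((Finset.Icc (-(H : ℤ) / (m i t : ℤ)) ((H : ℤ) / (m i t : ℤ))).card : ℝ) ≤
        (2 * H + 1) * (if Spc (e := e) i0 j0 i t then (2 / (N : ℝ)) else 1) := by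
      intro i t
      by_cases ht : Spc (e := e) i0 j0 i t
      · simp only [hm, if_pos ht]
        exact ep_card_Icc H N hN hH
      · simp only [hm, if_neg ht]
        rw [Int.card_Icc]
        have : ((H : ℤ) / ((1 : ℕ) : ℤ) + 1 - -(H : ℤ) / ((1 : ℕ) : ℤ)) = ((2 * H + 1 : ℕ) : ℤ) := by
          push_cast
          rw [Int.ediv_one, Int.ediv_one]
          ring
        rw [this, Int.toNat_natCast]
        push_cast
        linarith
    have h4 : ∏ i : Fin r, ((Fintype.piFinset fun t =>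
        Finset.Icc (-(H : ℤ) / (m i t : ℤ)) ((H : ℤ) / (m i t : ℤ))).card : ℝ) ≤
        ∏ i : Fin r, ∏ t : Idx n (e i),
          ((2 * H + 1) * (if Spc (e := e) i0 j0 i t then (2 / (N : ℝ)) else 1)) := by
      refine Finset.prod_le_prod (fun i _ => Nat.cast_nonneg _) fun i _ => ?_
      rw [Fintype.card_piFinset]
      push_cast
      exact Finset.prod_le_prod (fun t _ => Nat.cast_nonneg _) fun t _ => h3 i t
    refine h4.trans (le_of_eq ?_)
    simp only [Finset.prod_mul_distrib]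
    rw [prod_spc he i0 j0]
    congr 1
    simp only [Finset.prod_const, Finset.card_univ]
    rw [Finset.prod_pow_eq_pow_sum]
    rfl
  exact (by exact_mod_cast h1 : (_ : ℝ) ≤ (Bx.card : ℝ)).trans h2

/-- normalisation of a point and of a linear combination of the gradients -/
theorem ep_norm {n r : ℕ} {e : Fin r → ℕ} (p k : ℕ) (hp : p.Prime) (hk : 1 ≤ k)
    (A : Sys n e ℤ) (x : Fin (n + 1) → ℤ) (j0 : Fin (n + 1)) (hx : ¬ (p : ℤ) ∣ x j0)
    (c : Fin r → ℤ) (i0 : Fin r) (hc : ¬ (p : ℤ) ∣ c i0) (hA : EPc ((p : ℤ) ^ k) A x c) :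
    ∃ (y : Fin (n + 1) → ℤ) (b : Fin r → ℤ), y j0 = 1 ∧ b i0 = 1 ∧
      (∀ v, 0 ≤ y v ∧ y v < (p : ℤ) ^ k) ∧ (∀ i, 0 ≤ b i ∧ b i < (p : ℤ) ^ k) ∧
      EPc ((p : ℤ) ^ k) A y b := by
  have hpp : Prime (p : ℤ) := Nat.prime_iff_prime_int.mp hp
  have hp0 : (0 : ℤ) < p := by exact_mod_cast hp.pos
  have hp1 : (1 : ℤ) < p := by exact_mod_cast hp.one_lt
  have hpk0 : (0 : ℤ) < (p : ℤ) ^ k := pow_pos hp0 _
  have hpk1 : (1 : ℤ) < (p : ℤ) ^ k := one_lt_pow₀ hp1 (by omega)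
  have hinv : ∀ z : ℤ, ¬ (p : ℤ) ∣ z → ∃ u : ℤ, (p : ℤ) ^ k ∣ u * z - 1 := by
    intro z hz
    have h1 : IsCoprime ((p : ℤ) ^ k) z :=
      IsCoprime.pow_left (hpp.coprime_iff_not_dvd.mpr hz)
    obtain ⟨a, b, hab⟩ := h1
    exact ⟨b, -a, by linear_combination hab⟩
  obtain ⟨u, hu⟩ := hinv (x j0) hx
  have hc' : ¬ (p : ℤ) ∣ c i0 * x j0 ^ (e i0 - 1) := by
    intro h1
    rcases hpp.dvd_or_dvd h1 with h2 | h2
    · exact hc h2
    · exact hx (hpp.dvd_of_dvd_pow h2)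
  obtain ⟨v, hv⟩ := hinv _ hc'
  set y' : Fin (n + 1) → ℤ := fun a => u * x a with hy'
  set b' : Fin r → ℤ := fun i => v * (c i * x j0 ^ (e i - 1)) with hb'
  have hF' : ∀ i, (p : ℤ) ^ k ∣ F (A i) y' := by
    intro i
    rw [hy', F_scale]
    exact (hA.1 i).mul_left _
  have hpow : ∀ l : ℕ, (p : ℤ) ^ k ∣ (x j0 * u) ^ l - 1 := by
    intro l
    have h1 : (x j0 * u) - 1 ∣ (x j0 * u) ^ l - 1 ^ l := sub_dvd_pow_sub_pow _ _ _
    rw [one_pow] at h1
    have h2 : x j0 * u - 1 = u * x j0 - 1 := by ring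
    rw [h2] at h1
    exact hu.trans h1
  have hD' : ∀ j, (p : ℤ) ^ k ∣ ∑ i, b' i * D (A i) y' j := by
    intro j
    have h1 : ∑ i, b' i * D (A i) y' j = v * ∑ i, (x j0 * u) ^ (e i - 1) * (c i * D (A i) x j) := by
      rw [Finset.mul_sum]
      refine Finset.sum_congr rfl fun i _ => ?_
      rw [hy', D_scale, hb']
      simp only
      rw [mul_pow]
      ring
    rw [h1]
    apply Dvd.dvd.mul_left
    have h2 : ∑ i, (x j0 * u) ^ (e i - 1) * (c i * D (A i) x j) =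
        (∑ i, c i * D (A i) x j) +
          ∑ i, ((x j0 * u) ^ (e i - 1) - 1) * (c i * D (A i) x j) := by
      rw [← Finset.sum_add_distrib]
      exact Finset.sum_congr rfl fun i _ => by ring
    rw [h2]
    exact dvd_add (hA.2 j) (Finset.dvd_sum fun i _ => (hpow _).mul_right _)
  set y : Fin (n + 1) → ℤ := fun a => y' a % (p : ℤ) ^ k with hy
  set b : Fin r → ℤ := fun i => b' i % (p : ℤ) ^ k with hb
  have hyd : ∀ a, (p : ℤ) ^ k ∣ y a - y' a := fun a =>
    ⟨-(y' a / (p : ℤ) ^ k), by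
      have := Int.emod_add_mul_ediv (y' a) ((p : ℤ) ^ k)
      rw [hy]
      simp only
      linear_combination this⟩
  have hbd : ∀ i, (p : ℤ) ^ k ∣ b i - b' i := fun i =>
    ⟨-(b' i / (p : ℤ) ^ k), by
      have := Int.emod_add_mul_ediv (b' i) ((p : ℤ) ^ k)
      rw [hb]
      simp only
      linear_combination this⟩
  have hone : ∀ z : ℤ, (p : ℤ) ^ k ∣ z - 1 → z % (p : ℤ) ^ k = 1 := by
    intro z hz
    have h1 : z % (p : ℤ) ^ k = 1 % (p : ℤ) ^ k :=
      Int.emod_eq_emod_iff_emod_sub_eq_zero.mpr (Int.emod_eq_zero_of_dvd hz)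
    rw [h1]
    exact Int.emod_eq_of_lt zero_le_one hpk1
  refine ⟨y, b, hone _ hu, hone _ hv, fun a => ⟨Int.emod_nonneg _ hpk0.ne',
    Int.emod_lt_of_pos _ hpk0⟩, fun i => ⟨Int.emod_nonneg _ hpk0.ne',
    Int.emod_lt_of_pos _ hpk0⟩, fun i => ?_, fun j => ?_⟩
  · have h1 := F_congr_mod ((p : ℤ) ^ k) (A i) (A i) y y' (fun m => by simp) hyd
    have h2 := dvd_add h1 (hF' i)
    simpa using h2
  · have h1 : (p : ℤ) ^ k ∣ ∑ i, (b i * D (A i) y j - b' i * D (A i) y' j) :=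
      Finset.dvd_sum fun i _ => dvd_mul_sub_mul' _ _ _ _ _ (hbd i)
        (D_congr_mod ((p : ℤ) ^ k) (A i) (A i) y y' j (fun m => by simp) hyd)
    rw [Finset.sum_sub_distrib] at h1
    have h2 := dvd_add h1 (hD' j)
    simpa using h2

theorem padic_exc (n : ℕ) {r : ℕ} (e : Fin r → ℕ) (hr : 1 ≤ r) (he : ∀ i, 1 ≤ e i) :
    ∃ C : ℝ, 0 < C ∧ ∀ p k : ℕ, p.Prime → 1 ≤ k → ∀ᶠ H : ℕ in atTop,
      (Set.ncard {A : Sys n e ℤ | A ∈ box n e H ∧ ∃ x : Fin (n + 1) → ℤ, (∃ i, ¬ (p : ℤ) ∣ x i) ∧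
        (∀ i, ((p : ℤ) ^ k) ∣ F (A i) x) ∧
        ∀ J : Fin r → Fin (n + 1), (p : ℤ) ^ (r * k) ∣ (Jac A x J).det} : ℝ) ≤
        C / (p : ℝ) ^ k * (2 * H + 1) ^ NS n e := by
  classical
  have hrR : (0 : ℝ) < r := by exact_mod_cast hr
  refine ⟨(r : ℝ) * (n + 1) * 2 ^ (n + r), by positivity, ?_⟩
  intro p k hp hk
  filter_upwards [eventually_ge_atTop (p ^ k)] with H hH
  have hpR : (0 : ℝ) < p := by exact_mod_cast hp.pos
  have hqR : (0 : ℝ) < (p : ℝ) ^ k := pow_pos hpR _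
  have hpp : Prime (p : ℤ) := Nat.prime_iff_prime_int.mp hp
  set Y : Fin (n + 1) → Finset (Fin (n + 1) → ℤ) := fun j0 =>
    Fintype.piFinset fun v => if v = j0 then {1} else Finset.Ico (0 : ℤ) ((p : ℤ) ^ k) with hY
  set Bc : Fin r → Finset (Fin r → ℤ) := fun i0 =>
    Fintype.piFinset fun i => if i = i0 then {1} else Finset.Ico (0 : ℤ) ((p : ℤ) ^ k) with hBc
  have hcardI : (Finset.Ico (0 : ℤ) ((p : ℤ) ^ k)).card = p ^ k := by
    rw [Int.card_Ico, sub_zero, ← Nat.cast_pow, Int.toNat_natCast]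
  have hcard : ∀ (α : Type) [Fintype α] [DecidableEq α] (a : α),
      (Fintype.piFinset fun v : α => if v = a then ({1} : Finset ℤ) else
        Finset.Ico (0 : ℤ) ((p : ℤ) ^ k)).card = (p ^ k) ^ (Fintype.card α - 1) := by
    intro α _ _ a
    rw [Fintype.card_piFinset]
    have h1 : ∀ v : α, (if v = a then ({1} : Finset ℤ) else Finset.Ico (0 : ℤ) ((p : ℤ) ^ k)).card
        = if v = a then 1 else p ^ k := by
      intro v
      split_ifs
      · simp
      · exact hcardI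
    rw [Finset.prod_congr rfl fun v _ => h1 v, Finset.prod_ite, Finset.prod_const_one, one_mul,
      Finset.prod_const]
    congr 1
    rw [Finset.filter_not, Finset.filter_eq', if_pos (Finset.mem_univ _),
      Finset.card_sdiff_of_subset (Finset.subset_univ _), Finset.card_singleton, Finset.card_univ]
  set Z : Finset (Σ _ : Fin r × Fin (n + 1), (Fin (n + 1) → ℤ) × (Fin r → ℤ)) :=
    (univ : Finset (Fin r × Fin (n + 1))).sigma fun q => Y q.2 ×ˢ Bc q.1 with hZ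
  set T : (Fin (n + 1) → ℤ) × (Fin r → ℤ) → Set (Sys n e ℤ) := fun q =>
    {A : Sys n e ℤ | A ∈ box n e H ∧ EPc ((p ^ k : ℕ) : ℤ) A q.1 q.2} with hT
  have hfin : ∀ q, (T q).Finite := fun q => (box_finite H).subset fun _ hA => hA.1
  have hpkc : ((p ^ k : ℕ) : ℤ) = (p : ℤ) ^ k := by push_cast; rfl
  have hsub : {A : Sys n e ℤ | A ∈ box n e H ∧ ∃ x : Fin (n + 1) → ℤ, (∃ i, ¬ (p : ℤ) ∣ x i) ∧
        (∀ i, ((p : ℤ) ^ k) ∣ F (A i) x) ∧
        ∀ J : Fin r → Fin (n + 1), (p : ℤ) ^ (r * k) ∣ (Jac A x J).det} ⊆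
      ⋃ z ∈ Z, T z.2 := by
    rintro A ⟨hA, x, ⟨j0, hj0⟩, hF, hJ⟩
    obtain ⟨c, ⟨i0, hi0⟩, hc⟩ := left_kernel_padic hr
      (Matrix.of fun (i : Fin r) (j : Fin (n + 1)) => D (A i) x j) p k hp hJ
    obtain ⟨y, b, hy1, hb1, hy, hb, hE⟩ := ep_norm p k hp hk A x j0 hj0 c i0 hi0
      ⟨hF, fun j => hc j⟩
    refine Set.mem_iUnion₂.mpr ⟨⟨(i0, j0), (y, b)⟩, ?_, hA, by rw [hpkc]; exact hE⟩
    rw [hZ, Finset.mem_sigma]
    refine ⟨Finset.mem_univ _, ?_⟩
    rw [Finset.mem_product, hY, hBc]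
    simp only
    rw [Fintype.mem_piFinset, Fintype.mem_piFinset]
    constructor
    · intro v
      split_ifs with h
      · rw [Finset.mem_singleton, h]
        exact hy1
      · rw [Finset.mem_Ico]
        exact hy v
    · intro i
      split_ifs with h
      · rw [Finset.mem_singleton, h]
        exact hb1
      · rw [Finset.mem_Ico]
        exact hb i
  have h1 : (Set.ncard {A : Sys n e ℤ | A ∈ box n e H ∧ ∃ x : Fin (n + 1) → ℤ,
        (∃ i, ¬ (p : ℤ) ∣ x i) ∧ (∀ i, ((p : ℤ) ^ k) ∣ F (A i) x) ∧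
        ∀ J : Fin r → Fin (n + 1), (p : ℤ) ^ (r * k) ∣ (Jac A x J).det} : ℝ) ≤
      ∑ z ∈ Z, (Set.ncard (T z.2) : ℝ) := by
    have h2 := Set.ncard_le_ncard hsub (Set.Finite.biUnion Z.finite_toSet fun z _ => hfin z.2)
    have h3 := Finset.set_ncard_biUnion_le Z fun z => T z.2
    exact_mod_cast h2.trans h3
  refine h1.trans ?_
  rw [hZ, Finset.sum_sigma]
  have h2 : ∀ q : Fin r × Fin (n + 1), ∑ z ∈ Y q.2 ×ˢ Bc q.1, (Set.ncard (T z) : ℝ) ≤
      2 ^ (n + r) / (p : ℝ) ^ k * (2 * H + 1) ^ NS n e := by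
    intro q
    have h3 : ∑ z ∈ Y q.2 ×ˢ Bc q.1, (Set.ncard (T z) : ℝ) ≤ ∑ z ∈ Y q.2 ×ˢ Bc q.1,
        ((2 * (H : ℝ) + 1) ^ NS n e * (2 / ((p ^ k : ℕ) : ℝ)) ^ (n + r)) := by
      refine Finset.sum_le_sum fun z hz => ?_
      rw [Finset.mem_product, hY, hBc] at hz
      simp only at hz
      rw [Fintype.mem_piFinset, Fintype.mem_piFinset] at hz
      have hz1 : z.1 q.2 = 1 := by
        have := hz.1 q.2
        simpa using this
      have hz2 : z.2 q.1 = 1 := by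
        have := hz.2 q.1
        simpa using this
      exact ep_count he (p ^ k) (Nat.one_le_pow _ _ hp.pos) q.1 q.2 z.1 hz1 z.2 hz2 H hH
    refine h3.trans (le_of_eq ?_)
    rw [Finset.sum_const, Finset.card_product, nsmul_eq_mul]
    have h4 : (Y q.2).card = (p ^ k) ^ n := by
      have := hcard (Fin (n + 1)) q.2
      rw [Fintype.card_fin, Nat.add_sub_cancel] at this
      exact this
    have h5 : (Bc q.1).card = (p ^ k) ^ (r - 1) := by
      have := hcard (Fin r) q.1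
      rw [Fintype.card_fin] at this
      exact this
    rw [h4, h5]
    push_cast
    have h6 : ((p : ℝ) ^ k) ^ (n + r) = ((p : ℝ) ^ k) ^ n * ((p : ℝ) ^ k) ^ (r - 1) *
        (p : ℝ) ^ k := by
      rw [← pow_add, ← pow_succ]
      congr 1
      omega
    rw [div_pow, h6]
    field_simp
  refine (Finset.sum_le_sum fun q _ => h2 q).trans (le_of_eq ?_)
  rw [Finset.sum_const, Finset.card_univ, Fintype.card_prod, Fintype.card_fin, Fintype.card_fin,
    nsmul_eq_mul]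
  push_cast
  ring

end CIHP
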