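import Pool.Agent.Lib.MP_e426f4_ag.CI.Basic
import Pool.Agent.Lib.MP_e426f4_ag.CI.LeftKernel
import Pool.Agent.Lib.MP_e426f4_ag.G.AlgReal

/-! # CI-ER: exceptional systems at the real place -/

namespace CIHP

open Finset Filter GenHP

/-! ### Counting with triangular conditions -/

section tri

theorem er_prod_ite {I : Type*} [Fintype I] [DecidableEq I] (K : Finset I) (c : ℕ) :
    ∏ t : I, (if t ∈ K then c else 1) = c ^ K.card := by
  rw [Finset.prod_ite_mem, Finset.univ_inter, Finset.prod_const]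

/-- a set of vectors which agree off `T` -/
theorem er_fibre {I : Type*} [Fintype I] [DecidableEq I] (T : Finset I) (S : Finset (I → ℤ))
    (N : ℕ) (hag : ∀ A ∈ S, ∀ A' ∈ S, ∀ t, t ∉ T → A t = A' t)
    (h : ∀ t ∈ T, (S.image fun A => A t).card ≤ N) : S.card ≤ N ^ T.card := by
  classical
  rcases S.eq_empty_or_nonempty with rfl | ⟨A0, hA0⟩
  · simp
  have hsub : S ⊆ Fintype.piFinset fun t => if t ∈ T then S.image (fun A => A t) else {A0 t} := by
    intro A hA
    rw [Fintype.mem_piFinset]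
    intro t
    split_ifs with ht
    · exact Finset.mem_image.mpr ⟨A, hA, rfl⟩
    · rw [Finset.mem_singleton]
      exact hag A hA A0 hA0 t ht
  refine (Finset.card_le_card hsub).trans ?_
  rw [Fintype.card_piFinset, ← er_prod_ite T N]
  refine Finset.prod_le_prod' fun t _ => ?_
  split_ifs with ht
  · exact h t ht
  · simp

theorem er_tri_count {I : Type*} [Fintype I] [DecidableEq I] (J T : Finset I)
    (hJT : Disjoint J T) (H : ℕ) (S : Finset (I → ℤ)) (hS : ∀ A ∈ S, ∀ t, |A t| ≤ H) (N : ℕ)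
    (h1 : ∀ a ∈ J, ∀ S' ⊆ S, (∀ A ∈ S', ∀ A' ∈ S', ∀ t, t ∉ J → t ∉ T → A t = A' t) →
      (S'.image fun A => A a).card ≤ N)
    (h0 : ∀ a ∈ T, ∀ S' ⊆ S, (∀ A ∈ S', ∀ A' ∈ S', ∀ t, t ∉ T → A t = A' t) →
      (S'.image fun A => A a).card ≤ N) :
    S.card ≤ (2 * H + 1) ^ (Fintype.card I - (J.card + T.card)) * N ^ (J.card + T.card) := by
  classical
  set K : Finset I := (J ∪ T)ᶜ with hK
  have hKcard : K.card = Fintype.card I - (J.card + T.card) := by
    rw [hK, Finset.card_compl, Finset.card_union_of_disjoint hJT]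
  have memK : ∀ t, t ∈ K ↔ t ∉ J ∧ t ∉ T := by
    intro t
    simp [hK]
  have hJT' : ∀ t, t ∈ J → t ∉ T := fun t ht ht' => (Finset.disjoint_left.mp hJT) ht ht'
  -- fibres over the values off `T`
  have step0 : ∀ S' ⊆ S, (∀ A ∈ S', ∀ A' ∈ S', ∀ t, t ∉ T → A t = A' t) →
      S'.card ≤ N ^ T.card := fun S' hS' hag => er_fibre T S' N hag fun t ht => h0 t ht S' hS' hag
  -- fibres over the values off `J` and `T`
  have step1 : ∀ S' ⊆ S, (∀ A ∈ S', ∀ A' ∈ S', ∀ t, t ∉ J → t ∉ T → A t = A' t) →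
      S'.card ≤ N ^ (J.card + T.card) := by
    intro S' hS' hagree
    let σ : (I → ℤ) → I → ℤ := fun A t => if t ∈ T then 0 else A t
    have e1 := Finset.card_le_mul_card_image (f := σ) S' (N ^ T.card) (by
      intro r _
      apply step0
      · exact (Finset.filter_subset _ _).trans hS'
      · intro A hA A' hA' t ht
        rw [Finset.mem_filter] at hA hA'
        have := congrFun (hA.2.trans hA'.2.symm) t
        simpa [σ, ht] using this)
    have e2 : (S'.image σ).card ≤ N ^ J.card := by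
      apply er_fibre J
      · intro B hB B' hB' t ht
        obtain ⟨A, hA, rfl⟩ := Finset.mem_image.mp hB
        obtain ⟨A', hA', rfl⟩ := Finset.mem_image.mp hB'
        by_cases htT : t ∈ T
        · simp [σ, htT]
        · simp only [σ, if_neg htT]
          exact hagree A hA A' hA' t ht htT
      · intro t ht
        have hs : ((S'.image σ).image fun A => A t) ⊆ S'.image fun A => A t := by
          intro v hv
          obtain ⟨B, hB, rfl⟩ := Finset.mem_image.mp hv
          obtain ⟨A, hA, rfl⟩ := Finset.mem_image.mp hB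
          refine Finset.mem_image.mpr ⟨A, hA, ?_⟩
          simp [σ, hJT' t ht]
        exact (Finset.card_le_card hs).trans (h1 t ht S' hS' hagree)
    calc S'.card ≤ N ^ T.card * (S'.image σ).card := e1
      _ ≤ N ^ T.card * N ^ J.card := Nat.mul_le_mul_left _ e2
      _ = N ^ (J.card + T.card) := by rw [← pow_add, add_comm]
  let ρ : (I → ℤ) → I → ℤ := fun A t => if t ∈ K then A t else 0
  have e1 := Finset.card_le_mul_card_image (f := ρ) S (N ^ (J.card + T.card)) (by
    intro r _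
    apply step1
    · exact Finset.filter_subset _ _
    · intro A hA A' hA' t ht ht'
      rw [Finset.mem_filter] at hA hA'
      have := congrFun (hA.2.trans hA'.2.symm) t
      have htK : t ∈ K := (memK t).mpr ⟨ht, ht'⟩
      simpa [ρ, htK] using this)
  have e2 : (S.image ρ).card ≤ (2 * H + 1) ^ K.card := by
    have hsub : S.image ρ ⊆ Fintype.piFinset fun t => if t ∈ K then Icc (-(H : ℤ)) H else {0} := by
      intro B hB
      rw [Finset.mem_image] at hB
      obtain ⟨A, hA, rfl⟩ := hB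
      rw [Fintype.mem_piFinset]
      intro t
      by_cases ht : t ∈ K
      · simp only [ρ, ht, if_true, Finset.mem_Icc]
        exact abs_le.mp (hS A hA t)
      · simp [ρ, ht]
    refine (Finset.card_le_card hsub).trans ?_
    rw [Fintype.card_piFinset, ← er_prod_ite K (2 * H + 1)]
    refine Finset.prod_le_prod' fun t _ => ?_
    split_ifs with ht
    · rw [Int.card_Icc]
      omega
    · simp
  calc S.card ≤ N ^ (J.card + T.card) * (S.image ρ).card := e1
    _ ≤ N ^ (J.card + T.card) * (2 * H + 1) ^ K.card := Nat.mul_le_mul_left _ e2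
    _ = (2 * H + 1) ^ (Fintype.card I - (J.card + T.card)) * N ^ (J.card + T.card) := by
        rw [hKcard]; ring

theorem er_card_int (Z : Finset ℤ) (L : ℝ) (h : ∀ x ∈ Z, ∀ y ∈ Z, |(x : ℝ) - y| ≤ L) :
    Z.card ≤ ⌊L⌋₊ + 1 := by
  rcases Z.eq_empty_or_nonempty with rfl | hne
  · simp
  obtain ⟨m, hm, hmin⟩ := Z.exists_min_image id hne
  have hsub : Z ⊆ Icc m (m + ⌊L⌋₊) := by
    intro x hx
    rw [Finset.mem_Icc]
    have h1 : m ≤ x := hmin x hx
    refine ⟨h1, ?_⟩
    have h2 := (abs_le.mp (h x hx m hm)).2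
    obtain ⟨k, hk⟩ : ∃ k : ℕ, x = m + k := ⟨(x - m).toNat, by omega⟩
    have h3 : (k : ℝ) ≤ L := by
      have : (x : ℝ) = m + k := by exact_mod_cast hk
      linarith
    have h4 : k ≤ ⌊L⌋₊ := Nat.le_floor h3
    omega
  refine (Finset.card_le_card hsub).trans ?_
  rw [Int.card_Icc]
  omega

end tri

/-! ### Two families of monomials -/

section mono

variable {n : ℕ}

/-- the exponent vector of `x_{j0}^d` -/
def er_pw (j0 : Fin (n + 1)) (d : ℕ) : Idx n d := ⟨Pi.single j0 d, by simp⟩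

/-- the exponent vector of `x_{j0}^(d-1) x_j` (for `d ≥ 1`) -/
def er_pm (j0 j : Fin (n + 1)) (d : ℕ) (hd : 1 ≤ d) : Idx n d :=
  ⟨Pi.single j0 (d - 1) + Pi.single j 1, by
    simp only [Pi.add_apply, Finset.sum_add_distrib]
    simp
    omega⟩

theorem er_mon_pw (x : Fin (n + 1) → ℝ) (j0 : Fin (n + 1)) (d : ℕ) :
    mon x (er_pw j0 d).1 = x j0 ^ d := by
  unfold mon er_pw
  rw [Finset.prod_eq_single j0]
  · simp
  · intro i _ hi
    simp [hi]
  · intro h; exact absurd (mem_univ _) h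

theorem er_mon_single (x : Fin (n + 1) → ℝ) (j0 : Fin (n + 1)) (d : ℕ) :
    mon x (Pi.single j0 d : Fin (n + 1) → ℕ) = x j0 ^ d := er_mon_pw x j0 d

theorem er_dmon_single (x : Fin (n + 1) → ℝ) (j0 j : Fin (n + 1)) (hj : j ≠ j0) (d : ℕ) :
    dmon x j (Pi.single j0 d : Fin (n + 1) → ℕ) = 0 := by
  unfold dmon
  simp [hj]

theorem er_dmon_pm (x : Fin (n + 1) → ℝ) (j0 j j' : Fin (n + 1)) (hj : j ≠ j0) (d : ℕ)
    (hd : 1 ≤ d) :
    dmon x j (er_pm j0 j' d hd).1 = if j = j' then x j0 ^ (d - 1) else 0 := by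
  show dmon x j (Pi.single j0 (d - 1) + Pi.single j' 1 : Fin (n + 1) → ℕ) = _
  rw [ALR.dmon_succ, er_mon_single, er_dmon_single x j0 j hj, mul_zero, add_zero]

theorem er_pm_inj (j0 j j' : Fin (n + 1)) (d : ℕ) (hd : 1 ≤ d)
    (h : er_pm j0 j d hd = er_pm j0 j' d hd) : j = j' := by
  have h1 : (Pi.single j0 (d - 1) + Pi.single j 1 : Fin (n + 1) → ℕ) =
      Pi.single j0 (d - 1) + Pi.single j' 1 := congrArg Subtype.val h
  have h2 : (Pi.single j 1 : Fin (n + 1) → ℕ) = Pi.single j' 1 := add_left_cancel h1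
  by_contra hne
  have h3 := congrFun h2 j
  simp [hne] at h3

theorem er_pm_ne_pw (j0 j : Fin (n + 1)) (hj : j ≠ j0) (d : ℕ) (hd : 1 ≤ d) :
    er_pm j0 j d hd ≠ er_pw j0 d := by
  intro h
  have h1 : (Pi.single j0 (d - 1) + Pi.single j 1 : Fin (n + 1) → ℕ) = Pi.single j0 d :=
    congrArg Subtype.val h
  have h2 := congrFun h1 j
  simp [hj] at h2

end mono

/-! ### Systems with small values and small combination of derivatives at a fixed point -/

section fixed

variable {n r : ℕ} {e : Fin r → ℕ}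

/-- coefficients of a system as one vector -/
def er_flat (A : Sys n e ℤ) : (Σ i : Fin r, Idx n (e i)) → ℤ := fun s => A s.1 s.2

theorem er_flat_inj : Function.Injective (er_flat (n := n) (e := e)) := by
  intro A A' h
  funext i t
  exact congrFun h ⟨i, t⟩

theorem er_card_sigma : Fintype.card (Σ i : Fin r, Idx n (e i)) = NS n e := by
  rw [Fintype.card_sigma]
  rfl

theorem er_F_diff {d : ℕ} (a a' : Idx n d → ℤ) (x : Fin (n + 1) → ℝ) (t0 : Idx n d)
    (h : ∀ t, t ≠ t0 → a t = a' t) :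
    F (fun t => (a t : ℝ)) x - F (fun t => (a' t : ℝ)) x = ((a t0 : ℝ) - a' t0) * mon x t0.1 := by
  unfold F
  rw [← Finset.sum_sub_distrib, Finset.sum_eq_single t0]
  · ring
  · intro t _ ht
    show (a t : ℝ) * mon x t.1 - (a' t : ℝ) * mon x t.1 = 0
    rw [h t ht, sub_self]
  · intro h; exact absurd (mem_univ _) h

theorem er_D_diff {d : ℕ} (a a' : Idx n d → ℤ) (x : Fin (n + 1) → ℝ) (j : Fin (n + 1))
    (h : ∀ t, dmon x j t.1 ≠ 0 → a t = a' t) :
    D (fun t => (a t : ℝ)) x j = D (fun t => (a' t : ℝ)) x j := by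
  unfold D
  refine Finset.sum_congr rfl fun t _ => ?_
  show (a t : ℝ) * dmon x j t.1 = (a' t : ℝ) * dmon x j t.1
  by_cases h0 : dmon x j t.1 = 0
  · rw [h0, mul_zero, mul_zero]
  · rw [h t h0]

theorem er_D_diff1 {d : ℕ} (a a' : Idx n d → ℤ) (x : Fin (n + 1) → ℝ) (j : Fin (n + 1))
    (t0 : Idx n d) (h : ∀ t, t ≠ t0 → dmon x j t.1 ≠ 0 → a t = a' t) :
    D (fun t => (a t : ℝ)) x j - D (fun t => (a' t : ℝ)) x j =
      ((a t0 : ℝ) - a' t0) * dmon x j t0.1 := by
  unfold D
  rw [← Finset.sum_sub_distrib, Finset.sum_eq_single t0]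
  · ring
  · intro t _ ht
    show (a t : ℝ) * dmon x j t.1 - (a' t : ℝ) * dmon x j t.1 = 0
    by_cases h0 : dmon x j t.1 = 0
    · rw [h0, mul_zero, mul_zero, sub_self]
    · rw [h t ht h0, sub_self]
  · intro h; exact absurd (mem_univ _) h

theorem er_card_fixed (he : ∀ i, 1 ≤ e i) (H : ℕ) (x : Fin (n + 1) → ℝ) (j0 : Fin (n + 1))
    (hx : |x j0| = 1) (c : Fin r → ℝ) (i0 : Fin r) (hc : |c i0| = 1) (w : ℝ)
    (S : Finset (Sys n e ℤ)) (hS : ∀ A ∈ S, A ∈ box n e H)
    (hF : ∀ A ∈ S, ∀ i, |F (fun t => (A i t : ℝ)) x| ≤ w)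
    (hD : ∀ A ∈ S, ∀ j, |∑ i, c i * D (fun t => (A i t : ℝ)) x j| ≤ w) :
    S.card ≤ (2 * H + 1) ^ (NS n e - (n + r)) * (⌊2 * w⌋₊ + 1) ^ (n + r) ∧ n + r ≤ NS n e := by
  classical
  let I := Σ i : Fin r, Idx n (e i)
  let J : Finset I := (univ.erase j0).image fun j => ⟨i0, er_pm j0 j (e i0) (he i0)⟩
  let T : Finset I := univ.image fun i : Fin r => ⟨i, er_pw j0 (e i)⟩
  have hJcard : J.card = n := by
    rw [Finset.card_image_of_injOn, Finset.card_erase_of_mem (mem_univ _), Finset.card_univ,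
      Fintype.card_fin, Nat.add_sub_cancel]
    intro j _ j' _ h
    have h1 := eq_of_heq (Sigma.mk.inj h).2
    exact er_pm_inj j0 j j' _ _ h1
  have hTcard : T.card = r := by
    rw [Finset.card_image_of_injective, Finset.card_univ, Fintype.card_fin]
    intro i i' h
    exact (Sigma.mk.inj h).1
  have hmemT : ∀ (i : Fin r) (t : Idx n (e i)), (⟨i, t⟩ : I) ∈ T ↔ t = er_pw j0 (e i) := by
    intro i t
    constructor
    · intro h
      obtain ⟨i', -, h1⟩ := Finset.mem_image.mp h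
      obtain ⟨h2, h3⟩ := Sigma.mk.inj h1
      subst h2
      exact (eq_of_heq h3).symm
    · rintro rfl
      exact Finset.mem_image.mpr ⟨i, mem_univ _, rfl⟩
  have hmemJ : ∀ (i : Fin r) (t : Idx n (e i)), (⟨i, t⟩ : I) ∈ J →
      i = i0 ∧ ∃ j, j ≠ j0 ∧ t = er_pm j0 j (e i) (he i) := by
    intro i t h
    obtain ⟨j, hj, h1⟩ := Finset.mem_image.mp h
    obtain ⟨h2, h3⟩ := Sigma.mk.inj h1
    subst h2
    exact ⟨rfl, j, Finset.ne_of_mem_erase hj, (eq_of_heq h3).symm⟩
  have hJT : Disjoint J T := by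
    rw [Finset.disjoint_left]
    rintro ⟨i, t⟩ h h'
    obtain ⟨-, j, hj, h1⟩ := hmemJ i t h
    rw [hmemT, h1] at h'
    exact er_pm_ne_pw j0 j hj _ _ h'
  have hle : n + r ≤ NS n e := by
    have h1 : (J ∪ T).card ≤ Fintype.card I := Finset.card_le_univ _
    rw [Finset.card_union_of_disjoint hJT, hJcard, hTcard] at h1
    rwa [← er_card_sigma]
  refine ⟨?_, hle⟩
  have hmain := er_tri_count J T hJT H (S.image er_flat) (by
    intro B hB s
    obtain ⟨A, hA, rfl⟩ := Finset.mem_image.mp hB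
    exact hS A hA s.1 s.2) (⌊2 * w⌋₊ + 1) (by
    intro a ha S' hS' hag
    obtain ⟨j, hj, rfl⟩ := Finset.mem_image.mp ha
    have hj' : j ≠ j0 := Finset.ne_of_mem_erase hj
    apply er_card_int
    intro v hv v' hv'
    obtain ⟨B, hB, rfl⟩ := Finset.mem_image.mp hv
    obtain ⟨B', hB', rfl⟩ := Finset.mem_image.mp hv'
    obtain ⟨A, hA, rfl⟩ := Finset.mem_image.mp (hS' hB)
    obtain ⟨A', hA', rfl⟩ := Finset.mem_image.mp (hS' hB')
    have hag' : ∀ (i : Fin r) (t : Idx n (e i)), (⟨i, t⟩ : I) ∉ J → (⟨i, t⟩ : I) ∉ T →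
        A i t = A' i t := fun i t h h' => hag _ hB _ hB' ⟨i, t⟩ h h'
    have h1 := hD A hA j
    have h2 := hD A' hA' j
    have hdpw : ∀ i, dmon x j (er_pw (n := n) j0 (e i)).1 = 0 := fun i =>
      er_dmon_single x j0 j hj' (e i)
    have hother : ∀ i, i ≠ i0 → D (fun t => (A i t : ℝ)) x j = D (fun t => (A' i t : ℝ)) x j := by
      intro i hi
      apply er_D_diff
      intro t ht
      apply hag'
      · intro h
        exact hi (hmemJ i t h).1
      · intro h
        rw [hmemT] at h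
        rw [h] at ht
        exact ht (hdpw i)
    have hmain : D (fun t => (A i0 t : ℝ)) x j - D (fun t => (A' i0 t : ℝ)) x j =
        ((A i0 (er_pm j0 j (e i0) (he i0)) : ℝ) - A' i0 (er_pm j0 j (e i0) (he i0))) *
          dmon x j (er_pm j0 j (e i0) (he i0)).1 := by
      apply er_D_diff1
      intro t ht hdt
      apply hag'
      · intro h
        obtain ⟨-, j', hj'', h3⟩ := hmemJ i0 t h
        rw [h3, er_dmon_pm x j0 j j' hj'] at hdt
        by_cases hjj : j = j'
        · exact ht (by rw [h3, hjj])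
        · rw [if_neg hjj] at hdt
          exact hdt rfl
      · intro h
        rw [hmemT] at h
        rw [h] at hdt
        exact hdt (hdpw i0)
    rw [er_dmon_pm x j0 j j hj', if_pos rfl] at hmain
    have h3 : ∑ i, c i * D (fun t => (A i t : ℝ)) x j -
        ∑ i, c i * D (fun t => (A' i t : ℝ)) x j = c i0 *
        (((A i0 (er_pm j0 j (e i0) (he i0)) : ℝ) - A' i0 (er_pm j0 j (e i0) (he i0))) *
          x j0 ^ (e i0 - 1)) := by
      rw [← hmain, ← Finset.sum_sub_distrib, Finset.sum_eq_single i0]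
      · ring
      · intro i _ hi
        rw [hother i hi, sub_self]
      · intro h; exact absurd (mem_univ _) h
    have h4 : |((A i0 (er_pm j0 j (e i0) (he i0)) : ℝ) - A' i0 (er_pm j0 j (e i0) (he i0)))| =
        |∑ i, c i * D (fun t => (A i t : ℝ)) x j - ∑ i, c i * D (fun t => (A' i t : ℝ)) x j| := by
      rw [h3, abs_mul, abs_mul, hc, abs_pow, hx, one_pow, one_mul, mul_one]
    show |((A i0 (er_pm j0 j (e i0) (he i0)) : ℝ) - A' i0 (er_pm j0 j (e i0) (he i0)))| ≤ 2 * w
    rw [h4]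
    refine (abs_sub _ _).trans ?_
    linarith) (by
    intro a ha S' hS' hag
    obtain ⟨i, -, rfl⟩ := Finset.mem_image.mp ha
    apply er_card_int
    intro v hv v' hv'
    obtain ⟨B, hB, rfl⟩ := Finset.mem_image.mp hv
    obtain ⟨B', hB', rfl⟩ := Finset.mem_image.mp hv'
    obtain ⟨A, hA, rfl⟩ := Finset.mem_image.mp (hS' hB)
    obtain ⟨A', hA', rfl⟩ := Finset.mem_image.mp (hS' hB')
    have h1 := hF A hA i
    have h2 := hF A' hA' i
    have h3 := er_F_diff (A i) (A' i) x (er_pw j0 (e i)) (by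
      intro t ht
      exact hag _ hB _ hB' ⟨i, t⟩ (by rwa [hmemT]))
    rw [er_mon_pw] at h3
    have h4 : |((A i (er_pw j0 (e i)) : ℝ) - A' i (er_pw j0 (e i)))| =
        |F (fun t => (A i t : ℝ)) x - F (fun t => (A' i t : ℝ)) x| := by
      rw [h3, abs_mul, abs_pow, hx, one_pow, mul_one]
    show |((A i (er_pw j0 (e i)) : ℝ) - A' i (er_pw j0 (e i)))| ≤ 2 * w
    rw [h4]
    refine (abs_sub _ _).trans ?_
    linarith)
  rw [Finset.card_image_of_injective _ er_flat_inj, hJcard, hTcard, er_card_sigma] at hmain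
  exact hmain

end fixed

/-! ### Nets -/

/-- truncation towards zero -/
theorem er_trunc (y : ℝ) : ∃ m : ℤ, |(m : ℝ)| ≤ |y| ∧ |y - m| ≤ 1 := by
  rcases le_or_gt 0 y with hy | hy
  · refine ⟨⌊y⌋, ?_, ?_⟩
    · rw [abs_of_nonneg hy, abs_of_nonneg (by exact_mod_cast Int.floor_nonneg.2 hy)]
      exact Int.floor_le y
    · rw [abs_le]
      constructor <;> linarith [Int.floor_le y, Int.lt_floor_add_one y]
  · refine ⟨⌈y⌉, ?_, ?_⟩
    · rw [abs_of_neg hy]
      have h1 : ⌈y⌉ ≤ 0 := Int.ceil_le.2 (by simpa using hy.le)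
      have h2 : (⌈y⌉ : ℝ) ≤ 0 := by exact_mod_cast h1
      rw [abs_of_nonpos h2]
      linarith [Int.le_ceil y]
    · rw [abs_le]
      constructor <;> linarith [Int.le_ceil y, Int.ceil_lt_add_one y]

/-- the net of the faces of the cube -/
noncomputable def er_net (q : ℕ) (bet : ℝ) (i : Fin q) : Finset (Fin q → ℤ) :=
  Fintype.piFinset fun k => if k = i then ({1, -1} : Finset ℤ) else
    Icc (-⌊1 / bet⌋) ⌊1 / bet⌋

/-- the point of the net -/
noncomputable def er_pt {q : ℕ} (bet : ℝ) (i : Fin q) (m : Fin q → ℤ) : Fin q → ℝ :=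
  fun k => if k = i then (m k : ℝ) else bet * m k

theorem er_net_card (q : ℕ) (bet : ℝ) (hb : 0 < bet) (hb1 : bet ≤ 1) (i : Fin q) :
    ((er_net q bet i).card : ℝ) ≤ 2 * (3 / bet) ^ (q - 1) := by
  set R : ℤ := ⌊1 / bet⌋ with hR
  have hRnn : 0 ≤ R := Int.floor_nonneg.2 (by positivity)
  have h1 : (er_net q bet i).card ≤ 2 * ((2 * R + 1).toNat) ^ (q - 1) := by
    unfold er_net
    rw [Fintype.card_piFinset, ← Finset.mul_prod_erase univ _ (mem_univ i), if_pos rfl]
    refine Nat.mul_le_mul card_le_two ?_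
    have h4 : (univ.erase i).card = q - 1 := by
      rw [card_erase_of_mem (mem_univ i), card_univ, Fintype.card_fin]
    have h5 : ∀ j ∈ univ.erase i, (if j = i then ({1, -1} : Finset ℤ) else
        Icc (-⌊1 / bet⌋) ⌊1 / bet⌋).card = (2 * R + 1).toNat := by
      intro j hj
      rw [if_neg (Finset.ne_of_mem_erase hj), Int.card_Icc]
      congr 1
      rw [← hR]
      ring
    rw [Finset.prod_congr rfl h5, Finset.prod_const, h4]
  have h2 : (((2 * R + 1).toNat : ℕ) : ℝ) ≤ 3 / bet := by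
    have h3 : (((2 * R + 1).toNat : ℕ) : ℤ) = 2 * R + 1 := Int.toNat_of_nonneg (by omega)
    have h4 : (((2 * R + 1).toNat : ℕ) : ℝ) = 2 * (R : ℝ) + 1 := by
      exact_mod_cast congrArg (fun n : ℤ => (n : ℝ)) h3
    rw [h4]
    have h5 : (R : ℝ) ≤ 1 / bet := Int.floor_le _
    have h6 : 1 ≤ 1 / bet := by rw [le_div_iff₀ hb]; linarith
    have h7 : 3 / bet = 3 * (1 / bet) := by ring
    rw [h7]
    linarith
  calc ((er_net q bet i).card : ℝ) ≤ ((2 * ((2 * R + 1).toNat) ^ (q - 1) : ℕ) : ℝ) := by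
        exact_mod_cast h1
    _ = 2 * (((2 * R + 1).toNat : ℕ) : ℝ) ^ (q - 1) := by push_cast; ring
    _ ≤ 2 * (3 / bet) ^ (q - 1) := by
        refine mul_le_mul_of_nonneg_left (pow_le_pow_left₀ (by positivity) h2 _) (by norm_num)

theorem er_net_near {q : ℕ} (bet : ℝ) (hb : 0 < bet) (i : Fin q)
    (v : Fin q → ℝ) (hv : ∀ k, |v k| ≤ 1) (hvi : |v i| = 1) :
    ∃ m ∈ er_net q bet i, (∀ k, |er_pt bet i m k - v k| ≤ bet) ∧ (∀ k, |er_pt bet i m k| ≤ 1) := by
  choose mk hmk1 hmk2 using fun k => er_trunc (v k / bet)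
  obtain ⟨s, hs, hsx⟩ : ∃ s : ℤ, (s = 1 ∨ s = -1) ∧ (s : ℝ) = v i := by
    rcases (abs_eq (by norm_num : (0 : ℝ) ≤ 1)).1 hvi with h | h
    · exact ⟨1, Or.inl rfl, by simp [h]⟩
    · exact ⟨-1, Or.inr rfl, by simp [h]⟩
  have hle : ∀ k, |v k / bet| ≤ 1 / bet := by
    intro k
    rw [abs_div, abs_of_pos hb]
    exact div_le_div_of_nonneg_right (hv k) hb.le
  refine ⟨fun k => if k = i then s else mk k, ?_, ?_, ?_⟩
  · unfold er_net
    rw [Fintype.mem_piFinset]
    intro k
    by_cases hk : k = i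
    · simp only [if_pos hk, mem_insert, mem_singleton]
      exact hs
    · simp only [if_neg hk, Finset.mem_Icc]
      have h3 := abs_le.1 ((hmk1 k).trans (hle k))
      constructor
      · have : -mk k ≤ ⌊1 / bet⌋ := Int.le_floor.2 (by push_cast; linarith [h3.1])
        linarith
      · exact Int.le_floor.2 h3.2
  · intro k
    by_cases hk : k = i
    · simp only [er_pt, if_pos hk]
      rw [hsx, hk, sub_self, abs_zero]
      exact hb.le
    · simp only [er_pt, if_neg hk]
      have h1 := hmk2 k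
      have h2 : bet * (mk k : ℝ) - v k = -(bet * (v k / bet - mk k)) := by
        field_simp
        ring
      rw [h2, abs_neg, abs_mul, abs_of_pos hb]
      calc bet * |v k / bet - mk k| ≤ bet * 1 := mul_le_mul_of_nonneg_left h1 hb.le
        _ = bet := mul_one _
  · intro k
    by_cases hk : k = i
    · simp only [er_pt, if_pos hk]
      rw [hsx, hvi]
    · simp only [er_pt, if_neg hk]
      rw [abs_mul, abs_of_pos hb]
      calc bet * |(mk k : ℝ)| ≤ bet * (1 / bet) :=
            mul_le_mul_of_nonneg_left ((hmk1 k).trans (hle k)) hb.le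
        _ = 1 := by field_simp

theorem er_pt_abs {q : ℕ} (bet : ℝ) (i : Fin q) (m : Fin q → ℤ) (hm : m ∈ er_net q bet i) :
    |er_pt bet i m i| = 1 := by
  unfold er_net at hm
  rw [Fintype.mem_piFinset] at hm
  have h := hm i
  rw [if_pos rfl] at h
  simp only [mem_insert, mem_singleton] at h
  simp only [er_pt, if_true]
  rcases h with h | h <;> simp [h]

/-! ### The exceptional systems -/

theorem real_exc (n : ℕ) {r : ℕ} (e : Fin r → ℕ) (hr : 1 ≤ r) (he : ∀ i, 1 ≤ e i) :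
    ∃ C : ℝ, 0 < C ∧ ∀ bet : ℝ, 0 < bet → bet ≤ 1 → ∀ᶠ H : ℕ in atTop,
    (Set.ncard {A : Sys n e ℤ | A ∈ box n e H ∧ ∃ xi : Fin (n + 1) → ℝ, (∀ i, |xi i| ≤ 1) ∧
      (∃ i, |xi i| = 1) ∧ (∀ i, F (fun t => (A i t : ℝ)) xi = 0) ∧
      ∀ J : Fin r → Fin (n + 1), |(Jac (fun i t => (A i t : ℝ)) xi J).det| < (bet * H) ^ r} : ℝ) ≤
      C * bet * (2 * H + 1) ^ NS n e := by
  classical
  -- constants
  set C1 : ℝ := 1 + ∑ i, ((NN n (e i) : ℝ) * 4 ^ e i + (n + 1) * (NN n (e i) * e i) +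
    NN n (e i) * e i + NN n (e i) * e i * 4 ^ e i) with hC1
  have hterm : ∀ i, 0 ≤ ((NN n (e i) : ℝ) * 4 ^ e i + (n + 1) * (NN n (e i) * e i) +
    NN n (e i) * e i + NN n (e i) * e i * 4 ^ e i) := fun i => by positivity
  have hC1one : 1 ≤ C1 := by
    rw [hC1]
    have := Finset.sum_nonneg fun i (_ : i ∈ (univ : Finset (Fin r))) => hterm i
    linarith
  refine ⟨(n + 1) * r * (2 * 3 ^ n) * (2 * 3 ^ (r - 1)) * (2 * C1 + 1) ^ (n + r), ?_, ?_⟩
  · have : (0 : ℝ) < r := by exact_mod_cast hr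
    positivity
  intro bet hb hb1
  filter_upwards [eventually_ge_atTop (⌈1 / bet⌉₊ + 1)] with H hH
  have hHR : 1 ≤ bet * H := by
    have h1 : (1 / bet : ℝ) ≤ H := by
      refine (Nat.le_ceil _).trans ?_
      exact_mod_cast (Nat.le_succ _).trans hH
    rw [div_le_iff₀ hb] at h1
    linarith
  have hH1 : (1 : ℝ) ≤ H := by
    have : 1 ≤ H := by omega
    exact_mod_cast this
  have hH0 : (0 : ℝ) ≤ H := by linarith
  set w : ℝ := C1 * (bet * H) with hw
  have hw0 : 0 ≤ w := by positivity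
  -- the cover
  let SS : Fin (n + 1) → (Fin (n + 1) → ℤ) → Fin r → (Fin r → ℤ) → Finset (Sys n e ℤ) :=
    fun j0 m i0 l => (box_finite (n := n) (e := e) H).toFinset.filter fun A =>
      (∀ i, |F (fun t => (A i t : ℝ)) (er_pt bet j0 m)| ≤ w) ∧
      ∀ j, |∑ i, er_pt bet i0 l i * D (fun t => (A i t : ℝ)) (er_pt bet j0 m) j| ≤ w
  have hSS : ∀ j0, ∀ m ∈ er_net (n + 1) bet j0, ∀ i0, ∀ l ∈ er_net r bet i0,
      ((SS j0 m i0 l).card : ℝ) ≤
        (2 * C1 + 1) ^ (n + r) * bet ^ (n + r) * (2 * H + 1) ^ NS n e := by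
    intro j0 m hm i0 l hl
    obtain ⟨h1, hle⟩ := er_card_fixed he H (er_pt bet j0 m) j0 (er_pt_abs bet j0 m hm)
      (er_pt bet i0 l) i0 (er_pt_abs bet i0 l hl) w (SS j0 m i0 l)
      (fun A hA => by
        have := (mem_filter.1 hA).1
        rwa [Set.Finite.mem_toFinset] at this)
      (fun A hA => (mem_filter.1 hA).2.1) (fun A hA => (mem_filter.1 hA).2.2)
    have h2 : ((⌊2 * w⌋₊ + 1 : ℕ) : ℝ) ≤ (2 * C1 + 1) * bet * (2 * H + 1) := by
      push_cast
      have h3 : (⌊2 * w⌋₊ : ℝ) ≤ 2 * w := Nat.floor_le (by positivity)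
      have h4 : (2 * C1 + 1) * bet * (2 * H + 1) = 2 * w + (2 * w + 2 * C1 * bet) +
          (bet * H) + (bet * H + bet) := by rw [hw]; ring
      have h5 : 0 ≤ 2 * w + 2 * C1 * bet := by positivity
      rw [h4]
      linarith
    have h6 : ((SS j0 m i0 l).card : ℝ) ≤ (2 * H + 1) ^ (NS n e - (n + r)) *
        ((⌊2 * w⌋₊ + 1 : ℕ) : ℝ) ^ (n + r) := by exact_mod_cast h1
    refine h6.trans ?_
    calc (2 * (H : ℝ) + 1) ^ (NS n e - (n + r)) * ((⌊2 * w⌋₊ + 1 : ℕ) : ℝ) ^ (n + r)
        ≤ (2 * (H : ℝ) + 1) ^ (NS n e - (n + r)) *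
          ((2 * C1 + 1) * bet * (2 * H + 1)) ^ (n + r) :=
          mul_le_mul_of_nonneg_left (pow_le_pow_left₀ (by positivity) h2 _) (by positivity)
      _ = (2 * C1 + 1) ^ (n + r) * bet ^ (n + r) *
          ((2 * (H : ℝ) + 1) ^ (NS n e - (n + r)) * (2 * H + 1) ^ (n + r)) := by
          rw [mul_pow, mul_pow]; ring
      _ = (2 * C1 + 1) ^ (n + r) * bet ^ (n + r) * (2 * H + 1) ^ NS n e := by
          rw [← pow_add, Nat.sub_add_cancel hle]
  let U : Finset (Sys n e ℤ) := univ.biUnion fun j0 => (er_net (n + 1) bet j0).biUnion fun m =>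
    univ.biUnion fun i0 => (er_net r bet i0).biUnion fun l => SS j0 m i0 l
  have hsub : {A : Sys n e ℤ | A ∈ box n e H ∧ ∃ xi : Fin (n + 1) → ℝ, (∀ i, |xi i| ≤ 1) ∧
      (∃ i, |xi i| = 1) ∧ (∀ i, F (fun t => (A i t : ℝ)) xi = 0) ∧
      ∀ J : Fin r → Fin (n + 1), |(Jac (fun i t => (A i t : ℝ)) xi J).det| < (bet * H) ^ r} ⊆
      (U : Set (Sys n e ℤ)) := by
    rintro A ⟨hA, xi, hxi, ⟨j0, hxj⟩, hF0, hJ⟩
    have hAR : ∀ i t, |((A i t : ℤ) : ℝ)| ≤ H := by
      intro i t
      have := hA i t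
      exact_mod_cast this
    obtain ⟨c, hc1, ⟨i0, hci⟩, hc⟩ := left_kernel_real hr
      (Matrix.of fun i j => D (fun t => (A i t : ℝ)) xi j) (bet * H) (by linarith) (by
        intro J
        exact hJ J)
    simp only [Matrix.of_apply] at hc
    obtain ⟨m, hm, hm1, hm2⟩ := er_net_near bet hb j0 xi hxi hxj
    obtain ⟨l, hl, hl1, hl2⟩ := er_net_near bet hb i0 c hc1 (by rw [hci, abs_one])
    rw [mem_coe]
    simp only [U, mem_biUnion, mem_univ, true_and]
    refine ⟨j0, m, hm, i0, l, hl, ?_⟩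
    rw [mem_filter]
    have hx' : (fun k => xi k + (er_pt bet j0 m k - xi k)) = er_pt bet j0 m := by
      funext k; ring
    have hbb : bet ^ 2 * (H : ℝ) ≤ bet * H := by
      refine mul_le_mul_of_nonneg_right ?_ (by positivity)
      nlinarith
    have hDb : ∀ i j, |D (fun t => (A i t : ℝ)) xi j| ≤ NN n (e i) * e i * H := by
      intro i j
      have := D_abs_le (fun t => (A i t : ℝ)) xi j H 1 le_rfl (hAR i) hxi
      simpa using this
    refine ⟨by rwa [Set.Finite.mem_toFinset], ?_, ?_⟩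
    · intro i
      have h1 := F_taylor_real (fun t => (A i t : ℝ)) xi (fun k => er_pt bet j0 m k - xi k) H 1 bet
        le_rfl hb.le hb1 (hAR i) hxi hm1
      rw [hx', hF0 i, sub_zero, one_pow, mul_one] at h1
      have h3 : |∑ j, D (fun t => (A i t : ℝ)) xi j * (er_pt bet j0 m j - xi j)| ≤
          (n + 1) * (NN n (e i) * e i) * (bet * H) := by
        calc |∑ j, D (fun t => (A i t : ℝ)) xi j * (er_pt bet j0 m j - xi j)|
            ≤ ∑ j, |D (fun t => (A i t : ℝ)) xi j * (er_pt bet j0 m j - xi j)| :=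
              Finset.abs_sum_le_sum_abs _ _
          _ ≤ ∑ _j : Fin (n + 1), (NN n (e i) * e i * H) * bet := by
              refine Finset.sum_le_sum fun j _ => ?_
              rw [abs_mul]
              exact mul_le_mul (hDb i j) (hm1 j) (abs_nonneg _) (by positivity)
          _ = (n + 1) * (NN n (e i) * e i) * (bet * H) := by
              rw [Finset.sum_const, card_univ, Fintype.card_fin, nsmul_eq_mul]
              push_cast
              ring
      have h5 : (NN n (e i) : ℝ) * 4 ^ e i * H * bet ^ 2 ≤ NN n (e i) * 4 ^ e i * (bet * H) := by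
        calc (NN n (e i) : ℝ) * 4 ^ e i * H * bet ^ 2 = NN n (e i) * 4 ^ e i * (bet ^ 2 * H) := by
              ring
          _ ≤ _ := mul_le_mul_of_nonneg_left hbb (by positivity)
      have h6 : |F (fun t => (A i t : ℝ)) (er_pt bet j0 m)| ≤
          (NN n (e i) * 4 ^ e i + (n + 1) * (NN n (e i) * e i)) * (bet * H) := by
        have h7 := abs_le.1 h1
        have h8 := abs_le.1 h3
        rw [abs_le]
        constructor <;> nlinarith
      refine h6.trans ?_
      rw [hw]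
      refine mul_le_mul_of_nonneg_right ?_ (by positivity)
      have h9 := Finset.single_le_sum (f := fun i => ((NN n (e i) : ℝ) * 4 ^ e i +
        (n + 1) * (NN n (e i) * e i) + NN n (e i) * e i + NN n (e i) * e i * 4 ^ e i))
        (fun i _ => hterm i) (mem_univ i)
      rw [hC1]
      have h10 : (0 : ℝ) ≤ NN n (e i) * e i + NN n (e i) * e i * 4 ^ e i := by positivity
      linarith
    · intro j
      have h1 : ∀ i, |D (fun t => (A i t : ℝ)) (er_pt bet j0 m) j - D (fun t => (A i t : ℝ)) xi j| ≤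
          NN n (e i) * e i * 4 ^ e i * (bet * H) := by
        intro i
        have h2 := D_taylor_real (fun t => (A i t : ℝ)) xi (fun k => er_pt bet j0 m k - xi k) j H 1
          bet le_rfl hb.le hb1 (hAR i) hxi hm1
        rw [hx', one_pow, mul_one] at h2
        refine h2.trans (le_of_eq ?_)
        ring
      have h2 : ∑ i, er_pt bet i0 l i * D (fun t => (A i t : ℝ)) (er_pt bet j0 m) j =
          ∑ i, c i * D (fun t => (A i t : ℝ)) xi j +
          ∑ i, ((er_pt bet i0 l i - c i) * D (fun t => (A i t : ℝ)) xi j +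
            er_pt bet i0 l i * (D (fun t => (A i t : ℝ)) (er_pt bet j0 m) j -
              D (fun t => (A i t : ℝ)) xi j)) := by
        rw [← Finset.sum_add_distrib]
        refine Finset.sum_congr rfl fun i _ => ?_
        ring
      rw [h2]
      refine (abs_add_le _ _).trans ?_
      have h3 : |∑ i, ((er_pt bet i0 l i - c i) * D (fun t => (A i t : ℝ)) xi j +
            er_pt bet i0 l i * (D (fun t => (A i t : ℝ)) (er_pt bet j0 m) j -
              D (fun t => (A i t : ℝ)) xi j))| ≤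
          ∑ i, (NN n (e i) * e i + NN n (e i) * e i * 4 ^ e i) * (bet * H) := by
        refine (Finset.abs_sum_le_sum_abs _ _).trans (Finset.sum_le_sum fun i _ => ?_)
        refine (abs_add_le _ _).trans ?_
        rw [abs_mul, abs_mul]
        have a1 := mul_le_mul (hl1 i) (hDb i j) (abs_nonneg _) hb.le
        have a2 := mul_le_mul (hl2 i) (h1 i) (abs_nonneg _) zero_le_one
        calc _ ≤ bet * (NN n (e i) * e i * H) + 1 * (NN n (e i) * e i * 4 ^ e i * (bet * H)) :=
              add_le_add a1 a2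
          _ = _ := by ring
      rw [← Finset.sum_mul] at h3
      have h4 : ∑ i, ((NN n (e i) : ℝ) * e i + NN n (e i) * e i * 4 ^ e i) ≤
          ∑ i, ((NN n (e i) : ℝ) * 4 ^ e i + (n + 1) * (NN n (e i) * e i) +
            NN n (e i) * e i + NN n (e i) * e i * 4 ^ e i) := by
        refine Finset.sum_le_sum fun i _ => ?_
        have : (0 : ℝ) ≤ (NN n (e i) : ℝ) * 4 ^ e i + (n + 1) * (NN n (e i) * e i) := by positivity
        linarith
      have h5 := hc j
      have h6 := mul_le_mul_of_nonneg_right h4 (by positivity : (0 : ℝ) ≤ bet * H)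
      calc _ ≤ bet * H + (∑ i, ((NN n (e i) : ℝ) * 4 ^ e i + (n + 1) * (NN n (e i) * e i) +
            NN n (e i) * e i + NN n (e i) * e i * 4 ^ e i)) * (bet * H) :=
            add_le_add h5 (h3.trans h6)
        _ = w := by rw [hw, hC1]; ring
  have h1 : (Set.ncard {A : Sys n e ℤ | A ∈ box n e H ∧ ∃ xi : Fin (n + 1) → ℝ,
      (∀ i, |xi i| ≤ 1) ∧ (∃ i, |xi i| = 1) ∧ (∀ i, F (fun t => (A i t : ℝ)) xi = 0) ∧
      ∀ J : Fin r → Fin (n + 1), |(Jac (fun i t => (A i t : ℝ)) xi J).det| < (bet * H) ^ r}) ≤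
      U.card := by
    rw [← Set.ncard_coe_finset]
    exact Set.ncard_le_ncard hsub (U.finite_toSet)
  set K : ℝ := (2 * C1 + 1) ^ (n + r) * bet ^ (n + r) * (2 * H + 1) ^ NS n e with hK
  have hK0 : 0 ≤ K := by positivity
  have h2 : (U.card : ℝ) ≤ (n + 1) * ((2 * (3 / bet) ^ n) * (r * ((2 * (3 / bet) ^ (r - 1)) * K))) := by
    have b4 : ∀ j0, ∀ m ∈ er_net (n + 1) bet j0, ∀ i0,
        ((((er_net r bet i0).biUnion fun l => SS j0 m i0 l).card : ℕ) : ℝ) ≤
          (2 * (3 / bet) ^ (r - 1)) * K := by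
      intro j0 m hm i0
      calc ((((er_net r bet i0).biUnion fun l => SS j0 m i0 l).card : ℕ) : ℝ)
          ≤ ((∑ l ∈ er_net r bet i0, (SS j0 m i0 l).card : ℕ) : ℝ) := by
            exact_mod_cast card_biUnion_le
        _ = ∑ l ∈ er_net r bet i0, ((SS j0 m i0 l).card : ℝ) := by push_cast; rfl
        _ ≤ ∑ _l ∈ er_net r bet i0, K := Finset.sum_le_sum fun l hl => hSS j0 m hm i0 l hl
        _ = (er_net r bet i0).card * K := by rw [Finset.sum_const, nsmul_eq_mul]
        _ ≤ _ := mul_le_mul_of_nonneg_right (er_net_card r bet hb hb1 i0) hK0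
    have b3 : ∀ j0, ∀ m ∈ er_net (n + 1) bet j0,
        (((univ.biUnion fun i0 => (er_net r bet i0).biUnion fun l => SS j0 m i0 l).card : ℕ) : ℝ) ≤
          r * ((2 * (3 / bet) ^ (r - 1)) * K) := by
      intro j0 m hm
      calc (((univ.biUnion fun i0 => (er_net r bet i0).biUnion fun l => SS j0 m i0 l).card : ℕ) : ℝ)
          ≤ ((∑ i0 : Fin r, ((er_net r bet i0).biUnion fun l => SS j0 m i0 l).card : ℕ) : ℝ) := by
            exact_mod_cast card_biUnion_le
        _ = ∑ i0 : Fin r, ((((er_net r bet i0).biUnion fun l => SS j0 m i0 l).card : ℕ) : ℝ) := by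
            push_cast; rfl
        _ ≤ ∑ _i0 : Fin r, (2 * (3 / bet) ^ (r - 1)) * K := Finset.sum_le_sum fun i0 _ =>
            b4 j0 m hm i0
        _ = _ := by rw [Finset.sum_const, nsmul_eq_mul, card_univ, Fintype.card_fin]
    have b2 : ∀ j0, ((((er_net (n + 1) bet j0).biUnion fun m => univ.biUnion fun i0 =>
        (er_net r bet i0).biUnion fun l => SS j0 m i0 l).card : ℕ) : ℝ) ≤
          (2 * (3 / bet) ^ n) * (r * ((2 * (3 / bet) ^ (r - 1)) * K)) := by
      intro j0
      calc ((((er_net (n + 1) bet j0).biUnion fun m => univ.biUnion fun i0 =>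
            (er_net r bet i0).biUnion fun l => SS j0 m i0 l).card : ℕ) : ℝ)
          ≤ ((∑ m ∈ er_net (n + 1) bet j0, (univ.biUnion fun i0 =>
            (er_net r bet i0).biUnion fun l => SS j0 m i0 l).card : ℕ) : ℝ) := by
            exact_mod_cast card_biUnion_le
        _ = ∑ m ∈ er_net (n + 1) bet j0, (((univ.biUnion fun i0 =>
            (er_net r bet i0).biUnion fun l => SS j0 m i0 l).card : ℕ) : ℝ) := by push_cast; rfl
        _ ≤ ∑ _m ∈ er_net (n + 1) bet j0, (r * ((2 * (3 / bet) ^ (r - 1)) * K)) :=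
            Finset.sum_le_sum fun m hm => b3 j0 m hm
        _ = (er_net (n + 1) bet j0).card * (r * ((2 * (3 / bet) ^ (r - 1)) * K)) := by
            rw [Finset.sum_const, nsmul_eq_mul]
        _ ≤ _ := mul_le_mul_of_nonneg_right (er_net_card (n + 1) bet hb hb1 j0) (by positivity)
    calc (U.card : ℝ) ≤ ((∑ j0 : Fin (n + 1), ((er_net (n + 1) bet j0).biUnion fun m =>
            univ.biUnion fun i0 => (er_net r bet i0).biUnion fun l => SS j0 m i0 l).card : ℕ) : ℝ) := by
            exact_mod_cast card_biUnion_le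
        _ = ∑ j0 : Fin (n + 1), ((((er_net (n + 1) bet j0).biUnion fun m =>
            univ.biUnion fun i0 => (er_net r bet i0).biUnion fun l => SS j0 m i0 l).card : ℕ) : ℝ) := by
            push_cast; rfl
        _ ≤ ∑ _j0 : Fin (n + 1), (2 * (3 / bet) ^ n) * (r * ((2 * (3 / bet) ^ (r - 1)) * K)) :=
            Finset.sum_le_sum fun j0 _ => b2 j0
        _ = _ := by
            rw [Finset.sum_const, nsmul_eq_mul, card_univ, Fintype.card_fin]
            push_cast
            ring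
  have h3 : bet ^ (n + r) = bet ^ n * bet ^ (r - 1) * bet := by
    rw [← pow_add, ← pow_succ]
    congr 1
    omega
  calc (Set.ncard {A : Sys n e ℤ | A ∈ box n e H ∧ ∃ xi : Fin (n + 1) → ℝ,
      (∀ i, |xi i| ≤ 1) ∧ (∃ i, |xi i| = 1) ∧ (∀ i, F (fun t => (A i t : ℝ)) xi = 0) ∧
      ∀ J : Fin r → Fin (n + 1), |(Jac (fun i t => (A i t : ℝ)) xi J).det| < (bet * H) ^ r} : ℝ) ≤
      U.card := by exact_mod_cast h1
    _ ≤ _ := h2
    _ = (n + 1) * r * (2 * 3 ^ n) * (2 * 3 ^ (r - 1)) * (2 * C1 + 1) ^ (n + r) * bet *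
        (2 * H + 1) ^ NS n e := by
        rw [hK, h3, div_pow, div_pow]
        have hbn : bet ^ n ≠ 0 := by positivity
        have hbr : bet ^ (r - 1) ≠ 0 := by positivity
        field_simp

end CIHP
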