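import Pool.Agent.Lib.MP_e426f4_ag.CI.Defs

/-! Coefficient vectors and homogeneous polynomials. -/

namespace CIHP

open Finset GenHP MvPolynomial

/-- the exponent vector of `t` as a finitely supported function -/
noncomputable def pexpo {n d : ℕ} (t : Idx n d) : Fin (n + 1) →₀ ℕ :=
  Finsupp.equivFunOnFinite.symm t.1

@[simp] theorem pexpo_apply {n d : ℕ} (t : Idx n d) (j : Fin (n + 1)) : pexpo t j = t.1 j := rfl

/-- the homogeneous polynomial with coefficient vector `a` -/
noncomputable def toPoly {n d : ℕ} (a : Idx n d → ℤ) : MvPolynomial (Fin (n + 1)) ℤ :=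
  ∑ t, MvPolynomial.monomial (Finsupp.equivFunOnFinite.symm t.1) (a t)

theorem pexpo_injective {n d : ℕ} : Function.Injective (pexpo (n := n) (d := d)) := by
  intro s t h
  apply Subtype.ext
  funext a
  exact DFunLike.congr_fun h a

theorem coeff_toPoly {n d : ℕ} (a : Idx n d → ℤ) (t : Idx n d) :
    (toPoly a).coeff (pexpo t) = a t := by
  classical
  rw [toPoly, coeff_sum]
  simp only [coeff_monomial]
  rw [Finset.sum_eq_single t]
  · rw [if_pos]
    rfl
  · intro s _ hs
    rw [if_neg]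
    intro h
    exact hs (pexpo_injective h)
  · simp

theorem coeff_toPoly_of_ne {n d : ℕ} (a : Idx n d → ℤ) (m : Fin (n + 1) →₀ ℕ)
    (hm : ∀ t : Idx n d, pexpo t ≠ m) : (toPoly a).coeff m = 0 := by
  classical
  rw [toPoly, coeff_sum]
  simp only [coeff_monomial]
  exact Finset.sum_eq_zero fun t _ => if_neg (hm t)

theorem toPoly_injective {n d : ℕ} : Function.Injective (toPoly (n := n) (d := d)) := by
  intro a b h
  funext t
  rw [← coeff_toPoly a t, h, coeff_toPoly]

theorem degree_pexpo {n d : ℕ} (t : Idx n d) : Finsupp.degree (pexpo t) = d := by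
  rw [Finsupp.degree_eq_sum]
  exact t.2

theorem exists_pexpo {n d : ℕ} (m : Fin (n + 1) →₀ ℕ) (hm : Finsupp.degree m = d) :
    ∃ t : Idx n d, pexpo t = m := by
  rw [Finsupp.degree_eq_sum] at hm
  refine ⟨⟨fun a => m a, hm⟩, ?_⟩
  ext a
  rfl

theorem toPoly_isHomogeneous {n d : ℕ} (a : Idx n d → ℤ) : (toPoly a).IsHomogeneous d := by
  refine IsHomogeneous.sum _ _ _ fun t _ => ?_
  exact isHomogeneous_monomial _ (degree_pexpo t)

theorem exists_toPoly {n d : ℕ} (f : MvPolynomial (Fin (n + 1)) ℤ) (hf : f.IsHomogeneous d) :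
    ∃ a : Idx n d → ℤ, toPoly a = f := by
  refine ⟨fun t => f.coeff (pexpo t), ?_⟩
  ext m
  by_cases hm : ∃ t : Idx n d, pexpo t = m
  · obtain ⟨t, rfl⟩ := hm
    rw [coeff_toPoly]
  · push Not at hm
    rw [coeff_toPoly_of_ne _ _ hm]
    refine (hf.coeff_eq_zero fun h => ?_).symm
    obtain ⟨t, ht⟩ := exists_pexpo m h
    exact hm t ht

theorem toPoly_coeff_le {n d : ℕ} (a : Idx n d → ℤ) (H : ℤ) (hH : 0 ≤ H) :
    (∀ m, |(toPoly a).coeff m| ≤ H) ↔ ∀ t, |a t| ≤ H := by
  constructor
  · intro h t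
    have := h (pexpo t)
    rwa [coeff_toPoly] at this
  · intro h m
    by_cases hm : ∃ t : Idx n d, pexpo t = m
    · obtain ⟨t, rfl⟩ := hm
      rw [coeff_toPoly]
      exact h t
    · push Not at hm
      rw [coeff_toPoly_of_ne _ _ hm]
      simpa using hH

theorem prod_pexpo {n d : ℕ} {R : Type*} [CommRing R] (x : Fin (n + 1) → R) (t : Idx n d) :
    ((pexpo t).prod fun i k => x i ^ k) = mon x t.1 := by
  rw [Finsupp.prod_fintype _ _ (fun i => pow_zero _)]
  rfl

theorem aeval_toPoly {n d : ℕ} {R : Type*} [CommRing R] (a : Idx n d → ℤ)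
    (x : Fin (n + 1) → R) : MvPolynomial.aeval x (toPoly a) = F (fun t => (a t : R)) x := by
  have h : toPoly a = ∑ t, monomial (pexpo t) (a t) := rfl
  simp only [h, map_sum, aeval_monomial, prod_pexpo, F]
  simp

theorem aeval_pderiv_pexpo {n d : ℕ} {R : Type*} [CommRing R] (x : Fin (n + 1) → R)
    (t : Idx n d) (j : Fin (n + 1)) (c : ℤ) :
    aeval x (pderiv j (monomial (pexpo t) c)) = (c : R) * dmon x j t.1 := by
  rw [pderiv_monomial, aeval_monomial, Finsupp.prod_fintype _ _ (fun i => pow_zero _)]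
  simp only [dmon, pexpo_apply]
  rw [← mul_assoc]
  congr 1
  · simp
  · refine Finset.prod_congr rfl fun u _ => ?_
    congr 1
    rw [Finsupp.tsub_apply, pexpo_apply, Finsupp.single_apply]
    by_cases h : u = j
    · subst h; simp
    · rw [if_neg h, if_neg (fun h' => h h'.symm)]; simp

theorem aeval_pderiv_toPoly {n d : ℕ} {R : Type*} [CommRing R] (a : Idx n d → ℤ)
    (x : Fin (n + 1) → R) (j : Fin (n + 1)) :
    MvPolynomial.aeval x (MvPolynomial.pderiv j (toPoly a)) = D (fun t => (a t : R)) x j := by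
  have h : toPoly a = ∑ t, monomial (pexpo t) (a t) := rfl
  simp only [h, map_sum, aeval_pderiv_pexpo, D]

end CIHP
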