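import Pool.Agent.Lib.MP_e426f4_ag.CI.Basic
import Pool.Agent.Lib.MP_e426f4_ag.CI.ClassThm
import Pool.Agent.Lib.MP_e426f4_ag.CI.CardCl
import Pool.Agent.Lib.MP_e426f4_ag.G.Alg

/-! Module CI-PP: a positive proportion of the systems is soluble. -/

namespace CIHP

open Finset Filter Topology GenHP

section PP
variable {n r : ℕ} {e : Fin r → ℕ}

private def ppJ (hn : r ≤ n) (i : Fin r) : Fin (n + 1) := ⟨(i : ℕ) + 1, by have := i.2; omega⟩

private theorem ppJ_ne_zero (hn : r ≤ n) (i : Fin r) : ppJ hn i ≠ 0 := by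
  intro h
  have := congrArg Fin.val h
  simp [ppJ] at this

private theorem ppJ_inj (hn : r ≤ n) {i l : Fin r} (h : ppJ hn i = ppJ hn l) : i = l := by
  have := congrArg Fin.val h
  simp only [ppJ] at this
  exact Fin.ext (by omega)

/-- the exponent vector of `x_0 ^ (e - 1) * x_{i + 1}` -/
private def ppI (e : Fin r → ℕ) (hn : r ≤ n) (he : ∀ i, 1 ≤ e i) (i : Fin r) : Idx n (e i) :=
  ⟨fun j => (if j = 0 then e i - 1 else 0) + (if j = ppJ hn i then 1 else 0), by
    rw [Finset.sum_add_distrib, Finset.sum_ite_eq' univ (0 : Fin (n + 1)) fun _ => e i - 1,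
      Finset.sum_ite_eq' univ (ppJ hn i) fun _ => 1]
    have := he i
    simp only [mem_univ, if_true]
    omega⟩

/-- the system `c * x_0 ^ (e_i - 1) * x_{i + 1}` -/
private def ppA {R : Type*} [CommRing R] (e : Fin r → ℕ) (hn : r ≤ n) (he : ∀ i, 1 ≤ e i) (c : R) :
    Sys n e R := fun i t => if t = ppI e hn he i then c else 0

/-- the point `e_0` -/
private def ppX {R : Type*} [CommRing R] (n : ℕ) : Fin (n + 1) → R := fun i => if i = 0 then 1 else 0

private theorem pp_F {R : Type*} [CommRing R] (hn : r ≤ n) (he : ∀ i, 1 ≤ e i) (c : R) (i : Fin r) :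
    F (ppA e hn he c i) (ppX n) = 0 := by
  unfold F
  refine Finset.sum_eq_zero fun t _ => ?_
  unfold ppA
  split_ifs with h
  · have h0 : mon (ppX (R := R) n) (ppI e hn he i).1 = 0 := by
      unfold mon
      refine Finset.prod_eq_zero (Finset.mem_univ (ppJ hn i)) ?_
      simp only [ppX, ppI, if_neg (ppJ_ne_zero hn i), if_true]
      exact zero_pow (by norm_num)
    rw [h, h0, mul_zero]
  · rw [zero_mul]

private theorem pp_D {R : Type*} [CommRing R] (hn : r ≤ n) (he : ∀ i, 1 ≤ e i) (c : R)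
    (i l : Fin r) :
    D (ppA e hn he c i) (ppX n) (ppJ hn l) = if i = l then c else 0 := by
  unfold D
  rw [Finset.sum_eq_single (ppI e hn he i)]
  · have h1 : ppA e hn he c i (ppI e hn he i) = c := by simp [ppA]
    rw [h1]
    unfold dmon
    by_cases hil : i = l
    · subst hil
      have h2 : (∏ k : Fin (n + 1), (ppX (R := R) n k) ^ (if k = ppJ hn i then
          (ppI e hn he i).1 k - 1 else (ppI e hn he i).1 k)) = 1 := by
        refine Finset.prod_eq_one fun k _ => ?_
        by_cases hk : k = 0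
        · subst hk
          simp [ppX]
        · by_cases hk2 : k = ppJ hn i
          · subst hk2
            simp [ppX, ppI, ppJ_ne_zero hn i]
          · simp [ppX, ppI, hk, hk2]
      rw [h2]
      simp [ppI, ppJ_ne_zero hn i]
    · have h3 : ppJ hn l ≠ ppJ hn i := fun h => hil (ppJ_inj hn h).symm
      simp [ppI, ppJ_ne_zero hn l, h3, hil]
  · intro b _ hb
    simp [ppA, hb]
  · intro h
    exact absurd (Finset.mem_univ _) h

private theorem pp_det {R : Type*} [CommRing R] (hn : r ≤ n) (he : ∀ i, 1 ≤ e i) (c : R) :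
    (Jac (ppA e hn he c) (ppX n) (ppJ hn)).det = c ^ r := by
  have h : Jac (ppA e hn he c) (ppX n) (ppJ hn) = Matrix.diagonal fun _ : Fin r => c := by
    ext i l
    rw [Matrix.diagonal_apply]
    simp only [Jac, Matrix.of_apply]
    exact pp_D hn he c i l
  rw [h, Matrix.det_diagonal, Finset.prod_const, Finset.card_univ, Fintype.card_fin]

end PP

theorem pos_soluble (n : ℕ) {r : ℕ} (e : Fin r → ℕ) (hr : 1 ≤ r) (hn : r + 2 ≤ n)
    (he : ∀ i, 2 ≤ e i) (hs : ∑ i, e i ≤ n) : ∃ c : ℝ, 0 < c ∧ ∀ᶠ H : ℕ in atTop,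
    c * (2 * H + 1) ^ NS n e ≤ (Set.ncard {A : Sys n e ℤ | A ∈ box n e H ∧ Soluble A} : ℝ) := by
  have hrn : r ≤ n := by omega
  have he1 : ∀ i, 1 ≤ e i := fun i => by have := he i; omega
  obtain ⟨rho0, hrho0, hrho01, hclass⟩ := class_thm n e hr hn he hs 100 (by norm_num)
    ((1 / 2) ^ r) (by positivity) (pow_le_one₀ (by norm_num) (by norm_num))
  set rho : ℝ := min rho0 (1 / 2) with hrho
  have hr0 : 0 < rho := lt_min hrho0 (by norm_num)
  have hr1 : rho ≤ 1 / 2 := min_le_right _ _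
  have hprim : 0 < primorial 100 := primorial_pos 100
  set Ai : Sys n e ℤ := ppA e hrn he1 (1 : ℤ) with hAi
  set Ar : Sys n e ℝ := ppA e hrn he1 (1 / 2 : ℝ) with hAr
  have hloc : ∀ p : ℕ, p.Prime → p ≤ 100 → ∃ x : Fin (n + 1) → ℤ, (∃ i, ¬ (p : ℤ) ∣ x i) ∧
      (∀ i, ((p : ℤ) ^ (2 * 1)) ∣ F (Ai i) x) ∧
      ∃ J, ¬ ((p : ℤ) ^ 1 ∣ (Jac Ai x J).det) := by
    intro p hp _
    refine ⟨ppX n, ⟨0, ?_⟩, fun i => ?_, ppJ hrn, ?_⟩
    · simp only [ppX, if_true]
      intro h
      exact hp.one_lt.ne' (by exact_mod_cast Int.eq_one_of_dvd_one (by positivity) h)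
    · rw [hAi, pp_F]
      exact dvd_zero _
    · rw [hAi, pp_det, one_pow, pow_one]
      intro h
      exact hp.one_lt.ne' (by exact_mod_cast Int.eq_one_of_dvd_one (by positivity) h)
  have hA1 : ∀ i m, |Ar i m| ≤ 1 := by
    intro i m
    rw [hAr]
    unfold ppA
    split_ifs
    · rw [abs_of_pos (by norm_num)]
      norm_num
    · rw [abs_zero]
      norm_num
  have hA2 : ∀ i m, |Ar i m - Ar i m| ≤ rho := by
    intro i m
    rw [sub_self, abs_zero]
    exact hr0.le
  have hx1 : ∀ i, |ppX (R := ℝ) n i| ≤ 1 := by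
    intro i
    unfold ppX
    split_ifs <;> simp
  have hx2 : ∃ i, |ppX (R := ℝ) n i| = 1 := ⟨0, by simp [ppX]⟩
  have hF : ∀ i, |F (Ar i) (ppX n)| ≤ rho0 := by
    intro i
    rw [hAr, pp_F, abs_zero]
    exact hrho0.le
  have hD : ((1 / 2) ^ r : ℝ) ≤ |(Jac Ar (ppX n) (ppJ hrn)).det| := by
    rw [hAr, pp_det, abs_of_pos (by positivity)]
  have hN := tendsto_natCast_atTop_atTop.eventually
    (hclass rho hr0 (min_le_left _ _) 1 le_rfl Ai hloc Ar Ar (ppX n) (ppJ hrn)
      hA1 hA2 hx1 hx2 hF hD)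
  set d : Par n e :=
    { Ainf := Ar
      AC := Ar
      xi := ppX n
      J := ppJ hrn
      kap := 1
      rho := rho
      th1 := 1
      C0 := 1
      W := primorial 100
      P := 1
      Q := primorial 100 ^ (2 * 1)
      A0 := Ai
      x0 := 0 } with hd
  have hQ : 0 < d.Q := pow_pos hprim _
  have hcard := tendsto_natCast_atTop_atTop.eventually
    (card_Cl d hQ rho (1 / 10) hr0 (by norm_num))
  have hQr : (d.Q : ℝ) = (primorial 100 : ℝ) ^ (2 * 1) := by
    rw [hd]
    push_cast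
    rfl
  have hQ0 : (0 : ℝ) < (primorial 100 : ℝ) ^ (2 * 1) := by
    rw [← hQr]
    exact_mod_cast hQ
  refine ⟨(6 / 10) * (2 * rho / (3 * (primorial 100 : ℝ) ^ (2 * 1))) ^ NS n e,
    by positivity, ?_⟩
  filter_upwards [hN, hcard, eventually_ge_atTop 1] with H h1 h2 h3
  obtain ⟨h4, _⟩ := h2
  rw [hQr] at h4
  have hH1 : (1 : ℝ) ≤ H := by exact_mod_cast h3
  set X : ℝ := (2 * rho * H / (primorial 100 : ℝ) ^ (2 * 1)) ^ NS n e with hX
  have hX0 : 0 ≤ X := by positivity
  set N : Set (Sys n e ℤ) := {A : Sys n e ℤ | (∀ i m, |(A i m : ℝ) - H * Ar i m| ≤ rho * H) ∧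
          (∀ i m, ((primorial 100 : ℤ) ^ (2 * 1)) ∣ A i m - Ai i m) ∧ ¬ Soluble A} with hNdef
  set S : Set (Sys n e ℤ) := {A : Sys n e ℤ | A ∈ box n e H ∧ Soluble A} with hS
  have hsub : d.Cl rho H ⊆ N ∪ S := by
    rintro A ⟨hA, hA'⟩
    have hAQ : ∀ i m, ((primorial 100 : ℤ) ^ (2 * 1)) ∣ A i m - Ai i m := by
      intro i m
      have := hA' i m
      have e : ((d.Q : ℕ) : ℤ) = (primorial 100 : ℤ) ^ (2 * 1) := by
        rw [hd]
        push_cast
        rfl
      rwa [e] at this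
    by_cases hsol : Soluble A
    · right
      refine ⟨?_, hsol⟩
      intro i m
      have h5 : |(A i m : ℝ) - H * Ar i m| ≤ rho * H := hA i m
      have h6 : |(H : ℝ) * Ar i m| ≤ H / 2 := by
        rw [hAr]
        unfold ppA
        split_ifs
        · rw [abs_of_nonneg (by positivity)]
          linarith
        · rw [mul_zero, abs_zero]
          positivity
      have h7 : |(A i m : ℝ)| ≤ H := by
        have h8 : (A i m : ℝ) = ((A i m : ℝ) - H * Ar i m) + H * Ar i m := by ring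
        rw [h8]
        refine (abs_add_le _ _).trans ?_
        nlinarith
      have h9 : ((|A i m| : ℤ) : ℝ) ≤ ((H : ℤ) : ℝ) := by
        rw [Int.cast_abs]
        exact_mod_cast h7
      exact_mod_cast h9
    · left
      exact ⟨hA, hAQ, hsol⟩
  have hSfin : S.Finite := (box_finite H).subset fun A hA => hA.1
  have hNfin : N.Finite := by
    refine (Cl_finite d rho H).subset ?_
    rintro A ⟨hA, hA', _⟩
    refine ⟨hA, fun i m => ?_⟩
    have e : ((d.Q : ℕ) : ℤ) = (primorial 100 : ℤ) ^ (2 * 1) := by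
      rw [hd]
      push_cast
      rfl
    rw [e]
    exact hA' i m
  have hle : ((d.Cl rho H).ncard : ℝ) ≤ (N.ncard : ℝ) + (S.ncard : ℝ) := by
    have h5 := Set.ncard_le_ncard hsub (hNfin.union hSfin)
    have h6 := Set.ncard_union_le N S
    exact_mod_cast h5.trans h6
  have h1' : (N.ncard : ℝ) ≤ 3 / 10 * X := by
    have h5 : (30 : ℝ) / (100 : ℕ) = 3 / 10 := by norm_num
    rw [h5] at h1
    exact h1
  have h4' : (1 - 1 / 10) * X ≤ ((d.Cl rho H).ncard : ℝ) := h4
  have hSX : 6 / 10 * X ≤ (S.ncard : ℝ) := by linarith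
  refine le_trans ?_ hSX
  have h5 : (2 * (H : ℝ) + 1) ^ NS n e ≤ (3 * H) ^ NS n e :=
    pow_le_pow_left₀ (by positivity) (by linarith) _
  have h6 : (2 * rho / (3 * (primorial 100 : ℝ) ^ (2 * 1))) ^ NS n e * (3 * (H : ℝ)) ^ NS n e =
      X := by
    rw [hX, ← mul_pow]
    congr 1
    field_simp
  calc (6 / 10) * (2 * rho / (3 * (primorial 100 : ℝ) ^ (2 * 1))) ^ NS n e *
        (2 * (H : ℝ) + 1) ^ NS n e
      ≤ (6 / 10) * (2 * rho / (3 * (primorial 100 : ℝ) ^ (2 * 1))) ^ NS n e *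
        (3 * H) ^ NS n e :=
        mul_le_mul_of_nonneg_left h5 (by positivity)
    _ = 6 / 10 * ((2 * rho / (3 * (primorial 100 : ℝ) ^ (2 * 1))) ^ NS n e *
        (3 * (H : ℝ)) ^ NS n e) := by
        ring
    _ = 6 / 10 * X := by rw [h6]

private theorem F_cast_hom {R S : Type*} [CommRing R] [CommRing S] (f : R →+* S) {n d : ℕ}
    (A : Idx n d → R) (x : Fin (n + 1) → R) :
    f (F A x) = F (fun t => f (A t)) fun i => f (x i) := by
  simp only [F, mon, map_sum, map_mul, map_prod, map_pow]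

theorem els_of_soluble {n r : ℕ} {e : Fin r → ℕ} (A : Sys n e ℤ) (h : Soluble A) : ELS A := by
  obtain ⟨x, hx, hF⟩ := h
  obtain ⟨j, hj⟩ := Function.ne_iff.mp hx
  constructor
  · refine ⟨fun i => (x i : ℝ), ?_, fun i => ?_⟩
    · intro h0
      refine hj ?_
      have := congrFun h0 j
      simpa using this
    · have h1 := congrArg (Rat.castHom ℝ) (hF i)
      rw [F_cast_hom, map_zero] at h1
      simpa using h1
  · intro p _
    refine ⟨fun i => (x i : ℚ_[p]), ?_, fun i => ?_⟩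
    · intro h0
      refine hj ?_
      have := congrFun h0 j
      simpa using this
    · have h1 := congrArg (Rat.castHom ℚ_[p]) (hF i)
      rw [F_cast_hom, map_zero] at h1
      simpa using h1

end CIHP
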