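import Mathlib

/-!
# The relation polynomials: definitions

`L`, `L'` are `n × (n+1)` matrices whose rows are orthogonal to `x` and to `y`; the relations between
the quadratic forms `l_i l'_j` are polynomials in the entries of `L` and `L'`.
-/

namespace GenHP

namespace CI

open Finset

variable {n : ℕ} {R : Type*} [CommRing R]

/-- the vector of signed maximal minors of an `n × (n+1)` matrix -/
def perp (L : Fin n → Fin (n + 1) → R) : Fin (n + 1) → R :=
  fun j => (-1) ^ (j : ℕ) * (Matrix.of fun (i k : Fin n) => L i (j.succAbove k)).det

/-- `(l_f . y) l_a - (l_a . y) l_f`, a vector orthogonal to `x` and `y` -/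
def wv (L : Fin n → Fin (n + 1) → R) (y : Fin (n + 1) → R) (a f : Fin n) : Fin (n + 1) → R :=
  fun j => (∑ k, L f k * y k) * L a j - (∑ k, L a k * y k) * L f j

/-- `|y|^2` times the `k`-th coordinate of `w` in the basis given by `L'` and `y = perp L'` -/
def cr (L' : Fin n → Fin (n + 1) → R) (w : Fin (n + 1) → R) (k : Fin n) : R :=
  (Matrix.of (Fin.cons (perp L') (Function.update L' k w) : Fin (n + 1) → Fin (n + 1) → R)).det

/-- coordinates of `wv L y a f` with respect to `L` -/
def al (L : Fin n → Fin (n + 1) → R) (y : Fin (n + 1) → R) (a f : Fin n) (i : Fin n) : R :=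
  (if i = a then ∑ k, L f k * y k else 0) - (if i = f then ∑ k, L a k * y k else 0)

/-- coefficients of the relation between the products `l_i l'_j` -/
def rel (L L' : Fin n → Fin (n + 1) → R) (a b f : Fin n) (i j : Fin n) : R :=
  al L (perp L') a f i * cr L' (wv L (perp L') b f) j -
    al L (perp L') b f i * cr L' (wv L (perp L') a f) j

end CI

end GenHP
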